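import Pool.Agent.Helper22.AA.Trans
import Pool.Agent.Helper20.ZT.Defs

/-! # Absolute values of `ℂ` above `p` with prescribed integrality -/

open MvPolynomial Finset

namespace Pool.Agent.II
open Pool.Agent.Helper20.ZD Pool.Agent.Helper20.DL Pool.Agent.Helper69.DL Pool.Agent.Helper36.DL
  Pool.Agent.Helper22.AA Pool.Agent.Helper22.DL Pool.Agent.Helper20.ZT

variable {v : AbsoluteValue ℂ ℝ}

/-- the roots of a polynomial with integral coefficients, the last of which is a unit -/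
lemma root_le (hv : IsNonarchimedean v) {d : ℕ} {c : ℕ → ℂ} (hc : ∀ j, v (c j) ≤ 1)
    (hd : v (c d) = 1) {β : ℂ} (h : ∑ j ∈ range (d + 1), c j * β ^ j = 0) : v β ≤ 1 := by
  by_contra hcon
  push Not at hcon
  rw [sum_range_succ] at h
  have hpos : 0 < v β ^ d := pow_pos (lt_trans one_pos hcon) d
  have h1 : v (∑ j ∈ range d, c j * β ^ j) < v β ^ d := by
    refine v_sum_lt hv _ _ hpos fun j hj => ?_
    rw [map_mul, map_pow]
    exact lt_of_le_of_lt (mul_le_of_le_one_left (pow_nonneg (v.nonneg _) _) (hc _))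
      (pow_lt_pow_right₀ hcon (mem_range.1 hj))
  have h3 : v (c d * β ^ d) = v β ^ d := by rw [map_mul, map_pow, hd, one_mul]
  have h2 := v_add_eq hv (x := c d * β ^ d) (y := ∑ j ∈ range d, c j * β ^ j) (by rw [h3]; exact h1)
  rw [add_comm, h, map_zero, h3] at h2
  exact hpos.ne h2

/-- an element algebraic over the ring generated by independent numbers -/
lemma exists_rel {σ : Type} {ss : σ → ℂ} (hx : AlgebraicIndependent ℤ ss) {c : ℂ}
    (halg : IsAlgebraic (Algebra.adjoin ℤ (Set.range ss)) c) :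
    ∃ (d : ℕ) (q : ℕ → MvPolynomial σ ℤ), q d ≠ 0 ∧
      ∑ j ∈ range (d + 1), aeval ss (q j) * c ^ j = 0 := by
  obtain ⟨g, hg0, hg⟩ := halg
  let e := hx.aevalEquiv
  refine ⟨g.natDegree, fun j => e.symm (g.coeff j), fun h => ?_, ?_⟩
  · have h2 : g.coeff g.natDegree = 0 := by simpa using h
    rw [Polynomial.coeff_natDegree, Polynomial.leadingCoeff_eq_zero] at h2
    exact hg0 h2
  · rw [← hg, Polynomial.aeval_eq_sum_range]
    refine sum_congr rfl fun j _ => ?_
    have h1 : ((e (e.symm (g.coeff j)) : Algebra.adjoin ℤ (Set.range ss)) : ℂ) =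
      aeval ss (e.symm (g.coeff j)) := hx.aevalEquiv_apply_coe _
    rw [← h1, AlgEquiv.apply_symm_apply, Algebra.smul_def]
    rfl

/-- a maximal independent subset -/
lemma exists_indep (s : Finset ℂ) : ∃ u : Set ℂ, u ⊆ ↑s ∧ AlgebraicIndependent ℤ ((↑) : u → ℂ) ∧
    ∀ c ∈ s, IsAlgebraic (Algebra.adjoin ℤ (Set.range ((↑) : u → ℂ))) c := by
  obtain ⟨u, -, hu⟩ := exists_maximal_algebraicIndependent (R := ℤ) (∅ : Set ℂ) (↑s) (Set.empty_subset _)
    (by
      change AlgebraicIndependent ℤ (fun i : (∅ : Set ℂ) => id (i : ℂ))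
      have : IsEmpty (∅ : Set ℂ) := Set.isEmpty_coe_sort.2 rfl
      exact algebraicIndependent_empty_type_iff.2 (FaithfulSMul.algebraMap_injective ℤ ℂ))
  refine ⟨u, hu.prop.2, hu.prop.1, fun c hc => ?_⟩
  by_cases hcu : c ∈ u
  · have : c = algebraMap (Algebra.adjoin ℤ (Set.range ((↑) : u → ℂ))) ℂ
        ⟨c, Algebra.subset_adjoin ⟨⟨c, hcu⟩, rfl⟩⟩ := rfl
    rw [this]
    exact isAlgebraic_algebraMap _
  · by_contra hcon
    apply hcu
    have h1 : AlgebraicIndepOn ℤ id (insert c u) := by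
      refine (AlgebraicIndepOn.insert_iff hcu).2 ⟨hu.prop.1, ?_⟩
      have e1 : (id '' u : Set ℂ) = Set.range ((↑) : u → ℂ) := by simp
      intro halg
      apply hcon
      rw [← e1]
      exact halg
    have h2 := hu.le_of_ge (y := insert c u) ⟨h1, Set.insert_subset hc hu.prop.2⟩ (Set.subset_insert _ _)
    exact h2 (Set.mem_insert _ _)

/-- **absolute values above almost all primes with prescribed integrality** -/
theorem exists_absv (s : Finset ℂ) : ∃ M : ℕ, 0 < M ∧ ∀ p : ℕ, p.Prime → ¬ p ∣ M →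
    ∃ v : AbsoluteValue ℂ ℝ, IsNonarchimedean v ∧ v (p : ℂ) = (p : ℝ)⁻¹ ∧ ∀ c ∈ s, v c ≤ 1 := by
  classical
  obtain ⟨u, hus, hx, halg⟩ := exists_indep s
  have hcount : Countable u := (s.countable_toSet.mono hus).to_subtype
  have hex : ∀ c : ℂ, ∃ (d : ℕ) (q : ℕ → MvPolynomial u ℤ), c ∈ s → q d ≠ 0 ∧
      ∑ j ∈ range (d + 1), aeval ((↑) : u → ℂ) (q j) * c ^ j = 0 := by
    intro c
    by_cases hc : c ∈ s
    · obtain ⟨d, q, h1, h2⟩ := exists_rel hx (halg c hc)
      exact ⟨d, q, fun _ => ⟨h1, h2⟩⟩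
    · exact ⟨0, fun _ => 0, fun h => absurd h hc⟩
  choose d q hdq using hex
  obtain ⟨s₀, hs₀⟩ : ∃ s₀ : u → ℤ, eval s₀ (∏ c ∈ s, q c (d c)) ≠ 0 := by
    by_contra hcon
    push Not at hcon
    exact (prod_ne_zero_iff.2 fun c hc => (hdq c hc).1)
      (MvPolynomial.funext fun x => by rw [hcon x, map_zero])
  refine ⟨(eval s₀ (∏ c ∈ s, q c (d c))).natAbs, Int.natAbs_pos.2 hs₀, fun p hp hpM => ?_⟩
  obtain ⟨v, hv, hvp'⟩ := exists_place hp
  have hvp : v (p : ℂ) < 1 := by
    rw [hvp']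
    exact inv_lt_one_of_one_lt₀ (by exact_mod_cast hp.one_lt)
  have hu1 : ∀ c ∈ s, v ((eval s₀ (q c (d c)) : ℤ) : ℂ) = 1 := by
    intro c hc
    refine v_int_eq_one hv hp hvp fun h => hpM ?_
    rw [← Int.natCast_dvd]
    rw [map_prod]
    exact h.trans (dvd_prod_of_mem _ hc)
  choose N hN using fun κ : u => exists_pow_small hv hvp (κ : ℂ)
  have hp0 : (p : ℤ) ≠ 0 := by exact_mod_cast hp.ne_zero
  have hind' := indep_affine hx s₀ (fun κ => (p : ℤ) ^ N κ) (fun κ => pow_ne_zero _ hp0)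
  obtain ⟨f, hf⟩ := exists_ringEquiv_fam hx hind'
  have hfs : ∀ κ : u, f (κ : ℂ) = (s₀ κ : ℂ) + (p : ℂ) ^ N κ * κ := fun κ => by
    have := hf κ
    simpa using this
  have hnear : ∀ κ : u, v (f (κ : ℂ) - s₀ κ) < 1 := fun κ => by
    rw [hfs, add_sub_cancel_left]
    exact hN κ
  have hnear' := fun F => aeval_near hv (s' := fun κ : u => f (κ : ℂ)) (s₀ := s₀) hnear F
  have hcomp : ∀ (F : MvPolynomial u ℤ), f (aeval ((↑) : u → ℂ) F) = aeval (fun κ : u => f (κ : ℂ)) F := by
    intro F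
    rw [aeval_def, aeval_def, ← RingEquiv.coe_toRingHom, hom_eval₂]
    congr 1
    exact Subsingleton.elim _ _
  refine ⟨v.comp (f := (f : ℂ →+* ℂ)) f.injective, fun x y => ?_, ?_, fun c hc => ?_⟩
  · change v (f (x + y)) ≤ max (v (f x)) (v (f y))
    rw [map_add]
    exact hv _ _
  · change v (f (p : ℂ)) = _
    rw [map_natCast, hvp']
  · change v (f c) ≤ 1
    have e2 : ∑ j ∈ range (d c + 1), aeval (fun κ : u => f (κ : ℂ)) (q c j) * f c ^ j = 0 := by
      have h1 := congrArg f (hdq c hc).2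
      rw [map_sum, map_zero] at h1
      rw [← h1]
      refine sum_congr rfl fun j _ => ?_
      rw [map_mul, map_pow, hcomp]
    exact root_le hv (fun j => (hnear' (q c j)).1) (aeval_near_unit hv hnear (hu1 c hc)) e2

/-- **at a place where the equations are integral with unit top coefficients at most `d` coordinates of
a point of `Z` are not integral** -/
theorem card_of_top (hv : IsNonarchimedean v) {n : ℕ} {J : Finset (Fin n)} {f : MvPolynomial (Fin n) ℂ}
    (hf : TopIn J f) (hc : ∀ m, v (f.coeff m) ≤ 1)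
    (ht : v (f.coeff (Finsupp.equivFunOnFinite.symm fun i => f.degreeOf i))⁻¹ ≤ 1) {z : Fin n → ℂ}
    (hz : eval z f = 0) : ∃ i ∈ J, v (z i) ≤ 1 := by
  classical
  by_contra hcon
  push Not at hcon
  set t : Fin n →₀ ℕ := Finsupp.equivFunOnFinite.symm fun i => f.degreeOf i with htdef
  have htt : ∀ i, t i = f.degreeOf i := fun i => rfl
  have hsupp : ∀ m ∈ f.support, ∀ i, i ∉ J → m i = 0 := by
    intro m hm i hi
    by_contra h0
    apply hi
    apply hf.vars
    rw [mem_vars_iff_mem_support]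
    exact ⟨m, hm, Finsupp.mem_support_iff.2 h0⟩
  have htmem : t ∈ f.support := mem_support_iff.2 hf.top
  have hct : v (f.coeff t) = 1 := by
    refine le_antisymm (hc t) ?_
    have h0 : 0 < v (f.coeff t) := (AbsoluteValue.pos_iff v).2 hf.top
    rw [map_inv₀] at ht
    exact (inv_le_one₀ h0).1 ht
  have hmon : ∀ m : Fin n →₀ ℕ, m ∈ f.support →
      v (f.coeff m * ∏ i, z i ^ m i) = v (f.coeff m) * ∏ i ∈ J, v (z i) ^ m i := by
    intro m hm
    rw [map_mul, map_prod]
    congr 1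
    rw [← prod_subset (subset_univ J)]
    · exact prod_congr rfl fun i _ => map_pow _ _ _
    · intro i _ hi
      rw [hsupp m hm i hi, pow_zero, map_one]
  have hpos : 0 < ∏ i ∈ J, v (z i) ^ t i := prod_pos fun i hi => pow_pos (lt_trans one_pos (hcon i hi)) _
  have hlt : ∀ m ∈ f.support.erase t, v (f.coeff m * ∏ i, z i ^ m i) < ∏ i ∈ J, v (z i) ^ t i := by
    intro m hm
    rw [mem_erase] at hm
    rw [hmon m hm.2]
    have hle : ∀ i, m i ≤ t i := fun i => by
      rw [htt]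
      exact monomial_le_degreeOf i hm.2
    obtain ⟨i₀, hi₀⟩ : ∃ i, m i < t i := by
      by_contra hno
      push Not at hno
      exact hm.1 (Finsupp.ext fun i => le_antisymm (hle i) (hno i))
    have hi₀J : i₀ ∈ J := by
      by_contra h
      have := hsupp t htmem i₀ h
      omega
    refine lt_of_le_of_lt (mul_le_of_le_one_left (prod_nonneg fun i _ => pow_nonneg (v.nonneg _) _)
      (hc m)) ?_
    refine prod_lt_prod (fun i hi => pow_pos (lt_trans one_pos (hcon i hi)) _)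
      (fun i hi => pow_le_pow_right₀ (hcon i hi).le (hle i)) ⟨i₀, hi₀J, pow_lt_pow_right₀ (hcon i₀ hi₀J) hi₀⟩
  have h1 : v (∑ m ∈ f.support.erase t, f.coeff m * ∏ i, z i ^ m i) < ∏ i ∈ J, v (z i) ^ t i :=
    v_sum_lt hv _ _ hpos hlt
  have h2 : v (f.coeff t * ∏ i, z i ^ t i) = ∏ i ∈ J, v (z i) ^ t i := by
    rw [hmon t htmem, hct, one_mul]
  have h3 : f.coeff t * ∏ i, z i ^ t i + ∑ m ∈ f.support.erase t, f.coeff m * ∏ i, z i ^ m i = 0 := by
    rw [← hz, eval_eq', ← add_sum_erase _ _ htmem]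
  have h4 := v_add_eq hv (x := f.coeff t * ∏ i, z i ^ t i)
    (y := ∑ m ∈ f.support.erase t, f.coeff m * ∏ i, z i ^ m i) (by rw [h2]; exact h1)
  rw [h3, map_zero, h2] at h4
  exact hpos.ne h4

/-- **general position at the cusps holds at absolute values above almost all primes** -/
theorem genPos_absv {n d : ℕ} {Z : Set (Fin n → ℂ)} (hZ : GenPos d Z) :
    ∃ M : ℕ, 0 < M ∧ ∀ p : ℕ, p.Prime → ¬ p ∣ M →
      ∃ v : AbsoluteValue ℂ ℝ, IsNonarchimedean v ∧ v (p : ℂ) = (p : ℝ)⁻¹ ∧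
        ∀ z ∈ Z, (univ.filter fun i => 1 < v (z i)).card ≤ d := by
  classical
  choose f0 hf0 using hZ
  set f : Finset (Fin n) → MvPolynomial (Fin n) ℂ := fun J => if h : J.card = d + 1 then f0 J h else 0
    with hfdef
  have hf : ∀ J, J.card = d + 1 → TopIn J (f J) := by
    intro J hJ
    simp only [hfdef, dif_pos hJ]
    exact (hf0 J hJ).1
  have hfz : ∀ J, J.card = d + 1 → ∀ z ∈ Z, eval z (f J) = 0 := by
    intro J hJ
    simp only [hfdef, dif_pos hJ]
    exact (hf0 J hJ).2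
  set top : Finset (Fin n) → ℂ := fun J =>
    (f J).coeff (Finsupp.equivFunOnFinite.symm fun i => (f J).degreeOf i) with htop
  set s : Finset ℂ := (univ.biUnion fun J : Finset (Fin n) => (f J).support.image (f J).coeff) ∪
    (univ.image fun J : Finset (Fin n) => (top J)⁻¹) with hs
  obtain ⟨M, hM, h⟩ := exists_absv s
  refine ⟨M, hM, fun p hp hpM => ?_⟩
  obtain ⟨v, hv, hvp, hvs⟩ := h p hp hpM
  refine ⟨v, hv, hvp, fun z hz => ?_⟩
  by_contra hcon
  push Not at hcon
  obtain ⟨J, hJ, hJc⟩ := exists_subset_card_eq (n := d + 1) (s := univ.filter fun i => 1 < v (z i)) hcon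
  obtain ⟨i, hi, hi1⟩ := card_of_top hv (hf J hJc) (fun m => by
    by_cases hm : m ∈ (f J).support
    · refine hvs _ ?_
      simp only [hs, mem_union, mem_biUnion, mem_image, mem_univ, true_and]
      exact Or.inl ⟨J, m, hm, rfl⟩
    · rw [notMem_support_iff.1 hm, map_zero]
      exact zero_le_one) (hvs _ (by
      simp only [hs, mem_union, mem_biUnion, mem_image, mem_univ, true_and]
      exact Or.inr ⟨J, rfl⟩)) (hfz J hJc z hz)
  exact absurd (mem_filter.1 (hJ hi)).2 (not_lt.2 hi1)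

/-- **at such a place at least `n - d` coordinates of a point of `λ Z + a` are congruent to `a`** -/
theorem card_near {n d : ℕ} {Z : Set (Fin n → ℂ)}
    (hZ : ∀ z ∈ Z, (univ.filter fun i => 1 < v (z i)).card ≤ d) {l : ℂ} (hl : v l < 1) {z x : Fin n → ℂ}
    {a : Fin n → ℂ} (hz : z ∈ Z) (hx : ∀ i, x i = l * z i + a i) :
    n - d ≤ (univ.filter fun i => v (x i - a i) < 1).card := by
  classical
  have h1 := hZ z hz
  have h2 : (univ.filter fun i => ¬ 1 < v (z i)).card = n - (univ.filter fun i => 1 < v (z i)).card := by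
    have h3 := card_filter_add_card_filter_not (s := (univ : Finset (Fin n))) (fun i => 1 < v (z i))
    rw [card_univ, Fintype.card_fin] at h3
    omega
  have h3 : (univ.filter fun i => ¬ 1 < v (z i)) ⊆ univ.filter fun i => v (x i - a i) < 1 := by
    intro i hi
    rw [mem_filter] at hi ⊢
    refine ⟨mem_univ _, ?_⟩
    rw [hx, add_sub_cancel_right, map_mul]
    calc v l * v (z i) ≤ v l * 1 := mul_le_mul_of_nonneg_left (not_lt.1 hi.2) (v.nonneg _)
      _ < 1 := by rw [mul_one]; exact hl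
  have h4 := card_le_card h3
  omega

end Pool.Agent.II
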