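import Pool.Agent.II.Sym36

/-! # The modular polynomial of prime level over a nonarchimedean absolute value of `ℂ` -/

open UpperHalfPlane
open scoped MatrixGroups

namespace Pool.Agent.II
open Pool.Agent.Helper11.ZP Pool.Agent.Helper20.ZT Pool.Agent.Helper20.ZT.Prim Pool.Agent.II51
open Polynomial

section adapt
variable {v : AbsoluteValue ℂ ℝ}

lemma v_nat_le36 (hv : IsNonarchimedean v) (n : ℕ) : v (n : ℂ) ≤ 1 := by
  induction n with
  | zero => rw [Nat.cast_zero, AbsoluteValue.map_zero]; exact zero_le_one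
  | succ n ih =>
    rw [Nat.cast_succ]
    exact (hv _ _).trans (max_le ih (by rw [AbsoluteValue.map_one]))

lemma v_int_le36 (hv : IsNonarchimedean v) (n : ℤ) : v (n : ℂ) ≤ 1 := by
  obtain ⟨k, rfl | rfl⟩ := n.eq_nat_or_neg
  · exact_mod_cast v_nat_le36 hv k
  · rw [Int.cast_neg, AbsoluteValue.map_neg]
    exact_mod_cast v_nat_le36 hv k

/-- algebraic integers are integral at `v` -/
lemma v_OO36 (hv : IsNonarchimedean v) (x : OO) : v (x : ℂ) ≤ 1 := by
  obtain ⟨P, hP, hx⟩ := x.2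
  refine v_root_le_one hv (hP.map (algebraMap ℤ ℂ)) (fun i => ?_) (y := (x : ℂ)) ?_
  · rw [coeff_map]
    exact v_int_le36 hv _
  · rw [eval_map]
    exact hx

lemma FF_mem_IB (hv : IsNonarchimedean v) (m : ℤ) [Fact (0 < m)] : FF m ∈ IB v hv := by
  rw [mem_IB]
  intro i j
  rw [FF, coeff_map, coe_mapRingHom, coeff_map]
  exact v_OO36 hv _

/-- the prime ideal of `v` in the algebraic integers -/
noncomputable def pI (v : AbsoluteValue ℂ ℝ) (hv : IsNonarchimedean v) : Ideal OO where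
  carrier := {x | v (x : ℂ) < 1}
  add_mem' {a b} ha hb := by
    change v ((a : ℂ) + b) < 1
    exact (hv _ _).trans_lt (max_lt ha hb)
  zero_mem' := by
    change v ((0 : OO) : ℂ) < 1
    simp
  smul_mem' c x hx := by
    change v ((c : ℂ) * x) < 1
    rw [AbsoluteValue.map_mul]
    exact mul_lt_one_of_nonneg_of_lt_one_right (v_OO36 hv c) (v.nonneg _) hx

lemma mem_pI (hv : IsNonarchimedean v) {x : OO} : x ∈ pI v hv ↔ v (x : ℂ) < 1 := Iff.rfl

lemma pI_prime (hv : IsNonarchimedean v) : (pI v hv).IsPrime := by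
  refine ⟨fun h => ?_, fun {x y} h => ?_⟩
  · have h1 : (1 : OO) ∈ pI v hv := by rw [h]; trivial
    rw [mem_pI] at h1
    simp at h1
  · by_contra hcon
    push Not at hcon
    obtain ⟨hx, hy⟩ := hcon
    rw [mem_pI, not_lt] at hx hy
    rw [mem_pI] at h
    have h2 : v ((x * y : OO) : ℂ) = v (x : ℂ) * v (y : ℂ) := by
      rw [← AbsoluteValue.map_mul]; rfl
    rw [h2] at h
    exact absurd h (not_lt.2 (one_le_mul_of_one_le_of_one_le hx hy))

lemma pI_charP (hv : IsNonarchimedean v) {p : ℕ} (hp : p.Prime) (hvp : v (p : ℂ) < 1) :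
    CharP (OO ⧸ pI v hv) p := by
  refine ⟨fun n => ?_⟩
  have h1 : ((n : ℕ) : OO ⧸ pI v hv) = Ideal.Quotient.mk (pI v hv) (n : OO) := by simp
  rw [h1, Ideal.Quotient.eq_zero_iff_mem, mem_pI]
  have h2 : (((n : ℕ) : OO) : ℂ) = (n : ℂ) := by simp
  rw [h2]
  constructor
  · intro h
    by_contra hcon
    have hco : Nat.Coprime n p := ((Nat.Prime.coprime_iff_not_dvd hp).2 hcon).symm
    have h3 := Nat.gcd_eq_gcd_ab n p
    rw [hco] at h3
    have h4 : (1 : ℂ) = (n : ℂ) * (n.gcdA p : ℤ) + (p : ℂ) * (n.gcdB p : ℤ) := by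
      exact_mod_cast h3
    have h5 : v (1 : ℂ) < 1 := by
      rw [h4]
      refine (hv _ _).trans_lt (max_lt ?_ ?_)
      · rw [AbsoluteValue.map_mul]
        exact mul_lt_one_of_nonneg_of_lt_one_left (v.nonneg _) h (v_int_le36 hv _)
      · rw [AbsoluteValue.map_mul]
        exact mul_lt_one_of_nonneg_of_lt_one_left (v.nonneg _) hvp (v_int_le36 hv _)
    rw [AbsoluteValue.map_one] at h5
    exact lt_irrefl _ h5
  · rintro ⟨k, rfl⟩
    rw [Nat.cast_mul, AbsoluteValue.map_mul]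
    exact mul_lt_one_of_nonneg_of_lt_one_left (v.nonneg _) hvp (v_nat_le36 hv _)

lemma kro_map {R S : Type*} [CommRing R] [CommRing S] (f : R →+* S) (p : ℕ) :
    (kro R p).map (mapRingHom f) = kro S p := by
  simp [kro]

/-- **Kronecker's congruence** at `v` -/
theorem FF_kron (hv : IsNonarchimedean v) {p : ℕ} [hp : Fact p.Prime] (hvp : v (p : ℂ) < 1) :
    Sm v (FF (p : ℤ) - (C X ^ p - X) * (C X - X ^ p)) := by
  have hpr := pI_prime hv
  have hch := pI_charP hv hp.out hvp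
  have h1 := primPoly_map p (Ideal.Quotient.mk (pI v hv))
  have h2 : (C X ^ p - X) * (C X - X ^ p) = kro ℂ p := by
    rw [kro, C_pow]; ring
  rw [h2, FF, ← kro_map (algebraMap OO ℂ) p, ← Polynomial.map_sub]
  intro i j
  rw [coeff_map, coe_mapRingHom, coeff_map]
  change v ((((primPoly (p : ℤ) - kro OO p).coeff j).coeff i : OO) : ℂ) < 1
  rw [← mem_pI hv, ← Ideal.Quotient.eq_zero_iff_mem]
  have h3 : (primPoly (p : ℤ) - kro OO p).map (mapRingHom (Ideal.Quotient.mk (pI v hv))) = 0 := by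
    rw [Polynomial.map_sub, h1, kro_map, sub_self]
  have h4 := congrArg (fun P => (Polynomial.coeff P j).coeff i) h3
  simpa [coeff_map] using h4

end adapt

section orb
variable {m : ℤ} [hm : Fact (0 < m)]

/-- the value at an orbit -/
lemma j_orb (A : DM m) (τ : ℍ) : jInv (toGL hm.out (U m (mkO A)) • τ) = jInv (toGL hm.out A • τ) := by
  obtain ⟨γ, hγ⟩ := mkO_eq (mkO_U m (mkO A))
  rw [hγ, toGL_smul, mul_smul]
  exact jInv_smulZ γ _

end orb

section dbl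
variable {p : ℕ} [hp : Fact p.Prime]

lemma prim_of_prime36 (A : DM (p : ℤ)) : IsPrim A := by
  intro k hk
  have h1 : k * k ∣ (p : ℤ) := by
    have h2 := A.2
    rw [Matrix.det_fin_two] at h2
    rw [← h2]
    exact dvd_sub (mul_dvd_mul (hk 0 0) (hk 1 1)) (mul_dvd_mul (hk 0 1) (hk 1 0))
  have h3 : k.natAbs * k.natAbs ∣ p := by
    have := Int.natAbs_dvd_natAbs.2 h1
    rwa [Int.natAbs_mul, Int.natAbs_natCast] at this
  have h4 : k.natAbs = 1 := by
    rcases (Nat.dvd_prime hp.out).1 (dvd_of_mul_left_dvd h3) with h | h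
    · exact h
    · rw [h] at h3
      have := Nat.le_of_dvd hp.out.pos h3
      have := hp.out.two_le
      nlinarith
  exact isUnit_iff_dvd_one.1 (Int.isUnit_iff_natAbs_eq.2 h4)

/-- `A` and its adjugate are in different orbits, if `p` does not divide the trace -/
lemma orb_adj_ne (A : DM (p : ℤ)) (ht : ¬ (p : ℤ) ∣ A.1.trace) : mkO A ≠ mkO (adjD A) := by
  intro h
  obtain ⟨γ, hγ⟩ := mkO_eq h
  have h1 : A.1 = γ.1 * A.1.adjugate := congrArg Subtype.val hγ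
  have h2 : A.1 * A.1 = (p : ℤ) • γ.1 := by
    conv_lhs => lhs; rw [h1]
    rw [mul_assoc, Matrix.adjugate_mul, A.2, Matrix.mul_smul, mul_one]
  have hd := A.2
  rw [Matrix.det_fin_two] at hd
  have e : ∀ i j, (A.1 * A.1) i j = p * γ.1 i j := by
    intro i j
    rw [h2, Matrix.smul_apply, smul_eq_mul]
  have e00 := e 0 0
  have e01 := e 0 1
  have e10 := e 1 0
  have e11 := e 1 1
  rw [Matrix.mul_apply, Fin.sum_univ_two] at e00 e01 e10 e11
  have d00 : (p : ℤ) ∣ (A.1 0 0 + A.1 1 1) * A.1 0 0 := ⟨γ.1 0 0 + 1, by linear_combination e00 + hd⟩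
  have d01 : (p : ℤ) ∣ (A.1 0 0 + A.1 1 1) * A.1 0 1 := ⟨γ.1 0 1, by linear_combination e01⟩
  have d10 : (p : ℤ) ∣ (A.1 0 0 + A.1 1 1) * A.1 1 0 := ⟨γ.1 1 0, by linear_combination e10⟩
  have d11 : (p : ℤ) ∣ (A.1 0 0 + A.1 1 1) * A.1 1 1 := ⟨γ.1 1 1 + 1, by linear_combination e11 + hd⟩
  have h4 : ∀ i j, (p : ℤ) ∣ A.1.trace * A.1 i j := by
    intro i j
    rw [Matrix.trace_fin_two]
    fin_cases i <;> fin_cases j
    · exact d00
    · exact d01
    · exact d10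
    · exact d11
  have hpp : Prime (p : ℤ) := Nat.prime_iff_prime_int.1 hp.out
  have h5 := prim_of_prime36 A (p : ℤ) fun i j => (hpp.dvd_or_dvd (h4 i j)).resolve_left ht
  exact hpp.not_isUnit (isUnit_of_dvd_one h5)

/-- **the double root** -/
theorem FF_double {τ : ℍ} (A : DM (p : ℤ)) (hA : Mov A.1 τ τ) (ht : ¬ (p : ℤ) ∣ A.1.trace) :
    (X - C (jInv τ)) ^ 2 ∣ (FF (p : ℤ)).map (evalRingHom (jInv τ)) := by
  classical
  rw [FF_prod]
  have hne := orb_adj_ne A ht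
  have h1 : ({mkO A, mkO (adjD A)} : Finset (Orb (p : ℤ))) ⊆ TP (p : ℤ) := by
    intro o ho
    rw [Finset.mem_insert, Finset.mem_singleton] at ho
    rcases ho with rfl | rfl
    · exact mem_TP _ (prim_of_prime36 A)
    · exact mem_TP _ (prim_of_prime36 _)
  refine Dvd.dvd.trans ?_ (Finset.prod_dvd_prod_of_subset _ _ _ h1)
  rw [Finset.prod_pair hne, j_orb, j_orb, toGL_of_mov36 (factPos p).out A hA,
    toGL_of_mov36 (factPos p).out (adjD A) (mov_adj hA), pow_two]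

/-- **the dynamics of the neighbours near a fixed point of ordinary type** -/
theorem FF_dyn {v : AbsoluteValue ℂ ℝ} (hv : IsNonarchimedean v) (hvp : v (p : ℂ) < 1) {τ₀ : ℍ}
    (A : DM (p : ℤ)) (hA : Mov A.1 τ₀ τ₀) (ht : ¬ (p : ℤ) ∣ A.1.trace)
    (hx0 : v (jInv τ₀) ≤ 1) (hfix : v (jInv τ₀ ^ p - jInv τ₀) < 1) :
    ∃ μ : ℝ, 0 ≤ μ ∧ μ < 1 ∧ ∀ τ : ℍ, 0 < v (jInv τ - jInv τ₀) → v (jInv τ - jInv τ₀) < 1 →
      (∀ o ∈ TP (p : ℤ), v (jInv (toGL (factPos p).out (U (p : ℤ) o) • τ) - jInv τ₀) ≠ v (jInv τ - jInv τ₀)) ∧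
      (∃! o, o ∈ TP (p : ℤ) ∧
        v (jInv (toGL (factPos p).out (U (p : ℤ) o) • τ) - jInv τ₀) < v (jInv τ - jInv τ₀)) ∧
      ∀ o ∈ TP (p : ℤ), v (jInv (toGL (factPos p).out (U (p : ℤ) o) • τ) - jInv τ₀) < v (jInv τ - jInv τ₀) →
        v (jInv (toGL (factPos p).out (U (p : ℤ) o) • τ) - jInv τ₀) ≤
          v (jInv τ - jInv τ₀) * max μ (v (jInv τ - jInv τ₀)) := by
  classical
  have hp1 : (1 : ℤ) < (p : ℤ) := by exact_mod_cast hp.out.one_lt
  obtain ⟨h1, h2⟩ := dynF hv hp.out hvp (FF_mem_IB hv (p : ℤ)) (FF_Sy (p : ℤ) hp1) (FF_kron hv hvp) hx0 hfix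
    (FF_double A hA ht)
  refine ⟨_, v.nonneg _, h1, fun τ hτ hτ1 => ?_⟩
  obtain ⟨h3, h4, h5⟩ := h2 (jInv τ) hτ hτ1 (TP (p : ℤ)) _ (FF_prod (p : ℤ) τ)
  refine ⟨h3, ?_, h5⟩
  obtain ⟨o, ho⟩ := Finset.card_eq_one.1 h4
  have h6 : ∀ o', (o' ∈ TP (p : ℤ) ∧
      v (jInv (toGL (factPos p).out (U (p : ℤ) o') • τ) - jInv τ₀) < v (jInv τ - jInv τ₀)) ↔ o' = o := by
    intro o'
    rw [← Finset.mem_singleton, ← ho, Finset.mem_filter]
  exact ⟨o, (h6 o).2 rfl, fun o' ho' => (h6 o').1 ho'⟩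

/-- **neighbours stay near an element of `F_p`** -/
theorem FF_near {v : AbsoluteValue ℂ ℝ} (hv : IsNonarchimedean v) (hvp : v (p : ℂ) < 1) {x y a : ℂ}
    (ha : v a ≤ 1) (hap : v (a ^ p - a) < 1) (hx : v (x - a) < 1)
    (h : ((FF (p : ℤ)).map (evalRingHom x)).eval y = 0) : v (y - a) < 1 :=
  neighbour_near' hv hp.out hvp (FF_mem_IB hv (p : ℤ)) (FF_monic (p : ℤ)) (FF_kron hv hvp) ha hap hx h

/-- **existence of the canonical lift**, a diagonal zero in each residue class of `F_p` -/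
theorem FF_diag {v : AbsoluteValue ℂ ℝ} (hv : IsNonarchimedean v) (hvp : v (p : ℂ) < 1) {a : ℂ}
    (ha : v a ≤ 1) (hap : v (a ^ p - a) < 1) :
    ∃ x0, v (x0 - a) < 1 ∧ ((FF (p : ℤ)).map (evalRingHom x0)).eval x0 = 0 :=
  exists_diag_root hv hp.out hvp (FF_kron hv hvp) ha hap

/-- a diagonal zero is `j` of a fixed point of a matrix of determinant `p` -/
theorem FF_fix {x0 : ℂ} (h : ((FF (p : ℤ)).map (evalRingHom x0)).eval x0 = 0) :
    ∃ (τ₀ : ℍ) (A : DM (p : ℤ)), jInv τ₀ = x0 ∧ Mov A.1 τ₀ τ₀ := by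
  obtain ⟨τ, rfl⟩ := jInv_surjective x0
  obtain ⟨A, hA, hx⟩ := (FF_zero_iff (p : ℤ) τ _).1 h
  obtain ⟨g, hg⟩ := jInv_inj_SL hx.symm
  refine ⟨τ, g • A, rfl, ?_⟩
  have h1 := mov_toGL36 (factPos p).out A τ
  have h2 := mov_SL g (toGL (factPos p).out A • τ)
  rw [hg] at h2
  exact mov_mul h1 h2

end dbl

end Pool.Agent.II
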