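import Mathlib

/-!
# CM algebra: integral matrices fixing a point of the upper half plane
-/

set_option autoImplicit false

namespace Pool.Agent.II51

open UpperHalfPlane

/-- The integral matrix `A` moves `τ` to `τ'`. -/
def Mov (A : Matrix (Fin 2) (Fin 2) ℤ) (τ τ' : ℍ) : Prop :=
  (τ' : ℂ) * (A 1 0 * (τ : ℂ) + A 1 1) = A 0 0 * (τ : ℂ) + A 0 1

theorem mov_one (τ : ℍ) : Mov 1 τ τ := by
  simp [Mov]

theorem mov_mul {A B : Matrix (Fin 2) (Fin 2) ℤ} {τ τ' τ'' : ℍ} (hA : Mov A τ τ')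
    (hB : Mov B τ' τ'') : Mov (B * A) τ τ'' := by
  unfold Mov at *
  simp only [Matrix.mul_apply, Fin.sum_univ_two]
  push_cast
  linear_combination (A 1 0 * (τ : ℂ) + A 1 1) * hB + (B 0 0 - (τ'' : ℂ) * B 1 0) * hA

theorem mov_adj {A : Matrix (Fin 2) (Fin 2) ℤ} {τ τ' : ℍ} (hA : Mov A τ τ') :
    Mov A.adjugate τ' τ := by
  unfold Mov at *
  rw [Matrix.adjugate_fin_two]
  simp only [Matrix.of_apply, Matrix.cons_val', Matrix.cons_val_zero, Matrix.cons_val_one,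
    Matrix.cons_val_fin_one]
  push_cast
  linear_combination -hA

/-- the discriminant -/
def disc (A : Matrix (Fin 2) (Fin 2) ℤ) : ℤ := A.trace ^ 2 - 4 * A.det

theorem disc_eq (A : Matrix (Fin 2) (Fin 2) ℤ) :
    disc A = (A 1 1 - A 0 0) ^ 2 + 4 * (A 0 1 * A 1 0) := by
  rw [disc, Matrix.trace_fin_two, Matrix.det_fin_two]
  ring

/-- a real linear relation for a point of the upper half plane is trivial -/
theorem lin_zero (τ : ℍ) {a b : ℤ} (h : (a : ℂ) * (τ : ℂ) = b) : a = 0 ∧ b = 0 := by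
  have h1 := congrArg Complex.im h
  simp only [Complex.mul_im, Complex.intCast_re, Complex.intCast_im, zero_mul, add_zero] at h1
  have h2 : (τ : ℂ).im ≠ 0 := τ.im_pos.ne'
  have h3 : (a : ℝ) = 0 := by
    rcases mul_eq_zero.mp h1 with h | h
    · exact h
    · exact absurd h h2
  have h4 : a = 0 := by exact_mod_cast h3
  refine ⟨h4, ?_⟩
  rw [h4] at h
  have h5 : (b : ℂ) = 0 := by rw [← h]; simp
  exact_mod_cast h5

theorem fix_quad {A : Matrix (Fin 2) (Fin 2) ℤ} {τ : ℍ} (hA : Mov A τ τ) :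
    (A 1 0 : ℂ) * (τ : ℂ) ^ 2 + (A 1 1 - A 0 0) * (τ : ℂ) - A 0 1 = 0 := by
  unfold Mov at hA
  linear_combination hA

theorem fix_prop {A B : Matrix (Fin 2) (Fin 2) ℤ} {τ : ℍ} (hA : Mov A τ τ) (hB : Mov B τ τ) :
    B 1 0 * (A 1 1 - A 0 0) = A 1 0 * (B 1 1 - B 0 0) ∧ B 1 0 * A 0 1 = A 1 0 * B 0 1 := by
  have h1 := fix_quad hA
  have h2 := fix_quad hB
  have h3 : ((B 1 0 * (A 1 1 - A 0 0) - A 1 0 * (B 1 1 - B 0 0) : ℤ) : ℂ) * (τ : ℂ) =
      ((B 1 0 * A 0 1 - A 1 0 * B 0 1 : ℤ) : ℂ) := by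
    push_cast
    linear_combination (B 1 0 : ℂ) * h1 - (A 1 0 : ℂ) * h2
  obtain ⟨h4, h5⟩ := lin_zero τ h3
  exact ⟨by linarith, by linarith⟩

theorem fix_disc {A B : Matrix (Fin 2) (Fin 2) ℤ} {τ : ℍ} (hA : Mov A τ τ) (hB : Mov B τ τ) :
    B 1 0 ^ 2 * disc A = A 1 0 ^ 2 * disc B := by
  obtain ⟨h1, h2⟩ := fix_prop hA hB
  rw [disc_eq, disc_eq]
  linear_combination (B 1 0 * (A 1 1 - A 0 0) + A 1 0 * (B 1 1 - B 0 0)) * h1 +
    4 * (A 1 0 * B 1 0) * h2

/-- a matrix with fixed point and lower left entry zero is scalar -/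
theorem scalar_of_fix {A : Matrix (Fin 2) (Fin 2) ℤ} {τ : ℍ} (hA : Mov A τ τ) (h : A 1 0 = 0) :
    A 1 1 = A 0 0 ∧ A 0 1 = 0 := by
  have h1 := fix_quad hA
  rw [h] at h1
  have h2 : ((A 1 1 - A 0 0 : ℤ) : ℂ) * (τ : ℂ) = ((A 0 1 : ℤ) : ℂ) := by
    push_cast
    push_cast at h1
    linear_combination h1
  obtain ⟨h3, h4⟩ := lin_zero τ h2
  exact ⟨by linarith, h4⟩

theorem disc_neg {A : Matrix (Fin 2) (Fin 2) ℤ} {τ : ℍ} (hA : Mov A τ τ) (h : A 1 0 ≠ 0) :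
    disc A < 0 := by
  have h1 := fix_quad hA
  have hre := congrArg Complex.re h1
  have him := congrArg Complex.im h1
  set x : ℝ := (τ : ℂ).re
  set y : ℝ := (τ : ℂ).im
  have hy : 0 < y := τ.im_pos
  have e : (τ : ℂ) ^ 2 = (τ : ℂ) * (τ : ℂ) := sq _
  rw [e] at hre him
  simp only [Complex.sub_re, Complex.add_re, Complex.mul_re, Complex.intCast_re,
    Complex.intCast_im, zero_mul, sub_zero, Complex.sub_im, Complex.zero_re, Complex.mul_im] at hre
  simp only [Complex.sub_im, Complex.add_im, Complex.mul_im, Complex.intCast_re,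
    Complex.intCast_im, zero_mul, sub_zero, add_zero, Complex.sub_re, Complex.zero_im,
    Complex.mul_re] at him
  change (A 1 0 : ℝ) * (x * x - y * y) + ((A 1 1 : ℝ) - A 0 0) * x - A 0 1 = 0 at hre
  change (A 1 0 : ℝ) * (x * y + y * x) + ((A 1 1 : ℝ) - A 0 0) * y = 0 at him
  have h2 : ((disc A : ℤ) : ℝ) = -4 * (A 1 0 : ℝ) ^ 2 * y ^ 2 := by
    rw [disc_eq]
    push_cast
    have h3 : 2 * (A 1 0 : ℝ) * x + ((A 1 1 : ℝ) - A 0 0) = 0 := by
      have h4 : (2 * (A 1 0 : ℝ) * x + ((A 1 1 : ℝ) - A 0 0)) * y = 0 := by linarith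
      rcases mul_eq_zero.mp h4 with h | h
      · exact h
      · exact absurd h hy.ne'
    linear_combination (4 * (A 1 0 : ℝ)) * (-hre) +
      (2 * (A 1 0 : ℝ) * x + ((A 1 1 : ℝ) - A 0 0)) * h3
  have h3 : (A 1 0 : ℝ) ≠ 0 := by exact_mod_cast h
  have h4 : ((disc A : ℤ) : ℝ) < 0 := by
    rw [h2]
    have : 0 < (A 1 0 : ℝ) ^ 2 * y ^ 2 := by positivity
    linarith
  exact_mod_cast h4

theorem isSquare_of_mul_sq {x y c : ℤ} (hc : c ≠ 0) (h : c ^ 2 * x = y ^ 2) : IsSquare x := by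
  have h1 : c ∣ y := by
    rw [← Int.pow_dvd_pow_iff (n := 2) (by norm_num)]
    exact ⟨x, h.symm⟩
  obtain ⟨z, rfl⟩ := h1
  refine ⟨z, ?_⟩
  have h2 : c ^ 2 * x = c ^ 2 * (z * z) := by rw [h]; ring
  exact mul_left_cancel₀ (pow_ne_zero 2 hc) h2

/-- **two matrices with a common fixed point have discriminants in the same square class** -/
theorem isSquare_disc {A B : Matrix (Fin 2) (Fin 2) ℤ} {τ : ℍ} (hA : Mov A τ τ)
    (hB : Mov B τ τ) : IsSquare (disc A * disc B) := by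
  by_cases h : B 1 0 = 0
  · obtain ⟨h1, h2⟩ := scalar_of_fix hB h
    have h3 : disc B = 0 := by
      rw [disc_eq, h1, h2]
      ring
    rw [h3, mul_zero]
    exact ⟨0, by ring⟩
  · apply isSquare_of_mul_sq h (y := A 1 0 * disc B)
    have h1 := fix_disc hA hB
    linear_combination (disc B) * h1

/-- conjugation by an isogeny -/
theorem fix_conj {A B : Matrix (Fin 2) (Fin 2) ℤ} {τ σ : ℍ} (hA : Mov A σ σ) (hB : Mov B τ σ) :
    Mov (B.adjugate * A * B) τ τ := by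
  have h1 := mov_mul hB hA
  have h2 := mov_mul h1 (mov_adj hB)
  rwa [← mul_assoc] at h2

theorem disc_conj (A B : Matrix (Fin 2) (Fin 2) ℤ) :
    disc (B.adjugate * A * B) = B.det ^ 2 * disc A := by
  rw [disc, disc, Matrix.trace_mul_comm, ← mul_assoc, Matrix.mul_adjugate, Matrix.det_mul,
    Matrix.det_mul, Matrix.det_adjugate, Matrix.smul_mul, one_mul, Matrix.trace_smul]
  simp only [Fintype.card_fin, Nat.add_one_sub_one, pow_one, smul_eq_mul]
  ring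

/-- **isogenous fixed points have the same field** -/
theorem isSquare_disc_isog {A B M : Matrix (Fin 2) (Fin 2) ℤ} {τ σ : ℍ} (hA : Mov A τ τ)
    (hB : Mov B σ σ) (hM : Mov M τ σ) (hd : M.det ≠ 0) : IsSquare (disc A * disc B) := by
  have h1 := isSquare_disc hA (fix_conj hB hM)
  rw [disc_conj] at h1
  obtain ⟨z, hz⟩ := h1
  apply isSquare_of_mul_sq hd (y := z)
  linear_combination hz

end Pool.Agent.II51
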