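import Mathlib

/-!
# The invariants `g₂`, `g₃` determine the lattice
-/

set_option autoImplicit false

namespace Pool.Agent.II51

open Filter PeriodPair
open scoped Topology

section ode

variable (L : PeriodPair)

theorem ode : ∀ᶠ z in 𝓝 (0 : ℂ), z ≠ 0 →
    z * ℘'[L - (0 : ℂ)] z + 3 * ℘[L - (0 : ℂ)] z =
      -3 * z ^ 2 * ℘[L - (0 : ℂ)] z ^ 2 - z ^ 4 * ℘[L - (0 : ℂ)] z ^ 3 + L.g₂ / 4 * z ^ 2 +
      L.g₂ / 4 * z ^ 4 * ℘[L - (0 : ℂ)] z + L.g₃ / 4 * z ^ 4 +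
      z ^ 4 * ℘'[L - (0 : ℂ)] z ^ 2 / 4 := by
  filter_upwards [L.compl_lattice_sdiff_singleton_mem_nhds 0] with z hz hz0
  have hz1 : z ∉ L.lattice := by
    intro h
    exact hz ⟨h, hz0⟩
  have h1 : ℘[L - (0 : ℂ)] z = ℘[L] z - 1 / z ^ 2 := by
    have h := L.weierstrassPExcept_def ⟨0, zero_mem _⟩ z
    simp only [sub_zero] at h
    rw [h]
    ring
  have h2 : ℘'[L - (0 : ℂ)] z = ℘'[L] z + 2 / z ^ 3 := by
    have h := L.derivWeierstrassPExcept_def ⟨0, zero_mem _⟩ z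
    simp only [sub_zero] at h
    rw [h]
  have h3 := L.derivWeierstrassP_sq z hz1
  have e1 : ℘[L] z = ℘[L - (0 : ℂ)] z + 1 / z ^ 2 := by rw [h1]; ring
  have e2 : ℘'[L] z = ℘'[L - (0 : ℂ)] z - 2 / z ^ 3 := by rw [h2]; ring
  rw [e1, e2] at h3
  have h4 : (z ^ 3 * ℘'[L - (0 : ℂ)] z - 2) ^ 2 = 4 * (z ^ 2 * ℘[L - (0 : ℂ)] z + 1) ^ 3 -
      L.g₂ * z ^ 4 * (z ^ 2 * ℘[L - (0 : ℂ)] z + 1) - L.g₃ * z ^ 6 := by
    have e3 : (z ^ 3 * ℘'[L - (0 : ℂ)] z - 2) ^ 2 = z ^ 6 * (℘'[L - (0 : ℂ)] z - 2 / z ^ 3) ^ 2 := by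
      field_simp
    rw [e3, h3]
    field_simp
  have hz2 : (4 * z ^ 2 : ℂ) ≠ 0 := by
    have := pow_ne_zero 2 hz0
    simpa using this
  apply mul_left_cancel₀ hz2
  linear_combination -h4

end ode

/-- Two lattices with the same invariants have the same regular part at the origin. -/
theorem except_eq {L M : PeriodPair} (hg2 : L.g₂ = M.g₂) (hg3 : L.g₃ = M.g₃) :
    ∀ᶠ z in 𝓝 (0 : ℂ), ℘[L - (0 : ℂ)] z = ℘[M - (0 : ℂ)] z := by
  set P : ℂ → ℂ := ℘[L - (0 : ℂ)] with hP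
  set Q : ℂ → ℂ := ℘[M - (0 : ℂ)] with hQ
  set P' : ℂ → ℂ := ℘'[L - (0 : ℂ)] with hP'
  set Q' : ℂ → ℂ := ℘'[M - (0 : ℂ)] with hQ'
  have aP : AnalyticAt ℂ P 0 := L.analyticAt_weierstrassPExcept 0
  have aQ : AnalyticAt ℂ Q 0 := M.analyticAt_weierstrassPExcept 0
  have aP' : AnalyticAt ℂ P' 0 := L.analyticAt_derivWeierstrassPExcept 0
  have aQ' : AnalyticAt ℂ Q' 0 := M.analyticAt_derivWeierstrassPExcept 0
  set D : ℂ → ℂ := fun z => P z - Q z with hD
  have aD : AnalyticAt ℂ D 0 := aP.sub aQ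
  have hdD : ∀ᶠ z in 𝓝 (0 : ℂ), deriv D z = P' z - Q' z := by
    have hnL := L.compl_lattice_sdiff_singleton_mem_nhds 0
    have hnM := M.compl_lattice_sdiff_singleton_mem_nhds 0
    filter_upwards [hnL, hnM] with z hz hz'
    have e1 := L.eqOn_deriv_weierstrassPExcept_derivWeierstrassPExcept 0 hz
    have e2 := M.eqOn_deriv_weierstrassPExcept_derivWeierstrassPExcept 0 hz'
    have d1 : DifferentiableAt ℂ P z :=
      (L.analyticOnNhd_weierstrassPExcept 0 z hz).differentiableAt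
    have d2 : DifferentiableAt ℂ Q z :=
      (M.analyticOnNhd_weierstrassPExcept 0 z hz').differentiableAt
    rw [hD, deriv_fun_sub d1 d2]
    exact congrArg₂ (· - ·) e1 e2
  by_contra hcon
  have hne : ¬ ∀ᶠ z in 𝓝 (0 : ℂ), D z = 0 := by
    intro h
    apply hcon
    filter_upwards [h] with z hz
    exact sub_eq_zero.mp hz
  obtain ⟨n, g, ag, hg0, hg⟩ := aD.exists_eventuallyEq_pow_smul_nonzero_iff.mpr hne
  have hdg : ∀ᶠ z in 𝓝 (0 : ℂ), deriv D z = n * z ^ (n - 1) * g z + z ^ n * deriv g z := by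
    have h1 : D =ᶠ[𝓝 0] fun z => z ^ n * g z := by
      filter_upwards [hg] with z hz
      rw [hz, sub_zero, smul_eq_mul]
    have h2 := h1.deriv
    filter_upwards [h2, ag.eventually_analyticAt] with z hz hga
    rw [hz, deriv_fun_mul (by fun_prop) hga.differentiableAt, deriv_pow_field]
  have key : ∀ᶠ z in 𝓝[≠] (0 : ℂ),
      (1 - z ^ 3 / 4 * (P' z + Q' z)) * (n * g z + z * deriv g z) =
        -(3 + z ^ 2 * (3 * (P z + Q z) + z ^ 2 * (P z ^ 2 + P z * Q z + Q z ^ 2) -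
          L.g₂ / 4 * z ^ 2)) * g z := by
    rw [eventually_nhdsWithin_iff]
    filter_upwards [ode L, ode M, hdD, hdg, hg] with z h1 h2 h3' h4 h5 hz
    have hz0 : z ≠ 0 := hz
    have k1 := h1 hz0
    have k2 := h2 hz0
    rw [← hg2, ← hg3] at k2
    have k3 : P z - Q z = z ^ n * g z := by
      have : D z = z ^ n * g z := by rw [h5, sub_zero, smul_eq_mul]
      exact this
    have k4 : P' z - Q' z = n * z ^ (n - 1) * g z + z ^ n * deriv g z := h3'.symm.trans h4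
    have k5 : z * (P' z - Q' z) = z ^ n * (n * g z + z * deriv g z) := by
      rw [k4]
      rcases Nat.eq_zero_or_pos n with h0 | h0
      · rw [h0]
        simp
      · obtain ⟨m, rfl⟩ : ∃ m, n = m + 1 := ⟨n - 1, by omega⟩
        simp only [Nat.add_sub_cancel]
        ring
    apply mul_left_cancel₀ (pow_ne_zero n hz0)
    linear_combination k1 - k2 - (1 - z ^ 3 / 4 * (P' z + Q' z)) * k5 -
      (3 + z ^ 2 * (3 * (P z + Q z) + z ^ 2 * (P z ^ 2 + P z * Q z + Q z ^ 2) -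
          L.g₂ / 4 * z ^ 2)) * k3
  have cg : ContinuousAt g 0 := ag.continuousAt
  have cg' : ContinuousAt (deriv g) 0 := ag.deriv.continuousAt
  have cP : ContinuousAt P 0 := aP.continuousAt
  have cQ : ContinuousAt Q 0 := aQ.continuousAt
  have cP' : ContinuousAt P' 0 := aP'.continuousAt
  have cQ' : ContinuousAt Q' 0 := aQ'.continuousAt
  have t1 : Tendsto (fun z => (1 - z ^ 3 / 4 * (P' z + Q' z)) * (n * g z + z * deriv g z))
      (𝓝[≠] (0 : ℂ)) (𝓝 ((1 - (0 : ℂ) ^ 3 / 4 * (P' 0 + Q' 0)) * (n * g 0 + 0 * deriv g 0))) := by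
    have c : ContinuousAt (fun z => (1 - z ^ 3 / 4 * (P' z + Q' z)) *
        (n * g z + z * deriv g z)) 0 := by fun_prop
    exact c.tendsto.mono_left nhdsWithin_le_nhds
  have t2 : Tendsto (fun z => -(3 + z ^ 2 * (3 * (P z + Q z) + z ^ 2 *
      (P z ^ 2 + P z * Q z + Q z ^ 2) - L.g₂ / 4 * z ^ 2)) * g z)
      (𝓝[≠] (0 : ℂ)) (𝓝 (-(3 + (0 : ℂ) ^ 2 * (3 * (P 0 + Q 0) + (0 : ℂ) ^ 2 *
      (P 0 ^ 2 + P 0 * Q 0 + Q 0 ^ 2) - L.g₂ / 4 * (0 : ℂ) ^ 2)) * g 0)) := by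
    have c : ContinuousAt (fun z => -(3 + z ^ 2 * (3 * (P z + Q z) + z ^ 2 *
      (P z ^ 2 + P z * Q z + Q z ^ 2) - L.g₂ / 4 * z ^ 2)) * g z) 0 := by fun_prop
    exact c.tendsto.mono_left nhdsWithin_le_nhds
  have h := tendsto_nhds_unique_of_eventuallyEq t1 t2 key
  have h' : ((n : ℂ) + 3) * g 0 = 0 := by linear_combination h
  rcases mul_eq_zero.mp h' with h0 | h0
  · have : ((n + 3 : ℕ) : ℂ) = 0 := by push_cast; exact h0
    have := Nat.cast_eq_zero.mp this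
    omega
  · exact hg0 h0

/-- Two lattices with the same invariants have the same Weierstrass function. -/
theorem wp_eq {L M : PeriodPair} (hg2 : L.g₂ = M.g₂) (hg3 : L.g₃ = M.g₃) :
    Set.EqOn ℘[L] ℘[M] ((L.lattice : Set ℂ) ∪ M.lattice)ᶜ := by
  have hcL : (L.lattice : Set ℂ).Countable := by
    have : Countable L.lattice := L.latticeEquivProd.toEquiv.countable_iff.mpr inferInstance
    exact Set.countable_coe_iff.mp this
  have hcM : (M.lattice : Set ℂ).Countable := by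
    have : Countable M.lattice := M.latticeEquivProd.toEquiv.countable_iff.mpr inferInstance
    exact Set.countable_coe_iff.mp this
  have hconn : IsPreconnected ((L.lattice : Set ℂ) ∪ M.lattice)ᶜ :=
    ((hcL.union hcM).isPathConnected_compl_of_one_lt_rank (by
      rw [Complex.rank_real_complex]
      norm_num)).isConnected.isPreconnected
  have aL : AnalyticOnNhd ℂ ℘[L] ((L.lattice : Set ℂ) ∪ M.lattice)ᶜ := fun z hz =>
    L.analyticOnNhd_weierstrassP z (fun h => hz (Or.inl h))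
  have aM : AnalyticOnNhd ℂ ℘[M] ((L.lattice : Set ℂ) ∪ M.lattice)ᶜ := fun z hz =>
    M.analyticOnNhd_weierstrassP z (fun h => hz (Or.inr h))
  have hev : ∀ᶠ z in 𝓝[≠] (0 : ℂ), z ∈ ((L.lattice : Set ℂ) ∪ M.lattice)ᶜ ∧ ℘[L] z = ℘[M] z := by
    rw [eventually_nhdsWithin_iff]
    filter_upwards [L.compl_lattice_sdiff_singleton_mem_nhds 0,
      M.compl_lattice_sdiff_singleton_mem_nhds 0, except_eq hg2 hg3] with z h1 h2 h3 hz0
    refine ⟨?_, ?_⟩
    · rintro (h | h)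
      · exact h1 ⟨h, hz0⟩
      · exact h2 ⟨h, hz0⟩
    · have e1 := L.weierstrassPExcept_def ⟨0, zero_mem _⟩ z
      have e2 := M.weierstrassPExcept_def ⟨0, zero_mem _⟩ z
      simp only at e1 e2
      rw [h3, e2] at e1
      exact (add_right_cancel e1).symm
  obtain ⟨r, hr, hball⟩ := Metric.eventually_nhds_iff.mp (eventually_nhdsWithin_iff.mp hev)
  -- a point near the origin
  set z0 : ℂ := ((r / 2 : ℝ) : ℂ) with hz0
  have hn : ‖z0‖ = r / 2 := by
    rw [hz0, Complex.norm_real, Real.norm_eq_abs, abs_of_pos (by positivity)]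
  have hz00 : z0 ≠ 0 := by
    intro h
    rw [h, norm_zero] at hn
    linarith
  have hmem : z0 ∈ ((L.lattice : Set ℂ) ∪ M.lattice)ᶜ :=
    (hball (by rw [dist_zero_right, hn]; linarith) hz00).1
  refine aL.eqOn_of_preconnected_of_eventuallyEq aM hconn hmem ?_
  have hnear : ∀ᶠ z in 𝓝 z0, ‖z‖ < r ∧ z ≠ 0 := by
    apply Filter.Eventually.and
    · exact (continuous_norm.tendsto z0).eventually (gt_mem_nhds (by rw [hn]; linarith))
    · exact isOpen_ne.mem_nhds hz00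
  filter_upwards [hnear] with z hz
  exact (hball (by rw [dist_zero_right]; exact hz.1) hz.2).2

theorem lattice_le {L M : PeriodPair} (hg2 : L.g₂ = M.g₂) (hg3 : L.g₃ = M.g₃) :
    L.lattice ≤ M.lattice := by
  intro l hl
  by_contra hM
  have h1 : ℘[L] =ᶠ[𝓝[≠] l] ℘[M] := by
    rw [Filter.EventuallyEq, eventually_nhdsWithin_iff]
    filter_upwards [L.compl_lattice_sdiff_singleton_mem_nhds l,
      M.isClosed_lattice.isOpen_compl.mem_nhds hM] with z h1 h2 hz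
    apply wp_eq hg2 hg3
    rintro (h | h)
    · exact h1 ⟨h, hz⟩
    · exact h2 h
  have h2 := meromorphicOrderAt_congr h1
  rw [L.order_weierstrassP l hl] at h2
  have h3 := (M.analyticOnNhd_weierstrassP l hM).meromorphicOrderAt_nonneg
  rw [← h2] at h3
  exact absurd h3 (by decide)

/-- **The invariants determine the lattice.** -/
theorem lattice_eq {L M : PeriodPair} (hg2 : L.g₂ = M.g₂) (hg3 : L.g₃ = M.g₃) :
    L.lattice = M.lattice :=
  le_antisymm (lattice_le hg2 hg3) (lattice_le hg2.symm hg3.symm)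

end Pool.Agent.II51
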