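import Pool.Agent.Helper11.ZP.Forms
import Pool.Agent.II.Lat51
import Pool.Agent.II.CM51

/-!
# The `j`-invariant is injective modulo `SL₂(ℤ)`
-/

set_option autoImplicit false

namespace Pool.Agent.II51

open UpperHalfPlane ModularForm EisensteinSeries Pool.Agent.Helper11.ZP

/-- The lattice `μ (ℤ τ + ℤ)`. -/
noncomputable def lp (μ : ℂ) (hμ : μ ≠ 0) (τ : ℍ) : PeriodPair where
  ω₁ := μ * τ
  ω₂ := μ
  indep := by
    rw [LinearIndependent.pair_iff]
    intro s t h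
    have h1 : (s : ℂ) * (τ : ℂ) + t = 0 := by
      apply mul_left_cancel₀ hμ
      rw [mul_zero]
      simp only [Complex.real_smul] at h
      linear_combination h
    have h2 := congrArg Complex.im h1
    simp only [Complex.add_im, Complex.mul_im, Complex.ofReal_re, Complex.ofReal_im, zero_mul,
      add_zero, Complex.zero_im] at h2
    have h3 : s = 0 := by
      rcases mul_eq_zero.mp h2 with h | h
      · exact h
      · exact absurd h τ.im_pos.ne'
    rw [h3] at h1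
    refine ⟨h3, ?_⟩
    have h4 : (t : ℂ) = 0 := by rw [← h1]; simp
    exact_mod_cast h4

theorem mem_lp {μ : ℂ} {hμ : μ ≠ 0} {τ : ℍ} {x : ℂ} :
    x ∈ (lp μ hμ τ).lattice ↔ ∃ a b : ℤ, a * (μ * τ) + b * μ = x :=
  PeriodPair.mem_lattice

theorem G_lp (μ : ℂ) (hμ : μ ≠ 0) (τ : ℍ) (n : ℕ) :
    (lp μ hμ τ).G n = (μ ^ n)⁻¹ * ∑' v : Fin 2 → ℤ, eisSummand n v τ := by
  rw [PeriodPair.G, ← tsum_mul_left,
    ← ((finTwoArrowEquiv ℤ).trans (lp μ hμ τ).latticeEquivProd.symm.toEquiv).tsum_eq]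
  apply tsum_congr
  intro v
  have h1 : ((((finTwoArrowEquiv ℤ).trans (lp μ hμ τ).latticeEquivProd.symm.toEquiv) v :
      (lp μ hμ τ).lattice) : ℂ) = v 0 * (μ * τ) + v 1 * μ :=
    (lp μ hμ τ).latticeEquiv_symm_apply (v 0, v 1)
  rw [h1, eisSummand, zpow_neg, zpow_natCast, ← mul_inv, ← mul_pow]
  congr 2
  ring

theorem G_eq (μ : ℂ) (hμ : μ ≠ 0) (τ : ℍ) {n : ℕ} (hn : 3 ≤ n) :
    (lp μ hμ τ).G n = (μ ^ n)⁻¹ * (2 * riemannZeta n) * E hn τ := by
  rw [G_lp, tsum_eisSummand_eq_riemannZeta_mul_eisensteinSeries hn]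
  have h : E hn τ = (1 / 2 : ℂ) * eisensteinSeries (N := 1) 0 n τ := rfl
  rw [h]
  ring

/-- scaling of the Eisenstein series -/
theorem exists_scale {τ τ' : ℍ} (h : jInv τ = jInv τ') :
    ∃ lam : ℂ, lam ≠ 0 ∧ E₄ τ' = lam ^ 4 * E₄ τ ∧ E₆ τ' = lam ^ 6 * E₆ τ := by
  have hd := discriminant_ne_zero τ
  have hd' := discriminant_ne_zero τ'
  have e1 := discriminant_eq_E₄_cube_sub_E₆_sq τ
  have e2 := discriminant_eq_E₄_cube_sub_E₆_sq τ'
  have h1 : E₄ τ ^ 3 * ModularForm.discriminant τ' = E₄ τ' ^ 3 * ModularForm.discriminant τ := by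
    have h2 : E₄ τ ^ 3 / ModularForm.discriminant τ = E₄ τ' ^ 3 / ModularForm.discriminant τ' := h
    rw [div_eq_div_iff hd hd'] at h2
    exact h2
  have h2 : E₄ τ ^ 3 * E₆ τ' ^ 2 = E₄ τ' ^ 3 * E₆ τ ^ 2 := by
    rw [e1, e2] at h1
    linear_combination (-1728 : ℂ) * h1
  obtain ⟨κ, hκ, k4, k6⟩ : ∃ κ : ℂ, κ ≠ 0 ∧ E₄ τ' = κ ^ 2 * E₄ τ ∧ E₆ τ' = κ ^ 3 * E₆ τ := by
    by_cases h4 : E₄ τ = 0
    · have h4' : E₄ τ' = 0 := by
        rw [h4] at h1
        have h3 : E₄ τ' ^ 3 * ModularForm.discriminant τ = 0 := by rw [← h1]; ring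
        rcases mul_eq_zero.mp h3 with h | h
        · exact pow_eq_zero_iff (by norm_num) |>.mp h
        · exact absurd h hd
      have h6 : E₆ τ ≠ 0 := by
        intro h6
        rw [h4, h6] at e1
        exact hd (by rw [e1]; norm_num)
      have h6' : E₆ τ' ≠ 0 := by
        intro h6
        rw [h4', h6] at e2
        exact hd' (by rw [e2]; norm_num)
      obtain ⟨κ, hκ⟩ := IsAlgClosed.exists_pow_nat_eq (E₆ τ' / E₆ τ) (n := 3) (by norm_num)
      refine ⟨κ, ?_, by rw [h4, h4', mul_zero], by rw [hκ, div_mul_cancel₀ _ h6]⟩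
      intro h0
      rw [h0] at hκ
      have : E₆ τ' / E₆ τ ≠ 0 := div_ne_zero h6' h6
      exact this (by rw [← hκ]; norm_num)
    · have h4' : E₄ τ' ≠ 0 := by
        intro h4'
        rw [h4'] at h1
        have h3 : E₄ τ ^ 3 * ModularForm.discriminant τ' = 0 := by rw [h1]; ring
        rcases mul_eq_zero.mp h3 with h | h
        · exact h4 (pow_eq_zero_iff (by norm_num) |>.mp h)
        · exact absurd h hd'
      by_cases h6 : E₆ τ = 0
      · have h6' : E₆ τ' = 0 := by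
          rw [h6] at h2
          have h3 : E₄ τ ^ 3 * E₆ τ' ^ 2 = 0 := by rw [h2]; ring
          rcases mul_eq_zero.mp h3 with h | h
          · exact absurd (pow_eq_zero_iff (by norm_num) |>.mp h) h4
          · exact pow_eq_zero_iff (by norm_num) |>.mp h
        obtain ⟨κ, hκ⟩ := IsAlgClosed.exists_pow_nat_eq (E₄ τ' / E₄ τ) (n := 2) (by norm_num)
        refine ⟨κ, ?_, by rw [hκ, div_mul_cancel₀ _ h4], by rw [h6, h6', mul_zero]⟩
        intro h0
        rw [h0] at hκ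
        have : E₄ τ' / E₄ τ ≠ 0 := div_ne_zero h4' h4
        exact this (by rw [← hκ]; norm_num)
      · have h6' : E₆ τ' ≠ 0 := by
          intro h6'
          rw [h6'] at h2
          have h3 : E₄ τ' ^ 3 * E₆ τ ^ 2 = 0 := by rw [← h2]; ring
          rcases mul_eq_zero.mp h3 with h | h
          · exact h4' (pow_eq_zero_iff (by norm_num) |>.mp h)
          · exact h6 (pow_eq_zero_iff (by norm_num) |>.mp h)
        refine ⟨E₆ τ' * E₄ τ / (E₆ τ * E₄ τ'), by positivity, ?_, ?_⟩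
        · field_simp
          linear_combination -h2
        · field_simp
          linear_combination -h2
  obtain ⟨lam, hl⟩ := IsAlgClosed.exists_pow_nat_eq κ (n := 2) (by norm_num)
  refine ⟨lam, ?_, ?_, ?_⟩
  · intro h0
    rw [h0] at hl
    exact hκ (by rw [← hl]; norm_num)
  · rw [k4, ← hl]
    ring
  · rw [k6, ← hl]
    ring

theorem det_pos_of_mov {A : Matrix (Fin 2) (Fin 2) ℤ} {τ τ' : ℍ} (h : Mov A τ τ')
    (h0 : (A 1 0 : ℂ) * (τ : ℂ) + A 1 1 ≠ 0) : 0 < A.det := by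
  unfold Mov at h
  have hre := congrArg Complex.re h
  have him := congrArg Complex.im h
  set x : ℝ := (τ : ℂ).re with hx
  set y : ℝ := (τ : ℂ).im with hy
  set x' : ℝ := (τ' : ℂ).re
  set y' : ℝ := (τ' : ℂ).im
  have hyp : 0 < y := τ.im_pos
  have hyp' : 0 < y' := τ'.im_pos
  simp only [Complex.add_re, Complex.mul_re, Complex.intCast_re, Complex.intCast_im, zero_mul,
    sub_zero, Complex.add_im, Complex.mul_im, add_zero] at hre him
  change x' * ((A 1 0 : ℝ) * x + A 1 1) - y' * ((A 1 0 : ℝ) * y) = (A 0 0 : ℝ) * x + A 0 1 at hre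
  change x' * ((A 1 0 : ℝ) * y) + y' * ((A 1 0 : ℝ) * x + A 1 1) = (A 0 0 : ℝ) * y at him
  have key : y' * (((A 1 0 : ℝ) * x + A 1 1) ^ 2 + ((A 1 0 : ℝ) * y) ^ 2) = y * (A.det : ℝ) := by
    rw [Matrix.det_fin_two]
    push_cast
    linear_combination ((A 1 0 : ℝ) * x + A 1 1) * him - ((A 1 0 : ℝ) * y) * hre
  have hpos : 0 < ((A 1 0 : ℝ) * x + A 1 1) ^ 2 + ((A 1 0 : ℝ) * y) ^ 2 := by
    by_contra hcon
    push Not at hcon
    have q1 : ((A 1 0 : ℝ) * x + A 1 1) = 0 := by nlinarith [sq_nonneg ((A 1 0 : ℝ) * x + A 1 1), sq_nonneg ((A 1 0 : ℝ) * y)]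
    have q2 : ((A 1 0 : ℝ) * y) = 0 := by nlinarith [sq_nonneg ((A 1 0 : ℝ) * x + A 1 1), sq_nonneg ((A 1 0 : ℝ) * y)]
    apply h0
    apply Complex.ext
    · simp only [Complex.add_re, Complex.mul_re, Complex.intCast_re, Complex.intCast_im, zero_mul,
        sub_zero, Complex.zero_re]
      exact q1
    · simp only [Complex.add_im, Complex.mul_im, Complex.intCast_re, Complex.intCast_im, zero_mul,
        add_zero, Complex.zero_im]
      exact q2
  have h1 : 0 < y * (A.det : ℝ) := by rw [← key]; positivity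
  have h2 : (0 : ℝ) < A.det := by
    by_contra hcon
    push Not at hcon
    nlinarith
  exact_mod_cast h2

/-- **Injectivity of `j` modulo `SL₂(ℤ)`.** -/
theorem jInv_inj {τ τ' : ℍ} (h : jInv τ = jInv τ') :
    ∃ G : Matrix (Fin 2) (Fin 2) ℤ, G.det = 1 ∧ Mov G τ τ' := by
  obtain ⟨lam, hl, h4, h6⟩ := exists_scale h
  have hli : lam⁻¹ ≠ 0 := inv_ne_zero hl
  have hL : (lp 1 one_ne_zero τ').lattice = (lp lam⁻¹ hli τ).lattice := by
    apply lattice_eq
    · rw [PeriodPair.g₂, PeriodPair.g₂, G_eq _ _ _ (n := 4) (by norm_num),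
        G_eq _ _ _ (n := 4) (by norm_num)]
      have e : E (by norm_num : 3 ≤ 4) τ' = lam ^ 4 * E (by norm_num : 3 ≤ 4) τ := h4
      rw [e, inv_pow, inv_inv]
      ring
    · rw [PeriodPair.g₃, PeriodPair.g₃, G_eq _ _ _ (n := 6) (by norm_num),
        G_eq _ _ _ (n := 6) (by norm_num)]
      have e : E (by norm_num : 3 ≤ 6) τ' = lam ^ 6 * E (by norm_num : 3 ≤ 6) τ := h6
      rw [e, inv_pow, inv_inv]
      ring
  have m1 : (τ' : ℂ) ∈ (lp lam⁻¹ hli τ).lattice := by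
    rw [← hL, mem_lp]
    exact ⟨1, 0, by simp⟩
  have m2 : (1 : ℂ) ∈ (lp lam⁻¹ hli τ).lattice := by
    rw [← hL, mem_lp]
    exact ⟨0, 1, by simp⟩
  have m3 : lam⁻¹ * (τ : ℂ) ∈ (lp 1 one_ne_zero τ').lattice := by
    rw [hL, mem_lp]
    exact ⟨1, 0, by simp⟩
  have m4 : lam⁻¹ ∈ (lp 1 one_ne_zero τ').lattice := by
    rw [hL, mem_lp]
    exact ⟨0, 1, by simp⟩
  rw [mem_lp] at m1 m2 m3 m4
  obtain ⟨a, b, m1⟩ := m1
  obtain ⟨c, d, m2⟩ := m2
  obtain ⟨a', b', m3⟩ := m3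
  obtain ⟨c', d', m4⟩ := m4
  have n1 : (a : ℂ) * τ + b = lam * τ' := by
    rw [← m1]
    field_simp
  have n2 : (c : ℂ) * τ + d = lam := by
    have : lam * 1 = lam * ((c : ℂ) * (lam⁻¹ * τ) + d * lam⁻¹) := by rw [m2]
    rw [mul_one] at this
    rw [this]
    field_simp
  have n3 : ((a' : ℂ) * τ' + b') * lam = τ := by
    have : ((a' : ℂ) * τ' + b') = lam⁻¹ * τ := by rw [← m3]; ring
    rw [this]
    field_simp
  have n4 : ((c' : ℂ) * τ' + d') * lam = 1 := by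
    have : ((c' : ℂ) * τ' + d') = lam⁻¹ := by rw [← m4]; ring
    rw [this, inv_mul_cancel₀ hl]
  have hmov : Mov !![a, b; c, d] τ τ' := by
    simp only [Mov, Matrix.of_apply, Matrix.cons_val', Matrix.cons_val_zero, Matrix.cons_val_one,
      Matrix.cons_val_fin_one]
    rw [n2, n1]
    ring
  have r1 := lin_zero τ (a := a' * a + b' * c - 1) (b := -(a' * b + b' * d)) (by
    push_cast
    linear_combination (a' : ℂ) * n1 + (b' : ℂ) * n2 + n3)
  have r2 := lin_zero τ (a := c' * a + d' * c) (b := 1 - (c' * b + d' * d)) (by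
    push_cast
    linear_combination (c' : ℂ) * n1 + (d' : ℂ) * n2 + n4)
  have hdet : (a' * d' - b' * c') * (a * d - b * c) = 1 := by
    have q1 : a' * a + b' * c = 1 := by linarith [r1.1]
    have q2 : a' * b + b' * d = 0 := by linarith [r1.2]
    have q3 : c' * a + d' * c = 0 := r2.1
    have q4 : c' * b + d' * d = 1 := by linarith [r2.2]
    linear_combination (c' * b + d' * d) * q1 - (c' * a + d' * c) * q2 + q4
  have hdpos : 0 < (!![a, b; c, d] : Matrix (Fin 2) (Fin 2) ℤ).det := by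
    apply det_pos_of_mov hmov
    simp only [Matrix.of_apply, Matrix.cons_val', Matrix.cons_val_zero, Matrix.cons_val_one,
      Matrix.cons_val_fin_one]
    rw [n2]
    exact hl
  refine ⟨_, ?_, hmov⟩
  rw [Matrix.det_fin_two] at hdpos ⊢
  simp only [Matrix.of_apply, Matrix.cons_val', Matrix.cons_val_zero, Matrix.cons_val_one,
    Matrix.cons_val_fin_one] at hdpos ⊢
  have hu : IsUnit (a * d - b * c) := IsUnit.of_mul_eq_one _ (by rw [mul_comm]; exact hdet)
  rcases Int.isUnit_iff.mp hu with h | h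
  · exact h
  · omega

open scoped MatrixGroups

theorem denom_ne {A : Matrix (Fin 2) (Fin 2) ℤ} (hA : A.det ≠ 0) (τ : ℍ) :
    (A 1 0 : ℂ) * (τ : ℂ) + A 1 1 ≠ 0 := by
  intro h
  have h1 := lin_zero τ (a := A 1 0) (b := -A 1 1) (by push_cast; linear_combination h)
  apply hA
  rw [Matrix.det_fin_two, h1.1, show A 1 1 = 0 by linarith [h1.2]]
  ring

theorem coe_SL (g : SL(2, ℤ)) (τ : ℍ) :
    ((g • τ : ℍ) : ℂ) = ((g 0 0 : ℂ) * τ + g 0 1) / ((g 1 0 : ℂ) * τ + g 1 1) := by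
  rw [UpperHalfPlane.coe_specialLinearGroup_apply]
  simp

theorem mov_SL (g : SL(2, ℤ)) (τ : ℍ) : Mov g.1 τ (g • τ) := by
  have h : (g.1 1 0 : ℂ) * (τ : ℂ) + g.1 1 1 ≠ 0 := denom_ne (by rw [g.2]; norm_num) τ
  rw [Mov, coe_SL]
  exact div_mul_cancel₀ _ h

/-- a point is determined by the moving matrix -/
theorem mov_unique {A : Matrix (Fin 2) (Fin 2) ℤ} (hA : A.det ≠ 0) {τ τ' τ'' : ℍ}
    (h : Mov A τ τ') (h' : Mov A τ τ'') : τ' = τ'' := by
  apply UpperHalfPlane.ext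
  exact mul_right_cancel₀ (denom_ne hA τ) (h.trans h'.symm)

theorem smul_of_mov {g : SL(2, ℤ)} {τ τ' : ℍ} (h : Mov g.1 τ τ') : g • τ = τ' :=
  mov_unique (by rw [g.2]; norm_num) (mov_SL g τ) h

/-- **Injectivity of `j` modulo `SL₂(ℤ)`.** -/
theorem jInv_inj_SL {τ τ' : ℍ} (h : jInv τ = jInv τ') : ∃ g : SL(2, ℤ), g • τ = τ' := by
  obtain ⟨G, hG, hm⟩ := jInv_inj h
  exact ⟨⟨G, hG⟩, smul_of_mov hm⟩

end Pool.Agent.II51
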