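import Pool.Agent.Helper11.ZU.Hyper
import Pool.Agent.II.JInj51

/-!
# Primitive matrices fixing a special point; the zeros of the modular polynomials
-/

set_option autoImplicit false

namespace Pool.Agent.II51

open UpperHalfPlane ModularForm Pool.Agent.Helper11.ZP Pool.Agent.Helper11.ZU
  Pool.Agent.Helper20.ZT Pool.Agent.Helper20.ZT.Prim
open scoped MatrixGroups

/-- primitive integral matrices -/
def Prm (A : Matrix (Fin 2) (Fin 2) ℤ) : Prop := ∀ k : ℤ, (∀ i j, k ∣ A i j) → k ∣ 1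

theorem exists_good_value {p : ℕ} (hp3 : 3 ≤ p) (b m : ℤ) :
    ∃ s : ℤ, ¬ (p : ℤ) ∣ s * (s + b) + m ∧ 1 < s * (s + b) + m := by
  set s0 : ℤ := |b| + |m| + 2 with hs0
  have hbig : ∀ s : ℤ, s0 ≤ s → 1 < s * (s + b) + m := by
    intro s hs
    have h1 := neg_abs_le b
    have h2 := neg_abs_le m
    have h3 := abs_nonneg b
    have h4 := abs_nonneg m
    have h5 : |m| + 2 ≤ s := by linarith
    have h6 : 2 ≤ s + b := by linarith
    nlinarith [mul_le_mul h5 h6 (by norm_num) (by linarith)]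
  by_cases h0 : (p : ℤ) ∣ s0 * (s0 + b) + m
  · by_cases h1 : (p : ℤ) ∣ (s0 + 1) * (s0 + 1 + b) + m
    · refine ⟨s0 + 2, ?_, hbig _ (by linarith)⟩
      intro h2
      have h3 : (p : ℤ) ∣ ((s0 + 2) * (s0 + 2 + b) + m) - 2 * ((s0 + 1) * (s0 + 1 + b) + m) +
          (s0 * (s0 + b) + m) := dvd_add (dvd_sub h2 (Dvd.dvd.mul_left h1 2)) h0
      have h4 : ((s0 + 2) * (s0 + 2 + b) + m) - 2 * ((s0 + 1) * (s0 + 1 + b) + m) +
          (s0 * (s0 + b) + m) = 2 := by ring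
      rw [h4] at h3
      have h5 := Int.le_of_dvd (by norm_num) h3
      have : (3 : ℤ) ≤ p := by exact_mod_cast hp3
      linarith
    · exact ⟨s0 + 1, h1, hbig _ (by linarith)⟩
  · exact ⟨s0, h0, hbig _ le_rfl⟩

/-- **a primitive matrix fixing an imaginary quadratic point** with determinant greater than one
and prime to `p` -/
theorem exists_prim_fix {σ : ℍ} {a b c : ℤ} (ha : a ≠ 0)
    (h : (a : ℂ) * (σ : ℂ) ^ 2 + b * (σ : ℂ) + c = 0) {p : ℕ} (hp3 : 3 ≤ p) :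
    ∃ A : Matrix (Fin 2) (Fin 2) ℤ, Mov A σ σ ∧ Prm A ∧ 1 < A.det ∧ ¬ (p : ℤ) ∣ A.det ∧
      A 1 0 ≠ 0 := by
  obtain ⟨g, hg⟩ : ∃ g : ℤ, g = (Int.gcd a (Int.gcd b c) : ℤ) := ⟨_, rfl⟩
  have hga : g ∣ a := hg ▸ Int.gcd_dvd_left ..
  have hgbc : g ∣ (Int.gcd b c : ℤ) := hg ▸ Int.gcd_dvd_right ..
  have hgb : g ∣ b := hgbc.trans (Int.gcd_dvd_left ..)
  have hgc : g ∣ c := hgbc.trans (Int.gcd_dvd_right ..)
  have hg0 : g ≠ 0 := fun h0 => ha (by rw [h0] at hga; exact zero_dvd_iff.mp hga)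
  obtain ⟨a', haa⟩ := hga
  obtain ⟨b', hb'⟩ := hgb
  obtain ⟨c', hc'⟩ := hgc
  have ha' : a' ≠ 0 := fun h0 => ha (by rw [haa, h0, mul_zero])
  have hprim : ∀ k : ℤ, k ∣ a' → k ∣ b' → k ∣ c' → k ∣ 1 := by
    intro k h1 h2 h3
    have h4 : g * k ∣ g := by
      have e1 : g * k ∣ a := haa ▸ mul_dvd_mul_left g h1
      have e2 : g * k ∣ b := hb' ▸ mul_dvd_mul_left g h2
      have e3 : g * k ∣ c := hc' ▸ mul_dvd_mul_left g h3
      have e4 := Int.dvd_coe_gcd e1 (Int.dvd_coe_gcd e2 e3)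
      rwa [← hg] at e4
    have h5 : g * k ∣ g * 1 := by rwa [mul_one]
    exact (mul_dvd_mul_iff_left hg0).mp h5
  have hq : (a' : ℂ) * (σ : ℂ) ^ 2 + b' * (σ : ℂ) + c' = 0 := by
    have hgc0 : (g : ℂ) ≠ 0 := by exact_mod_cast hg0
    apply mul_left_cancel₀ hgc0
    have k1 : (a : ℂ) = g * a' := by rw [haa]; push_cast; ring
    have k2 : (b : ℂ) = g * b' := by rw [hb']; push_cast; ring
    have k3 : (c : ℂ) = g * c' := by rw [hc']; push_cast; ring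
    rw [mul_zero, ← h, k1, k2, k3]
    ring
  obtain ⟨s, hs1, hs2⟩ := exists_good_value hp3 b' (a' * c')
  have hdet : (!![s, -c'; a', s + b'] : Matrix (Fin 2) (Fin 2) ℤ).det =
      s * (s + b') + a' * c' := by
    rw [Matrix.det_fin_two]
    simp only [Matrix.of_apply, Matrix.cons_val', Matrix.cons_val_zero, Matrix.cons_val_one,
      Matrix.cons_val_fin_one]
    ring
  refine ⟨!![s, -c'; a', s + b'], ?_, ?_, ?_, ?_, ?_⟩
  · simp only [Mov, Matrix.of_apply, Matrix.cons_val', Matrix.cons_val_zero, Matrix.cons_val_one,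
      Matrix.cons_val_fin_one]
    push_cast
    linear_combination hq
  · intro k hk
    have h00 := hk 0 0
    have h01 := hk 0 1
    have h10 := hk 1 0
    have h11 := hk 1 1
    simp only [Matrix.of_apply, Matrix.cons_val', Matrix.cons_val_zero, Matrix.cons_val_one,
      Matrix.cons_val_fin_one] at h00 h01 h10 h11
    exact hprim k h10 ((dvd_add_right h00).mp h11) ((dvd_neg).mp h01)
  · rw [hdet]; exact hs2
  · rw [hdet]; exact hs1
  · exact ha'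

theorem mov_toGL {m : ℤ} (hm : 0 < m) (A : DM m) (τ : ℍ) : Mov A.1 τ (toGL hm A • τ) := by
  have h0 := denom_ne_zero (toGL hm A) τ
  have h1 : ((toGL hm A • τ : ℍ) : ℂ) = num (toGL hm A) τ / denom (toGL hm A) τ :=
    coe_smul_of_det_pos (det_toGL_pos hm A) τ
  rw [Mov, h1]
  have h2 : (A.1 1 0 : ℂ) * (τ : ℂ) + A.1 1 1 = denom (toGL hm A) τ := by
    rw [denom, toGL_val, toGL_val]
    push_cast
    rfl
  have h3 : (A.1 0 0 : ℂ) * (τ : ℂ) + A.1 0 1 = num (toGL hm A) τ := by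
    rw [num, toGL_val, toGL_val]
    push_cast
    rfl
  rw [h2, h3, div_mul_cancel₀ _ h0]

theorem toGL_of_mov {m : ℤ} (hm : 0 < m) {A : DM m} {τ τ' : ℍ} (h : Mov A.1 τ τ') :
    toGL hm A • τ = τ' := toGL_smul_eq hm A τ τ' h

/-- **the zeros of the primitive modular polynomial** -/
theorem exists_mov_of_root (m : ℤ) [hm : Fact (0 < m)] {τ τ' : ℍ}
    (h : (primPoly m).eval₂ (evO (jInv τ)) (jInv τ') = 0) :
    ∃ A : Matrix (Fin 2) (Fin 2) ℤ, A.det = m ∧ Prm A ∧ Mov A τ τ' := by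
  obtain ⟨o, ho, hy⟩ := primPoly_zero m τ h
  obtain ⟨g, hg⟩ := jInv_inj_SL hy.symm
  have h1 := mov_mul (mov_toGL hm.out (U m o) τ) (mov_SL g _)
  rw [hg] at h1
  refine ⟨g.1 * (U m o).1, ?_, ?_, h1⟩
  · rw [Matrix.det_mul, g.2, one_mul, (U m o).2]
  · exact (TP_prim m ho).smul g

/-- and conversely -/
theorem root_of_mov (m : ℤ) [hm : Fact (0 < m)] {τ τ' : ℍ} {A : Matrix (Fin 2) (Fin 2) ℤ}
    (hd : A.det = m) (hA : Prm A) (h : Mov A τ τ') :
    (primPoly m).eval₂ (evO (jInv τ)) (jInv τ') = 0 := by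
  have h1 := primPoly_root m ⟨A, hd⟩ hA τ
  rwa [toGL_of_mov hm.out (A := ⟨A, hd⟩) h] at h1

theorem prm_of_det_prime {A : Matrix (Fin 2) (Fin 2) ℤ} {p : ℕ} (hp : p.Prime)
    (h : A.det = p) : Prm A := by
  intro k hk
  have h1 : k * k ∣ (p : ℤ) := by
    rw [← h, Matrix.det_fin_two]
    exact dvd_sub (mul_dvd_mul (hk 0 0) (hk 1 1)) (mul_dvd_mul (hk 0 1) (hk 1 0))
  have h2 : IsUnit k := by
    have h3 : Squarefree (p : ℤ) := Int.squarefree_natCast.mpr hp.squarefree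
    exact h3 k h1
  exact h2.dvd

theorem nonscalar_of_det_prime {A : Matrix (Fin 2) (Fin 2) ℤ} {p : ℕ} (hp : p.Prime)
    (h : A.det = p) {τ : ℍ} (hA : Mov A τ τ) : A 1 0 ≠ 0 := by
  intro h0
  obtain ⟨h1, h2⟩ := scalar_of_fix hA h0
  have h3 : (p : ℤ) = A 0 0 * A 0 0 := by
    rw [← h, Matrix.det_fin_two, h1, h2]
    ring
  have h4 : IsUnit (A 0 0) := (Int.squarefree_natCast.mpr hp.squarefree) _ (by rw [h3])
  have h5 : A 0 0 * A 0 0 = 1 := by
    rcases Int.isUnit_iff.mp h4 with h | h <;> rw [h] <;> norm_num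
  rw [h5] at h3
  have : p = 1 := by exact_mod_cast h3
  exact hp.one_lt.ne' this

/-- the trace bound -/
theorem trace_bound {A : Matrix (Fin 2) (Fin 2) ℤ} {p : ℕ} (hp : p.Prime)
    (h : A.det = p) {τ : ℍ} (hA : Mov A τ τ) : A.trace ^ 2 < 4 * p := by
  have h1 := disc_neg hA (nonscalar_of_det_prime hp h hA)
  rw [disc, h] at h1
  linarith

/-- **the zeros of `F(X, X)`** are the `j` of the fixed points of the matrices of determinant `p` -/
theorem exists_fix_of_root {p : ℕ} (hp : p.Prime) [hm : Fact (0 < (p : ℤ))] {x : ℂ}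
    (h : (primPoly (p : ℤ)).eval₂ (evO x) x = 0) :
    ∃ (τ : ℍ) (A : Matrix (Fin 2) (Fin 2) ℤ), jInv τ = x ∧ A.det = p ∧ Mov A τ τ ∧
      A 1 0 ≠ 0 ∧ A.trace ^ 2 < 4 * p := by
  obtain ⟨τ, rfl⟩ := jInv_surjective x
  obtain ⟨A, h1, -, h3⟩ := exists_mov_of_root (p : ℤ) h
  exact ⟨τ, A, rfl, h1, h3, nonscalar_of_det_prime hp h1 h3, trace_bound hp h1 h3⟩

/-- a fixed point of a non scalar matrix is special -/
theorem special_of_fix {A : Matrix (Fin 2) (Fin 2) ℤ} {τ : ℍ} (hA : Mov A τ τ)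
    (h : A 1 0 ≠ 0) : IsSpecialPoint (jInv τ) := by
  refine ⟨τ, A 1 0, A 1 1 - A 0 0, -A 0 1, h, ?_, rfl⟩
  push_cast
  linear_combination fix_quad hA

/-- **a special point is fixed by a primitive matrix** of determinant greater than one prime
to `p` -/
theorem exists_prim_of_special {c : ℂ} (h : IsSpecialPoint c) {p : ℕ} (hp3 : 3 ≤ p) :
    ∃ (σ : ℍ) (A : Matrix (Fin 2) (Fin 2) ℤ), c = jInv σ ∧ Mov A σ σ ∧ Prm A ∧ 1 < A.det ∧
      ¬ (p : ℤ) ∣ A.det ∧ A 1 0 ≠ 0 ∧ A.trace ^ 2 < 4 * A.det := by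
  obtain ⟨σ, a, b, c', ha, hq, rfl⟩ := h
  obtain ⟨A, h1, h2, h3, h4, h5⟩ := exists_prim_fix ha hq hp3
  refine ⟨σ, A, rfl, h1, h2, h3, h4, h5, ?_⟩
  have h6 := disc_neg h1 h5
  rw [disc] at h6
  linarith

end Pool.Agent.II51
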