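import Pool.Agent.II.Defs
import Pool.Agent.II.CMb51

/-! # Integral images, row 6: complex multiplication -/

open UpperHalfPlane Pool.Agent.Helper11.ZP Pool.Agent.Helper20.ZT.Prim

namespace Pool.Agent.II

variable {p : ℕ}

theorem jInv_inj {τ τ' : ℍ} (h : jInv τ = jInv τ') : ∃ G : Mat, G.det = 1 ∧ Mov G τ τ' :=
  II51.jInv_inj h

theorem mov_mul {A B : Mat} {τ τ' τ'' : ℍ} (h : Mov A τ τ') (h' : Mov B τ' τ'') :
    Mov (B * A) τ τ'' := II51.mov_mul h h'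

theorem mov_adj {A : Mat} (hA : A.det ≠ 0) {τ τ' : ℍ} (h : Mov A τ τ') : Mov A.adjugate τ' τ :=
  II51.mov_adj h

theorem mov_unique {A : Mat} (hA : A.det ≠ 0) {τ τ' τ'' : ℍ} (h : Mov A τ τ')
    (h' : Mov A τ τ'') : τ' = τ'' := II51.mov_unique hA h h'

theorem mov_toGL {m : ℤ} (hm : 0 < m) (A : DM m) (τ : ℍ) : Mov A.1 τ (toGL hm A • τ) :=
  II51.mov_toGL hm A τ

theorem mov_exists {A : Mat} (hA : 0 < A.det) (τ : ℍ) : ∃ τ', Mov A τ τ' :=
  ⟨_, mov_toGL hA ⟨A, rfl⟩ τ⟩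

theorem jInv_mov {G : Mat} (hG : G.det = 1) {τ τ' : ℍ} (h : Mov G τ τ') :
    jInv τ' = jInv τ := by
  obtain ⟨g, hg⟩ : ∃ g : Matrix.SpecialLinearGroup (Fin 2) ℤ, g.1 = G := ⟨⟨G, hG⟩, rfl⟩
  subst hg
  have h1 : g • τ = τ' := II51.smul_of_mov h
  rw [← h1]
  exact Helper11.ZU.jInv_SL g τ

theorem special_iff (τ : ℍ) :
    IsSpecialPoint (jInv τ) ↔ ∃ B : Mat, B 1 0 ≠ 0 ∧ Mov B τ τ := by
  constructor
  · rintro ⟨σ, a, b, c, ha, hq, hj⟩
    obtain ⟨G, hG, hM⟩ := jInv_inj hj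
    have hB : Mov !![-b, -c; a, 0] σ σ := by
      simp only [Mov, Matrix.of_apply, Matrix.cons_val', Matrix.cons_val_zero,
        Matrix.cons_val_one, Matrix.cons_val_fin_one]
      push_cast
      linear_combination hq
    have hneg : II51.disc !![-b, -c; a, 0] < 0 := II51.disc_neg hB ha
    have hM' : Mov G.adjugate τ σ := II51.mov_adj hM
    have h1 := II51.fix_conj hB hM'
    refine ⟨_, ?_, h1⟩
    intro h0
    obtain ⟨e1, e2⟩ := II51.scalar_of_fix h1 h0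
    have h2 := II51.disc_conj !![-b, -c; a, 0] G.adjugate
    rw [Matrix.det_adjugate, hG] at h2
    have h3 := II51.disc_eq (G.adjugate.adjugate * !![-b, -c; a, 0] * G.adjugate)
    rw [e1, e2] at h3
    have h4 : II51.disc (G.adjugate.adjugate * !![-b, -c; a, 0] * G.adjugate) = 0 := by
      rw [h3]
      ring
    rw [h4] at h2
    simp only [one_pow, one_mul] at h2
    omega
  · rintro ⟨B, hB, hM⟩
    exact II51.special_of_fix hM hB

theorem sq_of_fixed {A B M : Mat} {τ τ' : ℍ} (hA : A 1 0 ≠ 0) (hB : B 1 0 ≠ 0) (hM : M.det ≠ 0)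
    (h1 : Mov A τ τ) (h2 : Mov B τ' τ') (h3 : Mov M τ τ') : IsSquare (dsc A * dsc B) :=
  II51.isSquare_disc_isog h1 h2 h3 hM

theorem dsc_neg {A : Mat} {τ : ℍ} (hA : A 1 0 ≠ 0) (h : Mov A τ τ) : dsc A < 0 :=
  II51.disc_neg h hA

/-- a primitive matrix of determinant prime to `p` fixing a CM point -/
theorem exists_fix (hp : p.Prime) {B : Mat} (hB : B 1 0 ≠ 0) {σ : ℍ} (hM : Mov B σ σ) :
    ∃ A : Mat, A 1 0 ≠ 0 ∧ Mov A σ σ ∧ Prm A ∧ ¬ (p : ℤ) ∣ A.det ∧ 0 < A.det := by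
  have hp0 : (p : ℤ) ≠ 0 := by exact_mod_cast hp.ne_zero
  have hA1 : Mov !![1, p * B 0 1; p * B 1 0, 1 + p * (B 1 1 - B 0 0)] σ σ := by
    unfold Mov at hM ⊢
    simp only [Matrix.of_apply, Matrix.cons_val', Matrix.cons_val_zero, Matrix.cons_val_one,
      Matrix.cons_val_fin_one]
    push_cast
    linear_combination (p : ℂ) * hM
  have hA0 : (!![1, p * B 0 1; p * B 1 0, 1 + p * (B 1 1 - B 0 0)] : Mat) 1 0 ≠ 0 :=
    mul_ne_zero hp0 hB
  have hdet : (!![1, p * B 0 1; p * B 1 0, 1 + p * (B 1 1 - B 0 0)] : Mat).det =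
      1 + p * ((B 1 1 - B 0 0) - p * (B 0 1 * B 1 0)) := by
    rw [Matrix.det_fin_two]
    simp only [Matrix.of_apply, Matrix.cons_val', Matrix.cons_val_zero, Matrix.cons_val_one,
      Matrix.cons_val_fin_one]
    ring
  refine ⟨_, hA0, hA1, ?_, ?_, ?_⟩
  · intro k hk
    exact hk 0 0
  · rw [hdet]
    intro h
    have h1 : (p : ℤ) ∣ 1 := (dvd_add_left (Dvd.intro _ rfl)).mp h
    have h2 := Int.le_of_dvd (by norm_num) h1
    have h3 : (2 : ℤ) ≤ p := by exact_mod_cast hp.two_le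
    omega
  · have h1 := dsc_neg hA0 hA1
    rw [dsc] at h1
    nlinarith [sq_nonneg (!![1, p * B 0 1; p * B 1 0, 1 + p * (B 1 1 - B 0 0)] : Mat).trace]

end Pool.Agent.II
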