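import Pool.Agent.II.Row7
import Pool.Agent.II.Row6

/-! # Counting the exceptional residue classes (part 2 of Integral images) -/

set_option autoImplicit false

open UpperHalfPlane Finset Pool.Agent.Helper11.ZP Pool.Agent.Helper20.ZT.Prim

namespace Pool.Agent.II

/-- the trace of a centre satisfies the Hasse bound -/
theorem center_lt62 {v : AbsoluteValue ℂ ℝ} {p : ℕ} (hp : p.Prime) {a t : ℤ} {x₀ : ℂ}
    (hC : Center v p a t x₀) : t ^ 2 < 4 * (p : ℤ) := by
  obtain ⟨A, τ, hdet, htr, hM, -⟩ := hC.ex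
  by_cases h : A 1 0 = 0
  · exfalso
    have h1 := hM
    unfold Mov at h1
    rw [h] at h1
    have him := congrArg Complex.im h1
    have hre := congrArg Complex.re h1
    simp at him hre
    have hτ : τ.im ≠ 0 := τ.im_pos.ne'
    have e1 : (A 1 1 : ℝ) = A 0 0 := by
      have h2 : ((A 1 1 : ℝ) - A 0 0) * τ.im = 0 := by
        linarith
      rcases mul_eq_zero.1 h2 with h3 | h3
      · linarith
      · exact absurd h3 hτ
    have e2 : A 1 1 = A 0 0 := by exact_mod_cast e1
    apply not_isSquare_prime62 hp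
    refine ⟨A 0 0, ?_⟩
    rw [← hdet, Matrix.det_fin_two, h, e2]
    ring
  · have h2 := dsc_neg h hM
    unfold dsc at h2
    rw [htr, hdet] at h2
    linarith

/-- a centre depends on the integer only modulo `p` -/
theorem center_congr62 {v : AbsoluteValue ℂ ℝ} (hv : IsNonarchimedean v) {p : ℕ}
    (hvp : v (p : ℂ) < 1) {a b t : ℤ} {x₀ : ℂ} (h : (p : ℤ) ∣ a - b) (hC : Center v p a t x₀) :
    Center v p b t x₀ := by
  refine ⟨?_, hC.ex⟩
  obtain ⟨k, hk⟩ := h
  have e1 : x₀ - (b : ℂ) = (x₀ - a) + ((a - b : ℤ) : ℂ) := by push_cast; ring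
  rw [e1]
  refine lt_of_le_of_lt (hv _ _) (max_lt hC.near ?_)
  rw [hk]
  push_cast
  rw [map_mul]
  calc v (p : ℂ) * v (k : ℂ) ≤ v (p : ℂ) * 1 :=
        mul_le_mul_of_nonneg_left (int_le_one62 hv k) (v.nonneg _)
    _ < 1 := by rw [mul_one]; exact hvp

/-- counting along one coordinate -/
theorem fiber_count62 {n p : ℕ} [NeZero p] (j : Fin n) (S : Finset (Fin n → ZMod p)) {B : ℝ}
    (h : ∀ w : Fin n → ZMod p,
      (((univ : Finset (ZMod p)).filter (fun x => Function.update w j x ∈ S)).card : ℝ) ≤ B) :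
    (S.card : ℝ) ≤ B * (p : ℝ) ^ (n - 1) := by
  classical
  have hB : 0 ≤ B := le_trans (Nat.cast_nonneg _) (h 0)
  have h1 := Finset.card_le_mul_card_image (f := fun r : Fin n → ZMod p => Function.update r j 0)
    S (Nat.floor B) (by
      intro a _
      refine Nat.le_floor (le_trans ?_ (h a))
      rw [Nat.cast_le]
      refine Finset.card_le_card_of_injOn (fun r => r j) ?_ ?_
      · intro r hr
        rw [mem_coe, mem_filter] at hr
        rw [mem_coe, mem_filter]
        refine ⟨mem_univ _, ?_⟩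
        rw [← hr.2]
        simp
        exact hr.1
      · intro r hr s hs hrs
        rw [mem_coe, mem_filter] at hr hs
        have e := hr.2.trans hs.2.symm
        funext k
        by_cases hk : k = j
        · rw [hk]; exact hrs
        · have := congrFun e k
          simpa [Function.update_of_ne hk] using this)
  have h2 : (S.image (fun r : Fin n → ZMod p => Function.update r j 0)).card ≤ p ^ (n - 1) := by
    have h3 : (S.image (fun r : Fin n → ZMod p => Function.update r j 0)).card ≤
        (univ : Finset ({k : Fin n // k ≠ j} → ZMod p)).card := by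
      refine Finset.card_le_card_of_injOn (fun r k => r k.1) (fun _ _ => by simp) ?_
      intro r hr s hs hrs
      rw [mem_coe, mem_image] at hr hs
      obtain ⟨r', -, rfl⟩ := hr
      obtain ⟨s', -, rfl⟩ := hs
      funext k
      by_cases hk : k = j
      · rw [hk]; simp
      · exact congrFun hrs ⟨k, hk⟩
    refine h3.trans (le_of_eq ?_)
    rw [Finset.card_univ, Fintype.card_fun, ZMod.card]
    congr 1
    rw [Fintype.card_subtype_compl, Fintype.card_fin, Fintype.card_subtype_eq]
  calc (S.card : ℝ) ≤ ((Nat.floor B * (S.image (fun r : Fin n → ZMod p =>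
          Function.update r j 0)).card : ℕ) : ℝ) := by exact_mod_cast h1
    _ = (Nat.floor B : ℝ) * ((S.image (fun r : Fin n → ZMod p =>
          Function.update r j 0)).card : ℝ) := by push_cast; ring
    _ ≤ B * (p : ℝ) ^ (n - 1) := by
        apply mul_le_mul (Nat.floor_le hB) _ (Nat.cast_nonneg _) hB
        exact_mod_cast h2

/-- the exceptional residue classes -/
def BadClass62 {n p : ℕ} (t : ZMod p → ℤ) (r : Fin n → ZMod p) : Prop :=
  ¬ ((∀ i, t (r i) ≠ 0) ∧
    ∀ i j, i ≠ j → ¬ IsSquare ((t (r i) ^ 2 - 4 * (p : ℤ)) * (t (r j) ^ 2 - 4 * (p : ℤ))))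

open Classical in
/-- **there are few exceptional residue classes** -/
theorem bad_classes (n : ℕ) : ∃ C : ℝ, ∀ (v : AbsoluteValue ℂ ℝ) (p : ℕ) [NeZero p],
    IsNonarchimedean v → p.Prime → v (p : ℂ) < 1 → ∀ t : ZMod p → ℤ,
      (∀ r : ZMod p, ∃ x₀, Center v p (r.val : ℤ) (t r) x₀) →
      (((univ : Finset (Fin n → ZMod p)).filter (BadClass62 t)).card : ℝ) ≤
        C * (p : ℝ) ^ ((n : ℝ) - 1 / 6) := by
  obtain ⟨C₀, hC₀⟩ := count_trace
  set C₁ : ℝ := max C₀ 0 with hC₁
  have hC₁0 : 0 ≤ C₁ := le_max_right _ _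
  refine ⟨(n + n * n * 40) * C₁, fun v p _ hv hp hvp t ht => ?_⟩
  have hp0 : (0 : ℝ) < p := by exact_mod_cast hp.pos
  -- fibres of the trace
  have hfib : ∀ c : ℤ, (((univ : Finset (ZMod p)).filter (fun r => t r = c)).card : ℝ) ≤
      C₁ * (p : ℝ) ^ (5 / 6 : ℝ) := by
    intro c
    have h1 := hC₀ v p hv hp hvp c
      (((univ : Finset (ZMod p)).filter (fun r => t r = c)).image (fun r => (r.val : ℤ))) (by
        intro b hb
        rw [mem_image] at hb
        obtain ⟨r, hr, rfl⟩ := hb
        rw [mem_filter] at hr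
        refine ⟨by positivity, by exact_mod_cast ZMod.val_lt r, ?_⟩
        obtain ⟨x₀, hx₀⟩ := ht r
        rw [hr.2] at hx₀
        exact ⟨x₀, hx₀⟩)
    rw [Finset.card_image_of_injective] at h1
    · refine h1.trans (mul_le_mul_of_nonneg_right (le_max_left _ _) (by positivity))
    · intro r s hrs
      simp only [Nat.cast_inj] at hrs
      exact ZMod.val_injective p hrs
  have hlt : ∀ r : ZMod p, t r ^ 2 < 4 * (p : ℤ) := by
    intro r
    obtain ⟨x₀, hx₀⟩ := ht r
    exact center_lt62 hp hx₀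
  -- fibres of the field
  have hfld : ∀ s : ZMod p, (((univ : Finset (ZMod p)).filter (fun r =>
      IsSquare ((t s ^ 2 - 4 * (p : ℤ)) * (t r ^ 2 - 4 * (p : ℤ))))).card : ℝ) ≤
      40 * (C₁ * (p : ℝ) ^ (5 / 6 : ℝ)) := by
    intro s
    have hD : t s ^ 2 - 4 * (p : ℤ) ≠ 0 := by
      have := hlt s
      omega
    set F := (univ : Finset (ZMod p)).filter (fun r =>
      IsSquare ((t s ^ 2 - 4 * (p : ℤ)) * (t r ^ 2 - 4 * (p : ℤ)))) with hF
    have h1 : (F.image t).card ≤ 40 := by
      refine count_field hp hD _ ?_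
      intro c hc
      rw [mem_image] at hc
      obtain ⟨r, hr, rfl⟩ := hc
      rw [hF, mem_filter] at hr
      exact ⟨hlt r, hr.2⟩
    have h2 : (F.card : ℝ) ≤ ∑ c ∈ F.image t,
        (((univ : Finset (ZMod p)).filter (fun r => t r = c)).card : ℝ) := by
      rw [Finset.card_eq_sum_card_image t F]
      push_cast
      refine Finset.sum_le_sum fun c _ => ?_
      rw [Nat.cast_le]
      refine Finset.card_le_card ?_
      intro r hr
      rw [mem_filter] at hr
      rw [mem_filter]
      exact ⟨mem_univ _, hr.2⟩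
    refine h2.trans ?_
    refine (Finset.sum_le_card_nsmul _ _ _ (fun c _ => hfib c)).trans ?_
    rw [nsmul_eq_mul]
    refine mul_le_mul_of_nonneg_right (by exact_mod_cast h1) (by positivity)
  -- the bad set
  set E := C₁ * (p : ℝ) ^ (5 / 6 : ℝ) with hE
  have hE0 : 0 ≤ E := by positivity
  have hsub : (univ : Finset (Fin n → ZMod p)).filter (BadClass62 t) ⊆
      ((univ : Finset (Fin n)).biUnion (fun i =>
        (univ : Finset (Fin n → ZMod p)).filter (fun r => t (r i) = 0))) ∪
      (((univ : Finset (Fin n × Fin n)).filter (fun q => q.1 ≠ q.2)).biUnion (fun q =>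
        (univ : Finset (Fin n → ZMod p)).filter (fun r =>
          IsSquare ((t (r q.1) ^ 2 - 4 * (p : ℤ)) * (t (r q.2) ^ 2 - 4 * (p : ℤ)))))) := by
    intro r hr
    rw [mem_filter] at hr
    have h1 := hr.2
    unfold BadClass62 at h1
    rw [not_and_or] at h1
    rw [mem_union, mem_biUnion, mem_biUnion]
    rcases h1 with h1 | h1
    · left
      push Not at h1
      obtain ⟨i, hi⟩ := h1
      exact ⟨i, mem_univ _, mem_filter.2 ⟨mem_univ _, hi⟩⟩
    · right
      push Not at h1
      obtain ⟨i, j, hij, h⟩ := h1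
      exact ⟨(i, j), mem_filter.2 ⟨mem_univ _, hij⟩, mem_filter.2 ⟨mem_univ _, h⟩⟩
  have hA : ∀ i : Fin n, (((univ : Finset (Fin n → ZMod p)).filter
      (fun r => t (r i) = 0)).card : ℝ) ≤ E * (p : ℝ) ^ (n - 1) := by
    intro i
    refine fiber_count62 i _ (fun w => le_trans ?_ (hfib 0))
    rw [Nat.cast_le]
    refine Finset.card_le_card ?_
    intro x hx
    rw [mem_filter, mem_filter] at hx
    rw [mem_filter]
    refine ⟨mem_univ _, ?_⟩
    simpa using hx.2.2
  have hBq : ∀ q ∈ (univ : Finset (Fin n × Fin n)).filter (fun q => q.1 ≠ q.2),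
      (((univ : Finset (Fin n → ZMod p)).filter (fun r =>
        IsSquare ((t (r q.1) ^ 2 - 4 * (p : ℤ)) * (t (r q.2) ^ 2 - 4 * (p : ℤ))))).card : ℝ) ≤
      40 * E * (p : ℝ) ^ (n - 1) := by
    intro q hq
    rw [mem_filter] at hq
    refine fiber_count62 q.2 _ (fun w => le_trans ?_ (hfld (w q.1)))
    rw [Nat.cast_le]
    refine Finset.card_le_card ?_
    intro x hx
    rw [mem_filter, mem_filter] at hx
    rw [mem_filter]
    refine ⟨mem_univ _, ?_⟩
    have h1 := hx.2.2
    rw [Function.update_of_ne hq.2, Function.update_self] at h1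
    exact h1
  rcases Nat.eq_zero_or_pos n with hn | hn
  · subst hn
    have h0 : (univ : Finset (Fin 0 → ZMod p)).filter (BadClass62 t) = ∅ := by
      rw [Finset.filter_eq_empty_iff]
      intro r _ h
      exact h ⟨fun i => i.elim0, fun i => i.elim0⟩
    rw [h0]
    simp
  have hpow : (p : ℝ) ^ (5 / 6 : ℝ) * (p : ℝ) ^ (n - 1) = (p : ℝ) ^ ((n : ℝ) - 1 / 6) := by
    rw [← Real.rpow_natCast, ← Real.rpow_add hp0]
    congr 1
    rw [Nat.cast_sub hn]
    push_cast
    ring
  calc (((univ : Finset (Fin n → ZMod p)).filter (BadClass62 t)).card : ℝ)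
      ≤ ((((univ : Finset (Fin n)).biUnion (fun i =>
        (univ : Finset (Fin n → ZMod p)).filter (fun r => t (r i) = 0))).card : ℕ) : ℝ) +
      (((((univ : Finset (Fin n × Fin n)).filter (fun q => q.1 ≠ q.2)).biUnion (fun q =>
        (univ : Finset (Fin n → ZMod p)).filter (fun r =>
          IsSquare ((t (r q.1) ^ 2 - 4 * (p : ℤ)) * (t (r q.2) ^ 2 - 4 * (p : ℤ)))))).card : ℕ) : ℝ) := by
        exact_mod_cast (card_le_card hsub).trans (card_union_le _ _)
    _ ≤ n * (E * (p : ℝ) ^ (n - 1)) + (n * n) * (40 * E * (p : ℝ) ^ (n - 1)) := by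
        refine add_le_add ?_ ?_
        · calc ((((univ : Finset (Fin n)).biUnion (fun i =>
              (univ : Finset (Fin n → ZMod p)).filter (fun r => t (r i) = 0))).card : ℕ) : ℝ)
              ≤ ∑ i : Fin n, (((univ : Finset (Fin n → ZMod p)).filter
                (fun r => t (r i) = 0)).card : ℝ) := by exact_mod_cast card_biUnion_le
            _ ≤ ∑ _i : Fin n, E * (p : ℝ) ^ (n - 1) := sum_le_sum fun i _ => hA i
            _ = _ := by rw [sum_const, card_univ, Fintype.card_fin, nsmul_eq_mul]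
        · calc (((((univ : Finset (Fin n × Fin n)).filter (fun q => q.1 ≠ q.2)).biUnion (fun q =>
              (univ : Finset (Fin n → ZMod p)).filter (fun r =>
              IsSquare ((t (r q.1) ^ 2 - 4 * (p : ℤ)) * (t (r q.2) ^ 2 - 4 * (p : ℤ)))))).card : ℕ) : ℝ)
              ≤ ∑ q ∈ (univ : Finset (Fin n × Fin n)).filter (fun q => q.1 ≠ q.2),
                (((univ : Finset (Fin n → ZMod p)).filter (fun r =>
                IsSquare ((t (r q.1) ^ 2 - 4 * (p : ℤ)) * (t (r q.2) ^ 2 - 4 * (p : ℤ))))).card : ℝ) := by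
                exact_mod_cast card_biUnion_le
            _ ≤ ∑ _q ∈ (univ : Finset (Fin n × Fin n)).filter (fun q => q.1 ≠ q.2),
                40 * E * (p : ℝ) ^ (n - 1) := sum_le_sum hBq
            _ ≤ _ := by
                rw [sum_const, nsmul_eq_mul]
                refine mul_le_mul_of_nonneg_right ?_ (by positivity)
                have h5 := card_filter_le (univ : Finset (Fin n × Fin n)) (fun q => q.1 ≠ q.2)
                rw [card_univ, Fintype.card_prod, Fintype.card_fin] at h5
                exact_mod_cast h5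
    _ = (n + n * n * 40) * C₁ * ((p : ℝ) ^ (5 / 6 : ℝ) * (p : ℝ) ^ (n - 1)) := by
        rw [hE]; ring
    _ = (n + n * n * 40) * C₁ * (p : ℝ) ^ ((n : ℝ) - 1 / 6) := by rw [hpow]

end Pool.Agent.II
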