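import Pool.Agent.Helper11.ZU.Hyper

/-! # The primitive modular polynomials are 1-Lipschitz for a nonarchimedean absolute value of ℂ -/

open Polynomial UpperHalfPlane

namespace Pool.Agent.II9
open Pool.Agent.Helper11.ZP Pool.Agent.Helper20.ZT.Prim

variable {v : AbsoluteValue ℂ ℝ}

/-- the unit ball as a subring -/
def vball (v : AbsoluteValue ℂ ℝ) (hv : IsNonarchimedean v) : Subring ℂ where
  carrier := {x | v x ≤ 1}
  mul_mem' {a b} ha hb := by
    change v (a * b) ≤ 1
    rw [map_mul]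
    exact mul_le_one₀ ha (v.nonneg _) hb
  one_mem' := by change v 1 ≤ 1; rw [map_one]
  add_mem' {a b} ha hb := (hv a b).trans (max_le ha hb)
  zero_mem' := by change v 0 ≤ 1; rw [map_zero]; exact zero_le_one
  neg_mem' {a} ha := by change v (-a) ≤ 1; rw [v.map_neg]; exact ha

lemma mem_vball {hv : IsNonarchimedean v} {x : ℂ} : x ∈ vball v hv ↔ v x ≤ 1 := Iff.rfl

lemma v_sum_le (hv : IsNonarchimedean v) {ι : Type*} (s : Finset ι) (f : ι → ℂ) {B : ℝ} (hB : 0 ≤ B)
    (h : ∀ i ∈ s, v (f i) ≤ B) : v (∑ i ∈ s, f i) ≤ B := by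
  classical
  induction s using Finset.induction_on with
  | empty => simpa using hB
  | insert a s ha ih =>
    rw [Finset.sum_insert ha]
    exact (hv _ _).trans (max_le (h a (Finset.mem_insert_self a s))
      (ih fun i hi => h i (Finset.mem_insert_of_mem hi)))

lemma v_int (hv : IsNonarchimedean v) (n : ℤ) : v (n : ℂ) ≤ 1 := by
  rw [← mem_vball (hv := hv)]
  exact intCast_mem _ n

/-- algebraic integers lie in the unit ball -/
lemma v_isIntegral (hv : IsNonarchimedean v) {x : ℂ} (hx : IsIntegral ℤ x) : v x ≤ 1 := by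
  by_contra hcon
  push Not at hcon
  obtain ⟨P, hP, hPx⟩ := hx
  have hx0 : 0 < v x := one_pos.trans hcon
  have hnd : 0 < P.natDegree := by
    rw [pos_iff_ne_zero]
    intro h0
    rw [hP.natDegree_eq_zero.1 h0, eval₂_one] at hPx
    exact one_ne_zero hPx
  have h1 : x ^ P.natDegree = - ∑ i ∈ Finset.range P.natDegree, (P.coeff i : ℂ) * x ^ i := by
    rw [eval₂_eq_sum_range, Finset.sum_range_succ, hP.coeff_natDegree, map_one, one_mul] at hPx
    simp only [algebraMap_int_eq, eq_intCast] at hPx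
    linear_combination hPx
  have h2 : v (∑ i ∈ Finset.range P.natDegree, (P.coeff i : ℂ) * x ^ i) ≤ v x ^ (P.natDegree - 1) := by
    refine v_sum_le hv _ _ (pow_nonneg hx0.le _) fun i hi => ?_
    rw [map_mul, map_pow]
    rw [Finset.mem_range] at hi
    calc v (P.coeff i : ℂ) * v x ^ i ≤ 1 * v x ^ (P.natDegree - 1) :=
          mul_le_mul (v_int hv _) (pow_le_pow_right₀ hcon.le (by omega)) (pow_nonneg hx0.le _) zero_le_one
      _ = _ := one_mul _
  have h3 : v x ^ P.natDegree ≤ v x ^ (P.natDegree - 1) := by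
    rw [← map_pow, h1, v.map_neg]
    exact h2
  exact absurd h3 (not_le.2 (pow_lt_pow_right₀ hcon (by omega)))

/-- value of a polynomial with integral coefficients, in the subring -/
noncomputable def ballMap (hv : IsNonarchimedean v) : OO →+* vball v hv :=
  (algebraMap OO ℂ).codRestrict (vball v hv) fun x => v_isIntegral hv x.2

lemma evO_ball (hv : IsNonarchimedean v) (x : vball v hv) (p : Polynomial OO) :
    evO (x : ℂ) p = ((p.eval₂ (ballMap hv) x : vball v hv) : ℂ) := by
  have h : evO (x : ℂ) = (vball v hv).subtype.comp (eval₂RingHom (ballMap hv) x) := by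
    refine ringHom_ext (fun a => ?_) ?_
    · simp [evO, ballMap]
    · simp [evO]
  rw [h]
  rfl

lemma eval_ball (hv : IsNonarchimedean v) (x y : vball v hv) (F : Polynomial (Polynomial OO)) :
    F.eval₂ (evO (x : ℂ)) (y : ℂ) =
      ((F.eval₂ (eval₂RingHom (ballMap hv) x) y : vball v hv) : ℂ) := by
  have h : evO (x : ℂ) = (vball v hv).subtype.comp (eval₂RingHom (ballMap hv) x) :=
    RingHom.ext fun p => evO_ball hv x p
  rw [h]
  exact (Polynomial.hom_eval₂ F _ (vball v hv).subtype y).symm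

/-- the values of `F` on integral points are integral -/
lemma v_eval_le (hv : IsNonarchimedean v) {x y : ℂ} (hx : v x ≤ 1) (hy : v y ≤ 1)
    (F : Polynomial (Polynomial OO)) : v (F.eval₂ (evO x) y) ≤ 1 := by
  rw [eval_ball hv ⟨x, hx⟩ ⟨y, hy⟩ F]
  exact (F.eval₂ (eval₂RingHom (ballMap hv) ⟨x, hx⟩) (⟨y, hy⟩ : vball v hv)).2

/-- `F` is 1-Lipschitz in the first variable -/
theorem v_eval_sub_left (hv : IsNonarchimedean v) {x x' y : ℂ} (hx : v x ≤ 1) (hx' : v x' ≤ 1)
    (hy : v y ≤ 1) (F : Polynomial (Polynomial OO)) :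
    v (F.eval₂ (evO x) y - F.eval₂ (evO x') y) ≤ v (x - x') := by
  obtain ⟨c, hc⟩ : ∃ c : vball v hv, F.eval₂ (evO x) y - F.eval₂ (evO x') y = (x - x') * c := by
    let X : vball v hv := ⟨x, hx⟩
    let X' : vball v hv := ⟨x', hx'⟩
    let Y : vball v hv := ⟨y, hy⟩
    let G : Polynomial (vball v hv) := (F.eval₂ (mapRingHom (ballMap hv)) (C Y))
    have hG : ∀ Z : vball v hv, F.eval₂ (eval₂RingHom (ballMap hv) Z) Y = G.eval Z := by
      intro Z
      have h1 : G.eval Z = evalRingHom Z G := rfl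
      rw [h1]
      change _ = evalRingHom Z (F.eval₂ (mapRingHom (ballMap hv)) (C Y))
      rw [Polynomial.hom_eval₂]
      congr 1
      · refine ringHom_ext (fun a => ?_) ?_
        · simp
        · simp
      · simp
    obtain ⟨c, hc⟩ := sub_dvd_eval_sub X X' G
    refine ⟨c, ?_⟩
    have h1 := eval_ball hv X Y F
    have h2 := eval_ball hv X' Y F
    rw [hG] at h1 h2
    have h3 : F.eval₂ (evO x) y = ((G.eval X : vball v hv) : ℂ) := h1
    have h4 : F.eval₂ (evO x') y = ((G.eval X' : vball v hv) : ℂ) := h2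
    rw [h3, h4]
    exact congrArg (vball v hv).subtype hc
  rw [hc, map_mul]
  exact mul_le_of_le_one_right (v.nonneg _) c.2

/-- `F` is 1-Lipschitz in the second variable -/
theorem v_eval_sub_right (hv : IsNonarchimedean v) {x y y' : ℂ} (hx : v x ≤ 1) (hy : v y ≤ 1)
    (hy' : v y' ≤ 1) (F : Polynomial (Polynomial OO)) :
    v (F.eval₂ (evO x) y - F.eval₂ (evO x) y') ≤ v (y - y') := by
  obtain ⟨c, hc⟩ : ∃ c : vball v hv, F.eval₂ (evO x) y - F.eval₂ (evO x) y' = (y - y') * c := by
    let X : vball v hv := ⟨x, hx⟩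
    let Y : vball v hv := ⟨y, hy⟩
    let Y' : vball v hv := ⟨y', hy'⟩
    let G : Polynomial (vball v hv) := F.map (eval₂RingHom (ballMap hv) X)
    obtain ⟨c, hc⟩ := sub_dvd_eval_sub Y Y' G
    refine ⟨c, ?_⟩
    have hG : ∀ Z : vball v hv, F.eval₂ (eval₂RingHom (ballMap hv) X) Z = G.eval Z := fun Z =>
      eval₂_eq_eval_map _
    have h1 := eval_ball hv X Y F
    have h2 := eval_ball hv X Y' F
    rw [hG] at h1 h2
    have h3 : F.eval₂ (evO x) y = ((G.eval Y : vball v hv) : ℂ) := h1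
    have h4 : F.eval₂ (evO x) y' = ((G.eval Y' : vball v hv) : ℂ) := h2
    rw [h3, h4]
    exact congrArg (vball v hv).subtype hc
  rw [hc, map_mul]
  exact mul_le_of_le_one_right (v.nonneg _) c.2

end Pool.Agent.II9
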