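import Mathlib
import Pool.Agent.Helper73.RK.DivBound

/-!
# Counting reduced matrices of given trace and determinant `p`, and traces with a given field
-/

set_option autoImplicit false

namespace Pool.Agent.II

open Finset

/-- the basic facts on a reduced matrix of determinant `p`, `p` not a square -/
theorem reduced62 {p : ℕ} (hp : ¬ IsSquare (p : ℤ)) {t a b c d : ℤ} (ht : a + d = t)
    (hdet : a * d - b * c = p) (h1 : |a - d| ≤ c) (h2 : c ≤ -b) :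
    1 ≤ c ∧ 1 ≤ c * (-b) ∧ 4 * (c * (-b)) = 4 * p - t ^ 2 + (a - d) ^ 2 ∧
      c * (-b) ≤ 2 * p ∧ (a - d) ^ 2 ≤ 2 * p := by
  have hc0 : 0 ≤ c := (abs_nonneg _).trans h1
  have hc : 1 ≤ c := by
    rcases hc0.eq_or_lt with h | h
    · exfalso
      rw [← h] at h1 hdet
      have h3 : a - d = 0 := abs_nonpos_iff.1 h1
      have h4 : a = d := by linarith
      exact hp ⟨a, by rw [← hdet, h4]; ring⟩
    · omega
  have hb : 1 ≤ -b := hc.trans h2
  have h5 : 1 ≤ c * (-b) := by nlinarith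
  have h6 : (a - d) ^ 2 ≤ c ^ 2 := by
    rw [sq_le_sq, abs_of_nonneg hc0]
    exact h1
  have h7 : c ^ 2 ≤ c * (-b) := by nlinarith
  have h8 : 4 * (c * (-b)) = 4 * p - t ^ 2 + (a - d) ^ 2 := by
    rw [← ht, ← hdet]
    ring
  have h9 : 3 * (c * (-b)) ≤ 4 * p := by nlinarith [sq_nonneg t]
  exact ⟨hc, h5, h8, by linarith, by linarith⟩

/-- the set of the reduced matrices of trace `t` and determinant `p` -/
def redSet (t : ℤ) (p : ℕ) : Set (ℤ × ℤ × ℤ × ℤ) :=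
  {x | x.1 + x.2.2.2 = t ∧ x.1 * x.2.2.2 - x.2.1 * x.2.2.1 = p ∧
    |x.1 - x.2.2.2| ≤ x.2.2.1 ∧ x.2.2.1 ≤ -x.2.1}

/-- the pairs `(a - d, c)` of the reduced matrices -/
noncomputable def box62 (t : ℤ) (p : ℕ) : Finset (ℤ × ℕ) :=
  (Finset.Icc (-(Nat.sqrt (2 * p) : ℤ)) (Nat.sqrt (2 * p))).biUnion fun m =>
    if 0 < 4 * (p : ℤ) - t ^ 2 + m ^ 2 ∧ 4 * (p : ℤ) - t ^ 2 + m ^ 2 ≤ 8 * p then
      ((4 * (p : ℤ) - t ^ 2 + m ^ 2).toNat / 4).divisors.image fun c => (m, c)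
    else ∅

theorem maps62 {p : ℕ} (hp : ¬ IsSquare (p : ℤ)) {t : ℤ} {x : ℤ × ℤ × ℤ × ℤ}
    (hx : x ∈ redSet t p) : (x.1 - x.2.2.2, x.2.2.1.toNat) ∈ box62 t p := by
  obtain ⟨a, b, c, d⟩ := x
  obtain ⟨h1, h2, h3, h4⟩ := hx
  simp only at h1 h2 h3 h4 ⊢
  obtain ⟨k1, k2, k3, k4, k5⟩ := reduced62 hp h1 h2 h3 h4
  rw [box62, Finset.mem_biUnion]
  refine ⟨a - d, ?_, ?_⟩
  · rw [Finset.mem_Icc, ← abs_le]
    have h5 : ((a - d).natAbs) ^ 2 ≤ 2 * p := by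
      zify
      rw [sq_abs]
      exact k5
    have h6 : (a - d).natAbs ≤ Nat.sqrt (2 * p) := by
      rw [Nat.le_sqrt, ← sq]
      exact h5
    zify at h6
    exact h6
  · have h5 : 0 < 4 * (p : ℤ) - t ^ 2 + (a - d) ^ 2 := by rw [← k3]; linarith
    have h6 : 4 * (p : ℤ) - t ^ 2 + (a - d) ^ 2 ≤ 8 * p := by rw [← k3]; linarith
    rw [if_pos ⟨h5, h6⟩, Finset.mem_image]
    refine ⟨c.toNat, ?_, rfl⟩
    rw [← k3, Nat.mem_divisors]
    have h7 : (4 * (c * -b)).toNat / 4 = c.toNat * (-b).toNat := by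
      have h8 : (4 * (c * -b)).toNat = 4 * (c.toNat * (-b).toNat) := by
        zify
        rw [Int.toNat_of_nonneg (by linarith), Int.toNat_of_nonneg (by linarith),
          Int.toNat_of_nonneg (by linarith)]
      rw [h8]
      exact Nat.mul_div_cancel_left _ (by norm_num)
    rw [h7]
    refine ⟨dvd_mul_right _ _, ?_⟩
    have h9 : 0 < c.toNat := by omega
    have h10 : 0 < (-b).toNat := by omega
    positivity

theorem injOn62 {p : ℕ} (hp : ¬ IsSquare (p : ℤ)) {t : ℤ} :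
    Set.InjOn (fun x : ℤ × ℤ × ℤ × ℤ => (x.1 - x.2.2.2, x.2.2.1.toNat)) (redSet t p) := by
  rintro ⟨a, b, c, d⟩ ⟨h1, h2, h3, h4⟩ ⟨a', b', c', d'⟩ ⟨h1', h2', h3', h4'⟩ h
  simp only [Prod.mk.injEq] at h h1 h2 h3 h4 h1' h2' h3' h4'
  obtain ⟨k1, -⟩ := reduced62 hp h1 h2 h3 h4
  obtain ⟨k1', -⟩ := reduced62 hp h1' h2' h3' h4'
  obtain ⟨e1, e2⟩ := h
  have e3 : a = a' := by omega
  have e4 : d = d' := by omega
  have e5 : c = c' := by omega
  subst e3 e4 e5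
  have e6 : b * c = b' * c := by linarith
  have e7 : b = b' := by
    have : c ≠ 0 := by omega
    exact mul_right_cancel₀ this e6
  rw [e7]

theorem redSet_finite {p : ℕ} (hp : ¬ IsSquare (p : ℤ)) (t : ℤ) : (redSet t p).Finite :=
  Set.Finite.of_finite_image ((box62 t p).finite_toSet.subset (by
    rintro _ ⟨x, hx, rfl⟩
    exact maps62 hp hx)) (injOn62 hp)

theorem card_box62 {C : ℕ} (hC : ∀ n : ℕ, n ≠ 0 → n.divisors.card ^ 3 ≤ C * n) {p : ℕ}
    (hp : 1 ≤ p) (t : ℤ) : (box62 t p).card ^ 6 ≤ (729 * 8 * (2 * C) ^ 2) * p ^ 5 := by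
  set K := Nat.sqrt (2 * p) with hK
  have hK1 : 1 ≤ K := by
    rw [hK, Nat.le_sqrt]
    omega
  have hK2 : K ^ 2 ≤ 2 * p := by
    rw [sq]
    exact Nat.sqrt_le _
  -- a bound for the numbers of divisors
  obtain ⟨D, hD1, hD2⟩ : ∃ D : ℕ, D ^ 3 ≤ 2 * C * p ∧ ∀ n : ℕ, n ≤ 2 * p → n.divisors.card ≤ D := by
    refine ⟨(Finset.range (2 * p + 1)).sup fun n => n.divisors.card, ?_, fun n hn =>
      Finset.le_sup (f := fun n : ℕ => n.divisors.card) (Finset.mem_range.2 (by omega))⟩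
    obtain ⟨n, hn, h⟩ := Finset.exists_mem_eq_sup (Finset.range (2 * p + 1)) ⟨0, by simp⟩
      (fun n => n.divisors.card)
    rw [h]
    rcases Nat.eq_zero_or_pos n with rfl | hn0
    · simp
    · refine (hC n hn0.ne').trans ?_
      have : n ≤ 2 * p := by
        have := Finset.mem_range.1 hn
        omega
      calc C * n ≤ C * (2 * p) := Nat.mul_le_mul_left _ this
        _ = _ := by ring
  have h1 : (box62 t p).card ≤ (2 * K + 1) * D := by
    rw [box62]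
    refine Finset.card_biUnion_le.trans ?_
    calc _ ≤ ∑ _m ∈ Finset.Icc (-(K : ℤ)) K, D := by
          refine Finset.sum_le_sum fun m _ => ?_
          split_ifs with h
          · refine Finset.card_image_le.trans (hD2 _ ?_)
            omega
          · simp
      _ = (2 * K + 1) * D := by
          rw [Finset.sum_const, smul_eq_mul, Int.card_Icc]
          congr 1
          omega
  calc (box62 t p).card ^ 6 ≤ ((2 * K + 1) * D) ^ 6 := Nat.pow_le_pow_left h1 _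
    _ ≤ (3 * K * D) ^ 6 := by
        refine Nat.pow_le_pow_left (Nat.mul_le_mul_right _ ?_) _
        omega
    _ = 729 * (K ^ 2) ^ 3 * (D ^ 3) ^ 2 := by ring
    _ ≤ 729 * (2 * p) ^ 3 * (2 * C * p) ^ 2 := by gcongr
    _ = _ := by ring

/-- **Class number bound.** -/
theorem card_redSet : ∃ C : ℕ, ∀ p : ℕ, ¬ IsSquare (p : ℤ) → ∀ t : ℤ,
    (redSet t p).Finite ∧ (redSet t p).ncard ^ 6 ≤ C * p ^ 5 := by
  obtain ⟨C, -, hC⟩ := Pool.Agent.Helper73.RK.card_divisors_pow_le 3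
  refine ⟨729 * 8 * (2 * C) ^ 2, fun p hp t => ⟨redSet_finite hp t, ?_⟩⟩
  have hp1 : 1 ≤ p := by
    rcases Nat.eq_zero_or_pos p with rfl | h
    · exact absurd ⟨0, by simp⟩ hp
    · exact h
  refine le_trans (Nat.pow_le_pow_left ?_ 6) (card_box62 hC hp1 t)
  rw [← Set.ncard_coe_finset (box62 t p)]
  exact Set.ncard_le_ncard_of_injOn _ (fun x hx => maps62 hp hx) (injOn62 hp)
    (Finset.finite_toSet _)

theorem not_isSquare_prime62 {p : ℕ} (hp : p.Prime) : ¬ IsSquare (p : ℤ) := by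
  intro h
  exact (Nat.prime_iff_prime_int.1 hp).irreducible.not_isSquare h

/-- **Class number bound**, with a real exponent. -/
theorem card_redSet_rpow : ∃ C : ℝ, 0 < C ∧ ∀ p : ℕ, p.Prime → ∀ t : ℤ,
    (redSet t p).Finite ∧ ((redSet t p).ncard : ℝ) ≤ C * (p : ℝ) ^ (5 / 6 : ℝ) := by
  obtain ⟨C, hC⟩ := card_redSet
  refine ⟨(C : ℝ) + 1, by positivity, fun p hp t => ?_⟩
  obtain ⟨h1, h2⟩ := hC p (not_isSquare_prime62 hp) t
  refine ⟨h1, ?_⟩
  have hp0 : (0 : ℝ) ≤ p := Nat.cast_nonneg _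
  have h3 : ((redSet t p).ncard : ℝ) ^ 6 ≤ (((C : ℝ) + 1) * (p : ℝ) ^ (5 / 6 : ℝ)) ^ 6 := by
    have h4 : ((p : ℝ) ^ (5 / 6 : ℝ)) ^ 6 = (p : ℝ) ^ 5 := by
      rw [← Real.rpow_natCast, ← Real.rpow_mul hp0, ← Real.rpow_natCast (p : ℝ) 5]
      norm_num
    rw [mul_pow, h4]
    calc ((redSet t p).ncard : ℝ) ^ 6 ≤ (C : ℝ) * (p : ℝ) ^ 5 := by exact_mod_cast h2
      _ ≤ ((C : ℝ) + 1) ^ 6 * (p : ℝ) ^ 5 := by
          refine mul_le_mul_of_nonneg_right ?_ (by positivity)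
          have h5 : (0 : ℝ) ≤ C := Nat.cast_nonneg _
          calc (C : ℝ) ≤ (C : ℝ) + 1 := by linarith
            _ = ((C : ℝ) + 1) ^ 1 := (pow_one _).symm
            _ ≤ ((C : ℝ) + 1) ^ 6 := pow_le_pow_right₀ (by linarith) (by norm_num)
  exact le_of_pow_le_pow_left₀ (by norm_num) (by positivity) h3

/-! ### Traces with a given field -/

/-- the equation of a trace `t` with the field of `t₀` -/
theorem trace_eq62 {p : ℕ} (hp : p.Prime) {t t₀ : ℤ} (ht : t ^ 2 < 4 * p) (ht0 : t₀ ^ 2 < 4 * p)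
    (h : IsSquare ((t ^ 2 - 4 * p) * (t₀ ^ 2 - 4 * p))) :
    ∃ k ∈ Finset.Icc (-7 : ℤ) 7, 4 * t ^ 2 + 2 * k * t₀ * t + (p * k ^ 2 + 4 * t₀ ^ 2 - 16 * p) = 0 := by
  obtain ⟨s, hs⟩ := h
  have hp0 : (0 : ℤ) < p := by exact_mod_cast hp.pos
  have hpp : Prime (p : ℤ) := Nat.prime_iff_prime_int.1 hp
  have h1 : (p : ℤ) ∣ (s - t * t₀) * (s + t * t₀) := ⟨-4 * (t ^ 2 + t₀ ^ 2) + 16 * p, by
    linear_combination -hs⟩
  -- choose the sign of `s`
  obtain ⟨s', hs', h2⟩ : ∃ s' : ℤ, (t ^ 2 - 4 * p) * (t₀ ^ 2 - 4 * p) = s' * s' ∧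
      (p : ℤ) ∣ s' - t * t₀ := by
    rcases hpp.dvd_or_dvd h1 with h | h
    · exact ⟨s, hs, h⟩
    · refine ⟨-s, by rw [hs]; ring, ?_⟩
      have : -s - t * t₀ = -(s + t * t₀) := by ring
      rw [this]
      exact (dvd_neg).2 h
  obtain ⟨k, hk⟩ := h2
  have h3 : s' = t * t₀ + p * k := by linarith
  have h4 : (p : ℤ) * (4 * t ^ 2 + 2 * k * t₀ * t + (p * k ^ 2 + 4 * t₀ ^ 2 - 16 * p)) = 0 := by
    rw [h3] at hs'
    linear_combination -hs'
  have h5 := (mul_eq_zero.1 h4).resolve_left hp0.ne'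
  refine ⟨k, ?_, h5⟩
  -- the size of `k`
  have h6 : s' ^ 2 ≤ (4 * p) ^ 2 := by nlinarith [sq_nonneg t, sq_nonneg t₀]
  have h7 : |s'| ≤ 4 * p := abs_le_of_sq_le_sq h6 (by linarith)
  have h8 : (t * t₀) ^ 2 < (4 * p) ^ 2 := by
    have h10 := mul_lt_mul'' ht ht0 (sq_nonneg _) (sq_nonneg _)
    linarith [show (t * t₀) ^ 2 = t ^ 2 * t₀ ^ 2 by ring,
      show (4 * (p : ℤ)) ^ 2 = 4 * p * (4 * p) by ring]
  have h9 : |t * t₀| < 4 * p := abs_lt_of_sq_lt_sq h8 (by linarith)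
  rw [Finset.mem_Icc]
  rw [abs_le] at h7
  rw [abs_lt] at h9
  constructor
  · by_contra hlt
    have : k ≤ -8 := by omega
    nlinarith
  · by_contra hlt
    have : 8 ≤ k := by omega
    nlinarith

/-- a quadratic equation has at most two solutions -/
theorem two_roots62 (b c : ℤ) : {t : ℤ | 4 * t ^ 2 + b * t + c = 0}.encard ≤ 2 := by
  by_contra h
  rw [not_le] at h
  obtain ⟨T, hT, hT3⟩ := Set.exists_subset_encard_eq (k := 3) (by
    have : (2 : ℕ∞) + 1 ≤ {t : ℤ | 4 * t ^ 2 + b * t + c = 0}.encard := Order.add_one_le_of_lt h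
    exact this)
  rw [Set.encard_eq_three] at hT3
  obtain ⟨x, y, z, hxy, hxz, hyz, rfl⟩ := hT3
  have hx := hT (show x ∈ ({x, y, z} : Set ℤ) by simp)
  have hy := hT (show y ∈ ({x, y, z} : Set ℤ) by simp)
  have hz := hT (show z ∈ ({x, y, z} : Set ℤ) by simp)
  simp only [Set.mem_ofPred_eq] at hx hy hz
  have h1 : (x - y) * (4 * (x + y) + b) = 0 := by linear_combination hx - hy
  have h2 : (x - z) * (4 * (x + z) + b) = 0 := by linear_combination hx - hz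
  have h3 := (mul_eq_zero.1 h1).resolve_left (sub_ne_zero.2 hxy)
  have h4 := (mul_eq_zero.1 h2).resolve_left (sub_ne_zero.2 hxz)
  exact hyz (by linarith)

/-- **Traces with a given field**: there are at most thirty. -/
theorem card_traces {p : ℕ} (hp : p.Prime) {t₀ : ℤ} (ht0 : t₀ ^ 2 < 4 * p) :
    {t : ℤ | t ^ 2 < 4 * p ∧ IsSquare ((t ^ 2 - 4 * p) * (t₀ ^ 2 - 4 * p))}.Finite ∧
    {t : ℤ | t ^ 2 < 4 * p ∧ IsSquare ((t ^ 2 - 4 * p) * (t₀ ^ 2 - 4 * p))}.ncard ≤ 30 := by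
  have h1 : {t : ℤ | t ^ 2 < 4 * p ∧ IsSquare ((t ^ 2 - 4 * p) * (t₀ ^ 2 - 4 * p))} ⊆
      ⋃ k ∈ Finset.Icc (-7 : ℤ) 7,
        {t : ℤ | 4 * t ^ 2 + (2 * k * t₀) * t + (p * k ^ 2 + 4 * t₀ ^ 2 - 16 * p) = 0} := by
    intro t ht
    obtain ⟨k, hk, h⟩ := trace_eq62 hp ht.1 ht0 ht.2
    exact Set.mem_biUnion hk h
  have h2 : {t : ℤ | t ^ 2 < 4 * p ∧ IsSquare ((t ^ 2 - 4 * p) * (t₀ ^ 2 - 4 * p))}.encard ≤
      30 := by
    refine (Set.encard_le_encard h1).trans ?_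
    have h3 : ∀ s : Finset ℤ, (⋃ k ∈ s,
        {t : ℤ | 4 * t ^ 2 + (2 * k * t₀) * t + (p * k ^ 2 + 4 * t₀ ^ 2 - 16 * p) = 0}).encard ≤
        ((2 * s.card : ℕ) : ℕ∞) := by
      intro s
      induction s using Finset.induction_on with
      | empty => simp
      | insert a s ha ih =>
        rw [Finset.set_biUnion_insert, Finset.card_insert_of_notMem ha]
        refine (Set.encard_union_le _ _).trans ?_
        have h4 := two_roots62 (2 * a * t₀) (p * a ^ 2 + 4 * t₀ ^ 2 - 16 * p)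
        calc _ ≤ (2 : ℕ∞) + ((2 * s.card : ℕ) : ℕ∞) := add_le_add h4 ih
          _ = _ := by
            norm_cast
            ring
    refine (h3 _).trans ?_
    have h5 : 2 * (Finset.Icc (-7 : ℤ) 7).card = 30 := by decide
    rw [h5]
    exact le_refl _
  have h3 : {t : ℤ | t ^ 2 < 4 * p ∧ IsSquare ((t ^ 2 - 4 * p) * (t₀ ^ 2 - 4 * p))}.Finite :=
    Set.finite_of_encard_le_coe (k := 30) h2
  refine ⟨h3, ?_⟩
  rw [← h3.cast_ncard_eq] at h2
  exact_mod_cast h2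

end Pool.Agent.II
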