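import Mathlib

/-! # Integral images, row 9a: extension of a valuation ring of `ℂ` with prescribed poles -/

namespace Pool.Agent.II

open scoped IntermediateField.algebraAdjoinAdjoin in
/-- the inverses of algebraically independent elements are algebraically independent -/
lemma algebraicIndependent_inv {K : Type*} [Field K] [Algebra ℂ K] {ι : Type*} {x : ι → K}
    (hx : AlgebraicIndependent ℂ x) : AlgebraicIndependent ℂ (fun i => (x i)⁻¹) := by
  refine algebraicIndependent_of_finite_type' (algebraMap ℂ K).injective fun t _ _ i hi halg => ?_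
  have h0 := (IsFractionRing.isAlgebraic_iff (Algebra.adjoin ℂ ((fun i => (x i)⁻¹) '' t))
      (IntermediateField.adjoin ℂ ((fun i => (x i)⁻¹) '' t)) K).1 halg
  have hF : IntermediateField.adjoin ℂ ((fun i => (x i)⁻¹) '' t) =
      IntermediateField.adjoin ℂ (x '' t) := by
    apply le_antisymm
    · rw [IntermediateField.adjoin_le_iff]
      rintro _ ⟨j, hj, rfl⟩
      exact inv_mem (IntermediateField.subset_adjoin _ _ ⟨j, hj, rfl⟩)
    · rw [IntermediateField.adjoin_le_iff]
      rintro _ ⟨j, hj, rfl⟩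
      have := inv_mem (IntermediateField.subset_adjoin ℂ ((fun i => (x i)⁻¹) '' t) ⟨j, hj, rfl⟩)
      simpa using this
  rw [hF] at h0
  have h1 := h0.inv
  rw [inv_inv] at h1
  exact hx.transcendental_adjoin hi ((IsFractionRing.isAlgebraic_iff (Algebra.adjoin ℂ (x '' t))
      (IntermediateField.adjoin ℂ (x '' t)) K).2 h1)

/-- Extension of a valuation ring of `ℂ` such that the given algebraically independent elements are
not integral. -/
theorem exists_extension_pole {K : Type*} [Field K] [Algebra ℂ K] (O₀ : ValuationSubring ℂ)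
    {ι : Type*} (x : ι → K) (hx : AlgebraicIndependent ℂ x) :
    ∃ O : ValuationSubring K, (∀ z ∈ O₀, algebraMap ℂ K z ∈ O) ∧
      (∀ z ∈ O₀.nonunits, algebraMap ℂ K z ∈ O.nonunits) ∧ ∀ i, x i ∉ O := by
  have hy := algebraicIndependent_inv hx
  set y : ι → K := fun i => (x i)⁻¹ with hydef
  let φ : MvPolynomial ι O₀ →+* K := MvPolynomial.eval₂Hom ((algebraMap ℂ K).comp (algebraMap O₀ ℂ)) y
  have hφ : ∀ q, φ q = (MvPolynomial.aeval y : MvPolynomial ι ℂ →ₐ[ℂ] K) (MvPolynomial.map (algebraMap O₀ ℂ) q) := by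
    intro q
    show MvPolynomial.eval₂Hom _ y q = _
    rw [MvPolynomial.aeval_def, MvPolynomial.eval₂_map]
    rfl
  have hinj : Function.Injective φ := by
    intro a b hab
    rw [hφ, hφ] at hab
    exact MvPolynomial.map_injective _ (IsFractionRing.injective O₀ ℂ) (hy hab)
  let e : MvPolynomial ι O₀ ≃+* φ.range := RingEquiv.ofBijective φ.rangeRestrict
    ⟨fun a b h => hinj (congrArg Subtype.val h), φ.rangeRestrict_surjective⟩
  let ψ : φ.range →+* IsLocalRing.ResidueField O₀ :=
    ((IsLocalRing.residue O₀).comp MvPolynomial.constantCoeff).comp e.symm.toRingHom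
  obtain ⟨O, hO1, hO2⟩ := Ideal.image_subset_nonunits_valuationSubring (RingHom.ker ψ) (RingHom.ker_ne_top ψ)
  refine ⟨O, fun z hz => ?_, fun z hz => ?_, fun i hi => ?_⟩
  · refine hO1 ⟨MvPolynomial.C ⟨z, hz⟩, ?_⟩
    show φ (MvPolynomial.C ⟨z, hz⟩) = _
    rw [hφ]
    simp
  · have hz0 : z ∈ O₀ := O₀.nonunits_subset hz
    refine hO2 ⟨e (MvPolynomial.C ⟨z, hz0⟩), ?_, ?_⟩
    · show ψ (e (MvPolynomial.C ⟨z, hz0⟩)) = 0
      show (IsLocalRing.residue O₀) (MvPolynomial.constantCoeff (e.symm (e (MvPolynomial.C ⟨z, hz0⟩)))) = 0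
      rw [RingEquiv.symm_apply_apply, MvPolynomial.constantCoeff_C, IsLocalRing.residue_eq_zero_iff]
      obtain ⟨h1, h2⟩ := ValuationSubring.mem_nonunits_iff_exists_mem_maximalIdeal.1 hz
      exact h2
    · show φ (MvPolynomial.C ⟨z, hz0⟩) = _
      rw [hφ]
      simp
  · have hyi : y i ∈ O.nonunits := by
      refine hO2 ⟨e (MvPolynomial.X i), ?_, ?_⟩
      · show ψ (e (MvPolynomial.X i)) = 0
        show (IsLocalRing.residue O₀) (MvPolynomial.constantCoeff (e.symm (e (MvPolynomial.X i)))) = 0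
        rw [RingEquiv.symm_apply_apply, MvPolynomial.constantCoeff_X, map_zero]
      · show φ (MvPolynomial.X i) = _
        rw [hφ]
        simp
    have hx0 : x i ≠ 0 := hx.ne_zero i
    have h1 : O.valuation (y i) < 1 := (ValuationSubring.mem_nonunits_iff O).1 hyi
    have h2 : O.valuation (x i) ≤ 1 := (O.valuation_le_one_iff _).2 hi
    have h3 : O.valuation (x i) * O.valuation (y i) = 1 := by
      rw [← map_mul, hydef, mul_inv_cancel₀ hx0, map_one]
    have h4 : O.valuation (x i) * O.valuation (y i) < 1 := by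
      refine lt_of_le_of_lt (mul_le_mul' h2 le_rfl) ?_
      rwa [one_mul]
    exact absurd h3 h4.ne

end Pool.Agent.II
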