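import Pool.Agent.II.Defs

/-! # Integral images: the relation of two coordinates in the same class -/

open UpperHalfPlane Pool.Agent.Helper11.ZP Pool.Agent.Helper20.ZT.Prim

namespace Pool.Agent.II

/-- two coordinates of the same class of a special variety satisfy a primitive modular equation -/
theorem exists_rel_Phi {n : ℕ} (S : SpecialData n) {i j : Fin n} {s : Fin S.r}
    (hi : S.cls i = some s) (hj : S.cls j = some s) :
    ∃ (N : ℤ) (_ : Fact (0 < N)), ∀ y ∈ S.carrier, Phi N (y j) (y i) = 0 := by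
  obtain ⟨m, hm, h⟩ := exists_relation_rigN (S.g i) (S.g j) (S.hg i) (S.hg j)
  refine ⟨m, hm, fun y hy => ?_⟩
  obtain ⟨τ, hτ⟩ := hy.2 s
  obtain ⟨τ₁, e₁, f₁⟩ := hτ i hi
  obtain ⟨τ₂, e₂, f₂⟩ := hτ j hj
  rw [f₁, f₂]
  exact h τ τ₁ τ₂ e₁ e₂

end Pool.Agent.II
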