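import Pool.Agent.II.Key9
import Pool.Agent.II.Row9a
import Pool.Agent.II.Row9b

/-! # Integral images: the key inequality for subvarieties -/

open UpperHalfPlane Finset Pool.Agent.Helper11.ZP Pool.Agent.Helper20.ZT.Prim Pool.Agent.Helper20.ZT

namespace Pool.Agent.II

open MvPolynomial in
/-- the relation between two coordinates of a class, as a polynomial vanishing on `S` -/
lemma exists_rel_mv {n : ℕ} (S : SpecialData n) {i j : Fin n} {s : Fin S.r} (hi : S.cls i = some s)
    (hj : S.cls j = some s) : ∃ (N : ℤ) (_ : Fact (0 < N)), ∀ y ∈ S.carrier, eval y ((primPoly N).eval₂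
      (Polynomial.eval₂RingHom ((C : ℂ →+* MvPolynomial (Fin n) ℂ).comp (algebraMap OO ℂ)) (X j))
        (X i)) = 0 := by
  obtain ⟨N, hN, h⟩ := exists_rel_Phi S hi hj
  refine ⟨N, hN, fun y hy => ?_⟩
  have h0 := h y hy
  have e1 := Polynomial.hom_eval₂ (primPoly N)
    (Polynomial.eval₂RingHom ((C : ℂ →+* MvPolynomial (Fin n) ℂ).comp (algebraMap OO ℂ)) (X j))
    (eval y) (X i)
  rw [e1, eval_X]
  have e2 : (eval y).comp (Polynomial.eval₂RingHom
      ((C : ℂ →+* MvPolynomial (Fin n) ℂ).comp (algebraMap OO ℂ)) (X j)) = evO (y j) := by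
    apply Polynomial.ringHom_ext
    · intro a
      simp [evO]
    · simp [evO]
  rw [e2]
  exact h0

open MvPolynomial in
/-- **the key inequality** for a subvariety `A` contained in a special subvariety -/
theorem key_II {n k : ℕ} (S : SpecialData n) {A : Set (Fin n → ℂ)} (hA : IsSubvariety A)
    (hAS : A ⊆ S.carrier) (a : Fin n → ℤ)
    (P : Finset ℕ) (v : ℕ → AbsoluteValue ℂ ℝ) (O₀ : ℕ → ValuationSubring ℂ)
    (hO₀ : ∀ p ∈ P, ∀ z, z ∈ O₀ p ↔ v p z ≤ 1)
    (hnear : ∀ p ∈ P, ∀ (K : Type) [Field K] [Algebra ℂ K] (O : ValuationSubring K),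
      (∀ z ∈ O₀ p, algebraMap ℂ K z ∈ O) →
      (∀ z ∈ (O₀ p).nonunits, algebraMap ℂ K z ∈ O.nonunits) →
      ∀ x : Fin n → K, (∀ f : MvPolynomial (Fin n) ℂ, (∀ y ∈ A, eval y f = 0) → aeval x f = 0) →
      ∃ T : Finset (Fin n), k ≤ T.card ∧ ∀ i ∈ T, x i - (a i : K) ∈ O.nonunits)
    (hpair : ∀ p ∈ P, ∀ i j, i ≠ j → ∀ (N : ℤ) [Fact (0 < N)], ¬ v p (Phi N (a j) (a i)) < 1)
    (hcm : ∀ p ∈ P, ∀ q ∈ P, p ≠ q → ∀ i c, IsSpecialPoint c → v p (c - a i) < 1 → v q (c - a i) < 1 → False)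
    (hP : n < P.card) : dim A + k ≤ S.r := by
  classical
  obtain ⟨I, hI, rfl⟩ := hA
  have hvan : vanishingIdeal ℂ (zeroLocus ℂ I) = I := IsPrime.vanishingIdeal_zeroLocus I
  have hmem : ∀ f : MvPolynomial (Fin n) ℂ, (∀ y ∈ zeroLocus ℂ I, eval y f = 0) → f ∈ I := by
    intro f hf
    rw [← hvan]
    exact fun y hy => by rw [MvPolynomial.aeval_eq_eval]; exact hf y hy
  -- function field
  let B := MvPolynomial (Fin n) ℂ ⧸ I
  let K := AlgebraicClosure (FractionRing B)
  let ξ : Fin n → B := fun i => Ideal.Quotient.mk I (X i)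
  let x : Fin n → K := fun i => algebraMap B K (ξ i)
  have hinj : Function.Injective (algebraMap B K) := by
    rw [IsScalarTower.algebraMap_eq B (FractionRing B) K]
    exact (algebraMap (FractionRing B) K).injective.comp (IsFractionRing.injective B _)
  have hadj : Algebra.adjoin ℂ (Set.range ξ) = ⊤ := by
    have h1 : (Ideal.Quotient.mkₐ ℂ I).range = ⊤ :=
      AlgHom.range_eq_top _ |>.2 (Ideal.Quotient.mkₐ_surjective ℂ I)
    rw [← h1, ← Algebra.map_top, ← MvPolynomial.adjoin_range_X, AlgHom.map_adjoin, ← Set.range_comp]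
    rfl
  have halg : Algebra.IsAlgebraic (Algebra.adjoin ℂ (Set.range ξ)) B := by
    refine ⟨fun b => ?_⟩
    have hb : b ∈ Algebra.adjoin ℂ (Set.range ξ) := by rw [hadj]; trivial
    exact isAlgebraic_algebraMap (⟨b, hb⟩ : Algebra.adjoin ℂ (Set.range ξ))
  obtain ⟨t, ht, hbas⟩ := exists_isTranscendenceBasis_subset (R := ℂ) (Set.range ξ)
  have hdim : dim (zeroLocus ℂ I) = Nat.card t := by
    rw [dim, hvan, ← hbas.cardinalMk_eq_trdeg]
    rfl
  have htfin : Finite t := ((Set.finite_range ξ).subset ht).to_subtype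
  have hidx : ∀ y : t, ∃ i : Fin n, ξ i = y := fun y => ht y.2
  choose idx hidx using hidx
  have hK : AlgebraicIndependent ℂ (fun y : t => x (idx y)) := by
    have h1 := hbas.1.map' (f := IsScalarTower.toAlgHom ℂ B K) hinj
    have h2 : (fun y : t => x (idx y)) = (IsScalarTower.toAlgHom ℂ B K) ∘ ((↑) : t → B) := by
      funext y
      simp only [x, hidx, Function.comp_apply, IsScalarTower.coe_toAlgHom']
    rw [h2]
    exact h1
  have hx : ∀ f : MvPolynomial (Fin n) ℂ, aeval x f = algebraMap B K (Ideal.Quotient.mk I f) := by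
    intro f
    have h1 : (aeval x : MvPolynomial (Fin n) ℂ →ₐ[ℂ] K) =
        (IsScalarTower.toAlgHom ℂ B K).comp (Ideal.Quotient.mkₐ ℂ I) := by
      apply MvPolynomial.algHom_ext
      intro i
      rw [aeval_X]
      rfl
    rw [h1]
    rfl
  have hx0 : ∀ f : MvPolynomial (Fin n) ℂ, f ∈ I → aeval x f = 0 := by
    intro f hf
    rw [hx, Ideal.Quotient.eq_zero_iff_mem.2 hf, map_zero]
  -- relations at the generic point
  have relK : ∀ (i j : Fin n) (s : Fin S.r), S.cls i = some s → S.cls j = some s →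
      ∃ (N : ℤ) (_ : Fact (0 < N)), (primPoly N).eval₂
        (Polynomial.eval₂RingHom ((algebraMap ℂ K).comp (algebraMap OO ℂ)) (x j)) (x i) = 0 := by
    intro i j s hi hj
    obtain ⟨N, hN, hP2⟩ := exists_rel_mv S hi hj
    refine ⟨N, hN, ?_⟩
    have h1 := hx0 _ (hmem _ fun y hy => hP2 y (hAS hy))
    have h2 := Polynomial.hom_eval₂ (primPoly N)
      (Polynomial.eval₂RingHom ((C : ℂ →+* MvPolynomial (Fin n) ℂ).comp (algebraMap OO ℂ)) (X j))
      (aeval x : MvPolynomial (Fin n) ℂ →ₐ[ℂ] K).toRingHom (X i)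
    have h3 : (aeval x : MvPolynomial (Fin n) ℂ →ₐ[ℂ] K).toRingHom.comp (Polynomial.eval₂RingHom
        ((C : ℂ →+* MvPolynomial (Fin n) ℂ).comp (algebraMap OO ℂ)) (X j)) =
        Polynomial.eval₂RingHom ((algebraMap ℂ K).comp (algebraMap OO ℂ)) (x j) := by
      apply Polynomial.ringHom_ext
      · intro a
        simp
      · simp
    have h4 : (aeval x : MvPolynomial (Fin n) ℂ →ₐ[ℂ] K).toRingHom (X i) = x i := by simp
    rw [h3, h4] at h2
    rw [← h2]
    exact h1
  have constK : ∀ i : Fin n, S.cls i = none → x i = algebraMap ℂ K (S.c i) := by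
    intro i hi
    have h1 := hx0 (X i - C (S.c i)) (hmem _ fun y hy => by
      rw [map_sub, eval_X, eval_C, (hAS hy).1 i hi, sub_self])
    rw [map_sub, aeval_X, aeval_C, sub_eq_zero] at h1
    exact h1
  have : Fintype t := Fintype.ofFinite t
  rw [hdim, Nat.card_eq_fintype_card]
  exact key_aux_II S x a relK constK idx hK (fun O₀ => exists_extension_pole O₀ _ hK) P v O₀ hO₀
    (fun p hp O h1 h2 => hnear p hp K O h1 h2 x fun f hf => hx0 f (hmem f hf)) hpair hcm hP

/-- a point is a subvariety -/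
lemma isSubvariety_pt {n : ℕ} (y : Fin n → ℂ) : IsSubvariety ({y} : Set (Fin n → ℂ)) := by
  refine ⟨MvPolynomial.vanishingIdeal ℂ {y}, ?_, ?_⟩
  · exact (MvPolynomial.isMaximal_iff_eq_vanishingIdeal_singleton.2 ⟨y, rfl⟩).isPrime
  · apply Set.Subset.antisymm
    · exact MvPolynomial.zeroLocus_vanishingIdeal_le _
    · intro z hz
      rw [Set.mem_singleton_iff]
      funext i
      have h1 : MvPolynomial.X i - MvPolynomial.C (y i) ∈
          MvPolynomial.vanishingIdeal ℂ ({y} : Set (Fin n → ℂ)) := by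
        intro w hw
        rw [Set.mem_singleton_iff.1 hw]
        simp
      have h2 := hz _ h1
      simpa [sub_eq_zero] using h2

/-- the Zilber–Pink conclusion from the key inequality -/
theorem noUnlikely_of_key {n k : ℕ} {Z : Set (Fin n → ℂ)}
    (h : ∀ (S : SpecialData n) (A : Set (Fin n → ℂ)), IsSubvariety A → A ⊆ Z → A ⊆ S.carrier →
      dim A + k ≤ S.r) : NoUnlikely k Z := by
  constructor
  · intro S hS
    rw [Set.disjoint_left]
    intro y hy hyS
    have h1 := h S {y} (isSubvariety_pt y) (by rintro z rfl; exact hy) (by rintro z rfl; exact hyS)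
    have h2 := S.le_dim
    omega
  · rintro V _ hV hdim A ⟨S, ⟨hA, hAVS, _⟩, hlt⟩
    have h1 := h S A hA (fun y hy => hV (hAVS hy).1) (fun y hy => (hAVS hy).2)
    have h2 := S.le_dim
    omega

end Pool.Agent.II
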