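import Pool.Agent.II.Absv11
import Pool.Agent.II.Key9b
import Pool.Agent.Helper89.ZT.Lead

/-! # Integral images: coordinates of the points of an image near the centre -/

open Finset Pool.Agent.Helper11.ZP Pool.Agent.Helper20.ZT MvPolynomial

namespace Pool.Agent.II

/-- The image of `Z` under the homothety and translation `z ↦ λ z + a`. -/
def image {n : ℕ} (Z : Set (Fin n → ℂ)) (l : ℤ) (a : Fin n → ℤ) : Set (Fin n → ℂ) :=
  {x | ∃ z ∈ Z, ∀ i, x i = (l : ℂ) * z i + (a i : ℂ)}

/-- the valuation ring of a nonarchimedean absolute value of `ℂ` -/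
def Ov (v : AbsoluteValue ℂ ℝ) (hv : IsNonarchimedean v) : ValuationSubring ℂ where
  carrier := {z | v z ≤ 1}
  mul_mem' {a b} ha hb := by
    simp only [Set.mem_setOf_eq] at ha hb ⊢
    rw [map_mul]
    exact mul_le_one₀ ha (v.nonneg b) hb
  one_mem' := by simp
  add_mem' {a b} ha hb := by
    simp only [Set.mem_setOf_eq] at ha hb ⊢
    exact (hv a b).trans (max_le ha hb)
  zero_mem' := by simp
  neg_mem' {a} ha := by
    simp only [Set.mem_setOf_eq] at ha ⊢
    rwa [map_neg_eq_map]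
  mem_or_inv_mem' z := by
    simp only [Set.mem_setOf_eq]
    rcases le_total (v z) 1 with h | h
    · exact Or.inl h
    · right
      change v z⁻¹ ≤ 1
      rw [map_inv₀]
      exact inv_le_one_of_one_le₀ h

lemma mem_Ov {v : AbsoluteValue ℂ ℝ} (hv : IsNonarchimedean v) (z : ℂ) : z ∈ Ov v hv ↔ v z ≤ 1 := Iff.rfl

lemma nonunits_Ov {v : AbsoluteValue ℂ ℝ} (hv : IsNonarchimedean v) {z : ℂ} (hz : v z < 1) :
    z ∈ (Ov v hv).nonunits := by
  by_cases h0 : z = 0
  · rw [h0]; exact (Ov v hv).nonunits.zero_mem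
  · rw [ValuationSubring.mem_nonunits_iff]
    by_contra hcon
    push Not at hcon
    have h1 : (Ov v hv).valuation z⁻¹ ≤ 1 := by
      rw [map_inv₀]
      exact inv_le_one_of_one_le₀ hcon
    have h2 : v z⁻¹ ≤ 1 := (mem_Ov hv _).1 (((Ov v hv).valuation_le_one_iff _).1 h1)
    rw [map_inv₀] at h2
    have h3 : 1 < (v z)⁻¹ := (one_lt_inv₀ (v.pos h0)).2 hz
    linarith

section
variable {K : Type} [Field K] [Algebra ℂ K]

/-- elements whose inverse is integral stay out of the nonunits -/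
lemma not_nonunits_of_inv (O₀ : ValuationSubring ℂ) (O : ValuationSubring K)
    (h1 : ∀ z ∈ O₀, algebraMap ℂ K z ∈ O) {z : ℂ} (hz0 : z ≠ 0) (hz : z⁻¹ ∈ O₀) :
    algebraMap ℂ K z ∉ O.nonunits := by
  intro h
  have h2 := non_mul O (h1 _ hz) h
  rw [← map_mul, inv_mul_cancel₀ hz0, map_one, val_non, map_one] at h2
  exact lt_irrefl _ h2

/-- **coordinates near the centre** -/
theorem near_image {n d : ℕ} {Z : Set (Fin n → ℂ)} (f : Finset (Fin n) → MvPolynomial (Fin n) ℂ)
    (hf : ∀ J, J.card = d + 1 → TopIn J (f J) ∧ ∀ z ∈ Z, eval z (f J) = 0)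
    (O₀ : ValuationSubring ℂ) {p : ℕ} (hpO : (p : ℂ) ∈ O₀.nonunits)
    (cf : ∀ J, J.card = d + 1 → ∀ m, (f J).coeff m ∈ O₀)
    (ctop : ∀ J, J.card = d + 1 →
      ((f J).coeff (Finsupp.equivFunOnFinite.symm fun i => (f J).degreeOf i))⁻¹ ∈ O₀)
    {l : ℤ} (hpl : (p : ℤ) ∣ l) {a : Fin n → ℤ} {A : Set (Fin n → ℂ)} (hA : A ⊆ image Z l a)
    (O : ValuationSubring K) (h1 : ∀ z ∈ O₀, algebraMap ℂ K z ∈ O)
    (h2 : ∀ z ∈ O₀.nonunits, algebraMap ℂ K z ∈ O.nonunits) (x : Fin n → K)
    (hx : ∀ f : MvPolynomial (Fin n) ℂ, (∀ y ∈ A, eval y f = 0) → aeval x f = 0) :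
    ∃ T : Finset (Fin n), n - d ≤ T.card ∧ ∀ i ∈ T, x i - (a i : K) ∈ O.nonunits := by
  classical
  by_cases hl : l = 0
  · refine ⟨univ, by rw [card_univ, Fintype.card_fin]; omega, fun i _ => ?_⟩
    have h3 := hx (X i - C (a i : ℂ)) fun y hy => by
      obtain ⟨z, -, hz⟩ := hA hy
      rw [map_sub, eval_X, eval_C, hz i, hl]
      simp
    rw [map_sub, aeval_X, aeval_C, map_intCast] at h3
    rw [h3]
    exact O.nonunits.zero_mem
  · have hl0 : (l : ℂ) ≠ 0 := by exact_mod_cast hl
    have hlK : (l : K) ≠ 0 := by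
      rw [← map_intCast (algebraMap ℂ K)]
      exact (map_ne_zero _).2 hl0
    have hpK : (p : K) ∈ O.nonunits := by
      have := h2 _ hpO
      rwa [map_natCast] at this
    have hlO : (l : K) ∈ O.nonunits := by
      obtain ⟨c, rfl⟩ := hpl
      rw [Int.cast_mul, Int.cast_natCast, mul_comm]
      exact non_mul O (intCast_mem O c) hpK
    set z : Fin n → K := fun i => (x i - (a i : K)) / (l : K) with hz
    have hxz : ∀ i, x i - (a i : K) = z i * (l : K) := fun i => by
      rw [hz]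
      field_simp
    have hzf : ∀ J, J.card = d + 1 → aeval z (f J) = 0 := by
      intro J hJ
      have h3 := hx (aeval (fun i => C ((l : ℂ)⁻¹) * (X i - C (a i : ℂ))) (f J)) fun y hy => by
        obtain ⟨w, hw, hyw⟩ := hA hy
        rw [← (hf J hJ).2 w hw, ← aeval_eq_eval, ← aeval_eq_eval, ← AlgHom.comp_apply]
        congr 1
        apply MvPolynomial.algHom_ext
        intro i
        rw [AlgHom.comp_apply, aeval_X, map_mul, map_sub, aeval_X, aeval_C, aeval_C, hyw i, aeval_X]
        simp only [Algebra.algebraMap_self, RingHom.id_apply]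
        field_simp
        ring
      rw [← AlgHom.comp_apply] at h3
      rw [← h3]
      congr 1
      apply MvPolynomial.algHom_ext
      intro i
      rw [AlgHom.comp_apply, aeval_X, aeval_X, map_mul, map_sub, aeval_X, aeval_C, aeval_C, hz,
        map_inv₀, map_intCast, map_intCast]
      field_simp
    refine ⟨univ.filter fun i => z i ∈ O, ?_, fun i hi => ?_⟩
    · by_contra hcon
      push Not at hcon
      have h4 : d + 1 ≤ (univ.filter fun i => z i ∉ O).card := by
        have h5 := card_filter_add_card_filter_not (s := (univ : Finset (Fin n))) (fun i => z i ∈ O)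
        rw [card_univ, Fintype.card_fin] at h5
        omega
      obtain ⟨J, hJT, hJ⟩ := Finset.exists_subset_card_eq h4
      have htop0 := (hf J hJ).1.top
      obtain ⟨i, hi, hiO⟩ := domin O (hf J hJ).1 (fun m => h1 _ (cf J hJ m))
        (not_nonunits_of_inv O₀ O h1 htop0 (ctop J hJ)) (hzf J hJ)
      exact (mem_filter.1 (hJT hi)).2 hiO
    · rw [hxz i]
      exact non_mul O (mem_filter.1 hi).2 hlO

end

end Pool.Agent.II
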