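import Pool.Agent.Helper81.DL.Count
import Pool.Agent.II.Near9

/-! # Integral images of a curve -/

open MvPolynomial Finset Pool.Agent.Helper11.ZP Pool.Agent.Helper11.ZU Pool.Agent.Helper36.DL

namespace Pool.Agent.II

variable {n : ℕ} {Z : Set (Fin n → ℂ)} {l : ℤ} {a : Fin n → ℤ}

/-- the image, as an affine image -/
lemma image_eq_affine (hl : l ≠ 0) (Z : Set (Fin n → ℂ)) (a : Fin n → ℤ) :
    image Z l a = affine (fun _ => (l : ℂ)) (fun i => (a i : ℂ)) Z := by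
  have hl' : (l : ℂ) ≠ 0 := by exact_mod_cast hl
  ext x
  constructor
  · rintro ⟨z, hz, hx⟩
    change (fun i => (x i - (a i : ℂ)) / (l : ℂ)) ∈ Z
    convert hz using 1
    funext i
    rw [hx i, add_sub_cancel_right, mul_comm, mul_div_assoc, div_self hl', mul_one]
  · intro hx
    refine ⟨fun i => (x i - (a i : ℂ)) / (l : ℂ), hx, fun i => ?_⟩
    rw [mul_div_cancel₀ _ hl', sub_add_cancel]

theorem isSubvariety_image (hl : l ≠ 0) (hZ : IsSubvariety Z) (a : Fin n → ℤ) :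
    IsSubvariety (image Z l a) := by
  have hl' : (l : ℂ) ≠ 0 := by exact_mod_cast hl
  rw [image_eq_affine hl]
  exact isSubvariety_affine (fun _ => hl') _ hZ

theorem dim_image (hl : l ≠ 0) (Z : Set (Fin n → ℂ)) (a : Fin n → ℤ) :
    dim (image Z l a) = dim Z := by
  have hl' : (l : ℂ) ≠ 0 := by exact_mod_cast hl
  rw [image_eq_affine hl]
  exact dim_affine (fun _ => hl') _ _

/-- no coordinate is constant on the image -/
theorem nonConst_image (hl : l ≠ 0) (hc : ∀ (i : Fin n) (c : ℂ), ∃ z ∈ Z, z i ≠ c)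
    (a : Fin n → ℤ) (i : Fin n) (c : ℂ) : ∃ x ∈ image Z l a, x i ≠ c := by
  have hl' : (l : ℂ) ≠ 0 := by exact_mod_cast hl
  obtain ⟨z, hz, hzc⟩ := hc i ((c - a i) / l)
  refine ⟨fun i => (l : ℂ) * z i + (a i : ℂ), ⟨z, hz, fun _ => rfl⟩, fun h => hzc ?_⟩
  rw [← h, add_sub_cancel_right, mul_comm, mul_div_assoc, div_self hl', mul_one]

/-- the fibres of the coordinates of all the images of a curve are bounded by one constant -/
theorem fiber_image (hZ : IsSubvariety Z) (h1 : dim Z = 1)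
    (hc : ∀ (i : Fin n) (c : ℂ), ∃ z ∈ Z, z i ≠ c) :
    ∃ B : ℕ, ∀ (l : ℤ) (a : Fin n → ℤ), l ≠ 0 → ∀ (i : Fin n) (c : ℂ),
      {x | x ∈ image Z l a ∧ x i = c}.Finite ∧ {x | x ∈ image Z l a ∧ x i = c}.ncard ≤ B := by
  classical
  choose B hB using fun k => Pool.Agent.Helper81.DL.fiber_bound hZ h1 hc k
  refine ⟨∑ k, B k, fun l a hl i c => ?_⟩
  have hl' : (l : ℂ) ≠ 0 := by exact_mod_cast hl
  obtain ⟨h2, h3⟩ := hB i ((c - a i) / l)
  have hsub : {x | x ∈ image Z l a ∧ x i = c} ⊆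
      (fun z i => (l : ℂ) * z i + (a i : ℂ)) '' {z | z ∈ Z ∧ z i = (c - a i) / l} := by
    rintro x ⟨⟨z, hz, hx⟩, hxc⟩
    refine ⟨z, ⟨hz, ?_⟩, (funext hx).symm⟩
    rw [← hxc, hx i, add_sub_cancel_right, mul_comm, mul_div_assoc, div_self hl', mul_one]
  refine ⟨(h2.image _).subset hsub, (Set.ncard_le_ncard hsub (h2.image _)).trans
    ((Set.ncard_image_le h2).trans (h3.trans ?_))⟩
  exact Finset.single_le_sum (f := B) (fun _ _ => Nat.zero_le _) (mem_univ i)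

/-- the points of the images of a curve with one coordinate in a given finite set -/
theorem finite_image (hZ : IsSubvariety Z) (h1 : dim Z = 1)
    (hc : ∀ (i : Fin n) (c : ℂ), ∃ z ∈ Z, z i ≠ c) (E : Finset ℂ) :
    ∃ B : ℕ, ∀ (l : ℤ) (a : Fin n → ℤ), l ≠ 0 →
      {x | x ∈ image Z l a ∧ ∃ i, x i ∈ E}.Finite ∧
        {x | x ∈ image Z l a ∧ ∃ i, x i ∈ E}.ncard ≤ B := by
  classical
  obtain ⟨B, hB⟩ := fiber_image hZ h1 hc
  refine ⟨∑ _w ∈ (univ : Finset (Fin n)) ×ˢ E, B, fun l a hl => ?_⟩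
  have hcov : {x | x ∈ image Z l a ∧ ∃ i, x i ∈ E} =
      ⋃ w ∈ (univ : Finset (Fin n)) ×ˢ E, {x | x ∈ image Z l a ∧ x w.1 = w.2} := by
    ext x
    simp only [Set.mem_setOf_eq, Set.mem_iUnion, Finset.mem_product, mem_univ, true_and]
    constructor
    · rintro ⟨hx, i, hi⟩
      exact ⟨(i, x i), hi, hx, rfl⟩
    · rintro ⟨w, hw, hx, hxw⟩
      exact ⟨hx, w.1, by rw [hxw]; exact hw⟩
  constructor
  · rw [hcov]
    exact Set.Finite.biUnion (Finset.finite_toSet _) fun w _ => (hB l a hl w.1 w.2).1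
  · rw [hcov]
    refine (Finset.set_ncard_biUnion_le _ _).trans ?_
    exact Finset.sum_le_sum fun w _ => (hB l a hl w.1 w.2).2

end Pool.Agent.II
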