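import Pool.Agent.II.Members79
import Pool.Agent.Helper81.DL.CountU

/-! # Integral images of curves: one bound for the number of unlikely points -/

open UpperHalfPlane Finset MvPolynomial Pool.Agent.Helper11.ZP Pool.Agent.Helper11.ZU Pool.Agent.Helper20.ZT
  Pool.Agent.Helper20.ZT.Prim Pool.Agent.Helper20.ZD Pool.Agent.Helper20.ZD.Local

namespace Pool.Agent.II

variable {n : ℕ}

/-- the number of the points of a curve with a given coordinate is bounded -/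
theorem fiber_count79 {Z : Set (Fin n → ℂ)} (hZ : IsSubvariety Z) (h1 : dim Z = 1)
    (hc : ∀ (i : Fin n) (c : ℂ), ∃ z ∈ Z, z i ≠ c) :
    ∃ B : ℕ, ∀ (i : Fin n) (c : ℂ), {z ∈ Z | z i = c}.Finite ∧ {z ∈ Z | z i = c}.ncard ≤ B := by
  classical
  choose B hB using fun i : Fin n => Pool.Agent.Helper81.DL.count hZ h1 hc i i 1
  refine ⟨∑ i, B i, fun i c => ?_⟩
  have hset : {z ∈ Z | z i = c} = {z | z ∈ Z ∧ eval ![z i, z i] (X 0 - C c : MvPolynomial (Fin 2) ℂ) = 0} := by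
    ext z
    simp [sub_eq_zero]
  have hd : ∀ j : Fin 2, (X 0 - C c : MvPolynomial (Fin 2) ℂ).degreeOf j ≤ 1 := by
    intro j
    refine (degreeOf_sub_le j _ _).trans (max_le ?_ ?_)
    · rw [degreeOf_X]
      split_ifs <;> omega
    · rw [degreeOf_C]
      exact Nat.zero_le _
  obtain ⟨z, hz, hzc⟩ := hc i c
  obtain ⟨h2, h3⟩ := hB i (X 0 - C c) (hd 0) (hd 1) ⟨z, hz, by simpa [sub_eq_zero] using hzc⟩
  rw [hset]
  exact ⟨h2, h3.trans (Finset.single_le_sum (f := B) (fun _ _ => Nat.zero_le _) (Finset.mem_univ i))⟩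

/-- homothetic images are affine images -/
theorem homImage_eq_affine {l : ℂ} (hl : l ≠ 0) (a : Fin n → ℂ) (Z : Set (Fin n → ℂ)) :
    homImage l a Z = Pool.Agent.Helper36.DL.affine (fun _ => l) a Z := by
  ext x
  constructor
  · rintro ⟨z, hz, hx⟩
    change (fun i => (x i - a i) / l) ∈ Z
    have h1 : (fun i => (x i - a i) / l) = z := by
      funext i
      rw [hx i, add_sub_cancel_right, mul_div_cancel_left₀ _ hl]
    rwa [h1]
  · intro h
    refine ⟨_, h, fun i => ?_⟩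
    change x i = l * ((x i - a i) / l) + a i
    rw [mul_div_cancel₀ _ hl]
    ring

theorem nonConst_homImage {l : ℂ} (hl : l ≠ 0) (a : Fin n → ℂ) {Z : Set (Fin n → ℂ)}
    (hc : ∀ (i : Fin n) (c : ℂ), ∃ z ∈ Z, z i ≠ c) (i : Fin n) (c : ℂ) : ∃ x ∈ homImage l a Z, x i ≠ c := by
  obtain ⟨z, hz, hzc⟩ := hc i ((c - a i) / l)
  refine ⟨fun j => l * z j + a j, ⟨z, hz, fun _ => rfl⟩, fun h => hzc ?_⟩
  rw [eq_div_iff hl, ← h]
  ring

/-- the points of the image with a coordinate in a finite set -/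
theorem count_homImage {l : ℂ} (hl : l ≠ 0) (a : Fin n → ℂ) {Z : Set (Fin n → ℂ)} {B : ℕ}
    (hB : ∀ (i : Fin n) (c : ℂ), {z ∈ Z | z i = c}.Finite ∧ {z ∈ Z | z i = c}.ncard ≤ B) (E : Finset ℂ) :
    {x ∈ homImage l a Z | ∃ i, x i ∈ E}.Finite ∧
      {x ∈ homImage l a Z | ∃ i, x i ∈ E}.ncard ≤ n * (E.card * B) := by
  classical
  have h1 : ∀ (i : Fin n) (c : ℂ), {x ∈ homImage l a Z | x i = c} =
      (fun z : Fin n → ℂ => fun j => l * z j + a j) '' {z ∈ Z | z i = (c - a i) / l} := by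
    intro i c
    ext x
    constructor
    · rintro ⟨⟨z, hz, hx⟩, hxc⟩
      refine ⟨z, ⟨hz, ?_⟩, funext fun j => (hx j).symm⟩
      rw [eq_div_iff hl, ← hxc, hx i]
      ring
    · rintro ⟨z, ⟨hz, hzc⟩, rfl⟩
      refine ⟨⟨z, hz, fun _ => rfl⟩, ?_⟩
      change l * z i + a i = c
      rw [hzc, mul_div_cancel₀ _ hl]
      ring
  have h2 : ∀ (i : Fin n) (c : ℂ), {x ∈ homImage l a Z | x i = c}.Finite ∧
      {x ∈ homImage l a Z | x i = c}.ncard ≤ B := by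
    intro i c
    rw [h1]
    exact ⟨(hB i _).1.image _, (Set.ncard_image_le (hB i _).1).trans (hB i _).2⟩
  have h3 : {x ∈ homImage l a Z | ∃ i, x i ∈ E} =
      ⋃ i ∈ (univ : Finset (Fin n)), ⋃ c ∈ E, {x ∈ homImage l a Z | x i = c} := by
    ext x
    simp only [Set.mem_ofPred_eq, Set.mem_iUnion, Finset.mem_univ, exists_true_left]
    constructor
    · rintro ⟨hx, i, hi⟩
      exact ⟨i, x i, hi, hx, rfl⟩
    · rintro ⟨i, c, hc, hx, rfl⟩
      exact ⟨hx, i, hc⟩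
  rw [h3]
  refine ⟨?_, ?_⟩
  · exact Set.Finite.biUnion (Finset.finite_toSet _) fun i _ =>
      Set.Finite.biUnion (Finset.finite_toSet _) fun c _ => (h2 i c).1
  · refine (Finset.set_ncard_biUnion_le _ _).trans ?_
    calc ∑ i : Fin n, (⋃ c ∈ E, {x ∈ homImage l a Z | x i = c}).ncard ≤ ∑ _i : Fin n, E.card * B := by
          refine Finset.sum_le_sum fun i _ => ?_
          refine (Finset.set_ncard_biUnion_le _ _).trans ?_
          calc ∑ c ∈ E, {x ∈ homImage l a Z | x i = c}.ncard ≤ ∑ _c ∈ E, B :=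
                Finset.sum_le_sum fun c _ => (h2 i c).2
            _ = E.card * B := by rw [Finset.sum_const, smul_eq_mul]
      _ = n * (E.card * B) := by rw [Finset.sum_const, smul_eq_mul, card_univ, Fintype.card_fin]

/-- **Zilber–Pink for the image of a curve** -/
theorem Sep.curve {Δ : Fin n → Set ℂ} {D : Fin n → ℤ} (hΔ : Sep Δ D) {E : Finset ℂ}
    (hE : ∀ i, ∀ c ∈ Δ i, IsSpecialPoint c → c ∈ E) {V : Set (Fin n → ℂ)} (hVΔ : AtMostC 1 Δ V)
    (hV : IsSubvariety V) (h1 : dim V = 1) (hc : ∀ (i : Fin n) (c : ℂ), ∃ x ∈ V, x i ≠ c) :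
    ({A | IsAtypical V A ∧ ∀ B, IsAtypical V B → A ⊆ B → B = A}.Finite ∧
      ∀ A, IsAtypical V A → ∃ B, (IsAtypical V B ∧ ∀ B', IsAtypical V B' → B ⊆ B' → B' = B) ∧ A ⊆ B) ∧
    (¬ ∃ S : SpecialData n, dim S.carrier < n ∧ V ⊆ S.carrier) ∧
    {x ∈ V | ∃ S : SpecialData n, dim S.carrier + 2 ≤ n ∧ x ∈ S.carrier} ⊆ {x ∈ V | ∃ i, x i ∈ E} := by
  refine ⟨hΔ.zp_curve (fun i => (E.finite_toSet).subset fun c hc => hE i c hc.1 hc.2) hVΔ hV h1, ?_, ?_⟩
  · rintro ⟨S, hS, hVS⟩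
    obtain ⟨i, hi, -⟩ := hΔ.const_coord hVΔ S hV subset_rfl hVS (by omega)
    obtain ⟨x, hx, hxc⟩ := hc i (S.c i)
    exact hxc ((hVS hx).1 i hi)
  · rintro x ⟨hx, S, hS, hxS⟩
    obtain ⟨i, hi, hci⟩ := hΔ.unlikely hVΔ S (by omega) hx hxS
    refine ⟨hx, i, ?_⟩
    rw [hxS.1 i hi]
    exact hE i _ hci (S.hc i hi)

end Pool.Agent.II
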