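import Pool.Agent.Helper20.ZT.Final
import Pool.Agent.Helper20.ZT.PrimRigG
import Pool.Agent.Helper11.ZU.Hyper

/-! # Integral images: common definitions -/

open UpperHalfPlane Pool.Agent.Helper11.ZP Pool.Agent.Helper20.ZT.Prim

namespace Pool.Agent.II

/-- integral matrices -/
abbrev Mat := Matrix (Fin 2) (Fin 2) ℤ

/-- `τ' = A τ` -/
def Mov (A : Mat) (τ τ' : ℍ) : Prop :=
  (τ' : ℂ) * (A 1 0 * (τ : ℂ) + A 1 1) = A 0 0 * (τ : ℂ) + A 0 1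

/-- primitive matrices -/
def Prm (A : Mat) : Prop := ∀ k : ℤ, (∀ i j, k ∣ A i j) → k ∣ 1

/-- the discriminant of a matrix -/
def dsc (A : Mat) : ℤ := A.trace ^ 2 - 4 * A.det

/-- the modular polynomial of the primitive matrices of determinant `N` -/
noncomputable def Phi (N : ℤ) [Fact (0 < N)] (x y : ℂ) : ℂ := (primPoly N).eval₂ (evO x) y

/-- `x₀` is a centre of the residue disk of the integer `a`, with an endomorphism of degree `p` and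
trace `t` -/
structure Center (v : AbsoluteValue ℂ ℝ) (p : ℕ) (a t : ℤ) (x₀ : ℂ) : Prop where
  near : v (x₀ - a) < 1
  ex : ∃ (A₀ : Mat) (τ₀ : ℍ), A₀.det = p ∧ A₀.trace = t ∧ Mov A₀ τ₀ τ₀ ∧ jInv τ₀ = x₀

/-- the canonical neighbour of a point near a centre -/
structure Canon (v : AbsoluteValue ℂ ℝ) (p : ℕ) (x₀ : ℂ) (μ : ℝ) : Prop where
  lt : μ < 1
  ex : ∀ τ : ℍ, jInv τ ≠ x₀ → v (jInv τ - x₀) < 1 →
    ∃ (P : Mat) (τ' : ℍ), P.det = p ∧ Mov P τ τ' ∧ v (jInv τ' - x₀) < v (jInv τ - x₀)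
  ne : ∀ (τ τ' : ℍ) (P : Mat), P.det = p → Mov P τ τ' → jInv τ ≠ x₀ → v (jInv τ - x₀) < 1 →
    v (jInv τ' - x₀) ≠ v (jInv τ - x₀)
  contr : ∀ (τ τ' : ℍ) (P : Mat), P.det = p → Mov P τ τ' → jInv τ ≠ x₀ → v (jInv τ - x₀) < 1 →
    v (jInv τ' - x₀) < v (jInv τ - x₀) →
    v (jInv τ' - x₀) ≤ max μ (v (jInv τ - x₀)) * v (jInv τ - x₀)
  uniq : ∀ (τ τ₁ τ₂ : ℍ) (P Q : Mat), P.det = p → Mov P τ τ₁ → Q.det = p → Mov Q τ τ₂ →
    jInv τ ≠ x₀ → v (jInv τ - x₀) < 1 →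
    v (jInv τ₁ - x₀) < v (jInv τ - x₀) → v (jInv τ₂ - x₀) < v (jInv τ - x₀) →
    ∃ G : Mat, G.det = 1 ∧ Q = G * P

/-- two rays, linked by matrices of determinant `N` -/
structure Rays (v : AbsoluteValue ℂ ℝ) (p : ℕ) (x₀ : ℂ) (N : ℤ) (τ τ' : ℕ → ℍ) (P P' A : ℕ → Mat) :
    Prop where
  dP : ∀ k, (P k).det = p
  dP' : ∀ k, (P' k).det = p
  mP : ∀ k, Mov (P k) (τ k) (τ (k + 1))
  mP' : ∀ k, Mov (P' k) (τ' k) (τ' (k + 1))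
  dA : ∀ k, (A k).det = N
  pA : ∀ k, Prm (A k)
  mA : ∀ k, Mov (A k) (τ k) (τ' k)
  sq : ∀ k, P' k * A k = A (k + 1) * P k
  ne : ∀ k, jInv (τ k) ≠ x₀
  lt : v (jInv (τ 0) - x₀) < 1
  dec : ∀ k, v (jInv (τ (k + 1)) - x₀) < v (jInv (τ k) - x₀)

end Pool.Agent.II
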