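import Pool.Agent.Helper92.ZT.Density
/-! R8 of MP_130685 IntegralImages (helper46): natural density in Z^(1+n). -/
set_option autoImplicit false
namespace Pool.Agent.II
open Finset Filter

/-- the box -/
noncomputable def bx (n H : ℕ) : Finset (ℤ × (Fin n → ℤ)) :=
  (Icc (-(H : ℤ)) H) ×ˢ (Fintype.piFinset fun _ : Fin n => Icc (-(H : ℤ)) H)

theorem bx_card (n H : ℕ) : ((bx n H).card : ℝ) = (2 * H + 1) ^ (n + 1) := by
  rw [bx, card_product, Fintype.card_piFinset, prod_const, card_univ, Fintype.card_fin,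
    Int.card_Icc]
  have e2 : ((H : ℤ) + 1 - -(H : ℤ)).toNat = 2 * H + 1 := by omega
  rw [e2]
  push_cast
  ring

theorem mem_bx {n H : ℕ} {v : ℤ × (Fin n → ℤ)} :
    v ∈ bx n H ↔ (-(H : ℤ) ≤ v.1 ∧ v.1 ≤ H) ∧ ∀ i, -(H : ℤ) ≤ v.2 i ∧ v.2 i ≤ H := by
  rw [bx, mem_product, mem_Icc, Fintype.mem_piFinset]
  simp only [mem_Icc]

/-- the upper density of `P` is at most `ε` -/
def UD {n : ℕ} (P : ℤ × (Fin n → ℤ) → Prop) (ε : ℝ) : Prop :=
  ∀ᶠ H : ℕ in atTop, ∀ T : Finset (ℤ × (Fin n → ℤ)), T ⊆ bx n H → (∀ v ∈ T, P v) →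
    (T.card : ℝ) ≤ ε * (2 * H + 1 : ℝ) ^ (n + 1)

theorem UD.mono {n : ℕ} {P Q : ℤ × (Fin n → ℤ) → Prop} {ε : ℝ} (h : ∀ v, P v → Q v)
    (hQ : UD Q ε) : UD P ε := by
  filter_upwards [hQ] with H hH T hT hP
  exact hH T hT fun v hv => h v (hP v hv)

theorem UD.or {n : ℕ} {P Q : ℤ × (Fin n → ℤ) → Prop} {ε δ : ℝ} (hP : UD P ε) (hQ : UD Q δ) :
    UD (fun v => P v ∨ Q v) (ε + δ) := by
  classical
  filter_upwards [hP, hQ] with H h1 h2 T hT hPQ
  have e1 := h1 (T.filter P) ((filter_subset _ _).trans hT) (fun v hv => (mem_filter.1 hv).2)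
  have e2 := h2 (T.filter (fun v => ¬ P v)) ((filter_subset _ _).trans hT) (fun v hv => by
    have := mem_filter.1 hv
    exact (hPQ v this.1).resolve_left this.2)
  have e3 := Finset.card_filter_add_card_filter_not (s := T) P
  have e4 : ((T.filter P).card : ℝ) + ((T.filter (fun v => ¬ P v)).card : ℝ) = T.card := by
    exact_mod_cast e3
  rw [add_mul]
  linarith

theorem UD.le {n : ℕ} {P : ℤ × (Fin n → ℤ) → Prop} {ε δ : ℝ} (hP : UD P ε) (h : ε ≤ δ) :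
    UD P δ := by
  filter_upwards [hP] with H h1 T hT hPT
  refine (h1 T hT hPT).trans ?_
  apply mul_le_mul_of_nonneg_right h
  positivity

theorem mult_count (M H : ℕ) (hM : 0 < M) :
    (((Icc (-(H : ℤ)) H).filter (fun x => x ≠ 0 ∧ (M : ℤ) ∣ x)).card : ℝ) ≤ 2 * (H : ℝ) / M := by
  have hsub : (Icc (-(H : ℤ)) H).filter (fun x => x ≠ 0 ∧ (M : ℤ) ∣ x) ⊆
      ((Icc (-((H / M : ℕ) : ℤ)) ((H / M : ℕ) : ℤ)).erase 0).image (fun y => (M : ℤ) * y) := by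
    intro x hx
    rw [mem_filter, mem_Icc] at hx
    obtain ⟨⟨h1, h2⟩, h3, y, hy⟩ := hx
    rw [mem_image]
    have hM' : (0 : ℤ) < M := by exact_mod_cast hM
    refine ⟨y, ?_, hy.symm⟩
    rw [mem_erase, mem_Icc]
    have hy0 : y ≠ 0 := by rintro rfl; exact h3 (by rw [hy, mul_zero])
    refine ⟨hy0, ?_, ?_⟩
    · have : -y ≤ (H : ℤ) / (M : ℤ) := by
        rw [Int.le_ediv_iff_mul_le hM']
        nlinarith
      push_cast
      linarith
    · have : y ≤ (H : ℤ) / (M : ℤ) := by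
        rw [Int.le_ediv_iff_mul_le hM']
        nlinarith
      push_cast
      linarith
  have h1 := card_le_card hsub
  have h2 : (((Icc (-((H / M : ℕ) : ℤ)) ((H / M : ℕ) : ℤ)).erase 0).image
      (fun y => (M : ℤ) * y)).card ≤ 2 * (H / M) := by
    refine card_image_le.trans ?_
    rw [card_erase_of_mem (mem_Icc.2 ⟨neg_nonpos.2 (Int.natCast_nonneg _), Int.natCast_nonneg _⟩),
      Int.card_Icc]
    omega
  have h3 : (((H / M : ℕ) : ℕ) : ℝ) ≤ (H : ℝ) / M := Nat.cast_div_le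
  calc (((Icc (-(H : ℤ)) H).filter (fun x => x ≠ 0 ∧ (M : ℤ) ∣ x)).card : ℝ)
      ≤ ((2 * (H / M) : ℕ) : ℝ) := by exact_mod_cast h1.trans h2
    _ = 2 * (((H / M : ℕ) : ℕ) : ℝ) := by push_cast; ring
    _ ≤ 2 * ((H : ℝ) / M) := by linarith
    _ = 2 * (H : ℝ) / M := by ring

theorem vec_count {n : ℕ} (M H : ℕ) (hM : 0 < M) (R : Finset (Fin n → ZMod M)) :
    (((Fintype.piFinset fun _ : Fin n => Icc (-(H : ℤ)) H).filter
      (fun a => (fun i => (a i : ZMod M)) ∈ R)).card : ℝ) ≤ R.card * ((2 * H + 1 : ℝ) / M + 1) ^ n := by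
  classical
  have hsub : (Fintype.piFinset fun _ : Fin n => Icc (-(H : ℤ)) H).filter
      (fun a => (fun i => (a i : ZMod M)) ∈ R) ⊆
      R.biUnion (fun r => Fintype.piFinset fun i : Fin n => (Icc (-(H : ℤ)) H).filter
          (fun x : ℤ => (x : ZMod M) = r i)) := by
    intro a ha
    rw [mem_filter, Fintype.mem_piFinset] at ha
    rw [mem_biUnion]
    refine ⟨_, ha.2, ?_⟩
    rw [Fintype.mem_piFinset]
    intro i
    rw [mem_filter]
    exact ⟨ha.1 i, rfl⟩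
  have h1 : ∀ r ∈ R, ((Fintype.piFinset fun i : Fin n => (Icc (-(H : ℤ)) H).filter
          (fun x : ℤ => (x : ZMod M) = r i)).card : ℝ) ≤ ((2 * H + 1 : ℝ) / M + 1) ^ n := by
    intro r _
    rw [Fintype.card_piFinset, Nat.cast_prod]
    have a2 := fun i => Pool.Agent.Helper20.ZT.card_Icc_zmod_le M hM (-(H : ℤ)) H (r i) (by omega)
    calc ∏ i : Fin n, ((((Icc (-(H : ℤ)) H).filter
            (fun x : ℤ => (x : ZMod M) = r i)).card : ℕ) : ℝ)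
          ≤ ∏ _i : Fin n, ((2 * H + 1 : ℝ) / M + 1) := by
            refine prod_le_prod (fun i _ => Nat.cast_nonneg _) fun i _ => (a2 i).trans ?_
            push_cast
            apply le_of_eq
            ring
        _ = _ := by rw [prod_const, card_univ, Fintype.card_fin]
  calc (((Fintype.piFinset fun _ : Fin n => Icc (-(H : ℤ)) H).filter
      (fun a => (fun i => (a i : ZMod M)) ∈ R)).card : ℝ)
      ≤ ((∑ r ∈ R, (Fintype.piFinset fun i : Fin n => (Icc (-(H : ℤ)) H).filter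
          (fun x : ℤ => (x : ZMod M) = r i)).card : ℕ) : ℝ) := by
        exact_mod_cast (card_le_card hsub).trans card_biUnion_le
    _ = ∑ r ∈ R, ((Fintype.piFinset fun i : Fin n => (Icc (-(H : ℤ)) H).filter
          (fun x : ℤ => (x : ZMod M) = r i)).card : ℝ) := by push_cast; rfl
    _ ≤ ∑ r ∈ R, ((2 * H + 1 : ℝ) / M + 1) ^ n := sum_le_sum h1
    _ = _ := by rw [sum_const, nsmul_eq_mul]

/-- the count of one event -/
theorem ev_count {n : ℕ} (M H : ℕ) (hM : 0 < M) (R : Finset (Fin n → ZMod M))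
    (T : Finset (ℤ × (Fin n → ℤ))) (hT : T ⊆ bx n H)
    (h : ∀ v ∈ T, v.1 ≠ 0 ∧ (M : ℤ) ∣ v.1 ∧ (fun i => (v.2 i : ZMod M)) ∈ R) :
    (T.card : ℝ) ≤ 2 * 4 ^ n * (2 * H + 1 : ℝ) ^ (n + 1) * ((R.card : ℝ) / (M : ℝ) ^ (n + 1)) := by
  classical
  have hM' : (0 : ℝ) < M := by exact_mod_cast hM
  by_cases hMH : M ≤ H
  · have hsub : T ⊆ ((Icc (-(H : ℤ)) H).filter (fun x => x ≠ 0 ∧ (M : ℤ) ∣ x)) ×ˢ
        ((Fintype.piFinset fun _ : Fin n => Icc (-(H : ℤ)) H).filter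
        (fun a => (fun i => (a i : ZMod M)) ∈ R)) := by
      intro v hv
      have h1 := hT hv
      rw [bx, mem_product] at h1
      have h2 := h v hv
      rw [mem_product, mem_filter, mem_filter]
      exact ⟨⟨h1.1, h2.1, h2.2.1⟩, h1.2, h2.2.2⟩
    have h1 : (T.card : ℝ) ≤ (2 * (H : ℝ) / M) * (R.card * ((2 * H + 1 : ℝ) / M + 1) ^ n) := by
      have h0 := card_le_card hsub
      rw [card_product] at h0
      have h0' : (T.card : ℝ) ≤ (((Icc (-(H : ℤ)) H).filter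
          (fun x => x ≠ 0 ∧ (M : ℤ) ∣ x)).card : ℝ) *
          (((Fintype.piFinset fun _ : Fin n => Icc (-(H : ℤ)) H).filter
          (fun a => (fun i => (a i : ZMod M)) ∈ R)).card : ℝ) := by
        rw [← Nat.cast_mul]
        exact Nat.cast_le.2 h0
      exact h0'.trans (mul_le_mul (mult_count M H hM) (vec_count M H hM R) (Nat.cast_nonneg _)
            (by positivity))
    have hMH' : (M : ℝ) ≤ H := by exact_mod_cast hMH
    have hH1 : (1 : ℝ) ≤ H := by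
      have : 1 ≤ H := by omega
      exact_mod_cast this
    have h2 : (2 * H + 1 : ℝ) / M + 1 ≤ 4 * H / M := by
      rw [div_add_one hM'.ne', div_le_div_iff_of_pos_right hM']
      linarith
    refine h1.trans ?_
    calc (2 * (H : ℝ) / M) * (R.card * ((2 * H + 1 : ℝ) / M + 1) ^ n)
        ≤ (2 * (H : ℝ) / M) * (R.card * (4 * H / M) ^ n) := by gcongr
      _ = 2 * 4 ^ n * (H : ℝ) ^ (n + 1) * ((R.card : ℝ) / (M : ℝ) ^ (n + 1)) := by
        rw [div_pow, mul_pow]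
        field_simp
        ring
      _ ≤ _ := by
        gcongr
        linarith
  · have hT0 : T = ∅ := by
      rw [eq_empty_iff_forall_notMem]
      intro v hv
      have h1 := (mem_bx.1 (hT hv)).1
      obtain ⟨h2, h3, _⟩ := h v hv
      have h4 := Int.le_of_dvd (abs_pos.2 h2) ((dvd_abs _ _).2 h3)
      have h5 : |v.1| ≤ H := abs_le.2 h1
      omega
    rw [hT0, card_empty]
    push_cast
    positivity

/-- counting vectors with a constraint on one coordinate -/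
theorem coord_count {n : ℕ} {Z : Type} [Fintype Z] [DecidableEq Z] (i : Fin n)
    (T : Finset (Fin n → Z)) (b : ℝ)
    (h : ∀ r : Fin n → Z, ((univ.filter (fun x : Z => Function.update r i x ∈ T)).card : ℝ) ≤ b) :
    (T.card : ℝ) * Fintype.card Z ≤ b * (Fintype.card Z : ℝ) ^ n := by
  have h1 : (T ×ˢ (univ : Finset Z)).card ≤ ((univ : Finset (Fin n → Z)).sigma
      (fun r => univ.filter (fun x : Z => Function.update r i x ∈ T))).card := by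
    apply Finset.card_le_card_of_injOn
      (fun ty => (⟨Function.update ty.1 i ty.2, ty.1 i⟩ : Σ _ : (Fin n → Z), Z))
    · rintro ⟨t, y⟩ hty
      have ht : t ∈ T := (mem_product.1 (mem_coe.1 hty)).1
      rw [mem_coe, mem_sigma]
      refine ⟨mem_univ _, ?_⟩
      rw [mem_filter]
      refine ⟨mem_univ _, ?_⟩
      simpa using ht
    · rintro ⟨t, y⟩ _ ⟨t', y'⟩ _ heq
      simp only [Sigma.mk.injEq, heq_eq_eq] at heq
      obtain ⟨e1, e2⟩ := heq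
      have e3 : y = y' := by
        have := congrFun e1 i
        simpa using this
      have e4 : t = t' := by
        funext j
        by_cases hj : j = i
        · rw [hj, e2]
        · have := congrFun e1 j
          simpa [Function.update_of_ne hj] using this
      rw [e3, e4]
  rw [card_product, card_univ, card_sigma] at h1
  calc (T.card : ℝ) * Fintype.card Z ≤ ((∑ r : Fin n → Z,
        (univ.filter (fun x : Z => Function.update r i x ∈ T)).card : ℕ) : ℝ) := by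
        exact_mod_cast h1
    _ = ∑ r : Fin n → Z, ((univ.filter (fun x : Z => Function.update r i x ∈ T)).card : ℝ) := by
        push_cast; rfl
    _ ≤ ∑ _r : Fin n → Z, b := sum_le_sum fun r _ => h r
    _ = b * (Fintype.card Z : ℝ) ^ n := by
        rw [sum_const, card_univ, nsmul_eq_mul, Fintype.card_fun, Fintype.card_fin]
        push_cast
        ring

theorem UD_false {n : ℕ} {P : ℤ × (Fin n → ℤ) → Prop} (hP : ∀ v, ¬ P v) {ε : ℝ} (hε : 0 ≤ ε) :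
    UD P ε := by
  refine Eventually.of_forall fun H T _ h => ?_
  have hT0 : T = ∅ := by
    rw [eq_empty_iff_forall_notMem]
    intro v hv
    exact hP v (h v hv)
  rw [hT0, card_empty]
  push_cast
  positivity

theorem tendsto_two_mul_add_one : Tendsto (fun H : ℕ => (2 * (H : ℝ) + 1)) atTop atTop := by
  apply tendsto_atTop_add_const_right
  exact Tendsto.const_mul_atTop (by norm_num) tendsto_natCast_atTop_atTop

theorem vecs_card (n H : ℕ) :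
    ((Fintype.piFinset fun _ : Fin n => Icc (-(H : ℤ)) H).card : ℝ) = (2 * H + 1) ^ n := by
  rw [Fintype.card_piFinset, prod_const, card_univ, Fintype.card_fin, Int.card_Icc]
  have e2 : ((H : ℤ) + 1 - -(H : ℤ)).toNat = 2 * H + 1 := by omega
  rw [e2]
  push_cast
  ring

/-- a condition on the first coordinate only -/
theorem fst_count {n H : ℕ} (A : Finset ℤ) (T : Finset (ℤ × (Fin n → ℤ))) (hT : T ⊆ bx n H)
    (h : ∀ v ∈ T, v.1 ∈ A) : (T.card : ℝ) ≤ A.card * (2 * H + 1 : ℝ) ^ n := by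
  have hsub : T ⊆ A ×ˢ (Fintype.piFinset fun _ : Fin n => Icc (-(H : ℤ)) H) := by
    intro v hv
    have h1 := hT hv
    rw [bx, mem_product] at h1
    exact mem_product.2 ⟨h v hv, h1.2⟩
  have h1 := card_le_card hsub
  rw [card_product] at h1
  rw [← vecs_card, ← Nat.cast_mul]
  exact Nat.cast_le.2 h1

theorem UD_zero (n : ℕ) {ε : ℝ} (hε : 0 < ε) : UD (fun v : ℤ × (Fin n → ℤ) => v.1 = 0) ε := by
  filter_upwards [tendsto_two_mul_add_one.eventually_ge_atTop (1 / ε)] with H hH T hT h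
  have h1 := fst_count {0} T hT (fun v hv => by rw [mem_singleton]; exact h v hv)
  rw [card_singleton, Nat.cast_one, one_mul] at h1
  have h2 : 1 ≤ ε * (2 * (H : ℝ) + 1) := by
    have := mul_le_mul_of_nonneg_left hH hε.le
    rwa [mul_one_div_cancel hε.ne'] at this
  calc (T.card : ℝ) ≤ (2 * H + 1 : ℝ) ^ n := h1
    _ = 1 * (2 * H + 1 : ℝ) ^ n := by ring
    _ ≤ (ε * (2 * (H : ℝ) + 1)) * (2 * H + 1 : ℝ) ^ n := by gcongr
    _ = ε * (2 * H + 1 : ℝ) ^ (n + 1) := by ring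

theorem coprime_count (S : Finset ℕ) (hS : ∀ p ∈ S, p.Prime) (H : ℕ) (A : Finset ℤ)
    (hA : ∀ x ∈ A, (-(H : ℤ) ≤ x ∧ x ≤ H) ∧ ∀ p ∈ S, ¬ (p : ℤ) ∣ x) :
    (A.card : ℝ) ≤ (∏ p ∈ S, (1 - 1 / (4 * (p : ℝ)))) * (2 * H + 1) + (∏ p ∈ S, p : ℕ) := by
  classical
  set M := ∏ p ∈ S, p with hM
  have hM0 : 0 < M := Finset.prod_pos fun p hp => (hS p hp).pos
  have : NeZero M := ⟨hM0.ne'⟩
  have hM' : (0 : ℝ) < M := by exact_mod_cast hM0
  have hsub : A ⊆ (univ : Finset (ZMod M)ˣ).biUnion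
      (fun u => (Icc (-(H : ℤ)) H).filter (fun x : ℤ => (x : ZMod M) = (u : ZMod M))) := by
    intro x hx
    obtain ⟨h1, h2⟩ := hA x hx
    have h3 : IsUnit (x : ZMod M) := by
      rw [ZMod.coe_int_isUnit_iff_isCoprime]
      rw [hM]
      push_cast
      apply IsCoprime.prod_left
      intro p hp
      exact ((Nat.prime_iff_prime_int.1 (hS p hp)).coprime_iff_not_dvd).2 (h2 p hp)
    obtain ⟨u, hu⟩ := h3
    rw [mem_biUnion]
    refine ⟨u, mem_univ _, ?_⟩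
    rw [mem_filter, mem_Icc]
    exact ⟨h1, hu.symm⟩
  have h1 : (A.card : ℝ) ≤ (Nat.totient M : ℝ) * ((2 * H + 1 : ℝ) / M + 1) := by
    calc (A.card : ℝ) ≤ ((∑ u : (ZMod M)ˣ, ((Icc (-(H : ℤ)) H).filter
          (fun x : ℤ => (x : ZMod M) = (u : ZMod M))).card : ℕ) : ℝ) :=
          Nat.cast_le.2 ((card_le_card hsub).trans card_biUnion_le)
      _ = ∑ u : (ZMod M)ˣ, (((Icc (-(H : ℤ)) H).filter
          (fun x : ℤ => (x : ZMod M) = (u : ZMod M))).card : ℝ) := by push_cast; rfl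
      _ ≤ ∑ _u : (ZMod M)ˣ, ((2 * H + 1 : ℝ) / M + 1) := by
          refine sum_le_sum fun u _ => ?_
          refine (Pool.Agent.Helper20.ZT.card_Icc_zmod_le M hM0 (-(H : ℤ)) H u (by omega)).trans ?_
          push_cast
          apply le_of_eq
          ring
      _ = _ := by
          rw [sum_const, card_univ, nsmul_eq_mul, ZMod.card_units_eq_totient]
  have h2 : (Nat.totient M : ℝ) = M * ∏ p ∈ S, (1 - (p : ℝ)⁻¹) := by
    have := Nat.totient_eq_mul_prod_factors M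
    rw [show M.primeFactors = S from Nat.primeFactors_prod hS] at this
    have h3 : ((Nat.totient M : ℚ) : ℝ) = ((M * ∏ p ∈ S, (1 - (p : ℚ)⁻¹) : ℚ) : ℝ) := by rw [this]
    push_cast at h3
    exact_mod_cast h3
  have h3 : ∏ p ∈ S, (1 - (p : ℝ)⁻¹) ≤ ∏ p ∈ S, (1 - 1 / (4 * (p : ℝ))) := by
    apply Finset.prod_le_prod
    · intro p hp
      have : (1 : ℝ) ≤ p := by exact_mod_cast (hS p hp).one_lt.le
      have := inv_le_one_of_one_le₀ this
      linarith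
    · intro p hp
      have hp0 : (0 : ℝ) < p := by exact_mod_cast (hS p hp).pos
      have : 1 / (4 * (p : ℝ)) ≤ (p : ℝ)⁻¹ := by
        rw [one_div]
        apply inv_anti₀ hp0
        linarith
      linarith
  have h4 : (Nat.totient M : ℝ) ≤ M := by exact_mod_cast Nat.totient_le M
  have h5 : (Nat.totient M : ℝ) / M ≤ ∏ p ∈ S, (1 - 1 / (4 * (p : ℝ))) := by
    rw [h2, mul_div_cancel_left₀ _ hM'.ne']
    exact h3
  calc (A.card : ℝ) ≤ (Nat.totient M : ℝ) * ((2 * H + 1 : ℝ) / M + 1) := h1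
    _ = (Nat.totient M : ℝ) / M * (2 * H + 1) + Nat.totient M := by ring
    _ ≤ (∏ p ∈ S, (1 - 1 / (4 * (p : ℝ)))) * (2 * H + 1) + M := by gcongr

theorem UD_coprime (n P1 : ℕ) {ε : ℝ} (hε : 0 < ε) : ∃ S : Finset ℕ,
    (∀ p ∈ S, p.Prime ∧ P1 ≤ p) ∧
    UD (fun v : ℤ × (Fin n → ℤ) => ∀ p ∈ S, ¬ (p : ℤ) ∣ v.1) ε := by
  obtain ⟨S, hS, hS', hε'⟩ := Pool.Agent.Helper20.ZT.exists_prod_lt P1 (ε / 2) (by linarith)
  refine ⟨S, fun p hp => ⟨hS p hp, hS' p hp⟩, ?_⟩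
  filter_upwards [tendsto_two_mul_add_one.eventually_ge_atTop
    (((∏ p ∈ S, p : ℕ) : ℝ) / (ε / 2))] with H hH T hT h
  classical
  have h1 := fst_count (T.image (fun v => v.1)) T hT (fun v hv => mem_image_of_mem _ hv)
  have h2 := coprime_count S hS H (T.image (fun v => v.1)) (by
    intro x hx
    obtain ⟨v, hv, rfl⟩ := mem_image.1 hx
    exact ⟨(mem_bx.1 (hT hv)).1, h v hv⟩)
  rw [div_le_iff₀ (by linarith)] at hH
  have h3 : ((T.image (fun v => v.1)).card : ℝ) ≤ ε * (2 * H + 1) := by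
    refine h2.trans ?_
    have : (∏ p ∈ S, (1 - 1 / (4 * (p : ℝ)))) * (2 * H + 1) ≤ ε / 2 * (2 * (H : ℝ) + 1) := by
      gcongr
    linarith
  calc (T.card : ℝ) ≤ _ := h1
    _ ≤ (ε * (2 * H + 1)) * (2 * H + 1 : ℝ) ^ n := by gcongr
    _ = ε * (2 * H + 1 : ℝ) ^ (n + 1) := by ring

theorem UD_primes (n : ℕ) (k : ℕ) : ∀ (P1 : ℕ) (ε : ℝ), 0 < ε →
    UD (fun v : ℤ × (Fin n → ℤ) => ¬ ∃ S : Finset ℕ, S.card = k ∧
      ∀ p ∈ S, p.Prime ∧ P1 ≤ p ∧ (p : ℤ) ∣ v.1) ε := by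
  classical
  induction k with
  | zero =>
    intro P1 ε hε
    apply UD_false _ hε.le
    intro v hv
    exact hv ⟨∅, card_empty, fun p hp => absurd hp (notMem_empty p)⟩
  | succ k ih =>
    intro P1 ε hε
    obtain ⟨S, hS, hU⟩ := UD_coprime n P1 (ε := ε / 2) (by linarith)
    have h2 := ih (max P1 (S.sup id + 1)) (ε / 2) (by linarith)
    have h3 := (hU.or h2).le (by linarith : ε / 2 + ε / 2 ≤ ε)
    refine h3.mono fun v hv => ?_
    by_contra hcon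
    rw [not_or, not_not] at hcon
    obtain ⟨h4, S', h5, h6⟩ := hcon
    push Not at h4
    obtain ⟨p, hp, hpv⟩ := h4
    apply hv
    have hpS : p ∉ S' := by
      intro hp'
      have := (h6 p hp').2.1
      have h8 : p ≤ S.sup id := Finset.le_sup (f := id) hp
      have h9 := (le_max_right P1 (S.sup id + 1)).trans this
      omega
    refine ⟨insert p S', by rw [card_insert_of_notMem hpS, h5], ?_⟩
    intro q hq
    rcases mem_insert.1 hq with rfl | hq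
    · exact ⟨(hS q hp).1, (hS q hp).2, hpv⟩
    · exact ⟨(h6 q hq).1, (le_max_left _ _).trans (h6 q hq).2.1, (h6 q hq).2.2⟩

/-- the union bound -/
theorem union_bound {n : ℕ} {ι : Type} [DecidableEq ι] (P : ι → Prop) (m : ι → ℕ)
    (hm : ∀ i, P i → 0 < m i) (R : ∀ i, Finset (Fin n → ZMod (m i))) (w : ι → ℝ)
    (hw : ∀ i, P i → ((R i).card : ℝ) / (m i : ℝ) ^ (n + 1) ≤ w i) (δ : ℝ)
    (hδ : ∀ s : Finset ι, (∀ i ∈ s, P i) → ∑ i ∈ s, w i ≤ δ) (hδ0 : 0 ≤ δ) :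
    UD (fun v : ℤ × (Fin n → ℤ) => v.1 ≠ 0 ∧ ∃ i, P i ∧ (m i : ℤ) ∣ v.1 ∧
      (fun j => (v.2 j : ZMod (m i))) ∈ R i) (2 * 4 ^ n * δ) := by
  classical
  refine Eventually.of_forall fun H T hT h => ?_
  rcases T.eq_empty_or_nonempty with hT0 | ⟨v0, hv0⟩
  · rw [hT0, card_empty]
    push_cast
    positivity
  obtain ⟨i0, _⟩ := (h v0 hv0).2
  have hch : ∀ v : ℤ × (Fin n → ℤ), ∃ i, v ∈ T → (P i ∧ (m i : ℤ) ∣ v.1 ∧
      (fun j => (v.2 j : ZMod (m i))) ∈ R i) := by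
    intro v
    by_cases hv : v ∈ T
    · obtain ⟨i, hi⟩ := (h v hv).2
      exact ⟨i, fun _ => hi⟩
    · exact ⟨i0, fun hv' => absurd hv' hv⟩
  choose g hg using hch
  have h1 : T.card = ∑ i ∈ T.image g, (T.filter (fun v => g v = i)).card :=
    card_eq_sum_card_image g T
  have h2 : ∀ i ∈ T.image g, ((T.filter (fun v => g v = i)).card : ℝ) ≤
      2 * 4 ^ n * (2 * H + 1 : ℝ) ^ (n + 1) * w i := by
    intro i hi
    obtain ⟨u, hu, rfl⟩ := mem_image.1 hi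
    have hP := (hg u hu).1
    refine (ev_count (m (g u)) H (hm _ hP) (R (g u)) _ ((filter_subset _ _).trans hT) ?_).trans ?_
    · intro v hv
      rw [mem_filter] at hv
      have h3 := hg v hv.1
      rw [hv.2] at h3
      exact ⟨(h v hv.1).1, h3.2.1, h3.2.2⟩
    · exact mul_le_mul_of_nonneg_left (hw _ hP) (by positivity)
  calc (T.card : ℝ) = ∑ i ∈ T.image g, ((T.filter (fun v => g v = i)).card : ℝ) := by
        rw [h1]; push_cast; rfl
    _ ≤ ∑ i ∈ T.image g, 2 * 4 ^ n * (2 * H + 1 : ℝ) ^ (n + 1) * w i := sum_le_sum h2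
    _ = 2 * 4 ^ n * (2 * H + 1 : ℝ) ^ (n + 1) * ∑ i ∈ T.image g, w i := by rw [mul_sum]
    _ ≤ 2 * 4 ^ n * (2 * H + 1 : ℝ) ^ (n + 1) * δ := by
        apply mul_le_mul_of_nonneg_left _ (by positivity)
        apply hδ
        intro i hi
        obtain ⟨u, hu, rfl⟩ := mem_image.1 hi
        exact (hg u hu).1
    _ = 2 * 4 ^ n * δ * (2 * H + 1 : ℝ) ^ (n + 1) := by ring

/-! ## Local counts -/

/-- the standard representative -/
def nb {M : ℕ} (x : ZMod M) : ℤ := (x.val : ℤ)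

theorem nb_congr {M : ℕ} (hM : 0 < M) (a : ℤ) : (M : ℤ) ∣ nb (a : ZMod M) - a := by
  have : NeZero M := ⟨hM.ne'⟩
  rw [nb, ZMod.val_intCast]
  exact ⟨-(a / M), by linarith [Int.emod_add_mul_ediv a M]⟩

theorem one_count {p : ℕ} [NeZero p] (Q : ℤ → Prop) (b : ℝ)
    (h : ∀ T : Finset ℤ, (∀ x ∈ T, 0 ≤ x ∧ x < p ∧ Q x) → (T.card : ℝ) ≤ b)
    (T : Finset (ZMod p)) (hT : ∀ x ∈ T, Q (nb x)) : (T.card : ℝ) ≤ b := by
  classical
  have h1 := h (T.image nb) (by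
    intro y hy
    obtain ⟨x, hx, rfl⟩ := mem_image.1 hy
    exact ⟨Int.natCast_nonneg _, by unfold nb; exact_mod_cast ZMod.val_lt x, hT x hx⟩)
  rwa [card_image_of_injOn] at h1
  intro x _ y _ hxy
  exact ZMod.val_injective p (Int.natCast_inj.1 hxy)

theorem two_count {p q : ℕ} (hp : 0 < p) (hq : 0 < q) (hco : p.Coprime q) {α : Type*}
    (F : ℤ → α) (NO : Set ℤ) (g : ℕ → α) (b : ℝ)
    (hF : ∀ x y : ℤ, (q : ℤ) ∣ x - y → F x = F y)
    (hNO : ∀ x y : ℤ, (q : ℤ) ∣ x - y → (x ∈ NO ↔ y ∈ NO))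
    (h : ∀ f : α, ∀ T : Finset ℤ, (∀ x ∈ T, 0 ≤ x ∧ x < q ∧ x ∉ NO ∧ F x = f) →
      (T.card : ℝ) ≤ b)
    (T : Finset (ZMod (p * q))) (hT : ∀ x ∈ T, nb x ∉ NO ∧ F (nb x) = g (x.val % p)) :
    (T.card : ℝ) ≤ p * b := by
  classical
  have : NeZero (p * q) := ⟨(Nat.mul_pos hp hq).ne'⟩
  have h1 : T.card = ∑ a ∈ range p, (T.filter (fun x => x.val % p = a)).card := by
    apply card_eq_sum_card_fiberwise
    intro x _
    rw [mem_coe, mem_range]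
    exact Nat.mod_lt _ hp
  have h2 : ∀ a ∈ range p, ((T.filter (fun x => x.val % p = a)).card : ℝ) ≤ b := by
    intro a _
    have h3 := h (g a) ((T.filter (fun x => x.val % p = a)).image
      (fun x => ((x.val % q : ℕ) : ℤ))) (by
      intro y hy
      obtain ⟨x, hx, rfl⟩ := mem_image.1 hy
      rw [mem_filter] at hx
      obtain ⟨h4, h5⟩ := hT x hx.1
      have h6 : (q : ℤ) ∣ ((x.val % q : ℕ) : ℤ) - nb x := by
        rw [nb]
        exact ⟨-((x.val : ℤ) / q), by push_cast; linarith [Int.emod_add_mul_ediv (x.val : ℤ) q]⟩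
      refine ⟨Int.natCast_nonneg _, ?_, ?_, ?_⟩
      · exact_mod_cast Nat.mod_lt _ hq
      · rw [hNO _ _ h6]
        exact h4
      · rw [hF _ _ h6, h5, hx.2])
    rwa [card_image_of_injOn] at h3
    intro x hx y hy hxy
    rw [mem_coe, mem_filter] at hx hy
    have e1 : x.val % q = y.val % q := Int.natCast_inj.1 hxy
    have e2 : x.val % p = y.val % p := by rw [hx.2, hy.2]
    have e3 : x.val ≡ y.val [MOD p * q] :=
      (Nat.modEq_and_modEq_iff_modEq_mul hco).1 ⟨e2, e1⟩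
    exact ZMod.val_injective _ (Nat.ModEq.eq_of_lt_of_lt e3 (ZMod.val_lt x) (ZMod.val_lt y))
  calc (T.card : ℝ) = ∑ a ∈ range p, ((T.filter (fun x => x.val % p = a)).card : ℝ) := by
        rw [h1]; push_cast; rfl
    _ ≤ ∑ _a ∈ range p, b := sum_le_sum h2
    _ = p * b := by rw [sum_const, card_range, nsmul_eq_mul]

theorem biUnion_card_mul {ι κ : Type} [DecidableEq κ] (s : Finset ι) (A : ι → Finset κ)
    (c B : ℝ) (hc : 0 ≤ c) (h : ∀ i ∈ s, ((A i).card : ℝ) * c ≤ B) :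
    ((s.biUnion A).card : ℝ) * c ≤ s.card * B := by
  calc ((s.biUnion A).card : ℝ) * c ≤ ((∑ i ∈ s, (A i).card : ℕ) : ℝ) * c :=
        mul_le_mul_of_nonneg_right (Nat.cast_le.2 card_biUnion_le) hc
    _ = ∑ i ∈ s, ((A i).card : ℝ) * c := by push_cast; rw [sum_mul]
    _ ≤ ∑ i ∈ s, B := sum_le_sum h
    _ = s.card * B := by rw [sum_const, nsmul_eq_mul]

theorem bad_one (n : ℕ) {p : ℕ} (hp : 0 < p) {α : Type*} (F : ℤ → α) (NO : Set ℤ) (b : ℝ)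
    (h1 : ∀ T : Finset ℤ, (∀ x ∈ T, 0 ≤ x ∧ x < p ∧ x ∈ NO) → (T.card : ℝ) ≤ b)
    (h2 : ∀ f : α, ∀ T : Finset ℤ, (∀ x ∈ T, 0 ≤ x ∧ x < p ∧ x ∉ NO ∧ F x = f) →
      (T.card : ℝ) ≤ b) :
    ∃ R : Finset (Fin n → ZMod p), (∀ r : Fin n → ZMod p, ((∃ i, nb (r i) ∈ NO) ∨
      ∃ i j, i ≠ j ∧ nb (r j) ∉ NO ∧ F (nb (r i)) = F (nb (r j))) → r ∈ R) ∧
      (R.card : ℝ) * p ≤ (n + n * n) * (b * (p : ℝ) ^ n) := by
  classical
  have : NeZero p := ⟨hp.ne'⟩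
  have hcp : (Fintype.card (ZMod p) : ℝ) = p := by rw [ZMod.card]
  let A : Fin n → Finset (Fin n → ZMod p) := fun i => univ.filter (fun r => nb (r i) ∈ NO)
  let B : Fin n × Fin n → Finset (Fin n → ZMod p) := fun ij =>
    univ.filter (fun r => ij.1 ≠ ij.2 ∧ nb (r ij.2) ∉ NO ∧ F (nb (r ij.1)) = F (nb (r ij.2)))
  have hb0 : 0 ≤ b := by
    have := h1 ∅ (fun x hx => absurd hx (notMem_empty x))
    simpa using this
  have hA : ∀ i ∈ (univ : Finset (Fin n)), ((A i).card : ℝ) * p ≤ b * (p : ℝ) ^ n := by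
    intro i _
    have := coord_count i (A i) b (by
      intro r
      apply one_count (fun x => x ∈ NO) b h1
      intro x hx
      have hx' := (mem_filter.1 hx).2
      have hx2 := (mem_filter.1 hx').2
      rwa [Function.update_self] at hx2)
    rwa [hcp] at this
  have hB : ∀ ij ∈ (univ : Finset (Fin n × Fin n)), ((B ij).card : ℝ) * p ≤ b * (p : ℝ) ^ n := by
    rintro ⟨i, j⟩ _
    by_cases hij : i = j
    · have : B (i, j) = ∅ := by
        rw [eq_empty_iff_forall_notMem]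
        intro r hr
        exact (mem_filter.1 hr).2.1 hij
      rw [this, card_empty]
      push_cast
      rw [zero_mul]
      positivity
    · have := coord_count j (B (i, j)) b (by
        intro r
        apply one_count (fun x => x ∉ NO ∧ F x = F (nb (r i))) b (h2 (F (nb (r i))))
        intro x hx
        have hx' := (mem_filter.1 hx).2
        have hx2 := (mem_filter.1 hx').2
        simp only [Function.update_self, Function.update_of_ne hij] at hx2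
        exact ⟨hx2.2.1, hx2.2.2.symm⟩)
      rwa [hcp] at this
  refine ⟨univ.biUnion A ∪ univ.biUnion B, ?_, ?_⟩
  · rintro r (⟨i, hi⟩ | ⟨i, j, hij⟩)
    · exact mem_union_left _ (mem_biUnion.2 ⟨i, mem_univ _, mem_filter.2 ⟨mem_univ _, hi⟩⟩)
    · exact mem_union_right _ (mem_biUnion.2 ⟨(i, j), mem_univ _, mem_filter.2 ⟨mem_univ _, hij⟩⟩)
  · have e1 := biUnion_card_mul univ A (p : ℝ) _ (Nat.cast_nonneg _) hA
    have e2 := biUnion_card_mul univ B (p : ℝ) _ (Nat.cast_nonneg _) hB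
    rw [card_univ, Fintype.card_fin] at e1
    rw [card_univ, Fintype.card_prod, Fintype.card_fin] at e2
    have e3 : ((univ.biUnion A ∪ univ.biUnion B).card : ℝ) ≤
        ((univ.biUnion A).card : ℝ) + ((univ.biUnion B).card : ℝ) := by
      exact_mod_cast card_union_le _ _
    have e4 := mul_le_mul_of_nonneg_right e3 (Nat.cast_nonneg (α := ℝ) p)
    push_cast at e2
    nlinarith [e4, e1, e2]

theorem bad_two (n : ℕ) {p q : ℕ} (hp : 0 < p) (hq : 0 < q) (hco : p.Coprime q) {α : Type*}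
    (F₁ F : ℤ → α) (NO : Set ℤ) (b : ℝ)
    (hF₁ : ∀ x y : ℤ, (p : ℤ) ∣ x - y → F₁ x = F₁ y)
    (hF : ∀ x y : ℤ, (q : ℤ) ∣ x - y → F x = F y)
    (hNO : ∀ x y : ℤ, (q : ℤ) ∣ x - y → (x ∈ NO ↔ y ∈ NO))
    (h : ∀ f : α, ∀ T : Finset ℤ, (∀ x ∈ T, 0 ≤ x ∧ x < q ∧ x ∉ NO ∧ F x = f) →
      (T.card : ℝ) ≤ b) :
    ∃ R : Finset (Fin n → ZMod (p * q)), (∀ r : Fin n → ZMod (p * q),
      (∃ i j, nb (r j) ∉ NO ∧ F₁ (nb (r i)) = F (nb (r j))) → r ∈ R) ∧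
      (R.card : ℝ) * (p * q) ≤ (n * n) * (p * b * (p * q : ℝ) ^ n) := by
  classical
  have : NeZero (p * q) := ⟨(Nat.mul_pos hp hq).ne'⟩
  have hcp : (Fintype.card (ZMod (p * q)) : ℝ) = p * q := by rw [ZMod.card]; push_cast; ring
  let B : Fin n × Fin n → Finset (Fin n → ZMod (p * q)) := fun ij =>
    univ.filter (fun r => nb (r ij.2) ∉ NO ∧ F₁ (nb (r ij.1)) = F (nb (r ij.2)))
  have hB : ∀ ij ∈ (univ : Finset (Fin n × Fin n)),
      ((B ij).card : ℝ) * (p * q) ≤ p * b * (p * q : ℝ) ^ n := by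
    rintro ⟨i, j⟩ _
    have := coord_count j (B (i, j)) (p * b) (by
      intro r
      by_cases hij : i = j
      · subst hij
        apply two_count hp hq hco F NO (fun a => F₁ (a : ℤ)) b hF hNO h
        intro x hx
        have hx' := (mem_filter.1 hx).2
        have hx2 := (mem_filter.1 hx').2
        simp only [Function.update_self] at hx2
        refine ⟨hx2.1, ?_⟩
        rw [← hx2.2]
        apply hF₁
        rw [nb]
        exact ⟨(x.val : ℤ) / p, by push_cast; linarith [Int.emod_add_mul_ediv (x.val : ℤ) p]⟩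
      · apply two_count hp hq hco F NO (fun _ => F₁ (nb (r i))) b hF hNO h
        intro x hx
        have hx' := (mem_filter.1 hx).2
        have hx2 := (mem_filter.1 hx').2
        simp only [Function.update_self, Function.update_of_ne hij] at hx2
        exact ⟨hx2.1, hx2.2.symm⟩)
    rwa [hcp] at this
  refine ⟨univ.biUnion B, ?_, ?_⟩
  · rintro r ⟨i, j, hij⟩
    exact mem_biUnion.2 ⟨(i, j), mem_univ _, mem_filter.2 ⟨mem_univ _, hij⟩⟩
  · have e2 := biUnion_card_mul univ B (p * q : ℝ) _ (by positivity) hB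
    rw [card_univ, Fintype.card_prod, Fintype.card_fin] at e2
    push_cast at e2
    exact e2

/-! ## Weights -/

theorem weight_one {n : ℕ} {p : ℕ} (hp : 0 < p) (R K : ℝ)
    (h : R * p ≤ K * ((p : ℝ) ^ (5 / 6 : ℝ) * (p : ℝ) ^ n)) :
    R / (p : ℝ) ^ (n + 1) ≤ K * (p : ℝ) ^ (-(7 / 6) : ℝ) := by
  have hp' : (0 : ℝ) < p := by exact_mod_cast hp
  have e1 : (p : ℝ) ^ (-(7 / 6) : ℝ) * (p : ℝ) ^ 2 = (p : ℝ) ^ (5 / 6 : ℝ) := by
    rw [← Real.rpow_natCast, ← Real.rpow_add hp']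
    norm_num
  rw [div_le_iff₀ (by positivity)]
  rw [← e1] at h
  have h2 : R * p ≤ K * (p : ℝ) ^ (-(7 / 6) : ℝ) * (p : ℝ) ^ (n + 1) * p := by
    calc R * p ≤ _ := h
      _ = _ := by ring
  exact le_of_mul_le_mul_right h2 hp'

theorem weight_two {n : ℕ} {p q : ℕ} (hp : 0 < p) (hpq : p ≤ q) (R K : ℝ) (hK : 0 ≤ K)
    (h : R * (p * q) ≤ K * (p * (q : ℝ) ^ (5 / 6 : ℝ) * (p * q : ℝ) ^ n)) :
    R / (((p * q : ℕ) : ℝ)) ^ (n + 1) ≤
      K * ((p : ℝ) ^ (-(13 / 12) : ℝ) * (q : ℝ) ^ (-(13 / 12) : ℝ)) := by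
  have hp' : (0 : ℝ) < p := by exact_mod_cast hp
  have hq' : (0 : ℝ) < q := by exact_mod_cast (lt_of_lt_of_le hp hpq)
  have hpq' : (p : ℝ) ≤ q := by exact_mod_cast hpq
  have e1 : ∀ x : ℝ, 0 < x → x ^ (-(13 / 12) : ℝ) * x ^ 2 = x ^ (11 / 12 : ℝ) := by
    intro x hx
    rw [← Real.rpow_natCast, ← Real.rpow_add hx]
    norm_num
  have e2 : (p : ℝ) = (p : ℝ) ^ (11 / 12 : ℝ) * (p : ℝ) ^ (1 / 12 : ℝ) := by
    rw [← Real.rpow_add hp']
    norm_num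
  have e3 : (q : ℝ) ^ (11 / 12 : ℝ) = (q : ℝ) ^ (5 / 6 : ℝ) * (q : ℝ) ^ (1 / 12 : ℝ) := by
    rw [← Real.rpow_add hq']
    norm_num
  have e4 : (p : ℝ) ^ (1 / 12 : ℝ) ≤ (q : ℝ) ^ (1 / 12 : ℝ) :=
    Real.rpow_le_rpow hp'.le hpq' (by norm_num)
  have e5 : p * (q : ℝ) ^ (5 / 6 : ℝ) ≤
      (p : ℝ) ^ (-(13 / 12) : ℝ) * (q : ℝ) ^ (-(13 / 12) : ℝ) * (p * q) ^ 2 := by
    calc p * (q : ℝ) ^ (5 / 6 : ℝ)
        = ((p : ℝ) ^ (11 / 12 : ℝ) * (p : ℝ) ^ (1 / 12 : ℝ)) * (q : ℝ) ^ (5 / 6 : ℝ) := by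
          rw [← e2]
      _ ≤ ((p : ℝ) ^ (11 / 12 : ℝ) * (q : ℝ) ^ (1 / 12 : ℝ)) * (q : ℝ) ^ (5 / 6 : ℝ) := by
          gcongr
      _ = (p : ℝ) ^ (11 / 12 : ℝ) * (q : ℝ) ^ (11 / 12 : ℝ) := by rw [e3]; ring
      _ = _ := by rw [← e1 p hp', ← e1 q hq']; ring
  push_cast
  rw [div_le_iff₀ (by positivity)]
  have h2 : R * (p * q) ≤ K * ((p : ℝ) ^ (-(13 / 12) : ℝ) * (q : ℝ) ^ (-(13 / 12) : ℝ)) *
      (p * q) ^ (n + 1) * (p * q) := by
    calc R * (p * q) ≤ _ := h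
      _ ≤ K * (((p : ℝ) ^ (-(13 / 12) : ℝ) * (q : ℝ) ^ (-(13 / 12) : ℝ) * (p * q) ^ 2) *
          (p * q : ℝ) ^ n) := by gcongr
      _ = _ := by ring
  exact le_of_mul_le_mul_right h2 (by positivity)

theorem tail_one {f : ℕ → ℝ} (hf : Summable f) {δ : ℝ} (hδ : 0 < δ) : ∃ P1 : ℕ,
    ∀ s : Finset ℕ, (∀ p ∈ s, P1 ≤ p) → ∑ p ∈ s, f p ≤ δ := by
  obtain ⟨s0, hs0⟩ := summable_iff_vanishing_norm.1 hf δ hδ
  refine ⟨s0.sup id + 1, fun s hs => ?_⟩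
  have h1 : Disjoint s s0 := by
    rw [Finset.disjoint_left]
    intro p hp hp0
    have h2 : p ≤ s0.sup id := Finset.le_sup (f := id) hp0
    have := hs p hp
    omega
  exact (le_abs_self _).trans (hs0 s h1).le

theorem tail_two {f : ℕ × ℕ → ℝ} (hf : Summable f) {δ : ℝ} (hδ : 0 < δ) : ∃ P1 : ℕ,
    ∀ s : Finset (ℕ × ℕ), (∀ x ∈ s, P1 ≤ x.1) → ∑ x ∈ s, f x ≤ δ := by
  obtain ⟨s0, hs0⟩ := summable_iff_vanishing_norm.1 hf δ hδ
  refine ⟨s0.sup (fun x => x.1) + 1, fun s hs => ?_⟩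
  have h1 : Disjoint s s0 := by
    rw [Finset.disjoint_left]
    intro x hx hx0
    have h2 : x.1 ≤ s0.sup (fun x => x.1) := Finset.le_sup (f := fun x : ℕ × ℕ => x.1) hx0
    have := hs x hx
    omega
  exact (le_abs_self _).trans (hs0 s h1).le

/-! ## The density theorem -/

/-- The upper density of the bad integral vectors is at most `ε`, for each `ε > 0`. -/
theorem density_UD {n : ℕ} (k P0 : ℕ) {α : Type*} (F : ℕ → ℤ → α) (NO : ℕ → Set ℤ) (C : ℝ)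
    (hF : ∀ p : ℕ, p.Prime → ∀ x y : ℤ, (p : ℤ) ∣ x - y → F p x = F p y)
    (hNO : ∀ p : ℕ, p.Prime → ∀ x y : ℤ, (p : ℤ) ∣ x - y → (x ∈ NO p ↔ y ∈ NO p))
    (hcard : ∀ p : ℕ, p.Prime → P0 ≤ p → ∀ T : Finset ℤ, (∀ x ∈ T, 0 ≤ x ∧ x < p ∧ x ∈ NO p) →
      (T.card : ℝ) ≤ C * (p : ℝ) ^ (5 / 6 : ℝ))
    (hcardF : ∀ p : ℕ, p.Prime → P0 ≤ p → ∀ f : α, ∀ T : Finset ℤ,
      (∀ x ∈ T, 0 ≤ x ∧ x < p ∧ x ∉ NO p ∧ F p x = f) → (T.card : ℝ) ≤ C * (p : ℝ) ^ (5 / 6 : ℝ))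
    (ε : ℝ) (hε : 0 < ε) :
    UD (fun v : ℤ × (Fin n → ℤ) => ¬ ∃ S : Finset ℕ, S.card = k ∧
      (∀ p ∈ S, p.Prime ∧ P0 ≤ p ∧ (p : ℤ) ∣ v.1 ∧ ∀ i, v.2 i ∉ NO p) ∧
      ∀ p ∈ S, ∀ q ∈ S, ∀ i j, (p, i) ≠ (q, j) → F p (v.2 i) ≠ F q (v.2 j)) ε := by
  classical
  have hC : 0 ≤ C := by
    obtain ⟨p, hp0, hp⟩ := Nat.exists_infinite_primes P0
    have h1 := hcard p hp hp0 ∅ (fun x hx => absurd hx (notMem_empty x))
    rw [card_empty, Nat.cast_zero] at h1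
    have h2 : (0 : ℝ) < (p : ℝ) ^ (5 / 6 : ℝ) :=
      Real.rpow_pos_of_pos (by exact_mod_cast hp.pos) _
    by_contra hneg
    push Not at hneg
    nlinarith [mul_neg_of_neg_of_pos hneg h2]
  set δ : ℝ := ε / (8 * 4 ^ n) with hδ
  have hδ0 : 0 < δ := by positivity
  -- the sets of bad residues
  have ex1 : ∀ p : ℕ, ∃ R : Finset (Fin n → ZMod p), p.Prime → P0 ≤ p →
      (∀ r : Fin n → ZMod p, ((∃ i, nb (r i) ∈ NO p) ∨
      ∃ i j, i ≠ j ∧ nb (r j) ∉ NO p ∧ F p (nb (r i)) = F p (nb (r j))) → r ∈ R) ∧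
      (R.card : ℝ) / (p : ℝ) ^ (n + 1) ≤ ((n + n * n) * C) * (p : ℝ) ^ (-(7 / 6) : ℝ) := by
    intro p
    by_cases hp : p.Prime ∧ P0 ≤ p
    · obtain ⟨R, h1, h2⟩ := bad_one n hp.1.pos (F p) (NO p) _ (hcard p hp.1 hp.2)
        (hcardF p hp.1 hp.2)
      refine ⟨R, fun _ _ => ⟨h1, weight_one hp.1.pos _ _ ?_⟩⟩
      refine h2.trans (le_of_eq ?_)
      ring
    · exact ⟨∅, fun h1 h2 => absurd ⟨h1, h2⟩ hp⟩
  choose R1 hR1 using ex1
  have ex2 : ∀ x : ℕ × ℕ, ∃ R : Finset (Fin n → ZMod (x.1 * x.2)),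
      x.1.Prime → x.2.Prime → P0 ≤ x.1 → x.1 < x.2 →
      (∀ r : Fin n → ZMod (x.1 * x.2),
      (∃ i j, nb (r j) ∉ NO x.2 ∧ F x.1 (nb (r i)) = F x.2 (nb (r j))) → r ∈ R) ∧
      (R.card : ℝ) / (((x.1 * x.2 : ℕ) : ℝ)) ^ (n + 1) ≤
        (n * n * C) * ((x.1 : ℝ) ^ (-(13 / 12) : ℝ) * (x.2 : ℝ) ^ (-(13 / 12) : ℝ)) := by
    rintro ⟨p, q⟩
    by_cases hp : p.Prime ∧ q.Prime ∧ P0 ≤ p ∧ p < q
    · obtain ⟨hp1, hq1, hp0, hpq⟩ := hp
      obtain ⟨R, h1, h2⟩ := bad_two n hp1.pos hq1.pos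
        ((Nat.coprime_primes hp1 hq1).2 hpq.ne) (F p) (F q) (NO q) _ (hF p hp1) (hF q hq1)
        (hNO q hq1) (hcardF q hq1 (hp0.trans hpq.le))
      refine ⟨R, fun _ _ _ _ => ⟨h1, weight_two hp1.pos hpq.le _ _ (by positivity) ?_⟩⟩
      refine h2.trans (le_of_eq ?_)
      ring
    · exact ⟨∅, fun h1 h2 h3 h4 => absurd ⟨h1, h2, h3, h4⟩ hp⟩
  choose R2 hR2 using ex2
  have s1 : Summable (fun p : ℕ => ((n + n * n : ℝ) * C) * (p : ℝ) ^ (-(7 / 6) : ℝ)) :=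
    (Real.summable_nat_rpow.2 (by norm_num)).mul_left _
  have s2' : Summable (fun p : ℕ => (p : ℝ) ^ (-(13 / 12) : ℝ)) :=
    Real.summable_nat_rpow.2 (by norm_num)
  have s2 : Summable (fun x : ℕ × ℕ => (n * n * C : ℝ) *
      ((x.1 : ℝ) ^ (-(13 / 12) : ℝ) * (x.2 : ℝ) ^ (-(13 / 12) : ℝ))) :=
    (s2'.mul_of_nonneg s2' (fun p => Real.rpow_nonneg (Nat.cast_nonneg p) _)
      (fun p => Real.rpow_nonneg (Nat.cast_nonneg p) _)).mul_left _
  obtain ⟨Pa, hPa⟩ := tail_one s1 hδ0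
  obtain ⟨Pb, hPb⟩ := tail_two s2 hδ0
  set P1 : ℕ := max P0 (max Pa Pb) with hP1
  have hP10 : P0 ≤ P1 := le_max_left _ _
  have hP1a : Pa ≤ P1 := (le_max_left _ _).trans (le_max_right _ _)
  have hP1b : Pb ≤ P1 := (le_max_right _ _).trans (le_max_right _ _)
  have u1 := union_bound (n := n) (fun p : ℕ => p.Prime ∧ P1 ≤ p) (fun p => p)
    (fun p hp => hp.1.pos) R1 (fun p => ((n + n * n) * C) * (p : ℝ) ^ (-(7 / 6) : ℝ))
    (fun p hp => (hR1 p hp.1 (hP10.trans hp.2)).2) δ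
    (fun s hs => hPa s (fun p hp => hP1a.trans (hs p hp).2)) hδ0.le
  have u2 := union_bound (n := n) (fun x : ℕ × ℕ => x.1.Prime ∧ x.2.Prime ∧ P1 ≤ x.1 ∧ x.1 < x.2)
    (fun x => x.1 * x.2) (fun x hx => Nat.mul_pos hx.1.pos hx.2.1.pos) R2
    (fun x => (n * n * C) * ((x.1 : ℝ) ^ (-(13 / 12) : ℝ) * (x.2 : ℝ) ^ (-(13 / 12) : ℝ)))
    (fun x hx => (hR2 x hx.1 hx.2.1 (hP10.trans hx.2.2.1) hx.2.2.2).2) δ
    (fun s hs => hPb s (fun x hx => hP1b.trans (hs x hx).2.2.1)) hδ0.le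
  have u3 := UD_primes n k P1 (ε / 4) (by linarith)
  have u4 := UD_zero n (ε := ε / 4) (by linarith)
  have hsum : 2 * 4 ^ n * δ + 2 * 4 ^ n * δ + ε / 4 + ε / 4 ≤ ε := by
    have : 2 * 4 ^ n * δ = ε / 4 := by
      rw [hδ]
      field_simp
      ring
    rw [this]
    linarith
  refine (((u1.or u2).or u3).or u4).le hsum |>.mono fun v hv => ?_
  by_contra hcon
  rw [not_or, not_or, not_or, not_not] at hcon
  obtain ⟨⟨⟨g1, g2⟩, S, hSk, hS⟩, g4⟩ := hcon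
  apply hv
  have c1 : ∀ p ∈ S, ∀ j, ((p : ℤ) ∣ nb (v.2 j : ZMod p) - v.2 j) := fun p hp j =>
    nb_congr (hS p hp).1.pos _
  have g1' : ∀ p ∈ S, (∀ i, v.2 i ∉ NO p) ∧ ∀ i j, i ≠ j → F p (v.2 i) ≠ F p (v.2 j) := by
    intro p hp
    have hpp := (hS p hp).1
    have hNOp : ∀ i, v.2 i ∉ NO p := by
      intro i hi
      apply g1
      refine ⟨g4, p, ⟨hpp, (hS p hp).2.1⟩, (hS p hp).2.2, ?_⟩
      refine (hR1 p hpp (hP10.trans (hS p hp).2.1)).1 _ (Or.inl ⟨i, ?_⟩)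
      exact (hNO p hpp _ _ (c1 p hp i)).2 hi
    refine ⟨hNOp, fun i j hij heq => ?_⟩
    apply g1
    refine ⟨g4, p, ⟨hpp, (hS p hp).2.1⟩, (hS p hp).2.2, ?_⟩
    refine (hR1 p hpp (hP10.trans (hS p hp).2.1)).1 _ (Or.inr ⟨i, j, hij, ?_, ?_⟩)
    · rw [hNO p hpp _ _ (c1 p hp j)]
      exact hNOp j
    · rw [hF p hpp _ _ (c1 p hp i), hF p hpp _ _ (c1 p hp j)]
      exact heq
  have g2' : ∀ p ∈ S, ∀ q ∈ S, p < q → ∀ i j, F p (v.2 i) ≠ F q (v.2 j) := by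
    intro p hp q hq hpq i j heq
    have hpp := (hS p hp).1
    have hqq := (hS q hq).1
    have hM : 0 < p * q := Nat.mul_pos hpp.pos hqq.pos
    have cp : ∀ j, ((p : ℤ) ∣ nb (v.2 j : ZMod (p * q)) - v.2 j) := fun j =>
      (Int.natCast_dvd_natCast.2 (dvd_mul_right p q)).trans (nb_congr hM _)
    have cq : ∀ j, ((q : ℤ) ∣ nb (v.2 j : ZMod (p * q)) - v.2 j) := fun j =>
      (Int.natCast_dvd_natCast.2 (dvd_mul_left q p)).trans (nb_congr hM _)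
    apply g2
    refine ⟨g4, (p, q), ⟨hpp, hqq, (hS p hp).2.1, hpq⟩, ?_, ?_⟩
    · have hco : IsCoprime (p : ℤ) (q : ℤ) :=
        Nat.isCoprime_iff_coprime.2 ((Nat.coprime_primes hpp hqq).2 hpq.ne)
      have := hco.mul_dvd (hS p hp).2.2 (hS q hq).2.2
      push_cast
      exact this
    · refine (hR2 (p, q) hpp hqq (hP10.trans (hS p hp).2.1) hpq).1 _ ⟨i, j, ?_, ?_⟩
      · rw [hNO q hqq _ _ (cq j)]
        exact (g1' q hq).1 j
      · rw [hF p hpp _ _ (cp i), hF q hqq _ _ (cq j)]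
        exact heq
  refine ⟨S, hSk, fun p hp => ⟨(hS p hp).1, hP10.trans (hS p hp).2.1, (hS p hp).2.2,
    (g1' p hp).1⟩, ?_⟩
  intro p hp q hq i j hne
  rcases lt_trichotomy p q with h | h | h
  · exact g2' p hp q hq h i j
  · subst h
    apply (g1' p hp).2
    rintro rfl
    exact hne rfl
  · exact (g2' q hq p hp h j i).symm

theorem UD.tendsto {n : ℕ} {P : ℤ × (Fin n → ℤ) → Prop} [DecidablePred P]
    (h : ∀ ε : ℝ, 0 < ε → UD P ε) :
    Tendsto (fun H : ℕ => (((bx n H).filter P).card : ℝ) / (2 * H + 1 : ℝ) ^ (n + 1)) atTop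
      (nhds 0) := by
  rw [tendsto_order]
  constructor
  · intro a ha
    refine Eventually.of_forall fun H => ha.trans_le ?_
    positivity
  · intro a ha
    filter_upwards [h (a / 2) (by linarith)] with H hH
    have h1 := hH ((bx n H).filter P) (filter_subset _ _) (fun v hv => (mem_filter.1 hv).2)
    have h2 : (0 : ℝ) < (2 * H + 1 : ℝ) ^ (n + 1) := by positivity
    rw [div_lt_iff₀ h2]
    refine h1.trans_lt ?_
    apply mul_lt_mul_of_pos_right _ h2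
    linarith

/-- Natural density version: for 100 percent of the integral vectors `(v.1, v.2)` there are `k`
primes `p ≥ P0` dividing `v.1` such that all `v.2 i` are ordinary at `p` and all the fields
`F p (v.2 i)` are different. -/
theorem density_bad_tendsto {n : ℕ} (k P0 : ℕ) {α : Type*} (F : ℕ → ℤ → α) (NO : ℕ → Set ℤ) (C : ℝ)
    (hF : ∀ p : ℕ, p.Prime → ∀ x y : ℤ, (p : ℤ) ∣ x - y → F p x = F p y)
    (hNO : ∀ p : ℕ, p.Prime → ∀ x y : ℤ, (p : ℤ) ∣ x - y → (x ∈ NO p ↔ y ∈ NO p))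
    (hcard : ∀ p : ℕ, p.Prime → P0 ≤ p → ∀ T : Finset ℤ, (∀ x ∈ T, 0 ≤ x ∧ x < p ∧ x ∈ NO p) →
      (T.card : ℝ) ≤ C * (p : ℝ) ^ (5 / 6 : ℝ))
    (hcardF : ∀ p : ℕ, p.Prime → P0 ≤ p → ∀ f : α, ∀ T : Finset ℤ,
      (∀ x ∈ T, 0 ≤ x ∧ x < p ∧ x ∉ NO p ∧ F p x = f) → (T.card : ℝ) ≤ C * (p : ℝ) ^ (5 / 6 : ℝ))
    [DecidablePred (fun v : ℤ × (Fin n → ℤ) => ¬ ∃ S : Finset ℕ, S.card = k ∧
      (∀ p ∈ S, p.Prime ∧ P0 ≤ p ∧ (p : ℤ) ∣ v.1 ∧ ∀ i, v.2 i ∉ NO p) ∧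
      ∀ p ∈ S, ∀ q ∈ S, ∀ i j, (p, i) ≠ (q, j) → F p (v.2 i) ≠ F q (v.2 j))] :
    Tendsto (fun H : ℕ => (((Icc (-(H : ℤ)) H ×ˢ
      Fintype.piFinset fun _ : Fin n => Icc (-(H : ℤ)) H).filter
      (fun v => ¬ ∃ S : Finset ℕ, S.card = k ∧
      (∀ p ∈ S, p.Prime ∧ P0 ≤ p ∧ (p : ℤ) ∣ v.1 ∧ ∀ i, v.2 i ∉ NO p) ∧
      ∀ p ∈ S, ∀ q ∈ S, ∀ i j, (p, i) ≠ (q, j) → F p (v.2 i) ≠ F q (v.2 j))).card : ℝ) /
      (2 * H + 1 : ℝ) ^ (n + 1)) atTop (nhds 0) :=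
  UD.tendsto (density_UD k P0 F NO C hF hNO hcard hcardF)

/-- every property that holds at the good vectors holds for 100 percent of the vectors -/
theorem density_of_good {n : ℕ} (k P0 : ℕ) {α : Type*} (F : ℕ → ℤ → α) (NO : ℕ → Set ℤ) (C : ℝ)
    (hF : ∀ p : ℕ, p.Prime → ∀ x y : ℤ, (p : ℤ) ∣ x - y → F p x = F p y)
    (hNO : ∀ p : ℕ, p.Prime → ∀ x y : ℤ, (p : ℤ) ∣ x - y → (x ∈ NO p ↔ y ∈ NO p))
    (hcard : ∀ p : ℕ, p.Prime → P0 ≤ p → ∀ T : Finset ℤ, (∀ x ∈ T, 0 ≤ x ∧ x < p ∧ x ∈ NO p) →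
      (T.card : ℝ) ≤ C * (p : ℝ) ^ (5 / 6 : ℝ))
    (hcardF : ∀ p : ℕ, p.Prime → P0 ≤ p → ∀ f : α, ∀ T : Finset ℤ,
      (∀ x ∈ T, 0 ≤ x ∧ x < p ∧ x ∉ NO p ∧ F p x = f) → (T.card : ℝ) ≤ C * (p : ℝ) ^ (5 / 6 : ℝ))
    (Good : ℤ → (Fin n → ℤ) → Prop)
    (hG : ∀ (l : ℤ) (a : Fin n → ℤ) (S : Finset ℕ), l ≠ 0 → S.card = k →
      (∀ p ∈ S, p.Prime ∧ P0 ≤ p ∧ (p : ℤ) ∣ l ∧ ∀ i, a i ∉ NO p) →
      (∀ p ∈ S, ∀ q ∈ S, ∀ i j, (p, i) ≠ (q, j) → F p (a i) ≠ F q (a j)) → Good l a)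
    [DecidablePred (fun v : ℤ × (Fin n → ℤ) => Good v.1 v.2)] :
    Tendsto (fun H : ℕ => (((Icc (-(H : ℤ)) H ×ˢ
      Fintype.piFinset fun _ : Fin n => Icc (-(H : ℤ)) H).filter
      (fun v => Good v.1 v.2)).card : ℝ) / (2 * H + 1 : ℝ) ^ (n + 1)) atTop (nhds 1) := by
  classical
  have h1 : ∀ ε : ℝ, 0 < ε → UD (fun v : ℤ × (Fin n → ℤ) => ¬ Good v.1 v.2) ε := by
    intro ε hε
    have h2 := (density_UD (n := n) k P0 F NO C hF hNO hcard hcardF (ε / 2) (by linarith)).or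
      (UD_zero n (ε := ε / 2) (by linarith))
    refine (h2.le (by linarith : ε / 2 + ε / 2 ≤ ε)).mono fun v hv => ?_
    by_contra hcon
    rw [not_or, not_not] at hcon
    obtain ⟨⟨S, h3, h4, h5⟩, h6⟩ := hcon
    exact hv (hG v.1 v.2 S h6 h3 h4 h5)
  have h3 := UD.tendsto h1
  have h4 : Tendsto (fun H : ℕ => 1 - ((((bx n H).filter
      (fun v => ¬ Good v.1 v.2)).card : ℝ) / (2 * H + 1 : ℝ) ^ (n + 1))) atTop (nhds (1 - 0)) :=
    h3.const_sub 1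
  rw [sub_zero] at h4
  refine h4.congr fun H => ?_
  have h5 := Finset.card_filter_add_card_filter_not (s := bx n H) (fun v => Good v.1 v.2)
  have h6 : (((bx n H).filter (fun v => Good v.1 v.2)).card : ℝ) +
      (((bx n H).filter (fun v => ¬ Good v.1 v.2)).card : ℝ) = (2 * H + 1) ^ (n + 1) := by
    rw [← bx_card]
    exact_mod_cast h5
  have h7 : (0 : ℝ) < (2 * H + 1 : ℝ) ^ (n + 1) := by positivity
  rw [eq_div_iff h7.ne', sub_mul, div_mul_cancel₀ _ h7.ne', one_mul, ← h6, add_sub_cancel_right]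
  rfl

end Pool.Agent.II
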