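import Pool.Agent.II.Dens
/-! R8 of MP_130685 IntegralImages, interface with traces / discriminants (helper46). -/
set_option autoImplicit false
namespace Pool.Agent.II
open Finset Filter

theorem sq_trans {a b z : ℤ} (ha : a ≠ 0) (h : IsSquare (a * b)) (hz : IsSquare (a * z)) :
    IsSquare (b * z) := by
  obtain ⟨r, hr⟩ := h
  obtain ⟨s, hs⟩ := hz
  have h1 : a ^ 2 * (b * z) = (r * s) ^ 2 := by
    calc a ^ 2 * (b * z) = (a * b) * (a * z) := by ring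
      _ = (r * s) ^ 2 := by rw [hr, hs]; ring
  have h2 : a ∣ r * s := (Int.pow_dvd_pow_iff (by norm_num : 2 ≠ 0)).1 ⟨b * z, h1.symm⟩
  obtain ⟨c, hc⟩ := h2
  refine ⟨c, ?_⟩
  rw [hc] at h1
  have h3 : a ^ 2 * (b * z) = a ^ 2 * (c * c) := by rw [h1]; ring
  exact mul_left_cancel₀ (pow_ne_zero 2 ha) h3

/-- R8 with integers `D p x ≠ 0` (discriminants) in place of the fields, modulus `ZMod p`: the
conclusion of the hand-in.  `NO p` = the residues that are not used, at most `C p^(5/6)`; for each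
`x₀` at most `C p^(5/6)` residues `x` have `D p x * D p x₀` a square. -/
theorem density_disc {n : ℕ} (k P0 : ℕ) (D : (p : ℕ) → ZMod p → ℤ) (NO : (p : ℕ) → Set (ZMod p))
    (C : ℝ)
    (hD : ∀ p : ℕ, p.Prime → P0 ≤ p → ∀ x, x ∉ NO p → D p x ≠ 0)
    (hcard : ∀ p : ℕ, p.Prime → P0 ≤ p → ∀ T : Finset (ZMod p), (∀ x ∈ T, x ∈ NO p) →
      (T.card : ℝ) ≤ C * (p : ℝ) ^ (5 / 6 : ℝ))
    (hcardD : ∀ p : ℕ, p.Prime → P0 ≤ p → ∀ x₀ : ZMod p, x₀ ∉ NO p → ∀ T : Finset (ZMod p),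
      (∀ x ∈ T, x ∉ NO p ∧ IsSquare (D p x * D p x₀)) → (T.card : ℝ) ≤ C * (p : ℝ) ^ (5 / 6 : ℝ))
    (Good : ℤ → (Fin n → ℤ) → Prop)
    (hG : ∀ (l : ℤ) (a : Fin n → ℤ) (S : Finset ℕ), l ≠ 0 → S.card = k →
      (∀ p ∈ S, p.Prime ∧ P0 ≤ p ∧ (p : ℤ) ∣ l ∧ ∀ i, (a i : ZMod p) ∉ NO p) →
      (∀ p ∈ S, ∀ q ∈ S, ∀ i j, (p, i) ≠ (q, j) → ¬ IsSquare (D p (a i) * D q (a j))) →
      Good l a)
    [DecidablePred (fun v : ℤ × (Fin n → ℤ) => Good v.1 v.2)] :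
    Tendsto (fun H : ℕ => (((Icc (-(H : ℤ)) H ×ˢ
      Fintype.piFinset fun _ : Fin n => Icc (-(H : ℤ)) H).filter
      (fun v => Good v.1 v.2)).card : ℝ) / (2 * H + 1 : ℝ) ^ (n + 1)) atTop (nhds 1) := by
  classical
  -- transfer of the counts
  have tr : ∀ p : ℕ, p.Prime → ∀ T : Finset ℤ, (∀ x ∈ T, 0 ≤ x ∧ x < p) →
      (T.image (fun x : ℤ => (x : ZMod p))).card = T.card := by
    intro p hp T hT
    apply card_image_of_injOn
    intro x hx y hy hxy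
    rw [mem_coe] at hx hy
    have h1 := (ZMod.intCast_eq_intCast_iff x y p).1 hxy
    have h2 : x % (p : ℤ) = y % (p : ℤ) := h1
    rw [Int.emod_eq_of_lt (hT x hx).1 (hT x hx).2,
      Int.emod_eq_of_lt (hT y hy).1 (hT y hy).2] at h2
    exact h2
  have hcast : ∀ (p : ℕ) (x y : ℤ), (p : ℤ) ∣ x - y → (x : ZMod p) = (y : ZMod p) := by
    intro p x y h
    have := (ZMod.intCast_eq_intCast_iff_dvd_sub y x p).2 h
    exact this.symm
  refine density_of_good (n := n) k P0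
    (fun p x => {z : ℤ | IsSquare (D p (x : ZMod p) * z)}) (fun p => {x | (x : ZMod p) ∈ NO p}) C
    ?_ ?_ ?_ ?_ Good ?_
  · intro p _ x y h
    show {z : ℤ | IsSquare (D p (x : ZMod p) * z)} = {z : ℤ | IsSquare (D p (y : ZMod p) * z)}
    rw [hcast p x y h]
  · intro p _ x y h
    show (x : ZMod p) ∈ NO p ↔ (y : ZMod p) ∈ NO p
    rw [hcast p x y h]
  · intro p hp hp0 T hT
    rw [← tr p hp T (fun x hx => ⟨(hT x hx).1, (hT x hx).2.1⟩)]
    apply hcard p hp hp0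
    intro y hy
    obtain ⟨x, hx, rfl⟩ := mem_image.1 hy
    exact (hT x hx).2.2
  · intro p hp hp0 f T hT
    rcases T.eq_empty_or_nonempty with hT0 | ⟨x0, hx0⟩
    · have := hcard p hp hp0 ∅ (fun x hx => absurd hx (notMem_empty x))
      rw [hT0]
      simpa using this
    rw [← tr p hp T (fun x hx => ⟨(hT x hx).1, (hT x hx).2.1⟩)]
    apply hcardD p hp hp0 (x0 : ZMod p) (hT x0 hx0).2.2.1
    intro y hy
    obtain ⟨x, hx, rfl⟩ := mem_image.1 hy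
    refine ⟨(hT x hx).2.2.1, ?_⟩
    have h1 : D p (x0 : ZMod p) ∈ {z : ℤ | IsSquare (D p (x0 : ZMod p) * z)} := ⟨_, rfl⟩
    rw [(hT x0 hx0).2.2.2, ← (hT x hx).2.2.2] at h1
    exact h1
  · intro l a S hl hSk hS hF
    refine hG l a S hl hSk hS ?_
    intro p hp q hq i j hne hsq
    apply hF p hp q hq i j hne
    have n1 := hD p (hS p hp).1 (hS p hp).2.1 _ ((hS p hp).2.2.2 i)
    have n2 := hD q (hS q hq).1 (hS q hq).2.1 _ ((hS q hq).2.2.2 j)
    ext z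
    exact ⟨fun h => sq_trans n1 hsq h, fun h => sq_trans n2 (by rwa [mul_comm]) h⟩

end Pool.Agent.II
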