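import Mathlib

/-!
# Dominant coefficients

For a polynomial over a field with a nonarchimedean absolute value `v` and a radius `r`: if one term
`v (f_k) r ^ k` is larger than all the others, then `f` has exactly `k` roots of absolute value less than
`r`, and none of absolute value `r`.
-/

set_option autoImplicit false

namespace Pool.Agent.II

open Polynomial

variable {K : Type*} [Field K] {v : AbsoluteValue K ℝ}

/-- the sum of elements of absolute value at most `B` -/
lemma vK_sum_le (hv : IsNonarchimedean v) {ι : Type*} (s : Finset ι) (f : ι → K) {B : ℝ} (hB : 0 ≤ B)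
    (h : ∀ i ∈ s, v (f i) ≤ B) : v (∑ i ∈ s, f i) ≤ B := by
  classical
  induction s using Finset.induction_on with
  | empty => simpa using hB
  | insert a s ha ih =>
    rw [Finset.sum_insert ha]
    exact (hv _ _).trans (max_le (h a (Finset.mem_insert_self _ _))
      (ih fun i hi => h i (Finset.mem_insert_of_mem hi)))

/-- the sum of elements of absolute value less than `B` -/
lemma vK_sum_lt (hv : IsNonarchimedean v) {ι : Type*} (s : Finset ι) (f : ι → K) {B : ℝ} (hB : 0 < B)
    (h : ∀ i ∈ s, v (f i) < B) : v (∑ i ∈ s, f i) < B := by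
  classical
  induction s using Finset.induction_on with
  | empty => simpa using hB
  | insert a s ha ih =>
    rw [Finset.sum_insert ha]
    exact (hv _ _).trans_lt (max_lt (h a (Finset.mem_insert_self _ _))
      (ih fun i hi => h i (Finset.mem_insert_of_mem hi)))

/-- adding something smaller -/
lemma vK_add_small (hv : IsNonarchimedean v) {x y : K} (h : v y < v x) : v (x + y) = v x := by
  apply le_antisymm
  · exact (hv _ _).trans (max_le le_rfl h.le)
  · by_contra hcon
    push Not at hcon
    have h1 : x = (x + y) + (-y) := by ring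
    have h2 : v x ≤ max (v (x + y)) (v (-y)) := by
      conv_lhs => rw [h1]
      exact hv _ _
    rw [AbsoluteValue.map_neg] at h2
    exact absurd h2 (not_le.2 (max_lt hcon h))

/-- the term of index `k` dominates at radius `r` -/
def Dom (v : AbsoluteValue K ℝ) (r : ℝ) (f : K[X]) (k : ℕ) : Prop :=
  f.coeff k ≠ 0 ∧ ∀ i, i ≠ k → v (f.coeff i) * r ^ i < v (f.coeff k) * r ^ k

lemma Dom.unique {r : ℝ} {f : K[X]} {k l : ℕ} (h1 : Dom v r f k) (h2 : Dom v r f l) : k = l := by
  by_contra hne
  exact lt_asymm (h1.2 l (Ne.symm hne)) (h2.2 k hne)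

lemma Dom.pos {r : ℝ} (hr : 0 < r) {f : K[X]} {k : ℕ} (h : Dom v r f k) : 0 < v (f.coeff k) * r ^ k :=
  mul_pos ((AbsoluteValue.pos_iff v).2 h.1) (pow_pos hr _)

lemma Dom.le {r : ℝ} {f : K[X]} {k : ℕ} (h : Dom v r f k) (i : ℕ) :
    v (f.coeff i) * r ^ i ≤ v (f.coeff k) * r ^ k := by
  by_cases hi : i = k
  · rw [hi]
  · exact (h.2 i hi).le

lemma Dom.mul (hv : IsNonarchimedean v) {r : ℝ} (hr : 0 < r) {f g : K[X]} {k l : ℕ} (hf : Dom v r f k)
    (hg : Dom v r g l) : Dom v r (f * g) (k + l) := by
  have hF := hf.pos hr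
  have hG := hg.pos hr
  -- the terms of the product
  have hterm : ∀ i j, (i, j) ≠ (k, l) → v (f.coeff i * g.coeff j) * r ^ (i + j) <
      v (f.coeff k) * r ^ k * (v (g.coeff l) * r ^ l) := by
    intro i j hij
    have e1 : v (f.coeff i * g.coeff j) * r ^ (i + j) =
        v (f.coeff i) * r ^ i * (v (g.coeff j) * r ^ j) := by
      rw [AbsoluteValue.map_mul, pow_add]
      ring
    rw [e1]
    by_cases hi : i = k
    · have hj : j ≠ l := fun h => hij (by rw [hi, h])
      rw [hi]
      exact mul_lt_mul_of_pos_left (hg.2 j hj) hF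
    · exact mul_lt_mul_of_lt_of_le_of_nonneg_of_pos (hf.2 i hi) (hg.le j)
        (mul_nonneg (AbsoluteValue.nonneg v _) (pow_nonneg hr.le _)) hG
  -- the coefficient `k + l`
  have hkl : v ((f * g).coeff (k + l)) = v (f.coeff k) * v (g.coeff l) := by
    rw [coeff_mul, ← Finset.add_sum_erase _ _ (Finset.HasAntidiagonal.mem_antidiagonal.2 (rfl : (k, l).1 + (k, l).2 = k + l))]
    rw [vK_add_small hv, AbsoluteValue.map_mul]
    rw [AbsoluteValue.map_mul]
    refine vK_sum_lt hv _ _ (mul_pos ((AbsoluteValue.pos_iff v).2 hf.1) ((AbsoluteValue.pos_iff v).2 hg.1)) ?_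
    rintro ⟨i, j⟩ hij
    rw [Finset.mem_erase, Finset.HasAntidiagonal.mem_antidiagonal] at hij
    have h1 := hterm i j hij.1
    have h2 : i + j = k + l := hij.2
    rw [h2] at h1
    have h3 : v (f.coeff k) * r ^ k * (v (g.coeff l) * r ^ l) = v (f.coeff k) * v (g.coeff l) * r ^ (k + l) := by
      rw [pow_add]
      ring
    rw [h3] at h1
    exact lt_of_mul_lt_mul_right h1 (pow_nonneg hr.le _)
  have hT : v ((f * g).coeff (k + l)) * r ^ (k + l) = v (f.coeff k) * r ^ k * (v (g.coeff l) * r ^ l) := by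
    rw [hkl, pow_add]
    ring
  refine ⟨?_, fun n hn => ?_⟩
  · intro h0
    rw [h0, AbsoluteValue.map_zero] at hkl
    exact (mul_pos ((AbsoluteValue.pos_iff v).2 hf.1) ((AbsoluteValue.pos_iff v).2 hg.1)).ne hkl
  · rw [hT, coeff_mul]
    have hrn : 0 < r ^ n := pow_pos hr n
    rw [← lt_div_iff₀ hrn]
    refine vK_sum_lt hv _ _ (div_pos (mul_pos hF hG) hrn) ?_
    rintro ⟨i, j⟩ hij
    rw [Finset.HasAntidiagonal.mem_antidiagonal] at hij
    have h2 : i + j = n := hij
    rw [lt_div_iff₀ hrn, ← h2]
    refine hterm i j fun h3 => hn ?_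
    rw [← h2, (Prod.mk.inj h3).1, (Prod.mk.inj h3).2]

lemma Dom.lin_small {r : ℝ} (hr : 0 < r) {e : K} (he : v e < r) : Dom v r (X - C e) 1 := by
  refine ⟨by simp, fun i hi => ?_⟩
  have h1 : (X - C e : K[X]).coeff 1 = 1 := by simp
  rw [h1, AbsoluteValue.map_one, one_mul, pow_one]
  rcases Nat.lt_or_ge i 1 with h2 | h2
  · have h3 : i = 0 := by omega
    subst h3
    have h4 : (X - C e : K[X]).coeff 0 = -e := by simp
    rw [h4, AbsoluteValue.map_neg, pow_zero, mul_one]
    exact he
  · have h3 : (X - C e : K[X]).coeff i = 0 := by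
      apply coeff_eq_zero_of_natDegree_lt
      rw [natDegree_X_sub_C]
      omega
    rw [h3, AbsoluteValue.map_zero, zero_mul]
    exact hr

lemma Dom.lin_large {r : ℝ} (hr : 0 < r) {e : K} (he : r < v e) : Dom v r (X - C e) 0 := by
  have he0 : e ≠ 0 := (AbsoluteValue.pos_iff v).1 (hr.trans he)
  have h4 : (X - C e : K[X]).coeff 0 = -e := by simp
  refine ⟨by rw [h4]; exact neg_ne_zero.2 he0, fun i hi => ?_⟩
  rw [h4, AbsoluteValue.map_neg, pow_zero, mul_one]
  by_cases h1 : i = 1
  · subst h1
    have h1 : (X - C e : K[X]).coeff 1 = 1 := by simp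
    rw [h1, AbsoluteValue.map_one, one_mul, pow_one]
    exact he
  · have h3 : (X - C e : K[X]).coeff i = 0 := by
      apply coeff_eq_zero_of_natDegree_lt
      rw [natDegree_X_sub_C]
      omega
    rw [h3, AbsoluteValue.map_zero, zero_mul]
    exact hr.trans he

/-- the product of linear factors without a root of absolute value `r` -/
lemma Dom.prod (hv : IsNonarchimedean v) {r : ℝ} (hr : 0 < r) {ι : Type*} [DecidableEq ι] (s : Finset ι)
    (e : ι → K) (he : ∀ i ∈ s, v (e i) ≠ r) :
    Dom v r (∏ i ∈ s, (X - C (e i))) (s.filter fun i => v (e i) < r).card := by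
  classical
  induction s using Finset.induction_on with
  | empty =>
    refine ⟨by simp, fun i hi => ?_⟩
    have h1 : i ≠ 0 := by simpa using hi
    simp [coeff_one, h1]
  | insert a s ha ih =>
    rw [Finset.prod_insert ha, Finset.filter_insert]
    have h1 := ih fun i hi => he i (Finset.mem_insert_of_mem hi)
    rcases lt_or_gt_of_ne (he a (Finset.mem_insert_self _ _)) with h2 | h2
    · rw [if_pos h2, Finset.card_insert_of_notMem (fun h3 => ha (Finset.mem_filter.1 h3).1), add_comm]
      exact (Dom.lin_small hr h2).mul hv hr h1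
    · rw [if_neg (not_lt.2 h2.le)]
      have h3 := (Dom.lin_large hr h2).mul hv hr h1
      rwa [zero_add] at h3

/-- a polynomial with a dominant term at `r` has no root of absolute value `r` -/
lemma Dom.no_root (hv : IsNonarchimedean v) {r : ℝ} (hr : 0 < r) {f : K[X]} {k : ℕ} (h : Dom v r f k)
    {e : K} (he : v e = r) : f.eval e ≠ 0 := by
  intro h0
  rw [eval_eq_sum_range] at h0
  have hk : k ∈ Finset.range (f.natDegree + 1) := by
    rw [Finset.mem_range]
    exact Nat.lt_succ_of_le (le_natDegree_of_ne_zero h.1)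
  rw [← Finset.add_sum_erase _ _ hk] at h0
  have h1 : v (f.coeff k * e ^ k) = v (f.coeff k) * r ^ k := by
    rw [AbsoluteValue.map_mul, AbsoluteValue.map_pow, he]
  have h2 : v (∑ i ∈ (Finset.range (f.natDegree + 1)).erase k, f.coeff i * e ^ i) < v (f.coeff k * e ^ k) := by
    refine vK_sum_lt hv _ _ ?_ ?_
    · rw [h1]
      exact h.pos hr
    · intro i hi
      rw [h1, AbsoluteValue.map_mul, AbsoluteValue.map_pow, he]
      exact h.2 i (Finset.mem_erase.1 hi).1
  have h3 := vK_add_small hv h2
  rw [h0, AbsoluteValue.map_zero, h1] at h3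
  exact (h.pos hr).ne h3

/-- the number of roots of absolute value less than `r` -/
theorem Dom.count (hv : IsNonarchimedean v) {r : ℝ} (hr : 0 < r) {ι : Type*} [DecidableEq ι]
    (s : Finset ι) (e : ι → K) {k : ℕ} (h : Dom v r (∏ i ∈ s, (X - C (e i))) k) :
    (∀ i ∈ s, v (e i) ≠ r) ∧ (s.filter fun i => v (e i) < r).card = k := by
  have h1 : ∀ i ∈ s, v (e i) ≠ r := by
    intro i hi hne
    refine h.no_root hv hr hne ?_
    rw [eval_prod]
    exact Finset.prod_eq_zero hi (by simp)
  exact ⟨h1, (Dom.prod hv hr s e h1).unique h⟩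

end Pool.Agent.II
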