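import Pool.Agent.II.Dom

/-!
# Local dynamics near a double point
-/

set_option autoImplicit false

namespace Pool.Agent.II

open Polynomial

variable {K : Type*} [Field K] {v : AbsoluteValue K ℝ}

/-- the polynomial with small constant term, linear term of absolute value `r`, and quadratic term of
absolute value less than one -/
theorem near_of_coeff (hv : IsNonarchimedean v) {r m : ℝ} (hr : 0 < r) (hr1 : r < 1) (hm : m < 1)
    {P : K[X]} (hb : ∀ k, v (P.coeff k) ≤ 1) (h0 : v (P.coeff 0) ≤ r ^ 2 * m) (h1 : v (P.coeff 1) = r)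
    (h2 : v (P.coeff 2) < 1) : Dom v r P 1 ∧ ∀ e, P.eval e = 0 → v e < r → v e ≤ r * m := by
  constructor
  · refine ⟨(AbsoluteValue.pos_iff v).1 (h1.symm ▸ hr), fun i hi => ?_⟩
    rw [h1, pow_one]
    rcases Nat.lt_or_ge i 1 with h3 | h3
    · have h4 : i = 0 := by omega
      subst h4
      rw [pow_zero, mul_one]
      calc v (P.coeff 0) ≤ r ^ 2 * m := h0
        _ < r ^ 2 * 1 := mul_lt_mul_of_pos_left hm (pow_pos hr 2)
        _ = r * r := by ring
    · rcases Nat.lt_or_ge i 3 with h4 | h4
      · have h5 : i = 2 := by omega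
        subst h5
        calc v (P.coeff 2) * r ^ 2 < 1 * r ^ 2 := mul_lt_mul_of_pos_right h2 (pow_pos hr 2)
          _ = r * r := by ring
      · calc v (P.coeff i) * r ^ i ≤ 1 * r ^ i := mul_le_mul_of_nonneg_right (hb i) (pow_nonneg hr.le _)
          _ = r ^ i := one_mul _
          _ ≤ r ^ 3 := pow_le_pow_of_le_one hr.le hr1.le h4
          _ < r * r := by
            have h5 : r ^ 3 = r * r * r := by ring
            rw [h5]
            nlinarith [mul_pos hr hr]
  · intro e he her
    by_cases he0 : e = 0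
    · rw [he0, AbsoluteValue.map_zero]
      have h3 := (AbsoluteValue.nonneg v _).trans h0
      have h4 : 0 ≤ m := by
        by_contra hcon
        push Not at hcon
        nlinarith [mul_pos (pow_pos hr 2) (neg_pos.2 hcon)]
      exact mul_nonneg hr.le h4
    have hepos : 0 < v e := (AbsoluteValue.pos_iff v).2 he0
    have h3 := he
    rw [eval_eq_sum_range' (Nat.lt_succ_of_lt (Nat.lt_succ_self P.natDegree)), Finset.sum_range_succ',
      Finset.sum_range_succ', zero_add, pow_zero, mul_one, pow_one] at h3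
    set S := ∑ i ∈ Finset.range P.natDegree, P.coeff (i + 1 + 1) * e ^ (i + 1 + 1) with hS
    have hSb : v S < r * v e := by
      refine vK_sum_lt hv _ _ (mul_pos hr hepos) fun i _ => ?_
      rw [AbsoluteValue.map_mul, AbsoluteValue.map_pow]
      calc v (P.coeff (i + 1 + 1)) * v e ^ (i + 1 + 1) ≤ 1 * v e ^ (i + 1 + 1) :=
            mul_le_mul_of_nonneg_right (hb _) (pow_nonneg hepos.le _)
        _ = v e ^ (i + 2) := one_mul _
        _ ≤ v e ^ 2 := pow_le_pow_of_le_one hepos.le (her.le.trans hr1.le) (by omega)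
        _ < r * v e := by nlinarith
    have h4 : v (P.coeff 1 * e) = r * v e := by rw [AbsoluteValue.map_mul, h1]
    have h5 : v (S + P.coeff 1 * e) = r * v e := by
      rw [add_comm, vK_add_small hv (by rw [h4]; exact hSb), h4]
    have h6 : P.coeff 0 = -(S + P.coeff 1 * e) := by linear_combination h3
    rw [h6, AbsoluteValue.map_neg, h5] at h0
    have h7 : r * v e ≤ r * (r * m) := h0.trans_eq (by ring)
    exact le_of_mul_le_mul_left h7 hr

/-- the tail of a polynomial with integral coefficients -/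
lemma v_eval_sub_le (hv : IsNonarchimedean v) {f : K[X]} (hf : ∀ i, v (f.coeff i) ≤ 1) {d : K} (hd : v d ≤ 1)
    (n : ℕ) : v (f.eval d - ∑ i ∈ Finset.range n, f.coeff i * d ^ i) ≤ v d ^ n := by
  have h1 : f.eval d = ∑ i ∈ Finset.range (n + (f.natDegree + 1)), f.coeff i * d ^ i :=
    eval_eq_sum_range' (by omega) d
  rw [h1, Finset.sum_range_add, add_sub_cancel_left]
  refine vK_sum_le hv _ _ (pow_nonneg (AbsoluteValue.nonneg v _) _) fun i _ => ?_
  rw [AbsoluteValue.map_mul, AbsoluteValue.map_pow]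
  calc v (f.coeff (n + i)) * v d ^ (n + i) ≤ 1 * v d ^ (n + i) :=
        mul_le_mul_of_nonneg_right (hf _) (pow_nonneg (AbsoluteValue.nonneg v _) _)
    _ = v d ^ (n + i) := one_mul _
    _ ≤ v d ^ n := pow_le_pow_of_le_one (AbsoluteValue.nonneg v _) hd (by omega)

/-- the substituted polynomial near a double point -/
theorem dyn_near (hv : IsNonarchimedean v) {G : K[X][X]} (hint : ∀ i j, v ((G.coeff j).coeff i) ≤ 1)
    (h00 : (G.coeff 0).coeff 0 = 0) (h10 : (G.coeff 0).coeff 1 = 0) (h01 : (G.coeff 1).coeff 0 = 0)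
    (h11 : v ((G.coeff 1).coeff 1) = 1) {μ : ℝ} (hμ : μ < 1) (h20 : v ((G.coeff 0).coeff 2) ≤ μ)
    (h02 : v ((G.coeff 2).coeff 0) < 1) {d : K} (hd0 : 0 < v d) (hd1 : v d < 1) :
    Dom v (v d) (G.map (evalRingHom d)) 1 ∧
      ∀ e, (G.map (evalRingHom d)).eval e = 0 → v e < v d → v e ≤ v d * max μ (v d) := by
  have hc : ∀ j, (G.map (evalRingHom d)).coeff j = (G.coeff j).eval d := fun j => by
    rw [coeff_map, coe_evalRingHom]
  have hb : ∀ k, v ((G.map (evalRingHom d)).coeff k) ≤ 1 := by
    intro k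
    rw [hc]
    have h1 := v_eval_sub_le hv (fun i => hint i k) hd1.le 0
    rwa [Finset.sum_range_zero, sub_zero, pow_zero] at h1
  have h0 : v ((G.map (evalRingHom d)).coeff 0) ≤ v d ^ 2 * max μ (v d) := by
    rw [hc]
    have h1 := v_eval_sub_le hv (fun i => hint i 0) hd1.le 3
    rw [Finset.sum_range_succ, Finset.sum_range_succ, Finset.sum_range_one, h00, h10, zero_mul, zero_mul,
      zero_add, zero_add] at h1
    have h2 : (G.coeff 0).eval d = ((G.coeff 0).eval d - (G.coeff 0).coeff 2 * d ^ 2) +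
        (G.coeff 0).coeff 2 * d ^ 2 := by ring
    rw [h2]
    refine (hv _ _).trans (max_le (h1.trans ?_) ?_)
    · calc v d ^ 3 = v d ^ 2 * v d := by ring
        _ ≤ v d ^ 2 * max μ (v d) := mul_le_mul_of_nonneg_left (le_max_right _ _) (pow_nonneg hd0.le _)
    · rw [AbsoluteValue.map_mul, AbsoluteValue.map_pow, mul_comm]
      exact mul_le_mul_of_nonneg_left (h20.trans (le_max_left _ _)) (pow_nonneg hd0.le _)
  have h1 : v ((G.map (evalRingHom d)).coeff 1) = v d := by
    rw [hc]
    have h1 := v_eval_sub_le hv (fun i => hint i 1) hd1.le 2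
    rw [Finset.sum_range_succ, Finset.sum_range_one, h01, zero_mul, zero_add, pow_one] at h1
    have h2 : (G.coeff 1).eval d = (G.coeff 1).coeff 1 * d + ((G.coeff 1).eval d - (G.coeff 1).coeff 1 * d) := by
      ring
    have h3 : v ((G.coeff 1).coeff 1 * d) = v d := by rw [AbsoluteValue.map_mul, h11, one_mul]
    rw [h2, vK_add_small hv, h3]
    rw [h3]
    exact h1.trans_lt (by nlinarith)
  have h2 : v ((G.map (evalRingHom d)).coeff 2) < 1 := by
    rw [hc]
    have h1 := v_eval_sub_le hv (fun i => hint i 2) hd1.le 1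
    rw [Finset.sum_range_one, pow_zero, mul_one, pow_one] at h1
    have h2 : (G.coeff 2).eval d = ((G.coeff 2).eval d - (G.coeff 2).coeff 0) + (G.coeff 2).coeff 0 := by ring
    rw [h2]
    exact (hv _ _).trans_lt (max_lt (h1.trans_lt hd1) h02)
  exact near_of_coeff hv hd0 hd1 (max_lt hμ hd1) hb h0 h1 h2

/-- **the local dynamics**: `G` is a polynomial in two variables (the outer one is the second) with
integral coefficients without constant and linear terms; its quadratic part has a unit mixed term and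
small pure terms.  Then for a small first variable `d ≠ 0` no root has the absolute value of `d`, exactly
one root is smaller, and this root is smaller by a fixed factor. -/
theorem dyn (hv : IsNonarchimedean v) {G : K[X][X]} (hint : ∀ i j, v ((G.coeff j).coeff i) ≤ 1)
    (h00 : (G.coeff 0).coeff 0 = 0) (h10 : (G.coeff 0).coeff 1 = 0) (h01 : (G.coeff 1).coeff 0 = 0)
    (h11 : v ((G.coeff 1).coeff 1) = 1) {μ : ℝ} (hμ : μ < 1) (h20 : v ((G.coeff 0).coeff 2) ≤ μ)
    (h02 : v ((G.coeff 2).coeff 0) < 1) {d : K} (hd0 : 0 < v d) (hd1 : v d < 1) {ι : Type*} [DecidableEq ι]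
    (s : Finset ι) (e : ι → K) (hP : G.map (evalRingHom d) = ∏ i ∈ s, (X - C (e i))) :
    (∀ i ∈ s, v (e i) ≠ v d) ∧ (s.filter fun i => v (e i) < v d).card = 1 ∧
      ∀ i ∈ s, v (e i) < v d → v (e i) ≤ v d * max μ (v d) := by
  obtain ⟨hD, hroot⟩ := dyn_near hv hint h00 h10 h01 h11 hμ h20 h02 hd0 hd1
  have hD' := hD
  rw [hP] at hD'
  obtain ⟨c1, c2⟩ := hD'.count hv hd0 s e
  refine ⟨c1, c2, fun i hi hlt => hroot _ ?_ hlt⟩
  rw [hP, eval_prod]
  exact Finset.prod_eq_zero hi (by simp)

end Pool.Agent.II
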