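import Pool.Agent.II.Count62

/-!
# Traces with a given quadratic field
-/

set_option autoImplicit false

namespace Pool.Agent.II

theorem isSquare_cancel62 {D x y : ℤ} (hD : D ≠ 0) (hx : IsSquare (x * D))
    (hy : IsSquare (y * D)) : IsSquare (x * y) := by
  obtain ⟨r, hr⟩ := hx
  obtain ⟨s, hs⟩ := hy
  have h1 : D ^ 2 * (x * y) = (r * s) ^ 2 := by
    calc D ^ 2 * (x * y) = (x * D) * (y * D) := by ring
      _ = (r * s) ^ 2 := by rw [hr, hs]; ring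
  have h2 : D ^ 2 ∣ (r * s) ^ 2 := ⟨x * y, h1.symm⟩
  have h3 : D ∣ r * s := (Int.pow_dvd_pow_iff (by norm_num)).1 h2
  obtain ⟨k, hk⟩ := h3
  refine ⟨k, ?_⟩
  rw [hk] at h1
  have h4 : D ^ 2 * (x * y) = D ^ 2 * (k * k) := by rw [h1]; ring
  exact mul_left_cancel₀ (pow_ne_zero 2 hD) h4

/-- **Traces with a given field** `ℚ(√D)`: there are at most thirty. -/
theorem card_traces_field {p : ℕ} (hp : p.Prime) {D : ℤ} (hD : D ≠ 0) :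
    {t : ℤ | t ^ 2 < 4 * p ∧ IsSquare ((t ^ 2 - 4 * p) * D)}.Finite ∧
    {t : ℤ | t ^ 2 < 4 * p ∧ IsSquare ((t ^ 2 - 4 * p) * D)}.ncard ≤ 30 := by
  rcases Set.eq_empty_or_nonempty {t : ℤ | t ^ 2 < 4 * p ∧ IsSquare ((t ^ 2 - 4 * p) * D)} with
    h | ⟨t₀, h0, h0'⟩
  · rw [h]
    simp
  · obtain ⟨h1, h2⟩ := card_traces hp h0
    have hsub : {t : ℤ | t ^ 2 < 4 * p ∧ IsSquare ((t ^ 2 - 4 * p) * D)} ⊆
        {t : ℤ | t ^ 2 < 4 * p ∧ IsSquare ((t ^ 2 - 4 * p) * (t₀ ^ 2 - 4 * p))} := by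
      rintro t ⟨h3, h4⟩
      exact ⟨h3, isSquare_cancel62 hD h4 h0'⟩
    exact ⟨h1.subset hsub, (Set.ncard_le_ncard hsub h1).trans h2⟩

end Pool.Agent.II
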