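import Pool.Agent.II.Fix62

/-!
# Finiteness: the values of a modular function at the fixed points of integral matrices of given
trace and determinant
-/

set_option autoImplicit false

namespace Pool.Agent.II

open UpperHalfPlane Complex
open scoped MatrixGroups

/-- reduction of a fixed point, for an arbitrary determinant -/
theorem Fixes62.reduce_gen {t N a b c d : ℤ} {τ : ℍ} (h : Fixes62 a b c d τ) (ht : a + d = t)
    (hdet : a * d - b * c = N) (hN : t ^ 2 ≠ 4 * N) :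
    ∃ g : SL(2, ℤ), ∃ a' b' c' d' : ℤ, a' + d' = t ∧ a' * d' - b' * c' = N ∧ 0 < c' ∧
      |a' - d'| ≤ c' ∧ c' ≤ -b' ∧ Fixes62 a' b' c' d' (g • τ) := by
  obtain ⟨g, hg⟩ := ModularGroup.exists_smul_mem_fd τ
  obtain ⟨a', b', c', d', e1, e2, e3⟩ := h.conj g
  obtain ⟨h1, h2⟩ := e3.eqs
  rw [ht] at e1
  rw [hdet] at e2
  have hN' : 1 ≤ normSq ((g • τ : ℍ) : ℂ) := hg.1
  have hR : |(g • τ : ℍ).re| ≤ 1 / 2 := hg.2
  obtain ⟨r, hr⟩ : ∃ r : ℝ, (g • τ : ℍ).re = r := ⟨_, rfl⟩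
  obtain ⟨M, hM⟩ : ∃ M : ℝ, normSq ((g • τ : ℍ) : ℂ) = M := ⟨_, rfl⟩
  rw [hr] at h1 hR
  rw [hM] at h2 hN'
  refine ⟨g, ?_⟩
  rcases lt_trichotomy c' 0 with hc | hc | hc
  · have hcR : (c' : ℝ) < 0 := by exact_mod_cast hc
    refine ⟨d', -b', -c', a', by linarith, by linarith, by linarith, ?_, ?_, e3.adj⟩
    · have : |(d' : ℝ) - a'| ≤ -c' := by
        rw [abs_sub_comm, ← h1, abs_mul, abs_mul, abs_of_neg hcR, abs_two]
        nlinarith
      exact_mod_cast this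
    · have : -(c' : ℝ) ≤ -(-b') := by nlinarith
      exact_mod_cast this
  · exfalso
    rw [hc] at h1 h2 e2
    have h3 : (a' : ℝ) = d' := by
      have : (a' : ℝ) - d' = 0 := by rw [← h1]; simp
      linarith
    have h4 : a' = d' := by exact_mod_cast h3
    refine hN ?_
    rw [← e1, ← e2, ← h4]
    ring
  · have hcR : (0 : ℝ) < c' := by exact_mod_cast hc
    refine ⟨a', b', c', d', e1, e2, hc, ?_, ?_, e3⟩
    · have : |(a' : ℝ) - d'| ≤ c' := by
        rw [← h1, abs_mul, abs_mul, abs_of_pos hcR, abs_two]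
        nlinarith
      exact_mod_cast this
    · have : (c' : ℝ) ≤ -b' := by nlinarith
      exact_mod_cast this

/-- the reduced matrices of given trace and determinant are finitely many -/
theorem finite_red62 (t N : ℤ) : {x : ℤ × ℤ × ℤ × ℤ | x.1 + x.2.2.2 = t ∧
    x.1 * x.2.2.2 - x.2.1 * x.2.2.1 = N ∧ 0 < x.2.2.1 ∧ |x.1 - x.2.2.2| ≤ x.2.2.1 ∧
      x.2.2.1 ≤ -x.2.1}.Finite := by
  set D : ℤ := 4 * N - t ^ 2 with hD
  set K : ℤ := D + |t| with hK
  refine ((Set.finite_Icc (-K) K).prod ((Set.finite_Icc (-K) K).prod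
    ((Set.finite_Icc (-K) K).prod (Set.finite_Icc (-K) K)))).subset ?_
  rintro ⟨a, b, c, d⟩ ⟨h1, h2, h3, h4, h5⟩
  simp only at h1 h2 h3 h4 h5
  have h6 : (a - d) ^ 2 ≤ c ^ 2 := by
    rw [sq_le_sq, abs_of_nonneg h3.le]
    exact h4
  have h7 : D = 4 * (c * (-b)) - (a - d) ^ 2 := by
    rw [hD, ← h1, ← h2]
    ring
  have h8 : c ^ 2 ≤ c * (-b) := by nlinarith
  have h9 : 3 * (c * (-b)) ≤ D := by rw [h7]; linarith
  have hb : 1 ≤ -b := by linarith
  have hcD : c ≤ D := by nlinarith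
  have hbD : -b ≤ D := by nlinarith
  have had := abs_le.1 h4
  have htt := abs_le.1 (le_refl |t|)
  have ht0 := abs_nonneg t
  simp only [Set.mem_prod, Set.mem_Icc]
  refine ⟨⟨?_, ?_⟩, ⟨?_, ?_⟩, ⟨?_, ?_⟩, ?_, ?_⟩ <;> omega

/-- **Finiteness of the values of a modular function** at the fixed points of the integral
matrices of given trace and determinant. -/
theorem finite_values {X : Type*} (f : ℍ → X) (hf : ∀ (g : SL(2, ℤ)) (τ : ℍ), f (g • τ) = f τ)
    (t N : ℤ) (hN : t ^ 2 ≠ 4 * N) :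
    {x | ∃ (τ : ℍ) (a b c d : ℤ), a + d = t ∧ a * d - b * c = N ∧
        (τ : ℂ) * (c * τ + d) = a * τ + b ∧ f τ = x}.Finite := by
  classical
  set F : ℤ × ℤ × ℤ × ℤ → X := fun x =>
    if h : ∃ τ : ℍ, Fixes62 x.1 x.2.1 x.2.2.1 x.2.2.2 τ then f h.choose else f UpperHalfPlane.I
    with hF
  refine ((finite_red62 t N).image F).subset ?_
  rintro _ ⟨τ, a, b, c, d, ht, hdet, h, rfl⟩
  obtain ⟨g, a', b', c', d', e1, e2, e3, e4, e5, e6⟩ := Fixes62.reduce_gen (τ := τ) h ht hdet hN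
  refine ⟨(a', b', c', d'), ⟨e1, e2, e3, e4, e5⟩, ?_⟩
  have hex : ∃ τ : ℍ, Fixes62 a' b' c' d' τ := ⟨_, e6⟩
  rw [hF]
  simp only [dif_pos hex]
  rw [Fixes62.unique e3.ne' hex.choose_spec e6, hf]

/-- The same for the matrices whose trace is bounded: a finite set of values for each bound and
determinant, without scalar matrices. -/
theorem finite_values_bdd {X : Type*} (f : ℍ → X)
    (hf : ∀ (g : SL(2, ℤ)) (τ : ℍ), f (g • τ) = f τ) (B N : ℤ) :
    {x | ∃ (τ : ℍ) (a b c d : ℤ), |a + d| ≤ B ∧ (a + d) ^ 2 ≠ 4 * N ∧ a * d - b * c = N ∧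
        (τ : ℂ) * (c * τ + d) = a * τ + b ∧ f τ = x}.Finite := by
  refine (Set.Finite.biUnion (s := Set.Icc (-B) B)
    (t := fun t => if t ^ 2 = 4 * N then (∅ : Set X) else
      {x | ∃ (τ : ℍ) (a b c d : ℤ), a + d = t ∧ a * d - b * c = N ∧
        (τ : ℂ) * (c * τ + d) = a * τ + b ∧ f τ = x}) (Set.finite_Icc _ _) ?_).subset ?_
  · intro t _
    split_ifs with h
    · exact Set.finite_empty
    · exact finite_values f hf t N h
  · rintro x ⟨τ, a, b, c, d, h1, h2, h3, h4, h5⟩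
    refine Set.mem_biUnion (x := a + d) (Set.mem_Icc.2 (abs_le.1 h1)) ?_
    rw [if_neg h2]
    exact ⟨τ, a, b, c, d, rfl, h3, h4, h5⟩

/-- a fixed point in the upper half plane forces a negative discriminant, or a scalar matrix -/
theorem Fixes62.disc {a b c d : ℤ} {τ : ℍ} (h : Fixes62 a b c d τ) :
    (a + d) ^ 2 < 4 * (a * d - b * c) ∨ (c = 0 ∧ b = 0 ∧ a = d) := by
  obtain ⟨h1, h2⟩ := h.eqs
  rcases eq_or_ne c 0 with hc | hc
  · right
    rw [hc] at h1 h2
    have h3 : (a : ℝ) = d := by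
      have : (a : ℝ) - d = 0 := by rw [← h1]; simp
      linarith
    have h4 : (b : ℝ) = 0 := by
      have : -(b : ℝ) = 0 := by rw [← h2]; simp
      linarith
    exact ⟨hc, by exact_mod_cast h4, by exact_mod_cast h3⟩
  · left
    have hcR : (c : ℝ) ≠ 0 := by exact_mod_cast hc
    have hy : 0 < τ.im := τ.im_pos
    have hn : normSq (τ : ℂ) = τ.re ^ 2 + τ.im ^ 2 := by
      rw [normSq_apply]
      change τ.re * τ.re + τ.im * τ.im = _
      ring
    rw [hn] at h2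
    have h5 : ((a : ℝ) + d) ^ 2 - 4 * (a * d - b * c) = -(2 * c * τ.im) ^ 2 := by
      linear_combination -(2 * (c : ℝ) * τ.re + (a - d)) * h1 + 4 * c * h2
    have h6 : 0 < (2 * (c : ℝ) * τ.im) ^ 2 := by positivity
    have h7 : ((a : ℝ) + d) ^ 2 < 4 * (a * d - b * c) := by linarith
    exact_mod_cast h7

end Pool.Agent.II
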