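import Pool.Agent.Helper20.ZD.Local
import Pool.Agent.II.JInj51

/-!
# Sets separated by their fields: the special subvarieties with unlikely intersections have a constant coordinate

`CMBy D x`: the complex number `x` is the `j`-invariant of a point with complex multiplication by
`ℚ(√D)`.  Let `Δ_i` be sets of complex numbers such that all the special points of `Δ_i` have complex
multiplication by the same field `ℚ(√D_i)`, these fields are pairwise different, and no two non-special
elements of `Δ_i` and `Δ_j`, `i ≠ j`, are isogenous.  If at most `d` coordinates of every point of `V` are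
outside of their sets, then all unlikely intersections of `V` are with special subvarieties which
have a constant coordinate `x_i = c` such that `c` is a special point in `Δ_i`.
-/

open UpperHalfPlane MvPolynomial Finset

namespace Pool.Agent.II
open Pool.Agent.II51 Pool.Agent.Helper11.ZP Pool.Agent.Helper11.ZU Pool.Agent.Helper20.ZT
  Pool.Agent.Helper20.ZT.Prim Pool.Agent.Helper20.ZD Pool.Agent.Helper20.ZD.Local

/-- `x` is the `j`-invariant of a point with complex multiplication by `ℚ(√D)` -/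
def CMBy (D : ℤ) (x : ℂ) : Prop :=
  ∃ (τ : ℍ) (A : Matrix (Fin 2) (Fin 2) ℤ), Mov A τ τ ∧ A 1 0 ≠ 0 ∧ jInv τ = x ∧ IsSquare (disc A * D)

theorem CMBy.special {D : ℤ} {x : ℂ} (h : CMBy D x) : IsSpecialPoint x := by
  obtain ⟨τ, A, hA, h0, hx, -⟩ := h
  refine ⟨τ, A 1 0, A 1 1 - A 0 0, - A 0 1, h0, ?_, hx⟩
  have := fix_quad hA
  push_cast
  linear_combination this

/-- the field is unique -/
theorem CMBy.unique {D D' : ℤ} {x : ℂ} (h : CMBy D x) (h' : CMBy D' x) : IsSquare (D * D') := by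
  obtain ⟨τ, A, hA, h0, hx, z, hz⟩ := h
  obtain ⟨τ', A', hA', h0', hx', z', hz'⟩ := h'
  obtain ⟨G, hG, hm⟩ := jInv_inj (hx.trans hx'.symm)
  obtain ⟨w, hw⟩ := isSquare_disc_isog hA hA' hm (by rw [hG]; norm_num)
  have hd := disc_neg hA h0
  have hd' := disc_neg hA' h0'
  have hw0 : w ≠ 0 := by
    rintro rfl
    rw [mul_zero] at hw
    rcases mul_eq_zero.1 hw with h | h
    · exact hd.ne h
    · exact hd'.ne h
  apply isSquare_of_mul_sq hw0 (y := z * z')
  calc w ^ 2 * (D * D') = (w * w) * (D * D') := by ring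
    _ = (disc A * disc A') * (D * D') := by rw [hw]
    _ = (disc A * D) * (disc A' * D') := by ring
    _ = (z * z) * (z' * z') := by rw [hz, hz']
    _ = (z * z') ^ 2 := by ring

/-- isogenous points have the same field -/
theorem CMBy.mov {D : ℤ} {τ σ : ℍ} {M : Matrix (Fin 2) (Fin 2) ℤ} (hM : Mov M τ σ) (hd : M.det ≠ 0)
    (h : CMBy D (jInv τ)) : CMBy D (jInv σ) := by
  obtain ⟨τ', A, hA, h0, hx, z, hz⟩ := h
  obtain ⟨G, hG, hm⟩ := jInv_inj hx.symm
  set N := G * M.adjugate with hN
  have hNdet : N.det = M.det := by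
    rw [hN, Matrix.det_mul, hG, one_mul, Matrix.det_adjugate]
    simp
  have h1 : Mov N σ τ' := mov_mul (mov_adj hM) hm
  have h2 := fix_conj hA h1
  have h3 := disc_conj A N
  have hA0 := disc_neg hA h0
  refine ⟨σ, N.adjugate * A * N, h2, fun h4 => ?_, rfl, N.det * z, ?_⟩
  · obtain ⟨h5, h6⟩ := scalar_of_fix h2 h4
    have h7 : disc (N.adjugate * A * N) = 0 := by
      rw [disc_eq, h5, h6]
      ring
    rw [h3, hNdet] at h7
    rcases mul_eq_zero.1 h7 with h8 | h8
    · exact hd (pow_eq_zero_iff two_ne_zero |>.1 h8)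
    · exact hA0.ne h8
  · rw [h3]
    linear_combination N.det ^ 2 * hz

theorem CMBy.isog {D : ℤ} {N : ℕ} {x y : ℂ} (hN : CyclicIsog N x y) (h : CMBy D x) : CMBy D y := by
  obtain ⟨τ, τ', h1, rfl, rfl⟩ := hN
  have hN0 : N ≠ 0 := by
    rintro rfl
    have h2 := τ'.im_pos
    have h3 : (τ' : ℂ).im = 0 := by rw [h1]; simp
    exact h2.ne' h3
  refine h.mov (M := !![(N : ℤ), 0; 0, 1]) ?_ ?_
  · simp [Mov, h1]
  · simpa [Matrix.det_fin_two] using hN0

/-- every special point has complex multiplication by some imaginary quadratic field -/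
theorem exists_CMBy {x : ℂ} (h : IsSpecialPoint x) : ∃ D : ℤ, D < 0 ∧ CMBy D x := by
  obtain ⟨τ, a, b, c, ha, hq, rfl⟩ := h
  have hm : Mov !![0, -c; a, b] τ τ := by
    simp only [Mov, Matrix.of_apply, Matrix.cons_val', Matrix.cons_val_zero, Matrix.cons_val_one,
      Matrix.cons_val_fin_one]
    push_cast
    linear_combination hq
  have h0 : (!![0, -c; a, b] : Matrix (Fin 2) (Fin 2) ℤ) 1 0 ≠ 0 := by simpa using ha
  exact ⟨disc !![0, -c; a, b], disc_neg hm h0, τ, _, hm, h0, rfl, _, rfl⟩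

/-! ### Infinitely many special points with a given field -/

section infinite
open ModularForm Complex Filter Function
open scoped Real MatrixGroups Topology Manifold

theorem infinite_CMBy {q : ℕ} (hq : 0 < q) : {x : ℂ | CMBy (-(q : ℤ)) x}.Infinite := by
  intro hfin
  obtain ⟨M, hM⟩ := hfin.isBounded.exists_norm_le
  have hqR : (0 : ℝ) < Real.sqrt q := Real.sqrt_pos.2 (by exact_mod_cast hq)
  let τ : ℕ → ℍ := fun k => ⟨((((k : ℝ) + 1) * Real.sqrt q : ℝ) : ℂ) * Complex.I, by
    simp only [Complex.mul_im, Complex.ofReal_re, Complex.I_im, mul_one, Complex.ofReal_im, Complex.I_re,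
      mul_zero, add_zero]
    positivity⟩
  have hτc : ∀ k, ((τ k : ℍ) : ℂ) = ((((k : ℝ) + 1) * Real.sqrt q : ℝ) : ℂ) * Complex.I := fun k => rfl
  have hτim : ∀ k, (τ k).im = ((k : ℝ) + 1) * Real.sqrt q := by
    intro k
    change ((((((k : ℝ) + 1) * Real.sqrt q : ℝ) : ℂ) * Complex.I).im) = _
    simp only [Complex.mul_im, Complex.ofReal_re, Complex.I_im, mul_one, Complex.ofReal_im, Complex.I_re,
      mul_zero, add_zero]
  have hsq : (((Real.sqrt q : ℝ) : ℂ)) ^ 2 = (q : ℂ) := by
    rw [← Complex.ofReal_pow, Real.sq_sqrt (Nat.cast_nonneg q)]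
    simp
  have hτ : Tendsto τ atTop atImInfty := by
    rw [atImInfty, tendsto_comap_iff]
    have h1 : UpperHalfPlane.im ∘ τ = fun k : ℕ => ((k : ℝ) + 1) * Real.sqrt q := funext hτim
    rw [h1]
    exact (tendsto_atTop_add_const_right _ _ tendsto_natCast_atTop_atTop).atTop_mul_const hqR
  have hmem : ∀ k, ‖jInv (τ k)‖ ≤ M := by
    intro k
    refine hM _ ⟨τ k, !![0, -((q : ℤ) * ((k : ℤ) + 1) ^ 2); 1, 0], ?_, by simp, rfl,
      2 * q * ((k : ℤ) + 1), ?_⟩
    · simp only [Mov, Matrix.of_apply, Matrix.cons_val', Matrix.cons_val_zero, Matrix.cons_val_one,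
        Matrix.cons_val_fin_one]
      rw [hτc]
      push_cast
      have hI : Complex.I ^ 2 = -1 := Complex.I_sq
      linear_combination (((k : ℂ) + 1) ^ 2 * ((Real.sqrt q : ℝ) : ℂ) ^ 2) * hI - ((k : ℂ) + 1) ^ 2 * hsq
    · rw [disc_eq]
      simp only [Matrix.of_apply, Matrix.cons_val', Matrix.cons_val_zero, Matrix.cons_val_one,
        Matrix.cons_val_fin_one]
      ring
  have hD : Tendsto ModularForm.discriminant atImInfty (𝓝 0) := discriminant_isZeroAtImInfty
  have h1 := tendsto_Ecube.comp hτ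
  have h2 := hD.comp hτ
  have h3 : Tendsto (fun k => jInv (τ k) * ModularForm.discriminant (τ k)) atTop (𝓝 0) := by
    refine squeeze_zero_norm (a := fun k => M * ‖ModularForm.discriminant (τ k)‖) (fun k => ?_) ?_
    · rw [norm_mul]
      exact mul_le_mul_of_nonneg_right (hmem k) (norm_nonneg _)
    · have h4 := (h2.norm).const_mul M
      simpa using h4
  have h5 : (fun k => jInv (τ k) * ModularForm.discriminant (τ k)) = Ecube ∘ τ :=
    funext fun k => jInv_mul (τ k)
  rw [h5] at h3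
  exact zero_ne_one (tendsto_nhds_unique h3 h1)

end infinite

/-- a prime which does not divide `D` does not make `-q D` a square -/
theorem not_isSquare_of_prime {q : ℕ} (hq : q.Prime) {D : ℤ} (hD : ¬ (q : ℤ) ∣ D) :
    ¬ IsSquare (-(q : ℤ) * D) := by
  rintro ⟨w, hw⟩
  have hqZ : Prime (q : ℤ) := Nat.prime_iff_prime_int.1 hq
  have h1 : (q : ℤ) ∣ w * w := ⟨-D, by rw [← hw]; ring⟩
  have h2 : (q : ℤ) ∣ w := by
    rcases hqZ.dvd_or_dvd h1 with h | h <;> exact h
  obtain ⟨u, rfl⟩ := h2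
  apply hD
  refine ⟨-(u * u), ?_⟩
  have h3 : (q : ℤ) * D = (q : ℤ) * ((q : ℤ) * -(u * u)) := by linear_combination -hw
  exact mul_left_cancel₀ hqZ.ne_zero h3

variable {n : ℕ}

/-- a field different from finitely many given ones -/
theorem exists_other_field (D : Fin n → ℤ) (hD : ∀ i, D i < 0) :
    ∃ q : ℕ, 0 < q ∧ ∀ i, ¬ IsSquare (-(q : ℤ) * D i) := by
  obtain ⟨q, hqM, hq⟩ := Nat.exists_infinite_primes (1 + ∑ i, (D i).natAbs)
  refine ⟨q, hq.pos, fun i => not_isSquare_of_prime hq fun hdvd => ?_⟩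
  have h1 : (D i).natAbs ≤ ∑ i, (D i).natAbs :=
    Finset.single_le_sum (f := fun i => (D i).natAbs) (fun _ _ => Nat.zero_le _) (Finset.mem_univ i)
  have h2 : q ∣ (D i).natAbs := Int.natCast_dvd.1 hdvd
  have h3 : 0 < (D i).natAbs := Int.natAbs_pos.2 (hD i).ne
  have := Nat.le_of_dvd h3 h2
  omega

theorem CMBy_of_class {D : ℤ} (S : SpecialData n) {i j : Fin n} {s : Fin S.r} (hi : S.cls i = some s)
    (hj : S.cls j = some s) {z : Fin n → ℂ} (hz : z ∈ S.carrier) (h : CMBy D (z i)) : CMBy D (z j) := by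
  obtain ⟨N, hN, h1⟩ := class_isog S hi hj
  exact h.isog (h1 z hz)

/-- **the classes of special coordinates with a given field**: a point of `A` at which the coordinates
of `dim A` classes are special with the field `ℚ(√D)` -/
theorem exists_CM_classes {D : ℤ} (hinf : {x : ℂ | CMBy D x}.Infinite) {A : Set (Fin n → ℂ)}
    (hA : IsSubvariety A) (S : SpecialData n) (hAS : A ⊆ S.carrier) :
    ∃ (x : Fin n → ℂ) (B : Finset (Fin S.r)), x ∈ A ∧ B.card = dim A ∧
      ∀ i s, S.cls i = some s → s ∈ B → CMBy D (x i) := by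
  classical
  obtain ⟨E, hE, hind, x, hx, hxE⟩ := exists_spec hA hinf
  have hne : ∀ i : E, ∃ s, S.cls i.1 = some s := by
    rintro ⟨i, hi⟩
    rcases h : S.cls i with _ | s
    · exfalso
      have h0 : (X i - C (S.c i) : MvPolynomial (Fin n) ℂ) ≠ 0 := by
        intro h0
        have h1 := congrArg (eval fun _ => S.c i + 1) h0
        simp at h1
      obtain ⟨y, hy, hy0⟩ := hind _ h0 (by
        refine (vars_sub_subset _).trans ?_
        rw [vars_X, vars_C, union_empty]
        simpa using hi)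
      apply hy0
      rw [map_sub, eval_X, eval_C, (hAS hy).1 i h, sub_self]
    · exact ⟨s, rfl⟩
  choose s hs using hne
  have hinj : Function.Injective s := by
    intro i j hij
    by_contra hne
    have hne' : i.1 ≠ j.1 := fun h => hne (Subtype.ext h)
    obtain ⟨N, hN, h⟩ := class_isog S (hs i) (by rw [hij]; exact hs j)
    obtain ⟨y, hy, hy0⟩ := hind _ (hypPoly_ne_zero hN hne') ((vars_hypPoly hN _ _).trans (by
      intro k hk
      rw [mem_insert, mem_singleton] at hk
      rcases hk with rfl | rfl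
      · exact i.2
      · exact j.2))
    exact hy0 ((eval_hypPoly hN _ _ _).2 (h y (hAS hy)))
  refine ⟨x, univ.image s, hx, ?_, ?_⟩
  · rw [card_image_of_injective _ hinj, card_univ, Fintype.card_coe, hE]
  · intro i t hi ht
    obtain ⟨e, -, rfl⟩ := mem_image.1 ht
    exact CMBy_of_class S (hs e) hi (hAS hx) (hxE e.1 e.2)

/-- the sets `Δ_i` are separated by the fields `ℚ(√D_i)` of their special points -/
structure Sep (Δ : Fin n → Set ℂ) (D : Fin n → ℤ) : Prop where
  neg : ∀ i, D i < 0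
  nsq : ∀ i j, i ≠ j → ¬ IsSquare (D i * D j)
  cm : ∀ i, ∀ c ∈ Δ i, IsSpecialPoint c → CMBy (D i) c
  pair : ∀ i j, i ≠ j → ∀ x ∈ Δ i, ∀ y ∈ Δ j, ¬ IsSpecialPoint x → ∀ N : ℕ, ¬ CyclicIsog N x y

/-- **the special subvarieties with unlikely intersections have a constant coordinate in its set** -/
theorem Sep.const_coord {Δ : Fin n → Set ℂ} {D : Fin n → ℤ} (hΔ : Sep Δ D) {d : ℕ} {V : Set (Fin n → ℂ)}
    (hV : AtMostC d Δ V) (S : SpecialData n) {A : Set (Fin n → ℂ)} (hA : IsSubvariety A)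
    (hAV : A ⊆ V) (hAS : A ⊆ S.carrier) (hd : d + dim S.carrier < dim A + n) :
    ∃ i, S.cls i = none ∧ S.c i ∈ Δ i := by
  classical
  obtain ⟨q, hq, hqD⟩ := exists_other_field D hΔ.neg
  obtain ⟨x, B, hx, hB, hspec⟩ := exists_CM_classes (infinite_CMBy hq) hA S hAS
  have hr := S.le_dim
  by_contra hcon
  push Not at hcon
  set J : Finset (Fin n) := univ.filter fun i => x i ∉ Δ i with hJ
  set I : Finset (Fin n) := univ.filter fun i => x i ∈ Δ i with hI
  have hJd : J.card ≤ d := hV x (hAV hx) J fun i hi => (mem_filter.1 hi).2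
  have hIJ : I.card + J.card = n := by
    have := Finset.card_filter_add_card_filter_not (s := (univ : Finset (Fin n))) (fun i => x i ∈ Δ i)
    rw [card_univ, Fintype.card_fin] at this
    exact this
  have hcls : ∀ i ∈ I, ∃ s, s ∉ B ∧ S.cls i = some s := by
    intro i hi
    have hi' := (mem_filter.1 hi).2
    rcases h : S.cls i with _ | s
    · exfalso
      apply hcon i h
      rw [← (hAS hx).1 i h]
      exact hi'
    · refine ⟨s, fun hs => ?_, rfl⟩
      have h1 := hspec i s h hs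
      exact hqD i (h1.unique (hΔ.cm i _ hi' h1.special))
  have hBr : B.card ≤ S.r := by
    have := card_le_univ B
    rwa [Fintype.card_fin] at this
  have hlt : (univ \ B).card < I.card := by
    rw [card_sdiff_of_subset (subset_univ _), card_univ, Fintype.card_fin]
    omega
  have hf : ∀ i : I, ∃ s, s ∉ B ∧ S.cls i.1 = some s := fun i => hcls i.1 i.2
  choose f hfB hf using hf
  obtain ⟨i, -, j, -, hij, hfij⟩ := Finset.exists_ne_map_eq_of_card_lt_of_maps_to (s := (univ : Finset I))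
    (t := univ \ B) (by rw [card_univ, Fintype.card_coe]; exact hlt)
    (f := f) (fun i _ => mem_coe.2 (mem_sdiff.2 ⟨mem_univ _, hfB i⟩))
  have hij' : i.1 ≠ j.1 := fun h => hij (Subtype.ext h)
  have hxi := (mem_filter.1 i.2).2
  have hxj := (mem_filter.1 j.2).2
  have hci := hf i
  have hcj := hf j
  rw [← hfij] at hcj
  obtain ⟨N, hN, h⟩ := class_isog S hci hcj
  by_cases hs : IsSpecialPoint (x i.1)
  · have h1 := hΔ.cm i.1 _ hxi hs
    have h2 := CMBy_of_class S hci hcj (hAS hx) h1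
    exact hΔ.nsq i.1 j.1 hij' (h2.unique (hΔ.cm j.1 _ hxj h2.special))
  · exact hΔ.pair i.1 j.1 hij' _ hxi _ hxj hs N (h x (hAS hx))

/-! ### Finitely many constant coordinates -/

/-- the hyperplane `x_i = c` for a special point `c` -/
noncomputable def constData (i : Fin n) (c : ℂ) (hc : IsSpecialPoint c) : SpecialData n where
  r := n - 1
  cls k := if h : k = i then none else some (enum i ⟨k, h⟩)
  surj s := by
    refine ⟨((enum i).symm s).1, ?_⟩
    rw [dif_neg ((enum i).symm s).2]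
    simp
  c _ := c
  hc _ _ := hc
  g _ := 1
  hg _ := by simp

theorem mem_constData {i : Fin n} {c : ℂ} {hc : IsSpecialPoint c} {z : Fin n → ℂ} :
    z ∈ (constData i c hc).carrier ↔ z i = c := by
  classical
  constructor
  · intro h
    exact h.1 i (by simp [constData])
  · intro h
    refine ⟨fun k hk => ?_, fun s => ?_⟩
    · by_cases hki : k = i
      · subst hki
        exact h
      · simp [constData, hki] at hk
    · obtain ⟨⟨k, hk⟩, rfl⟩ := (enum i).surjective s
      obtain ⟨σ, hσ⟩ := jInv_surjective (z k)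
      refine ⟨σ, fun l hl => ?_⟩
      by_cases hli : l = i
      · simp [constData, hli] at hl
      · have h1 : (constData i c hc).cls l = some (enum i ⟨l, hli⟩) := by simp [constData, hli]
        rw [h1] at hl
        have h2 := (enum i).injective (Option.some_injective _ hl)
        have h3 : l = k := congrArg Subtype.val h2
        subst h3
        refine ⟨σ, ?_, hσ.symm⟩
        simp [constData]

lemma X_sub_C_ne_zero' (i : Fin n) (c : ℂ) : (X i - C c : MvPolynomial (Fin n) ℂ) ≠ 0 := by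
  intro h0
  have h1 := congrArg (eval fun _ => c + 1) h0
  simp at h1

theorem dim_constData {i : Fin n} {c : ℂ} {hc : IsSpecialPoint c} :
    dim (constData i c hc).carrier < n := by
  refine dim_lt (X_sub_C_ne_zero' i c) (fun z hz => ?_) (Fin.pos i)
  rw [map_sub, eval_X, eval_C, mem_constData.1 hz, sub_self]

/-- the product of the polynomials `X_i - c`, `c ∈ E_i` -/
noncomputable def constPoly (E : Fin n → Finset ℂ) : MvPolynomial (Fin n) ℂ := ∏ i, ∏ c ∈ E i, (X i - C c)

theorem eval_constPoly {E : Fin n → Finset ℂ} {x : Fin n → ℂ} {i : Fin n} (h : x i ∈ E i) :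
    eval x (constPoly E) = 0 := by
  rw [constPoly, map_prod]
  refine Finset.prod_eq_zero (mem_univ i) ?_
  rw [map_prod]
  refine Finset.prod_eq_zero h ?_
  rw [map_sub, eval_X, eval_C, sub_self]

theorem exists_of_constPoly {E : Fin n → Finset ℂ} {V : Set (Fin n → ℂ)} (hV : IsSubvariety V)
    (h : constPoly E ∈ vanishingIdeal ℂ V) : ∃ i, ∃ c ∈ E i, ∀ x ∈ V, x i = c := by
  have hI := van_prime hV
  rw [constPoly, hI.prod_mem_iff] at h
  obtain ⟨i, -, h1⟩ := h
  rw [hI.prod_mem_iff] at h1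
  obtain ⟨c, hc, h2⟩ := h1
  refine ⟨i, c, hc, fun x hx => ?_⟩
  have h3 := mem_van.1 h2 x hx
  rwa [map_sub, eval_X, eval_C, sub_eq_zero] at h3

/-- **the atypical subvarieties lie in finitely many hyperplanes** `x_i = c`, `c ∈ E_i` special -/
theorem Sep.notDense {Δ : Fin n → Set ℂ} {D : Fin n → ℤ} (hΔ : Sep Δ D)
    (hfin : ∀ i, {c ∈ Δ i | IsSpecialPoint c}.Finite) {d : ℕ} {W V : Set (Fin n → ℂ)}
    (hW : AtMostC d Δ W) (hV : IsSubvariety V) (hVW : V ⊆ W) (hd : d ≤ dim V)
    (hVS : ∀ S : SpecialData n, dim S.carrier < n → ¬ V ⊆ S.carrier) : AtypicalNotDense V := by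
  classical
  refine ⟨constPoly fun i => (hfin i).toFinset, ?_, ?_⟩
  · by_contra hcon
    push Not at hcon
    obtain ⟨i, c, hc, h⟩ := exists_of_constPoly hV (mem_van.2 hcon)
    have hcs : IsSpecialPoint c := ((hfin i).mem_toFinset.1 hc).2
    exact hVS (constData i c hcs) dim_constData fun x hx => mem_constData.2 (h x hx)
  · rintro A ⟨S, ⟨hA, hAVS, -⟩, hlt⟩ x hx
    obtain ⟨i, hi, hc⟩ := hΔ.const_coord hW S hA (fun y hy => hVW (hAVS hy).1) (fun y hy => (hAVS hy).2)
      (by omega)
    refine eval_constPoly (i := i) ?_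
    rw [(hfin i).mem_toFinset, (hAVS hx).2.1 i hi]
    exact ⟨hc, S.hc i hi⟩

/-- **Zilber–Pink for curves** -/
theorem Sep.zp_curve {Δ : Fin n → Set ℂ} {D : Fin n → ℤ} (hΔ : Sep Δ D)
    (hfin : ∀ i, {c ∈ Δ i | IsSpecialPoint c}.Finite) {V : Set (Fin n → ℂ)}
    (hVΔ : AtMostC 1 Δ V) (hV : IsSubvariety V) (h1 : dim V = 1) :
    {A | IsAtypical V A ∧ ∀ B, IsAtypical V B → A ⊆ B → B = A}.Finite ∧
      ∀ A, IsAtypical V A → ∃ B, (IsAtypical V B ∧ ∀ B', IsAtypical V B' → B ⊆ B' → B' = B) ∧ A ⊆ B :=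
  ⟨finite_max hV h1 fun hVS => hΔ.notDense hfin hVΔ hV subset_rfl h1.ge hVS,
    fun _ hA => exists_max_curve hV h1 hA⟩

/-- **the points on special subvarieties of too small dimension** lie in finitely many hyperplanes -/
theorem Sep.unlikely {Δ : Fin n → Set ℂ} {D : Fin n → ℤ} (hΔ : Sep Δ D) {d : ℕ} {V : Set (Fin n → ℂ)}
    (hV : AtMostC d Δ V) (S : SpecialData n) (hS : d + dim S.carrier < n) {x : Fin n → ℂ} (hx : x ∈ V)
    (hxS : x ∈ S.carrier) : ∃ i, S.cls i = none ∧ S.c i ∈ Δ i := by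
  refine hΔ.const_coord hV S (isSubvariety_singleton x) (by rintro y rfl; exact hx)
    (by rintro y rfl; exact hxS) ?_
  rw [dim_of_finite (Set.finite_singleton x)]
  omega

/-- **finitely many unlikely points on a curve** without constant coordinates -/
theorem Sep.finite_curve {Δ : Fin n → Set ℂ} {D : Fin n → ℤ} (hΔ : Sep Δ D)
    (hfin : ∀ i, {c ∈ Δ i | IsSpecialPoint c}.Finite) {V : Set (Fin n → ℂ)}
    (hVΔ : AtMostC 1 Δ V) (hV : IsSubvariety V) (h1 : dim V = 1)
    (hc : ∀ (i : Fin n) (c : ℂ), ∃ x ∈ V, x i ≠ c) :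
    {x ∈ V | ∃ S : SpecialData n, dim S.carrier + 2 ≤ n ∧ x ∈ S.carrier}.Finite := by
  classical
  have hf : constPoly (fun i => (hfin i).toFinset) ∉ vanishingIdeal ℂ V := by
    intro hcon
    obtain ⟨i, c, -, h⟩ := exists_of_constPoly hV hcon
    obtain ⟨x, hx, hxc⟩ := hc i c
    exact hxc (h x hx)
  refine (finite_section hV h1.le hf).subset ?_
  rintro x ⟨hx, S, hS, hxS⟩
  refine ⟨hx, ?_⟩
  obtain ⟨i, hi, hci⟩ := hΔ.unlikely hVΔ S (by omega) hx hxS
  refine eval_constPoly (i := i) ?_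
  rw [(hfin i).mem_toFinset, hxS.1 i hi]
  exact ⟨hci, S.hc i hi⟩

/-! ### Several families of sets: no unlikely intersections at all -/

/-- **no unlikely intersections**: more than `n` separated families of sets, such that the fields of
different families are different too -/
theorem noUnlikely_of_sep {ι : Type*} {P : Finset ι} (hP : n < P.card) {Δ : ι → Fin n → Set ℂ}
    {D : ι → Fin n → ℤ} (hΔ : ∀ p ∈ P, Sep (Δ p) (D p)) {d : ℕ} (hdn : d ≤ n) {W : Set (Fin n → ℂ)}
    (hW : ∀ p ∈ P, AtMostC d (Δ p) W)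
    (hD : ∀ p ∈ P, ∀ q ∈ P, p ≠ q → ∀ i, ¬ IsSquare (D p i * D q i)) : NoUnlikely (n - d) W := by
  classical
  have key : ∀ (S : SpecialData n) (A : Set (Fin n → ℂ)), IsSubvariety A → A ⊆ W → A ⊆ S.carrier →
      ¬ d + dim S.carrier < dim A + n := by
    intro S A hA hAW hAS hd
    have h1 : ∀ p : P, ∃ i, S.cls i = none ∧ S.c i ∈ Δ p.1 i := fun p =>
      (hΔ p.1 p.2).const_coord (hW p.1 p.2) S hA hAW hAS hd
    choose i hi hc using h1
    obtain ⟨p, -, q, -, hpq, hipq⟩ := Finset.exists_ne_map_eq_of_card_lt_of_maps_to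
      (s := (univ : Finset P)) (t := (univ : Finset (Fin n)))
      (by rw [card_univ, card_univ, Fintype.card_coe, Fintype.card_fin]; exact hP)
      (f := i) (fun _ _ => mem_coe.2 (mem_univ _))
    have hpq' : p.1 ≠ q.1 := fun h => hpq (Subtype.ext h)
    have hs := S.hc _ (hi p)
    have h2 := (hΔ p.1 p.2).cm _ _ (hc p) hs
    have h3 : S.c (i p) ∈ Δ q.1 (i p) := by
      rw [hipq]
      exact hc q
    have h4 := (hΔ q.1 q.2).cm _ _ h3 hs
    exact hD p.1 p.2 q.1 q.2 hpq' _ (h2.unique h4)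
  refine ⟨fun S hS => ?_, fun V hV hVW hn A hA => ?_⟩
  · rw [Set.disjoint_left]
    intro x hx hxS
    refine key S {x} (isSubvariety_singleton x) (by rintro y rfl; exact hx) (by rintro y rfl; exact hxS) ?_
    rw [dim_of_finite (Set.finite_singleton x)]
    omega
  · obtain ⟨S, ⟨hA1, hAVS, -⟩, hlt⟩ := hA
    exact key S A hA1 (fun y hy => hVW (hAVS hy).1) (fun y hy => (hAVS hy).2) (by omega)

end Pool.Agent.II
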