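import Pool.Agent.II.RayCore
import Pool.Agent.II.Adapt36

/-! # Neighbours stay near an integer -/

set_option autoImplicit false

open UpperHalfPlane Finset Pool.Agent.Helper11.ZP Pool.Agent.Helper20.ZT.Prim

namespace Pool.Agent.II9

variable {v : AbsoluteValue ℂ ℝ} {p : ℕ}

lemma v_fermat (hv : IsNonarchimedean v) (hp : p.Prime) (hvp : v (p : ℂ) < 1) (b : ℤ) :
    v ((b : ℂ) ^ p - b) < 1 := by
  have : Fact p.Prime := ⟨hp⟩
  have h1 : (p : ℤ) ∣ b ^ p - b := by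
    rw [← ZMod.intCast_zmod_eq_zero_iff_dvd]
    push_cast
    rw [ZMod.pow_card, sub_self]
  obtain ⟨k, hk⟩ := h1
  have h2 : ((b : ℂ) ^ p - b) = (p : ℂ) * (k : ℂ) := by exact_mod_cast congrArg (Int.cast : ℤ → ℂ) hk
  rw [h2, map_mul]
  exact mul_lt_one_of_nonneg_of_lt_one_left (v.nonneg _) hvp (v_int hv k)

/-- **neighbours stay near an integer** -/
theorem nbr9 (hv : IsNonarchimedean v) (hp : p.Prime) (hvp : v (p : ℂ) < 1) {P : II.Mat}
    (hP : P.det = p) {τ τ' : ℍ} (h : II.Mov P τ τ') {b : ℤ} (h1 : v (jInv τ - b) < 1) :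
    v (jInv τ' - b) < 1 := by
  have : Fact p.Prime := ⟨hp⟩
  refine II.FF_near hv hvp (x := jInv τ) (v_int hv b) (v_fermat hv hp hvp b) h1 ?_
  refine (II.FF_zero_iff (p : ℤ) τ _).2 ⟨⟨P, hP⟩, II51.prm_of_det_prime hp hP, ?_⟩
  rw [II51.toGL_of_mov (A := ⟨P, hP⟩) _ h]

end Pool.Agent.II9
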