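import Mathlib

/-! # Points whose contracting ray reaches the centre: finitely many

`nb x y` means that `y` is a neighbour of `x`. If every point has finitely many backward neighbours,
then only finitely many points `x 0` with `v (x 0 - c) < 1` are joined to the centre `c` by a finite chain
`x 0, x 1, ..., x K = c` of neighbours with `v (x (k+1) - c) <= t * v (x k - c)`, `t < 1` fixed. -/

namespace Pool.Agent.II

/-- the points joined to `c` by a chain of at most `m` backward steps -/
def backSet79 {F : Type*} (nb : F → F → Prop) (c : F) : ℕ → Set F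
  | 0 => {c}
  | m + 1 => backSet79 nb c m ∪ ⋃ y ∈ backSet79 nb c m, {x | nb x y}

lemma backSet79_finite {F : Type*} {nb : F → F → Prop} (hfin : ∀ y, {x | nb x y}.Finite) (c : F) (m : ℕ) :
    (backSet79 nb c m).Finite := by
  induction m with
  | zero => exact Set.finite_singleton c
  | succ m ih => exact ih.union (ih.biUnion fun y _ => hfin y)

lemma backSet79_mono {F : Type*} {nb : F → F → Prop} (c : F) {m l : ℕ} (h : m ≤ l) :
    backSet79 nb c m ⊆ backSet79 nb c l := by
  induction l, h using Nat.le_induction with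
  | base => exact subset_rfl
  | succ l _ ih => exact ih.trans Set.subset_union_left

lemma backSet79_chain {F : Type*} {nb : F → F → Prop} (c : F) (K : ℕ) (x : ℕ → F) (hK : x K = c)
    (hnb : ∀ k < K, nb (x k) (x (k + 1))) : x 0 ∈ backSet79 nb c K := by
  have key : ∀ j ≤ K, x (K - j) ∈ backSet79 nb c j := by
    intro j
    induction j with
    | zero =>
      intro _
      rw [Nat.sub_zero, hK]
      exact rfl
    | succ j ih =>
      intro hj
      have h1 := ih (by omega)
      have h2 := hnb (K - (j + 1)) (by omega)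
      rw [show K - (j + 1) + 1 = K - j by omega] at h2
      exact Or.inr (Set.mem_biUnion h1 h2)
  have := key K le_rfl
  rwa [Nat.sub_self] at this

/-- **finitely many points have a contracting chain which reaches the centre** -/
theorem finite_reach79 {F : Type*} [Field F] (v : AbsoluteValue F ℝ) {nb : F → F → Prop}
    (hfin : ∀ y, {x | nb x y}.Finite) (c : F) {θ : ℝ} (h0 : 0 ≤ θ) (h1 : θ < 1) :
    ∃ E : Set F, E.Finite ∧ ∀ (K : ℕ) (x : ℕ → F), x K = c → (∀ k < K, nb (x k) (x (k + 1))) →
      (∀ k < K, x k ≠ c) → (∀ k < K, v (x (k + 1) - c) ≤ θ * v (x k - c)) → v (x 0 - c) ≤ 1 →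
      x 0 ∈ E := by
  classical
  -- the smallest distance of a neighbour of the centre
  obtain ⟨δ, hδ, hδ'⟩ : ∃ δ : ℝ, 0 < δ ∧ ∀ y, nb y c → y ≠ c → δ ≤ v (y - c) := by
    have hf := hfin c
    set s := hf.toFinset.filter (fun y => y ≠ c) with hs
    by_cases hne : s.Nonempty
    · obtain ⟨y0, hy0, hmin⟩ := s.exists_min_image (fun y => v (y - c)) hne
      rw [hs, Finset.mem_filter] at hy0
      refine ⟨v (y0 - c), v.pos (sub_ne_zero.2 hy0.2), fun y hy hyc => hmin y ?_⟩
      rw [hs, Finset.mem_filter]
      exact ⟨hf.mem_toFinset.2 hy, hyc⟩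
    · refine ⟨1, one_pos, fun y hy hyc => ?_⟩
      exfalso
      apply hne
      refine ⟨y, ?_⟩
      rw [hs, Finset.mem_filter]
      exact ⟨hf.mem_toFinset.2 hy, hyc⟩
  obtain ⟨M, hM⟩ := exists_pow_lt_of_lt_one hδ h1
  refine ⟨backSet79 nb c (M + 1), backSet79_finite hfin c _, ?_⟩
  intro K x hK hnb hne hcon hx0
  have hle : K ≤ M + 1 := by
    by_contra hlt
    push Not at hlt
    obtain ⟨L, rfl⟩ : ∃ L, K = L + 1 := ⟨K - 1, by omega⟩
    have hpow : ∀ j ≤ L, v (x j - c) ≤ θ ^ j := by
      intro j
      induction j with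
      | zero => intro _; simpa using hx0
      | succ j ih =>
        intro hj
        calc v (x (j + 1) - c) ≤ θ * v (x j - c) := hcon j (by omega)
          _ ≤ θ * θ ^ j := mul_le_mul_of_nonneg_left (ih (by omega)) h0
          _ = θ ^ (j + 1) := by ring
    have h2 := hpow L le_rfl
    have h3 : δ ≤ v (x L - c) := by
      refine hδ' _ ?_ (hne L (by omega))
      have := hnb L (by omega)
      rwa [hK] at this
    have h4 : θ ^ L ≤ θ ^ M := pow_le_pow_of_le_one h0 h1.le (by omega)
    linarith
  exact backSet79_mono c hle (backSet79_chain c K x hK hnb)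

end Pool.Agent.II
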