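import Pool.Agent.II.Adapt36
import Pool.Agent.II.Cont
import Pool.Agent.II.Defs
import Pool.Agent.II.JInj51
import Pool.Agent.II.CMb51

/-! # Integral images, row 2b: centres exist, the canonical neighbour -/

set_option autoImplicit false

open UpperHalfPlane Pool.Agent.Helper11.ZP Pool.Agent.Helper20.ZT.Prim Polynomial

namespace Pool.Agent.II

variable {v : AbsoluteValue ℂ ℝ} {p : ℕ}

lemma prime_dvd_frob (hp : p.Prime) (a : ℤ) : (p : ℤ) ∣ a ^ p - a := by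
  have := Fact.mk hp
  rw [← ZMod.intCast_zmod_eq_zero_iff_dvd]
  push_cast
  rw [ZMod.pow_card, sub_self]

lemma v_frob_int (hv : IsNonarchimedean v) (hp : p.Prime) (hvp : v (p : ℂ) < 1) (a : ℤ) :
    v ((a : ℂ) ^ p - a) < 1 := by
  obtain ⟨c, hc⟩ := prime_dvd_frob hp a
  have h1 : (a : ℂ) ^ p - a = (p : ℂ) * (c : ℂ) := by exact_mod_cast hc
  rw [h1, map_mul]
  exact mul_lt_one_of_nonneg_of_lt_one_left (AbsoluteValue.nonneg v _) hvp (II9.v_int hv c)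

/-- a matrix of determinant `p` is primitive -/
lemma isPrim_prime (hp : p.Prime) {A : Mat} (hA : A.det = p) : Prm A := by
  intro k hk
  have h1 : k ^ 2 ∣ (p : ℤ) := by
    rw [← hA, Matrix.det_fin_two]
    have h2 : ∀ i j i' j', k ^ 2 ∣ A i j * A i' j' := fun i j i' j' => by
      rw [pow_two]
      exact mul_dvd_mul (hk i j) (hk i' j')
    exact dvd_sub (h2 _ _ _ _) (h2 _ _ _ _)
  have h3 : k.natAbs ^ 2 ∣ p := by
    rw [← Int.natAbs_pow]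
    exact Int.natAbs_dvd_natAbs.2 h1
  have h4 : k.natAbs = 1 := by
    rcases (Nat.dvd_prime hp).1 ((Dvd.intro_left _ (by rw [pow_two] : k.natAbs * k.natAbs = k.natAbs ^ 2)).trans h3)
      with h5 | h5
    · exact h5
    · exfalso
      rw [h5, pow_two] at h3
      have h6 := Nat.le_of_dvd hp.pos h3
      have h7 := hp.two_le
      nlinarith
  exact isUnit_iff_dvd_one.1 (Int.isUnit_iff_natAbs_eq.2 h4)

/-- a matrix of determinant `p` moves a point to a neighbour -/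
lemma eval_of_mov [Fact p.Prime] {P : Mat} (hP : P.det = p) {τ τ' : ℍ} (h : Mov P τ τ') :
    ((FF (p : ℤ)).map (evalRingHom (jInv τ))).eval (jInv τ') = 0 := by
  have hp : p.Prime := Fact.out
  rw [FF_map, eval_map]
  have h1 := primPoly_root (p : ℤ) ⟨P, hP⟩ (isPrim_prime hp hP) τ
  rwa [toGL_smul_eq (factPos p).out ⟨P, hP⟩ τ τ' h] at h1

theorem exists_center (hv : IsNonarchimedean v) (hp : p.Prime) (h5 : 5 ≤ p) (hvp : v (p : ℂ) < 1)
    (a : ℤ) : ∃ t x₀, Center v p a t x₀ := by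
  have := Fact.mk hp
  obtain ⟨x₀, h1, h2⟩ := exists_diag_root hv hp hvp (FF_kron hv hvp) (II9.v_int hv a) (v_frob_int hv hp hvp a)
  rw [FF_map, eval_map] at h2
  obtain ⟨τ, hτ⟩ := jInv_surjective x₀
  rw [← hτ, primPoly_roots] at h2
  obtain ⟨A, -, hA⟩ := h2
  obtain ⟨G, hG, hM⟩ := II51.jInv_inj hA.symm
  have h3 : Mov A.1 τ (toGL (factPos p).out A • τ) := II51.mov_toGL (factPos p).out A τ
  refine ⟨(G * A.1).trace, x₀, h1, G * A.1, τ, ?_, rfl, II51.mov_mul h3 hM, hτ⟩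
  rw [Matrix.det_mul, hG, one_mul, A.2]

lemma trace_bound (hp : p.Prime) (h5 : 5 ≤ p) {A : Mat} (hA : A.det = p) {τ : ℍ} (hM : Mov A τ τ)
    (ht : A.trace ≠ 0) : ¬ (p : ℤ) ∣ A.trace := by
  intro hd
  have h10 : A 1 0 ≠ 0 := by
    intro h0
    obtain ⟨h1, h2⟩ := II51.scalar_of_fix hM h0
    rw [Matrix.det_fin_two, h1, h2, zero_mul, sub_zero] at hA
    have h3 : A 0 0 ^ 2 = (p : ℤ) := by rw [pow_two]; exact hA
    have h4 : (A 0 0).natAbs ^ 2 = p := by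
      rw [← Int.natAbs_pow, h3, Int.natAbs_natCast]
    exact (Nat.Prime.not_prime_pow (le_refl 2)) (h4 ▸ hp)
  have h1 := II51.disc_neg hM h10
  rw [II51.disc, hA] at h1
  have h2 : (p : ℤ) ≤ |A.trace| := Int.le_of_dvd (abs_pos.2 ht) ((dvd_abs _ _).2 hd)
  have h3 : (p : ℤ) ^ 2 ≤ A.trace ^ 2 := by
    rw [← sq_abs A.trace]
    exact pow_le_pow_left₀ (by positivity) h2 2
  have h4 : (5 : ℤ) ≤ p := by exact_mod_cast h5
  nlinarith

theorem canon (hv : IsNonarchimedean v) (hp : p.Prime) (h5 : 5 ≤ p) (hvp : v (p : ℂ) < 1) {a t : ℤ}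
    {x₀ : ℂ} (hC : Center v p a t x₀) (ht : t ≠ 0) : ∃ μ, Canon v p x₀ μ := by
  have := Fact.mk hp
  obtain ⟨hnear, A₀, τ₀, hA, htr, hM, hj⟩ := hC
  have hpt : ¬ (p : ℤ) ∣ A₀.trace := trace_bound hp h5 hA hM (by rwa [htr])
  have hdbl := FF_double (⟨A₀, hA⟩ : DM (p : ℤ)) (τ := τ₀) hM hpt
  rw [hj] at hdbl
  have hx0 : v x₀ ≤ 1 := v_le_one_of_near hv (II9.v_int hv a) hnear
  have hfix : v (x₀ ^ p - x₀) < 1 := v_frob_fixed hv hp hvp (II9.v_int hv a) (v_frob_int hv hp hvp a) hnear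
  set μ := v (((sh x₀ x₀ (FF (p : ℤ))).coeff 0).coeff 2) with hμ
  have hroot : ∀ (τ τ' : ℍ) (P : Mat), P.det = p → Mov P τ τ' → jInv τ ≠ x₀ → v (jInv τ - x₀) < 1 →
      v (jInv τ' - x₀) ≠ v (jInv τ - x₀) ∧ (v (jInv τ' - x₀) < v (jInv τ - x₀) →
        v (jInv τ' - x₀) ≤ v (jInv τ - x₀) * max μ (v (jInv τ - x₀))) := by
    intro τ τ' P hP hPM hne hlt
    exact dynF_root hv hp hvp (FF_mem_IB hv _) (FF_Sy (p : ℤ) (by exact_mod_cast hp.one_lt)) (FF_kron hv hvp) hx0 hfix hdbl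
      ((AbsoluteValue.pos_iff v).2 (sub_ne_zero.2 hne)) hlt (eval_of_mov hP hPM)
  have hmain := dynF hv hp hvp (FF_mem_IB hv _) (FF_Sy (p : ℤ) (by exact_mod_cast hp.one_lt)) (FF_kron hv hvp) hx0 hfix hdbl
  classical
  have hcard : ∀ τ : ℍ, jInv τ ≠ x₀ → v (jInv τ - x₀) < 1 → ((TP (p : ℤ)).filter fun o =>
      v (jInv (toGL (factPos p).out (U (p : ℤ) o) • τ) - x₀) < v (jInv τ - x₀)).card = 1 := by
    intro τ hne hlt
    exact (hmain.2 (jInv τ) ((AbsoluteValue.pos_iff v).2 (sub_ne_zero.2 hne)) hlt (TP (p : ℤ)) _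
      (FF_prod (p : ℤ) τ)).2.1
  refine ⟨μ, hmain.1, ?_, ?_, ?_, ?_⟩
  · intro τ hne hlt
    obtain ⟨o, ho⟩ := Finset.card_eq_one.1 (hcard τ hne hlt)
    have h1 : o ∈ ((TP (p : ℤ)).filter fun o =>
      v (jInv (toGL (factPos p).out (U (p : ℤ) o) • τ) - x₀) < v (jInv τ - x₀)) := by
      rw [ho]; exact Finset.mem_singleton_self _
    exact ⟨(U (p : ℤ) o).1, _, (U (p : ℤ) o).2, II51.mov_toGL (factPos p).out _ τ, (Finset.mem_filter.1 h1).2⟩
  · intro τ τ' P hP hPM hne hlt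
    exact (hroot τ τ' P hP hPM hne hlt).1
  · intro τ τ' P hP hPM hne hlt hlt'
    rw [mul_comm]
    exact (hroot τ τ' P hP hPM hne hlt).2 hlt'
  · intro τ τ₁ τ₂ P Q hP hPM hQ hQM hne hlt h1 h2
    obtain ⟨o, ho⟩ := Finset.card_eq_one.1 (hcard τ hne hlt)
    have key : ∀ (R : DM (p : ℤ)) (σ : ℍ), Mov R.1 τ σ → v (jInv σ - x₀) < v (jInv τ - x₀) → mkO R = o := by
      intro R σ hRM hσ
      have h3 : mkO R ∈ ((TP (p : ℤ)).filter fun o =>
          v (jInv (toGL (factPos p).out (U (p : ℤ) o) • τ) - x₀) < v (jInv τ - x₀)) := by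
        refine Finset.mem_filter.2 ⟨mem_TP (p : ℤ) (isPrim_prime hp R.2), ?_⟩
        obtain ⟨γ, hγ⟩ := mkO_eq (mkO_U (p : ℤ) (mkO R))
        rw [hγ, toGL_smul, mul_smul, toGL_smul_eq (factPos p).out R τ σ hRM]
        have h4 : jInv ((γ : GL (Fin 2) ℝ) • σ) = jInv σ := jInv_smulZ γ σ
        rw [h4]
        exact hσ
      rw [ho] at h3
      exact Finset.mem_singleton.1 h3
    obtain ⟨γ, hγ⟩ := mkO_eq ((key ⟨Q, hQ⟩ τ₂ hQM h2).trans (key ⟨P, hP⟩ τ₁ hPM h1).symm)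
    refine ⟨γ.1, γ.2, ?_⟩
    exact congrArg Subtype.val hγ

end Pool.Agent.II
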