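import Pool.Agent.II.Reach
import Pool.Agent.II.Reach79
import Pool.Agent.II.Row2b
import Pool.Agent.II.Nbr9
import Pool.Agent.II.Glue79

/-! # Integral images: finitely many special points in a smaller disk around a centre -/

open UpperHalfPlane Finset Pool.Agent.Helper11.ZP Pool.Agent.Helper11.ZU Pool.Agent.Helper20.ZT
  Pool.Agent.Helper20.ZT.Prim

namespace Pool.Agent.II

variable {v : AbsoluteValue ℂ ℝ} {p : ℕ}

/-- `y` is a `p`-isogenous neighbour of `x` -/
def Nb79 (p : ℕ) (x y : ℂ) : Prop :=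
  ∃ (τ τ' : ℍ) (P : Matrix (Fin 2) (Fin 2) ℤ), P.det = p ∧ Pool.Agent.II51.Mov P τ τ' ∧
    jInv τ = x ∧ jInv τ' = y

/-- a point has finitely many neighbours -/
theorem Nb79.finite (hp : p.Prime) (y : ℂ) : {x | Nb79 p x y}.Finite := by
  classical
  have := Fact.mk hp
  have hmon : ((FF (p : ℤ)).map (Polynomial.evalRingHom y)).Monic := (FF_monic (p : ℤ)).map _
  refine (((FF (p : ℤ)).map (Polynomial.evalRingHom y)).roots.toFinset.finite_toSet).subset ?_
  rintro x ⟨τ, τ', P, hP, hM, rfl, rfl⟩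
  rw [Finset.mem_coe, Multiset.mem_toFinset, Polynomial.mem_roots hmon.ne_zero]
  have hadj : P.adjugate.det = p := by
    rw [Matrix.det_adjugate, hP]
    simp
  exact eval_of_mov hadj (Pool.Agent.II51.mov_adj hM)

/-- **finitely many special points in a closed disk of radius `ρ < 1` around a centre** -/
theorem finite_special_disk (hv : IsNonarchimedean v) (hp : p.Prime) (h3 : 3 ≤ p) {x₀ : ℂ} {μ : ℝ}
    (hx : II9.Loc v p x₀ μ) {ρ : ℝ} (hρ : ρ < 1) :
    {c : ℂ | IsSpecialPoint c ∧ v (c - x₀) ≤ ρ}.Finite := by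
  set θ : ℝ := max (max μ ρ) 0 with hθ
  have hθ1 : θ < 1 := max_lt (max_lt hx.mu_lt hρ) one_pos
  have hθ0 : 0 ≤ θ := le_max_right _ _
  obtain ⟨E, hE, h⟩ := finite_reach79 v (nb := Nb79 p) (Nb79.finite hp) x₀ hθ0 hθ1
  refine hE.subset ?_
  rintro c ⟨hc, hcρ⟩
  obtain ⟨D, -, σ, B, hM, hB, rfl, -⟩ := exists_CMBy hc
  obtain ⟨K, s, P, hs0, hsK, hs⟩ := II9.cm_reach hv hp h3 hx hB hM (hcρ.trans_lt hρ)
  have hdec : ∀ k ≤ K, v (jInv (s k) - x₀) ≤ ρ := by
    intro k
    induction k with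
    | zero =>
      intro _
      rw [hs0]
      exact hcρ
    | succ k ih =>
      intro hk
      have h1 := ih (by omega)
      have h2 := (hs k (by omega)).2.2.2
      have h3 : max μ (v (jInv (s k) - x₀)) ≤ 1 := max_le hx.mu_lt.le (h1.trans hρ.le)
      calc v (jInv (s (k + 1)) - x₀) ≤ v (jInv (s k) - x₀) * max μ (v (jInv (s k) - x₀)) := h2
        _ ≤ v (jInv (s k) - x₀) * 1 := mul_le_mul_of_nonneg_left h3 (v.nonneg _)
        _ = v (jInv (s k) - x₀) := mul_one _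
        _ ≤ ρ := h1
  have h4 := h K (fun k => jInv (s k)) hsK
    (fun k hk => ⟨s k, s (k + 1), P k, (hs k hk).1, (hs k hk).2.1, rfl, rfl⟩)
    (fun k hk => (hs k hk).2.2.1) (fun k hk => ?_) ?_
  · rw [← hs0]
    exact h4
  · calc v (jInv (s (k + 1)) - x₀) ≤ v (jInv (s k) - x₀) * max μ (v (jInv (s k) - x₀)) := (hs k hk).2.2.2
      _ ≤ v (jInv (s k) - x₀) * θ := by
        refine mul_le_mul_of_nonneg_left ?_ (v.nonneg _)
        exact (max_le_max le_rfl (hdec k hk.le)).trans (le_max_left _ _)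
      _ = θ * v (jInv (s k) - x₀) := mul_comm _ _
  · change v (jInv (s 0) - x₀) ≤ 1
    exact (hdec 0 (Nat.zero_le _)).trans hρ.le

end Pool.Agent.II
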