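import Pool.Agent.II.Reach
import Pool.Agent.II.Reach79
import Pool.Agent.II.Nbr9
import Pool.Agent.II.Row2b

/-! # Finitely many CM points in a closed disk around the centre -/

set_option autoImplicit false

open UpperHalfPlane Matrix
open scoped MatrixGroups

namespace Pool.Agent.II9
open Pool.Agent.Helper11.ZP Pool.Agent.Helper11.ZU Pool.Agent.Helper20.ZT Pool.Agent.Helper20.ZT.Prim
  Pool.Agent.R3h27

variable {v : AbsoluteValue ℂ ℝ} {p : ℕ} {x0 : ℂ} {μ : ℝ}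

/-- neighbours of degree `p` -/
def nb (p : ℕ) (x y : ℂ) : Prop := ∃ (τ τ' : ℍ) (P : M2), P.det = p ∧ II51.Mov P τ τ' ∧ jInv τ = x ∧
  jInv τ' = y

lemma nb_finite (hp : p.Prime) (y : ℂ) : {x | nb p x y}.Finite := by
  have hm : Fact (0 < (p : ℤ)) := ⟨by exact_mod_cast hp.pos⟩
  have hne : (primPoly (p : ℤ)).map (evO y) ≠ 0 := ((primPoly_monic (p : ℤ)).map _).ne_zero
  refine ((primPoly (p : ℤ)).map (evO y)).roots.toFinset.finite_toSet.subset ?_
  rintro x ⟨τ, τ', P, hP, mP, rfl, rfl⟩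
  rw [Finset.mem_coe, Multiset.mem_toFinset, Polynomial.mem_roots hne, Polynomial.IsRoot,
    Polynomial.eval_map]
  have hP' : P.adjugate.det = p := by rw [det_adj', hP]
  exact II51.root_of_mov (p : ℤ) hP' (II51.prm_of_det_prime hp hP') (II51.mov_adj mP)

/-- **finitely many CM points in a closed disk of radius less than one around the centre** -/
theorem finite_special_near (hv : IsNonarchimedean v) (hp : p.Prime) (h3 : 3 ≤ p) (hx : Loc v p x0 μ)
    {ρ : ℝ} (hρ : ρ < 1) : {c : ℂ | IsSpecialPoint c ∧ v (c - x0) ≤ ρ}.Finite := by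
  have hθ0 : 0 ≤ max 0 (max μ ρ) := le_max_left _ _
  have hθ1 : max 0 (max μ ρ) < 1 := max_lt one_pos (max_lt hx.mu_lt hρ)
  obtain ⟨E, hE, h⟩ := II.finite_reach79 v (nb := nb p) (nb_finite hp) x0 hθ0 hθ1
  refine hE.subset ?_
  rintro c ⟨hc, hcρ⟩
  obtain ⟨σ, B, hB, hM, rfl⟩ : ∃ (σ : ℍ) (B : M2), B 1 0 ≠ 0 ∧ II51.Mov B σ σ ∧ jInv σ = c := by
    obtain ⟨σ, A, h1, h2, -, -, -, h4, -⟩ := II51.exists_prim_of_special hc h3
    exact ⟨σ, A, h4, h2, h1.symm⟩
  obtain ⟨K, s, P, hs0, hsK, hs⟩ := cm_reach hv hp h3 hx hB hM (hcρ.trans_lt hρ)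
  have hle : ∀ k ≤ K, v (jInv (s k) - x0) ≤ ρ := by
    intro k
    induction k with
    | zero => intro _; rw [hs0]; exact hcρ
    | succ k ih =>
      intro hk
      obtain ⟨-, -, -, h4⟩ := hs k (Nat.lt_of_succ_le hk)
      have h5 := ih (Nat.le_of_succ_le hk)
      have h6 : max μ (v (jInv (s k) - x0)) ≤ 1 := max_le hx.mu_lt.le (h5.trans hρ.le)
      exact h4.trans ((mul_le_of_le_one_right (v.nonneg _) h6).trans h5)
  have h1 := h K (fun k => jInv (s k)) hsK
    (fun k hk => ⟨s k, s (k + 1), P k, (hs k hk).1, (hs k hk).2.1, rfl, rfl⟩)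
    (fun k hk => (hs k hk).2.2.1) (fun k hk => ?_) (by
      rw [hs0]; exact hcρ.trans hρ.le)
  · rw [hs0] at h1
    exact h1
  · obtain ⟨-, -, -, h4⟩ := hs k hk
    refine h4.trans ?_
    rw [mul_comm]
    refine mul_le_mul_of_nonneg_right ?_ (v.nonneg _)
    exact (max_le_max le_rfl (hle k hk.le)).trans (le_max_right _ _)

/-- **finitely many CM points near an ordinary integer** -/
theorem finite_special_int (hv : IsNonarchimedean v) (hp : p.Prime) (h5 : 5 ≤ p) (hvp : v (p : ℂ) < 1)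
    {a t : ℤ} (hC : II.Center v p a t x0) (ht : t ≠ 0) {ρ : ℝ} (hρ : ρ < 1) :
    {c : ℂ | IsSpecialPoint c ∧ v (c - a) ≤ ρ}.Finite := by
  obtain ⟨μ, hCa⟩ := II.canon hv hp h5 hvp hC ht
  have hL := loc_of_canon hv hC.near hCa fun _ _ _ hP mP h => nbr9 hv hp hvp hP mP h
  refine (finite_special_near hv hp (by omega) hL (max_lt hρ hC.near)).subset ?_
  rintro c ⟨hc, hcρ⟩
  refine ⟨hc, ?_⟩
  have e : c - x0 = (c - a) + (a - x0) := by ring
  rw [e]
  refine (hv _ _).trans (max_le_max hcρ ?_)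
  rw [v.map_sub]

end Pool.Agent.II9
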