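import Pool.Agent.II.RowC
import Pool.Agent.II.Curve79

/-! # Integral images: the density statement and the statements on single members -/

open UpperHalfPlane Finset MvPolynomial Pool.Agent.Helper11.ZP Pool.Agent.Helper11.ZU Pool.Agent.Helper20.ZT
  Pool.Agent.Helper20.ZT.Prim Pool.Agent.Helper20.ZD Pool.Agent.Helper20.ZD.Local

namespace Pool.Agent.II

variable {n : ℕ}

open Classical in
/-- **almost all integral images have no unlikely intersections** -/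
theorem density79 {d : ℕ} (hdn : d ≤ n) {Z : Set (Fin n → ℂ)} (hZ : GenPos d Z) :
    Filter.Tendsto (fun H : ℕ =>
      ((((Icc (-(H : ℤ)) H) ×ˢ (Fintype.piFinset fun _ : Fin n => Icc (-(H : ℤ)) H)).filter
        (fun w => NoUnlikely (n - d) (homImage (w.1 : ℂ) (fun i => (w.2 i : ℂ)) Z))).card : ℝ) /
      ((((Icc (-(H : ℤ)) H) ×ˢ (Fintype.piFinset fun _ : Fin n => Icc (-(H : ℤ)) H)).card : ℝ)))
      Filter.atTop (nhds 1) := by
  obtain ⟨M, hM, hv⟩ := genPos_absv hZ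
  have hex : ∀ p : ℕ, ∃ v : AbsoluteValue ℂ ℝ, p.Prime → max 5 (M + 1) ≤ p →
      IsNonarchimedean v ∧ v (p : ℂ) < 1 ∧ ∀ z ∈ Z, (univ.filter fun i => 1 < v (z i)).card ≤ d := by
    intro p
    by_cases hp : p.Prime ∧ max 5 (M + 1) ≤ p
    · have hpM : ¬ p ∣ M := fun h => by
        have h1 := Nat.le_of_dvd hM h
        have h2 := (le_max_right 5 (M + 1)).trans hp.2
        omega
      obtain ⟨v, h1, h2, h3⟩ := hv p hp.1 hpM
      refine ⟨v, fun _ _ => ⟨h1, ?_, h3⟩⟩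
      rw [h2]
      exact inv_lt_one_of_one_lt₀ (by exact_mod_cast hp.1.one_lt)
    · obtain ⟨q, hq, hqp⟩ := Nat.exists_infinite_primes (M + 1)
      obtain ⟨v, -⟩ := hv q hqp fun h => by
        have h1 := Nat.le_of_dvd hM h
        omega
      exact ⟨v, fun h1 h2 => absurd ⟨h1, h2⟩ hp⟩
  choose v hv' using hex
  refine good_density (max 5 (M + 1)) (le_max_left _ _) v
    (fun p hp hp0 => ⟨(hv' p hp hp0).1, (hv' p hp hp0).2.1⟩)
    (fun l a => NoUnlikely (n - d) (homImage (l : ℂ) (fun i => (a i : ℂ)) Z)) ?_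
  intro l a S t x₀ hS hSp hC hsq
  exact noUnlikely_of_centers hdn S (by omega) v
    (fun p hp => ⟨(hv' p (hSp p hp).1 (hSp p hp).2.1).1, (hv' p (hSp p hp).1 (hSp p hp).2.1).2.1,
      (hSp p hp).1, (le_max_left _ _).trans (hSp p hp).2.1⟩)
    (fun p hp => (hv' p (hSp p hp).1 (hSp p hp).2.1).2.2) l a (fun p hp => (hSp p hp).2.2) t x₀ hC hsq

/-- **single members** -/
theorem covered79 {d : ℕ} (hdn : d ≤ n) {Z : Set (Fin n → ℂ)} (hZ : GenPos d Z) :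
    ∃ (M : ℕ) (C : ℝ), 0 < M ∧ ∀ p : ℕ, p.Prime → ¬ p ∣ M →
      ∃ (G : Finset (Fin n → ZMod p)) (E : Finset ℂ),
        (p : ℝ) ^ n - C * (p : ℝ) ^ ((n : ℝ) - 1 / 6) ≤ G.card ∧ (∀ c ∈ E, IsSpecialPoint c) ∧
        ∀ (l : ℤ) (a : Fin n → ℤ), (p : ℤ) ∣ l → (fun i => (a i : ZMod p)) ∈ G →
          Covered (n - d) (E : Set ℂ) (homImage (l : ℂ) (fun i => (a i : ℂ)) Z) := by
  obtain ⟨M, C, hM, h⟩ := members hZ
  refine ⟨M, C, hM, fun p hp hpM => ?_⟩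
  obtain ⟨G, E, h1, h2, h3⟩ := h p hp hpM
  refine ⟨G, E, h1, h2, fun l a hl ha => ?_⟩
  obtain ⟨Δ, D, hS, hE, hW⟩ := h3 l a hl ha
  exact hS.covered hE hdn hW

/-- **curves** -/
theorem curves79 {Z : Set (Fin n → ℂ)} (hsub : IsSubvariety Z) (h1 : dim Z = 1)
    (hc : ∀ (i : Fin n) (c : ℂ), ∃ z ∈ Z, z i ≠ c) (hZ : GenPos 1 Z) :
    ∃ (M : ℕ) (C : ℝ), 0 < M ∧ ∀ p : ℕ, p.Prime → ¬ p ∣ M →
      ∃ (G : Finset (Fin n → ZMod p)) (B : ℕ),
        (p : ℝ) ^ n - C * (p : ℝ) ^ ((n : ℝ) - 1 / 6) ≤ G.card ∧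
        ∀ (l : ℤ) (a : Fin n → ℤ), l ≠ 0 → (p : ℤ) ∣ l → (fun i => (a i : ZMod p)) ∈ G →
          IsSubvariety (homImage (l : ℂ) (fun i => (a i : ℂ)) Z) ∧
          dim (homImage (l : ℂ) (fun i => (a i : ℂ)) Z) = 1 ∧
          ({A | IsAtypical (homImage (l : ℂ) (fun i => (a i : ℂ)) Z) A ∧
              ∀ B, IsAtypical (homImage (l : ℂ) (fun i => (a i : ℂ)) Z) B → A ⊆ B → B = A}.Finite ∧
            ∀ A, IsAtypical (homImage (l : ℂ) (fun i => (a i : ℂ)) Z) A →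
              ∃ B, (IsAtypical (homImage (l : ℂ) (fun i => (a i : ℂ)) Z) B ∧
                ∀ B', IsAtypical (homImage (l : ℂ) (fun i => (a i : ℂ)) Z) B' → B ⊆ B' → B' = B) ∧ A ⊆ B) ∧
          (¬ ∃ S : SpecialData n, dim S.carrier < n ∧ homImage (l : ℂ) (fun i => (a i : ℂ)) Z ⊆ S.carrier) ∧
          {x ∈ homImage (l : ℂ) (fun i => (a i : ℂ)) Z |
            ∃ S : SpecialData n, dim S.carrier + 2 ≤ n ∧ x ∈ S.carrier}.Finite ∧
          {x ∈ homImage (l : ℂ) (fun i => (a i : ℂ)) Z |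
            ∃ S : SpecialData n, dim S.carrier + 2 ≤ n ∧ x ∈ S.carrier}.ncard ≤ B := by
  obtain ⟨M, C, hM, h⟩ := members hZ
  obtain ⟨B₀, hB₀⟩ := fiber_count79 hsub h1 hc
  refine ⟨M, C, hM, fun p hp hpM => ?_⟩
  obtain ⟨G, E, h2, h3, h4⟩ := h p hp hpM
  refine ⟨G, n * (E.card * B₀), h2, fun l a hl0 hl ha => ?_⟩
  have hl0' : (l : ℂ) ≠ 0 := by exact_mod_cast hl0
  obtain ⟨Δ, D, hS, hE, hW⟩ := h4 l a hl ha
  have hV : IsSubvariety (homImage (l : ℂ) (fun i => (a i : ℂ)) Z) := by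
    rw [homImage_eq_affine hl0']
    exact Pool.Agent.Helper36.DL.isSubvariety_affine (fun _ => hl0') _ hsub
  have hV1 : dim (homImage (l : ℂ) (fun i => (a i : ℂ)) Z) = 1 := by
    rw [homImage_eq_affine hl0', Pool.Agent.Helper36.DL.dim_affine (fun _ => hl0'), h1]
  obtain ⟨k1, k2, k3⟩ := hS.curve hE hW hV hV1 (nonConst_homImage hl0' _ hc)
  obtain ⟨k4, k5⟩ := count_homImage hl0' (fun i => (a i : ℂ)) hB₀ E
  exact ⟨hV, hV1, k1, k2, k4.subset k3, (Set.ncard_le_ncard k3 k4).trans k5⟩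

end Pool.Agent.II
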