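import Pool.Agent.II.Absv11

/-! # Rays of isogenous points near two given points -/

open Finset Pool.Agent.Helper11.ZP

namespace Pool.Agent.II
open Pool.Agent.Helper20.ZD Pool.Agent.Helper20.DL Pool.Agent.Helper69.DL Pool.Agent.Helper36.DL
  Pool.Agent.Helper22.AA Pool.Agent.Helper22.DL

variable {v : AbsoluteValue ℂ ℝ}

/-- algebraic integers are integral -/
lemma v_integral_le (hv : IsNonarchimedean v) {x : ℂ} (hx : IsIntegral ℤ x) : v x ≤ 1 := by
  obtain ⟨P, hP, h⟩ := hx
  rw [Polynomial.eval₂_eq_sum_range] at h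
  refine root_le hv (d := P.natDegree) (c := fun j => ((P.coeff j : ℤ) : ℂ))
    (fun j => hv.apply_intCast_le_one) ?_ h
  rw [Polynomial.coeff_natDegree, hP.leadingCoeff, Int.cast_one, map_one]

lemma v_OO_le (hv : IsNonarchimedean v) (c : OO) : v (c : ℂ) ≤ 1 := v_integral_le hv c.2

lemma evO_C (x : ℂ) (a : OO) : evO x (Polynomial.C a) = (a : ℂ) := by
  rw [evO, Polynomial.coe_eval₂RingHom, Polynomial.eval₂_C]
  rfl

lemma evO_X (x : ℂ) : evO x Polynomial.X = x := by
  rw [evO, Polynomial.coe_eval₂RingHom, Polynomial.eval₂_X]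

/-- polynomials in one variable are Lipschitz -/
lemma evO_lip (hv : IsNonarchimedean v) {x x' : ℂ} (hx : v x ≤ 1) (hx' : v x' ≤ 1) (P : Polynomial OO) :
    v (evO x P) ≤ 1 ∧ v (evO x' P) ≤ 1 ∧ v (evO x P - evO x' P) ≤ v (x - x') := by
  induction P using Polynomial.induction_on' with
  | add P Q hP hQ =>
    refine ⟨?_, ?_, ?_⟩
    · rw [map_add]; exact (hv _ _).trans (max_le hP.1 hQ.1)
    · rw [map_add]; exact (hv _ _).trans (max_le hP.2.1 hQ.2.1)
    · rw [map_add, map_add, show evO x P + evO x Q - (evO x' P + evO x' Q) =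
        (evO x P - evO x' P) + (evO x Q - evO x' Q) by ring]
      exact (hv _ _).trans (max_le hP.2.2 hQ.2.2)
  | monomial n a =>
    have e1 : ∀ y : ℂ, evO y (Polynomial.monomial n a) = (a : ℂ) * y ^ n := fun y => by
      rw [← Polynomial.C_mul_X_pow_eq_monomial, map_mul, map_pow, evO_C, evO_X]
    have ha := v_OO_le hv a
    have hpow : ∀ y : ℂ, v y ≤ 1 → v (y ^ n) ≤ 1 := fun y hy => by
      rw [map_pow]; exact pow_le_one₀ (v.nonneg _) hy
    refine ⟨?_, ?_, ?_⟩
    · rw [e1, map_mul]; exact mul_le_one₀ ha (v.nonneg _) (hpow _ hx)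
    · rw [e1, map_mul]; exact mul_le_one₀ ha (v.nonneg _) (hpow _ hx')
    · rw [e1, e1, ← mul_sub, map_mul]
      refine (mul_le_of_le_one_left (v.nonneg _) ha).trans ?_
      clear e1 hpow
      induction n with
      | zero => rw [pow_zero, pow_zero, sub_self, map_zero]; exact v.nonneg _
      | succ n ih =>
        rw [pow_succ, pow_succ, show x ^ n * x - x' ^ n * x' = (x ^ n - x' ^ n) * x + x' ^ n * (x - x') by ring]
        refine (hv _ _).trans (max_le ?_ ?_)
        · rw [map_mul]; exact (mul_le_of_le_one_right (v.nonneg _) hx).trans ih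
        · rw [map_mul, map_pow]
          exact mul_le_of_le_one_left (v.nonneg _) (pow_le_one₀ (v.nonneg _) hx')

/-- polynomials in two variables are Lipschitz -/
lemma eval_lip (hv : IsNonarchimedean v) {x x' y y' : ℂ} (hx : v x ≤ 1) (hx' : v x' ≤ 1) (hy : v y ≤ 1)
    (hy' : v y' ≤ 1) (G : Polynomial (Polynomial OO)) :
    v (G.eval₂ (evO x) y - G.eval₂ (evO x') y') ≤ max (v (x - x')) (v (y - y')) := by
  induction G using Polynomial.induction_on' with
  | add P Q hP hQ =>
    rw [Polynomial.eval₂_add, Polynomial.eval₂_add, show P.eval₂ (evO x) y + Q.eval₂ (evO x) y -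
      (P.eval₂ (evO x') y' + Q.eval₂ (evO x') y') = (P.eval₂ (evO x) y - P.eval₂ (evO x') y') +
        (Q.eval₂ (evO x) y - Q.eval₂ (evO x') y') by ring]
    exact (hv _ _).trans (max_le hP hQ)
  | monomial n a =>
    rw [Polynomial.eval₂_monomial, Polynomial.eval₂_monomial]
    obtain ⟨h1, h2, h3⟩ := evO_lip hv hx hx' a
    have hpow : v (y ^ n - y' ^ n) ≤ v (y - y') := by
      induction n with
      | zero => rw [pow_zero, pow_zero, sub_self, map_zero]; exact v.nonneg _
      | succ n ih =>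
        rw [pow_succ, pow_succ, show y ^ n * y - y' ^ n * y' = (y ^ n - y' ^ n) * y + y' ^ n * (y - y') by ring]
        refine (hv _ _).trans (max_le ?_ ?_)
        · rw [map_mul]; exact (mul_le_of_le_one_right (v.nonneg _) hy).trans ih
        · rw [map_mul, map_pow]
          exact mul_le_of_le_one_left (v.nonneg _) (pow_le_one₀ (v.nonneg _) hy')
    rw [show evO x a * y ^ n - evO x' a * y' ^ n = (evO x a - evO x' a) * y ^ n + evO x' a * (y ^ n - y' ^ n) by ring]
    refine (hv _ _).trans (max_le_max ?_ ?_)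
    · rw [map_mul, map_pow]
      exact (mul_le_of_le_one_right (v.nonneg _) (pow_le_one₀ (v.nonneg _) hy)).trans h3
    · rw [map_mul]
      exact (mul_le_of_le_one_left (v.nonneg _) h2).trans hpow

/-- a point at which a monic polynomial is small is near to a root -/
lemma near_root (G : Polynomial (Polynomial OO)) (hG : G.Monic) (x0 : ℂ) {ε : ℝ} (hε : 0 < ε) {y : ℂ}
    (h : v (G.eval₂ (evO x0) y) < ε ^ (G.map (evO x0)).natDegree) :
    ∃ r ∈ (G.map (evO x0)).roots, v (y - r) < ε := by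
  by_contra hcon
  push Not at hcon
  have hm : (G.map (evO x0)).Monic := hG.map _
  have hs := IsAlgClosed.splits (G.map (evO x0))
  have hcard : (G.map (evO x0)).roots.card = (G.map (evO x0)).natDegree :=
    (Polynomial.splits_iff_card_roots.1 hs)
  have h1 : G.eval₂ (evO x0) y = ((G.map (evO x0)).roots.map fun r => y - r).prod := by
    rw [← Polynomial.eval_map]
    conv_lhs => rw [hs.eq_prod_roots_of_monic hm]
    rw [Polynomial.eval_multiset_prod, Multiset.map_map]
    congr 1
    refine Multiset.map_congr rfl fun r _ => ?_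
    simp
  rw [h1, map_multiset_prod, Multiset.map_map, ← hcard] at h
  refine absurd h (not_lt.2 ?_)
  have h2 : ((G.map (evO x0)).roots.map fun _ => ε).prod = ε ^ (G.map (evO x0)).roots.card := by
    rw [Multiset.map_const', Multiset.prod_replicate]
  rw [← h2]
  refine Multiset.prod_map_le_prod_map₀ _ _ (fun r _ => hε.le) fun r hr => ?_
  exact hcon r hr

/-- a contracting sequence tends to zero -/
lemma contr {δ : ℕ → ℝ} {μ : ℝ} (hμ : μ < 1) (h0 : ∀ k, 0 ≤ δ k) (h1 : δ 0 < 1)
    (h : ∀ k, δ (k + 1) ≤ δ k * max μ (δ k)) {ε : ℝ} (hε : 0 < ε) : ∃ K, ∀ k, K ≤ k → δ k < ε := by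
  set c := max μ (δ 0) with hc
  have hc1 : c < 1 := max_lt hμ h1
  have hc0 : 0 ≤ c := le_max_of_le_right (h0 0)
  have h2 : ∀ k, δ k ≤ δ 0 * c ^ k ∧ δ k ≤ δ 0 := by
    intro k
    induction k with
    | zero => rw [pow_zero, mul_one]; exact ⟨le_rfl, le_rfl⟩
    | succ k ih =>
      have h3 : δ (k + 1) ≤ δ k * c := (h k).trans (mul_le_mul_of_nonneg_left
        (max_le_max le_rfl ih.2) (h0 k))
      refine ⟨h3.trans ?_, h3.trans ((mul_le_of_le_one_right (h0 k) hc1.le).trans ih.2)⟩
      rw [pow_succ, ← mul_assoc]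
      exact mul_le_mul_of_nonneg_right ih.1 hc0
  obtain ⟨K, hK⟩ := exists_pow_lt_of_lt_one hε hc1
  refine ⟨K, fun k hk => (h2 k).1.trans_lt ?_⟩
  calc δ 0 * c ^ k ≤ 1 * c ^ k := mul_le_mul_of_nonneg_right h1.le (pow_nonneg hc0 _)
    _ ≤ c ^ K := by rw [one_mul]; exact pow_le_pow_of_le_one hc0 hc1.le hk
    _ < ε := hK

/-- **the analytic core of the pair lemma** -/
theorem ray_core (hv : IsNonarchimedean v) {G : Polynomial (Polynomial OO)} (hG : G.Monic) {x y : ℕ → ℂ}
    {x0 y0 : ℂ} (hx0 : v x0 ≤ 1) (hx1 : ∀ k, v (x k) ≤ 1) (hy0 : v y0 ≤ 1) (hy1 : ∀ k, v (y k) ≤ 1)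
    (hx : ∀ ε : ℝ, 0 < ε → ∃ K, ∀ k, K ≤ k → v (x k - x0) < ε)
    (hrel : ∀ k, G.eval₂ (evO (x k)) (y k) = 0) {μ : ℝ} (hμ : μ < 1) (hy2 : v (y 0 - y0) < 1)
    (hstep : ∀ k, v (y (k + 1) - y0) ≤ v (y k - y0) * max μ (v (y k - y0)) ∨
      v (y k - y0) < v (y (k + 1) - y0))
    (hup : ∀ k, v (y k - y0) < v (y (k + 1) - y0) → v (y (k + 1) - y0) < v (y (k + 2) - y0)) :
    G.eval₂ (evO x0) y0 = 0 := by
  classical
  by_cases hall : ∀ k, v (y (k + 1) - y0) ≤ v (y k - y0) * max μ (v (y k - y0))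
  · -- the second ray tends to `y0`
    by_contra hne
    have hpos : 0 < v (G.eval₂ (evO x0) y0) := (AbsoluteValue.pos_iff v).2 hne
    obtain ⟨K1, hK1⟩ := hx _ hpos
    obtain ⟨K2, hK2⟩ := contr (δ := fun k => v (y k - y0)) hμ (fun k => v.nonneg _) hy2 hall hpos
    set k := max K1 K2 with hk
    have h1 := eval_lip hv hx0 (hx1 k) hy0 (hy1 k) G
    rw [hrel, sub_zero] at h1
    have h2 : v (x0 - x k) < v (G.eval₂ (evO x0) y0) := by
      rw [v.map_sub]; exact hK1 k (le_max_left _ _)
    have h3 : v (y0 - y k) < v (G.eval₂ (evO x0) y0) := by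
      rw [v.map_sub]; exact hK2 k (le_max_right _ _)
    exact absurd h1 (not_le.2 (max_lt h2 h3))
  · exfalso
    push Not at hall
    obtain ⟨k0, hk0⟩ := hall
    have hup0 : v (y k0 - y0) < v (y (k0 + 1) - y0) := (hstep k0).resolve_left (not_le.2 hk0)
    have hinc : ∀ i, v (y (k0 + i) - y0) < v (y (k0 + i + 1) - y0) := by
      intro i
      induction i with
      | zero => exact hup0
      | succ i ih => exact hup (k0 + i) ih
    have hmono : StrictMono fun i => v (y (k0 + i) - y0) := strictMono_nat_of_lt_succ hinc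
    -- the roots
    set R := (G.map (evO x0)).roots.toFinset with hR
    set D := (G.map (evO x0)).natDegree with hD
    obtain ⟨ε, hε, hε1, hε2⟩ : ∃ ε : ℝ, 0 < ε ∧ ε ≤ v (y (k0 + 1) - y0) ∧
        ∀ r ∈ R, r ≠ y0 → ε ≤ v (r - y0) := by
      have hpos1 : 0 < v (y (k0 + 1) - y0) := lt_of_le_of_lt (v.nonneg _) hup0
      refine ⟨(insert (v (y (k0 + 1) - y0)) ((R.erase y0).image fun r => v (r - y0))).min'
        (insert_nonempty _ _), ?_, min'_le _ _ (mem_insert_self _ _), fun r hr hrne => min'_le _ _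
          (mem_insert_of_mem (mem_image.2 ⟨r, mem_erase.2 ⟨hrne, hr⟩, rfl⟩))⟩
      rw [lt_min'_iff]
      intro t ht
      rw [mem_insert, mem_image] at ht
      rcases ht with rfl | ⟨r, hr, rfl⟩
      · exact hpos1
      · rw [mem_erase] at hr
        exact (AbsoluteValue.pos_iff v).2 (sub_ne_zero.2 hr.1)
    obtain ⟨K, hK⟩ := hx (ε ^ D) (pow_pos hε D)
    -- every late member has the value of a root
    have hmem : ∀ i, K ≤ k0 + i → 1 ≤ i → v (y (k0 + i) - y0) ∈ R.image fun r => v (r - y0) := by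
      intro i hi hi1
      have h1 := eval_lip hv hx0 (hx1 (k0 + i)) (hy1 (k0 + i)) (hy1 (k0 + i)) G
      rw [hrel, sub_zero, sub_self, map_zero, v.map_sub] at h1
      have h2 : v (G.eval₂ (evO x0) (y (k0 + i))) < ε ^ D :=
        h1.trans_lt (max_lt (hK _ hi) (pow_pos hε D))
      obtain ⟨r, hr, hrlt⟩ := near_root G hG x0 hε h2
      have hrR : r ∈ R := Multiset.mem_toFinset.2 hr
      have h3 : ε ≤ v (y (k0 + i) - y0) := hε1.trans (hmono.monotone hi1)
      have h4 : v (y (k0 + i) - y0) = v (r - y0) := by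
        have e1 : r - y0 = (y (k0 + i) - y0) + (r - y (k0 + i)) := by ring
        have h5 : v (r - y (k0 + i)) < v (y (k0 + i) - y0) := by
          rw [v.map_sub]
          exact hrlt.trans_le h3
        rw [e1, v_add_eq hv h5]
      rw [h4]
      exact mem_image_of_mem _ hrR
    -- infinitely many values in a finite set
    have hinj : Function.Injective fun i : ℕ => v (y (k0 + (K + 1 + i)) - y0) := by
      intro i j hij
      have := hmono.injective hij
      omega
    have hfin : (Set.range fun i : ℕ => v (y (k0 + (K + 1 + i)) - y0)).Finite := by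
      refine (R.image fun r => v (r - y0)).finite_toSet.subset ?_
      rintro _ ⟨i, rfl⟩
      exact hmem _ (by omega) (by omega)
    exact Set.infinite_range_of_injective hinj hfin

end Pool.Agent.II
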