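import Pool.Agent.II.Defs
import Pool.Agent.R3h27.Ray

set_option autoImplicit false

/-! # Integral images, row 3: matrices -/

open UpperHalfPlane Pool.Agent.Helper11.ZP Pool.Agent.Helper20.ZT.Prim

namespace Pool.Agent.II

variable {p : ℕ}

/-- factor out `p` -/
theorem exists_factor (hp : p.Prime) {A : Mat} (hA : 0 < A.det) (h : (p : ℤ) ∣ A.det) :
    ∃ P A' : Mat, P.det = p ∧ A = P * A' := by
  obtain ⟨P, C, h1, h2, -⟩ := R3h27.factor_left hp h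
  exact ⟨P, C, h1, h2⟩

/-- the square -/
theorem exists_square (hp : p.Prime) {A P : Mat} (hA : ¬ (p : ℤ) ∣ A.det) (hP : P.det = p) :
    ∃ P' A' : Mat, P'.det = p ∧ A'.det = A.det ∧ P' * A = A' * P :=
  R3h27.exists_comm hp A hP

theorem prm_square (hp : p.Prime) {A P P' A' : Mat} (hA : ¬ (p : ℤ) ∣ A.det) (hPA : Prm A)
    (hP : P.det = p) (hP' : P'.det = p) (hA' : A'.det = A.det) (h : P' * A = A' * P) : Prm A' :=
  R3h27.Pri.comm hp hA hPA hA' hP' h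

/-- two matrices of determinant `p` whose product is divisible by `p` are adjoint up to `SL₂(ℤ)` -/
theorem backtrack_iff (hp : p.Prime) {P Q : Mat} (hP : P.det = p) (hQ : Q.det = p) :
    (∀ i j, (p : ℤ) ∣ (Q * P) i j) ↔ ∃ G : Mat, G.det = 1 ∧ Q = G * P.adjugate :=
  R3h27.dv_mul_iff hp hP hQ

/-- non-backtracking transfers -/
theorem nonback (hp : p.Prime) {A A₁ A₂ P₁ P₂ Q₁ Q₂ : Mat} (hA₂ : ¬ (p : ℤ) ∣ A₂.det)
    (h1 : Q₁ * A = A₁ * P₁) (h2 : Q₂ * A₁ = A₂ * P₂)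
    (h : ∀ i j, (p : ℤ) ∣ (Q₂ * Q₁) i j) : ∀ i j, (p : ℤ) ∣ (P₂ * P₁) i j := by
  have h3 : (Q₂ * Q₁) * A = A₂ * (P₂ * P₁) := by
    rw [Matrix.mul_assoc, h1, ← Matrix.mul_assoc, h2, Matrix.mul_assoc]
  have h4 : R3h27.Dv p (A₂ * (P₂ * P₁)) := h3 ▸ R3h27.Dv.mul_right h A
  exact R3h27.Dv.of_mul_left hp hA₂ h4

end Pool.Agent.II
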