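import Pool.Agent.II.Row3
import Pool.Agent.II.Row6

/-! # Integral images: the rays exist -/

open UpperHalfPlane Finset Pool.Agent.Helper11.ZP Pool.Agent.Helper20.ZT.Prim

namespace Pool.Agent.II

variable {v : AbsoluteValue ℂ ℝ} {p : ℕ}

/-- the states of the recursion -/
structure ExSt (v : AbsoluteValue ℂ ℝ) (p : ℕ) (x₀ : ℂ) (N : ℤ) (σ : ℍ) where
  τ : ℍ
  τ' : ℍ
  A : Mat
  dA : A.det = N
  pA : Prm A
  mA : Mov A τ τ'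
  reach : ∃ (k : ℕ) (B : Mat), B.det = (p : ℤ) ^ k ∧ Mov B σ τ
  lt : v (jInv τ - x₀) < 1

/-- one step of the recursion -/
theorem exSt_step (hp : p.Prime) {x₀ : ℂ} {μ : ℝ} (hx : Canon v p x₀ μ)
    {N : ℤ} (hN : 0 < N) (hpN : ¬ (p : ℤ) ∣ N) {σ : ℍ}
    (hne : ∀ (k : ℕ) (B : Mat) (ρ : ℍ), B.det = (p : ℤ) ^ k → Mov B σ ρ → jInv ρ ≠ x₀)
    (s : ExSt v p x₀ N σ) :
    ∃ (t : ExSt v p x₀ N σ) (P P' : Mat), P.det = p ∧ P'.det = p ∧ Mov P s.τ t.τ ∧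
      Mov P' s.τ' t.τ' ∧ P' * s.A = t.A * P ∧ v (jInv t.τ - x₀) < v (jInv s.τ - x₀) := by
  have hp0 : (0 : ℤ) < (p : ℤ) := by exact_mod_cast hp.pos
  obtain ⟨k, B, hB, hBm⟩ := s.reach
  obtain ⟨P, τ₁, hP, hPm, hlt⟩ := hx.ex s.τ (hne k B s.τ hB hBm) s.lt
  have hpA : ¬ (p : ℤ) ∣ s.A.det := by rw [s.dA]; exact hpN
  obtain ⟨P', A', hP', hA', hsq⟩ := exists_square hp hpA hP
  have hprm : Prm A' := prm_square hp hpA s.pA hP hP' hA' hsq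
  obtain ⟨τ₁', hP'm⟩ := mov_exists (A := P') (by rw [hP']; exact hp0) s.τ'
  obtain ⟨τ₂, hA'm⟩ := mov_exists (A := A') (by rw [hA', s.dA]; exact hN) τ₁
  have h1 : Mov (P' * s.A) s.τ τ₁' := mov_mul s.mA hP'm
  have h2 : Mov (P' * s.A) s.τ τ₂ := by rw [hsq]; exact mov_mul hPm hA'm
  have hdet : (P' * s.A).det ≠ 0 := by
    rw [Matrix.det_mul, hP', s.dA]; exact (mul_pos hp0 hN).ne'
  have h3 : τ₁' = τ₂ := mov_unique hdet h1 h2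
  refine ⟨⟨τ₁, τ₁', A', by rw [hA', s.dA], hprm, by rw [h3]; exact hA'm,
    ⟨k + 1, P * B, ?_, mov_mul hBm hPm⟩, hlt.trans s.lt⟩, P, P', hP, hP', hPm, hP'm, hsq, hlt⟩
  rw [Matrix.det_mul, hP, hB, pow_succ]; ring

/-- the rays exist -/
theorem exists_rays (hv : IsNonarchimedean v) (hp : p.Prime) {x₀ : ℂ} {μ : ℝ} (hx : Canon v p x₀ μ)
    {N : ℤ} (hN : 0 < N) (hpN : ¬ (p : ℤ) ∣ N) {A₀ : Mat} (hA : A₀.det = N) (hpA : Prm A₀) {σ σ' : ℍ}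
    (hM : Mov A₀ σ σ') (hlt : v (jInv σ - x₀) < 1)
    (hne : ∀ (k : ℕ) (B : Mat) (ρ : ℍ), B.det = (p : ℤ) ^ k → Mov B σ ρ → jInv ρ ≠ x₀) :
    ∃ (τ τ' : ℕ → ℍ) (P P' A : ℕ → Mat),
      Rays v p x₀ N τ τ' P P' A ∧ τ 0 = σ ∧ τ' 0 = σ' ∧ A 0 = A₀ := by
  choose nx P P' hP hP' hm hm' hsq hdec using exSt_step (v := v) hp hx hN hpN hne
  have hone : Mov (1 : Mat) σ σ := by simp [Mov]
  let s₀ : ExSt v p x₀ N σ := ⟨σ, σ', A₀, hA, hpA, hM, ⟨0, 1, by simp, hone⟩, hlt⟩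
  let S : ℕ → ExSt v p x₀ N σ := fun n => Nat.rec s₀ (fun _ s => nx s) n
  have hS : ∀ k, S (k + 1) = nx (S k) := fun _ => rfl
  refine ⟨fun k => (S k).τ, fun k => (S k).τ', fun k => P (S k), fun k => P' (S k),
    fun k => (S k).A, ?_, rfl, rfl, rfl⟩
  refine ⟨fun k => hP _, fun k => hP' _, fun k => hm _, fun k => hm' _, fun k => (S k).dA,
    fun k => (S k).pA, fun k => (S k).mA, fun k => hsq _, fun k => ?_, hlt, fun k => hdec _⟩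
  obtain ⟨j, B, hB, hBm⟩ := (S k).reach
  exact hne j B _ hB hBm

end Pool.Agent.II
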