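import Pool.Agent.II.Nbr9

/-! # Integral images, row RAY: a ray over a canonical ray is canonical -/

open UpperHalfPlane Finset Pool.Agent.Helper11.ZP Pool.Agent.Helper20.ZT.Prim

namespace Pool.Agent.II

variable {v : AbsoluteValue ℂ ℝ} {p : ℕ}

theorem ray (hv : IsNonarchimedean v) (hp : p.Prime) (hvp : v (p : ℂ) < 1)
    {a b : ℤ} {x₀ y₀ : ℂ} {μ μ' : ℝ} (hx : Canon v p x₀ μ) (hy : Canon v p y₀ μ')
    (hxa : v (x₀ - a) < 1) (hyb : v (y₀ - b) < 1) {N : ℤ} (hN : 0 < N) (hpN : ¬ (p : ℤ) ∣ N)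
    {τ τ' : ℕ → ℍ} {P P' A : ℕ → Mat} (hR : Rays v p x₀ N τ τ' P P' A)
    (h0 : v (jInv (τ' 0) - y₀) < 1) (m : ℕ) (hm : jInv (τ' m) ≠ y₀) :
    v (jInv (τ' (m + 1)) - y₀) < v (jInv (τ' m) - y₀) :=
  II9.ray_core9 hv hp
    (II9.loc_of_canon hv hxa hx fun _ _ _ hP mP h => II9.nbr9 hv hp hvp hP mP h)
    (II9.loc_of_canon hv hyb hy fun _ _ _ hP mP h => II9.nbr9 hv hp hvp hP mP h)
    hN hpN hR h0 m hm

end Pool.Agent.II
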