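import Pool.Agent.II.Row2b
import Pool.Agent.II.Row3
import Pool.Agent.II.Row6
import Pool.Agent.II.RowRay
import Pool.Agent.II.RowEx
import Pool.Agent.II.Ray11

/-! # Integral images, row 4: isogenous coordinates have equal Frobenius fields -/

open UpperHalfPlane Pool.Agent.Helper11.ZP Pool.Agent.Helper20.ZT.Prim

namespace Pool.Agent.II

variable {v : AbsoluteValue ℂ ℝ} {p : ℕ}

lemma near_sub (hv : IsNonarchimedean v) {x y z : ℂ} (h1 : v (x - z) < 1) (h2 : v (y - z) < 1) :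
    v (x - y) < 1 := by
  have e : x - y = (x - z) + -(y - z) := by ring
  rw [e]
  refine (hv _ _).trans_lt (max_lt h1 ?_)
  rwa [v.map_neg]

lemma le_one_int (hv : IsNonarchimedean v) (a : ℤ) : v (a : ℂ) ≤ 1 :=
  v_integral_le hv (isIntegral_algebraMap (R := ℤ) (A := ℂ) (x := a))

lemma le_one_of_near (hv : IsNonarchimedean v) {x : ℂ} {a : ℤ} (h : v (x - a) < 1) : v x ≤ 1 := by
  have e : x = (x - a) + a := by ring
  rw [e]
  exact (hv _ _).trans (max_le h.le (le_one_int hv a))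

/-- neighbours of a point near an integer are near this integer -/
lemma nbr4 (hv : IsNonarchimedean v) (hp : p.Prime) (hvp : v (p : ℂ) < 1) {P : Mat} (hP : P.det = p)
    {τ τ' : ℍ} (h : Mov P τ τ') {b : ℤ} (h1 : v (jInv τ - b) < 1) : v (jInv τ' - b) < 1 := by
  have : Fact p.Prime := ⟨hp⟩
  exact FF_near hv hvp (le_one_int hv b) (v_frob_int hv hp hvp b) h1 (eval_of_mov hP h)

/-- zeros of the modular polynomials -/
lemma zero4 (N : ℤ) [Fact (0 < N)] (τ τ' : ℍ) :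
    Phi N (jInv τ) (jInv τ') = 0 ↔ ∃ A : Mat, A.det = N ∧ Prm A ∧ Mov A τ τ' :=
  ⟨fun h => II51.exists_mov_of_root N h, fun ⟨_, h1, h2, h3⟩ => II51.root_of_mov N h1 h2 h3⟩

/-- strip the `p`-part of the determinant -/
lemma strip (hv : IsNonarchimedean v) (hp : p.Prime) (hvp : v (p : ℂ) < 1) {b : ℤ} {σ : ℍ} :
    ∀ (n : ℕ) (A : Mat) (σ' : ℍ), A.det.toNat ≤ n → 0 < A.det → Prm A → Mov A σ σ' →
      v (jInv σ' - b) < 1 → ∃ (A' : Mat) (σ'' : ℍ), 0 < A'.det ∧ ¬ (p : ℤ) ∣ A'.det ∧ Prm A' ∧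
        Mov A' σ σ'' ∧ v (jInv σ'' - b) < 1 := by
  intro n
  induction n with
  | zero =>
    intro A σ' hn hA _ _ _
    omega
  | succ n ih =>
    intro A σ' hn hA hpA hM hb
    by_cases hd : (p : ℤ) ∣ A.det
    · obtain ⟨P, A', hP, rfl⟩ := exists_factor hp hA hd
      have hp0 : (2 : ℤ) ≤ p := by exact_mod_cast hp.two_le
      have hdet : (P * A').det = p * A'.det := by rw [Matrix.det_mul, hP]
      have hA' : 0 < A'.det := by
        rw [hdet] at hA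
        exact pos_of_mul_pos_right hA (by positivity)
      obtain ⟨σ'', hM'⟩ := mov_exists hA' σ
      obtain ⟨ρ, hρ⟩ := mov_exists (A := P) (by rw [hP]; exact_mod_cast hp.pos) σ''
      have h1 : ρ = σ' := mov_unique hA.ne' (mov_mul hM' hρ) hM
      subst h1
      have hP0 : P.det ≠ 0 := by rw [hP]; exact_mod_cast hp.ne_zero
      refine ih A' σ'' ?_ hA' ?_ hM' ?_
      · have : A'.det < (P * A').det := by rw [hdet]; nlinarith
        omega
      · intro k hk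
        refine hpA k fun i j => ?_
        rw [Matrix.mul_apply]
        exact Finset.dvd_sum fun l _ => Dvd.dvd.mul_left (hk l j) _
      · refine nbr4 hv hp hvp (P := P.adjugate) ?_ (mov_adj hP0 hρ) hb
        rw [Matrix.det_adjugate, hP]
        simp
    · exact ⟨A, σ', hA, hd, hpA, hM, hb⟩

/-- a point isogenous to a fixed point is special -/
lemma special_of_isog {A M : Mat} {σ τ : ℍ} (hA : A 1 0 ≠ 0) (h : Mov A τ τ) (hM : Mov M σ τ)
    (hd : M.det ≠ 0) : IsSpecialPoint (jInv σ) := by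
  rw [special_iff]
  have h1 : Mov (M.adjugate * A * M) σ σ := by
    have h2 := mov_mul (mov_mul hM h) (mov_adj hd hM)
    rwa [← mul_assoc] at h2
  refine ⟨M.adjugate * A * M, fun h0 => ?_, h1⟩
  have h2 := II51.scalar_of_fix (A := M.adjugate * A * M) h1 h0
  have h3 : II51.disc (M.adjugate * A * M) = 0 := by
    rw [II51.disc_eq, h2.1, h2.2]
    ring
  rw [II51.disc_conj] at h3
  have h4 : II51.disc A < 0 := II51.disc_neg (A := A) h hA
  rcases mul_eq_zero.1 h3 with h5 | h5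
  · exact hd (pow_eq_zero_iff (two_ne_zero)|>.1 h5)
  · omega

/-- the centre has complex multiplication -/
lemma Center.fix {a t : ℤ} {x₀ : ℂ} (hp : p.Prime) (h : Center v p a t x₀) :
    ∃ (A₀ : Mat) (τ₀ : ℍ), A₀ 1 0 ≠ 0 ∧ dsc A₀ = t ^ 2 - 4 * p ∧ Mov A₀ τ₀ τ₀ ∧ jInv τ₀ = x₀ := by
  obtain ⟨A₀, τ₀, h1, h2, h3, h4⟩ := h.ex
  refine ⟨A₀, τ₀, II51.nonscalar_of_det_prime hp h1 h3, ?_, h3, h4⟩
  rw [dsc, h1, h2]

theorem pair_lemma (hv : IsNonarchimedean v) (hp : p.Prime) (h5 : 5 ≤ p) (hvp : v (p : ℂ) < 1)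
    {a b t s : ℤ} {x₀ y₀ : ℂ} (hx : Center v p a t x₀) (hy : Center v p b s y₀) (ht : t ≠ 0)
    (hs : s ≠ 0) {A : Mat} (hA : 0 < A.det) (hpA : Prm A) {σ σ' : ℍ} (hM : Mov A σ σ')
    (h1 : v (jInv σ - a) < 1) (h2 : v (jInv σ' - b) < 1) (hncm : ¬ IsSpecialPoint (jInv σ)) :
    IsSquare ((t ^ 2 - 4 * p) * (s ^ 2 - 4 * p)) := by
  obtain ⟨A', σ'', hA', hpA', hprm, hM', h2'⟩ := strip hv hp hvp _ A σ' le_rfl hA hpA hM h2
  obtain ⟨μ, hμ⟩ := canon hv hp h5 hvp hx ht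
  obtain ⟨μ', hμ'⟩ := canon hv hp h5 hvp hy hs
  obtain ⟨X, τx, hX1, hX2, hX3, hX4⟩ := hx.fix hp
  obtain ⟨Y, τy, hY1, hY2, hY3, hY4⟩ := hy.fix hp
  -- the points of the isogeny class are not the centres
  have hnx : ∀ (M : Mat) (ρ : ℍ), M.det ≠ 0 → Mov M σ ρ → jInv ρ ≠ x₀ := by
    intro M ρ hM0 hMρ hρ
    obtain ⟨G, hG, hGm⟩ := jInv_inj (hρ.trans hX4.symm)
    exact hncm (special_of_isog hX1 hX3 (mov_mul hMρ hGm) (by rw [Matrix.det_mul, hG, one_mul]; exact hM0))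
  have hny : ∀ (M : Mat) (ρ : ℍ), M.det ≠ 0 → Mov M σ ρ → jInv ρ ≠ y₀ := by
    intro M ρ hM0 hMρ hρ
    obtain ⟨G, hG, hGm⟩ := jInv_inj (hρ.trans hY4.symm)
    exact hncm (special_of_isog hY1 hY3 (mov_mul hMρ hGm) (by rw [Matrix.det_mul, hG, one_mul]; exact hM0))
  have hp0 : (p : ℤ) ≠ 0 := by exact_mod_cast hp.ne_zero
  obtain ⟨τ, τ', P, P', B, hR, hτ0, hτ0', hB0⟩ := exists_rays hv hp hμ hA' hpA' rfl hprm hM'
    (near_sub hv h1 hx.near) (fun k C ρ hC hCρ => hnx C ρ (by rw [hC]; exact pow_ne_zero _ hp0) hCρ)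
  have hmov : ∀ k, ∃ M : Mat, M.det ≠ 0 ∧ Mov M σ (τ k) := by
    intro k
    induction k with
    | zero => exact ⟨1, by simp, by rw [hτ0]; simp [Mov]⟩
    | succ k ih =>
      obtain ⟨M, hM0, hMk⟩ := ih
      exact ⟨P k * M, by rw [Matrix.det_mul, hR.dP k]; exact mul_ne_zero hp0 hM0, mov_mul hMk (hR.mP k)⟩
  have hy0 : ∀ k, jInv (τ' k) ≠ y₀ := by
    intro k
    obtain ⟨M, hM0, hMk⟩ := hmov k
    exact hny (B k * M) (τ' k) (by rw [Matrix.det_mul, hR.dA k]; exact mul_ne_zero hA'.ne' hM0)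
      (mov_mul hMk (hR.mA k))
  have hlt0 : v (jInv (τ' 0) - y₀) < 1 := by rw [hτ0']; exact near_sub hv h2' hy.near
  have hray : ∀ k, v (jInv (τ' (k + 1)) - y₀) < v (jInv (τ' k) - y₀) := fun k =>
    ray hv hp hvp hμ hμ' hx.near hy.near hA' hpA' hR hlt0 k (hy0 k)
  have hxlt : ∀ k, v (jInv (τ k) - x₀) < 1 := by
    intro k
    induction k with
    | zero => exact hR.lt
    | succ k ih => exact (hR.dec k).trans ih
  have hylt : ∀ k, v (jInv (τ' k) - y₀) < 1 := by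
    intro k
    induction k with
    | zero => exact hlt0
    | succ k ih => exact (hray k).trans ih
  have hx' : ∀ ε : ℝ, 0 < ε → ∃ K, ∀ k, K ≤ k → v (jInv (τ k) - x₀) < ε := fun ε hε =>
    contr (δ := fun k => v (jInv (τ k) - x₀)) hμ.lt (fun k => v.nonneg _) (hxlt 0) (fun k => by
      have := hμ.contr _ _ _ (hR.dP k) (hR.mP k) (hR.ne k) (hxlt k) (hR.dec k)
      rwa [mul_comm]) hε
  have hy' : ∀ ε : ℝ, 0 < ε → ∃ K, ∀ k, K ≤ k → v (jInv (τ' k) - y₀) < ε := fun ε hε =>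
    contr (δ := fun k => v (jInv (τ' k) - y₀)) hμ'.lt (fun k => v.nonneg _) (hylt 0) (fun k => by
      have := hμ'.contr _ _ _ (hR.dP' k) (hR.mP' k) (hy0 k) (hylt k) (hray k)
      rwa [mul_comm]) hε
  have : Fact (0 < A'.det) := ⟨hA'⟩
  have hphi : Phi A'.det x₀ y₀ = 0 := by
    by_contra hne
    have hpos : 0 < v (Phi A'.det x₀ y₀) := (AbsoluteValue.pos_iff v).2 hne
    obtain ⟨K1, hK1⟩ := hx' _ hpos
    obtain ⟨K2, hK2⟩ := hy' _ hpos
    set k := max K1 K2 with hk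
    have hz : Phi A'.det (jInv (τ k)) (jInv (τ' k)) = 0 :=
      (zero4 _ _ _).2 ⟨B k, hR.dA k, hR.pA k, hR.mA k⟩
    have e1 := near_sub hv (v := v) (x := jInv (τ k)) (y := (a : ℂ)) (z := x₀) (hxlt k)
      (by rw [v.map_sub]; exact hx.near)
    have e2 := near_sub hv (v := v) (x := jInv (τ' k)) (y := (b : ℂ)) (z := y₀) (hylt k)
      (by rw [v.map_sub]; exact hy.near)
    have h3 : v (Phi A'.det x₀ y₀ - Phi A'.det (jInv (τ k)) (jInv (τ' k))) ≤ _ :=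
      eval_lip hv (le_one_of_near hv hx.near) (le_one_of_near hv e1) (le_one_of_near hv hy.near)
        (le_one_of_near hv e2) (primPoly A'.det)
    rw [hz, sub_zero, v.map_sub, v.map_sub y₀] at h3
    exact absurd h3 (not_le.2 (max_lt (hK1 k (le_max_left _ _)) (hK2 k (le_max_right _ _))))
  rw [← hX4, ← hY4] at hphi
  obtain ⟨M, hMdet, -, hMM⟩ := (zero4 _ _ _).1 hphi
  have h6 := sq_of_fixed hX1 hY1 (by rw [hMdet]; exact hA'.ne') hX3 hY3 hMM
  rwa [hX2, hY2] at h6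

end Pool.Agent.II
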