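import Pool.Agent.II.Fin62
import Pool.Agent.II.CM51

/-!
# The values of a modular function at the fixed points: matrix form
-/

set_option autoImplicit false

namespace Pool.Agent.II

open UpperHalfPlane Complex Pool.Agent.II51
open scoped MatrixGroups

/-- **Finiteness.** An `SL(2, ℤ)`-invariant function takes finitely many values at the fixed
points of the integral matrices with given trace and determinant (not scalar). -/
theorem finite_fixed62 {X : Type*} (f : ℍ → X) (hf : ∀ (g : SL(2, ℤ)) (τ : ℍ), f (g • τ) = f τ)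
    (t N : ℤ) (hN : t ^ 2 ≠ 4 * N) :
    {x | ∃ (τ : ℍ) (A : Matrix (Fin 2) (Fin 2) ℤ), A.trace = t ∧ A.det = N ∧ Mov A τ τ ∧
      f τ = x}.Finite := by
  refine (finite_values f hf t N hN).subset ?_
  rintro x ⟨τ, A, h1, h2, h3, h4⟩
  rw [Matrix.trace_fin_two] at h1
  rw [Matrix.det_fin_two] at h2
  exact ⟨τ, A 0 0, A 0 1, A 1 0, A 1 1, h1, h2, h3, h4⟩

/-- **Finiteness for bounded traces**; for a non-scalar matrix with a fixed point the trace is
bounded by twice the root of the determinant. -/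
theorem finite_fixed_det62 {X : Type*} (f : ℍ → X)
    (hf : ∀ (g : SL(2, ℤ)) (τ : ℍ), f (g • τ) = f τ) (N : ℤ) :
    {x | ∃ (τ : ℍ) (A : Matrix (Fin 2) (Fin 2) ℤ), A.det = N ∧ Mov A τ τ ∧ A 1 0 ≠ 0 ∧
      f τ = x}.Finite := by
  refine (finite_values_bdd f hf (4 * |N|) N).subset ?_
  rintro x ⟨τ, A, h2, h3, h5, h4⟩
  rw [Matrix.det_fin_two] at h2
  have h6 : Fixes62 (A 0 0) (A 0 1) (A 1 0) (A 1 1) τ := h3
  rcases h6.disc with h7 | h7
  · rw [h2] at h7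
    refine ⟨τ, A 0 0, A 0 1, A 1 0, A 1 1, ?_, h7.ne, h2, h3, h4⟩
    have h8 : (A 0 0 + A 1 1) ^ 2 ≤ (4 * |N|) ^ 2 := by
      have h9 : N ≤ |N| := le_abs_self N
      have h10 : 0 ≤ (A 0 0 + A 1 1) ^ 2 := sq_nonneg _
      have h11 : 1 ≤ |N| := by
        have : 0 < 4 * N := lt_of_le_of_lt h10 h7
        have : 0 < N := by linarith
        rw [abs_of_pos this]
        exact this
      nlinarith
    have h12 : (0 : ℤ) ≤ 4 * |N| := by positivity
    exact abs_le_of_sq_le_sq h8 h12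
  · exact absurd h7.1 h5

/-- **Class number bound** for the values at the fixed points of the matrices of trace `t` and
determinant `p`. -/
theorem ncard_fixed62 : ∃ C : ℝ, 0 < C ∧ ∀ {X : Type} (f : ℍ → X)
    (_ : ∀ (g : SL(2, ℤ)) (τ : ℍ), f (g • τ) = f τ) (p : ℕ), p.Prime → ∀ t : ℤ,
    {x | ∃ (τ : ℍ) (A : Matrix (Fin 2) (Fin 2) ℤ), A.trace = t ∧ A.det = p ∧ Mov A τ τ ∧
      f τ = x}.Finite ∧
    (({x | ∃ (τ : ℍ) (A : Matrix (Fin 2) (Fin 2) ℤ), A.trace = t ∧ A.det = p ∧ Mov A τ τ ∧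
      f τ = x}.ncard : ℕ) : ℝ) ≤ C * (p : ℝ) ^ (5 / 6 : ℝ) := by
  obtain ⟨C, hC, h⟩ := card_redSet_rpow
  refine ⟨C, hC, fun f hf p hp t => ?_⟩
  obtain ⟨h1, h2⟩ := h p hp t
  obtain ⟨h3, h4⟩ := ncard_values f hf (not_isSquare_prime62 hp) t
  have hsub : {x | ∃ (τ : ℍ) (A : Matrix (Fin 2) (Fin 2) ℤ), A.trace = t ∧ A.det = p ∧
      Mov A τ τ ∧ f τ = x} ⊆ {x | ∃ (τ : ℍ) (a b c d : ℤ), a + d = t ∧ a * d - b * c = p ∧
        (τ : ℂ) * (c * τ + d) = a * τ + b ∧ f τ = x} := by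
    rintro x ⟨τ, A, h1, h2, h3, h4⟩
    rw [Matrix.trace_fin_two] at h1
    rw [Matrix.det_fin_two] at h2
    exact ⟨τ, A 0 0, A 0 1, A 1 0, A 1 1, h1, h2, h3, h4⟩
  refine ⟨h3.subset hsub, le_trans ?_ h2⟩
  exact_mod_cast (Set.ncard_le_ncard hsub h3).trans h4

end Pool.Agent.II
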