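import Pool.Agent.II.Defs
import Pool.Agent.II.JFix62
import Pool.Agent.II.Field62

/-! # Row 7: counting residue classes and traces -/

set_option autoImplicit false

open UpperHalfPlane Finset Pool.Agent.Helper11.ZP Pool.Agent.Helper20.ZT.Prim

namespace Pool.Agent.II

/-- finitely many values `j` at the fixed points of given trace and determinant -/
theorem finite_fixed (T N : ℤ) (hD : T ^ 2 < 4 * N) :
    {x : ℂ | ∃ (A : Mat) (τ : ℍ), A.trace = T ∧ A.det = N ∧ Mov A τ τ ∧ jInv τ = x}.Finite := by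
  refine (finite_fixed62 jInv (fun g τ => Pool.Agent.Helper11.ZU.jInv_SL g τ) T N hD.ne).subset ?_
  rintro x ⟨A, τ, h1, h2, h3, h4⟩
  exact ⟨τ, A, h1, h2, h3, h4⟩

/-- number of traces with a given field -/
theorem count_field {p : ℕ} (hp : p.Prime) {D : ℤ} (hD : D ≠ 0) (R : Finset ℤ)
    (h : ∀ t ∈ R, t ^ 2 < 4 * p ∧ IsSquare (D * (t ^ 2 - 4 * p))) : R.card ≤ 40 := by
  obtain ⟨h1, h2⟩ := card_traces_field hp hD
  have h3 : (R : Set ℤ) ⊆ {t : ℤ | t ^ 2 < 4 * p ∧ IsSquare ((t ^ 2 - 4 * p) * D)} := by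
    intro t ht
    have h4 := h t ht
    refine ⟨h4.1, ?_⟩
    rw [mul_comm]
    exact h4.2
  have h5 := Set.ncard_le_ncard h3 h1
  rw [Set.ncard_coe_finset] at h5
  omega

/-- integers are integral at a nonarchimedean place -/
theorem int_le_one62 {v : AbsoluteValue ℂ ℝ} (hv : IsNonarchimedean v) (m : ℤ) :
    v (m : ℂ) ≤ 1 := by
  have h1 : ∀ n : ℕ, v (n : ℂ) ≤ 1 := by
    intro n
    induction n with
    | zero => simp
    | succ n ih =>
      push_cast
      refine (hv _ _).trans (max_le ih ?_)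
      rw [map_one]
  rcases Int.eq_nat_or_neg m with ⟨n, rfl | rfl⟩
  · exact_mod_cast h1 n
  · push_cast
    rw [v.map_neg]
    exact h1 n

/-- an integer which is small at a place above `p` is divisible by `p` -/
theorem dvd_of_small62 {v : AbsoluteValue ℂ ℝ} (hv : IsNonarchimedean v) {p : ℕ} (hp : p.Prime)
    (hvp : v (p : ℂ) < 1) {m : ℤ} (hm : v (m : ℂ) < 1) : (p : ℤ) ∣ m := by
  by_contra h
  have hco : IsCoprime (p : ℤ) m :=
    ((Nat.prime_iff_prime_int.1 hp).coprime_iff_not_dvd).2 h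
  obtain ⟨a, b, hab⟩ := hco
  have h1 : (a : ℂ) * (p : ℂ) + (b : ℂ) * (m : ℂ) = 1 := by exact_mod_cast hab
  have h2 : v ((a : ℂ) * (p : ℂ) + (b : ℂ) * (m : ℂ)) < 1 := by
    refine lt_of_le_of_lt (hv _ _) (max_lt ?_ ?_)
    · rw [map_mul]
      calc v (a : ℂ) * v (p : ℂ) ≤ 1 * v (p : ℂ) :=
            mul_le_mul_of_nonneg_right (int_le_one62 hv a) (v.nonneg _)
        _ < 1 := by rw [one_mul]; exact hvp
    · rw [map_mul]
      calc v (b : ℂ) * v (m : ℂ) ≤ 1 * v (m : ℂ) :=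
            mul_le_mul_of_nonneg_right (int_le_one62 hv b) (v.nonneg _)
        _ < 1 := by rw [one_mul]; exact hm
  rw [h1, map_one] at h2
  exact lt_irrefl _ h2

/-- number of residue classes with a given trace -/
theorem count_trace : ∃ C : ℝ, ∀ (v : AbsoluteValue ℂ ℝ) (p : ℕ), IsNonarchimedean v → p.Prime →
    v (p : ℂ) < 1 → ∀ (t : ℤ) (R : Finset ℤ), (∀ b ∈ R, 0 ≤ b ∧ b < p ∧ ∃ x₀, Center v p b t x₀) →
      (R.card : ℝ) ≤ C * (p : ℝ) ^ (5 / 6 : ℝ) := by
  classical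
  obtain ⟨C, -, hC⟩ := ncard_fixed62
  refine ⟨C, fun v p hv hp hvp t R hR => ?_⟩
  obtain ⟨h1, h2⟩ := hC jInv (fun g τ => Pool.Agent.Helper11.ZU.jInv_SL g τ) p hp t
  have hex : ∀ b : ℤ, ∃ x₀ : ℂ, b ∈ R → Center v p b t x₀ := by
    intro b
    by_cases hb : b ∈ R
    · obtain ⟨x₀, hx₀⟩ := (hR b hb).2.2
      exact ⟨x₀, fun _ => hx₀⟩
    · exact ⟨0, fun h => absurd h hb⟩
  choose g hg using hex
  refine le_trans ?_ h2
  have h3 : R.card ≤ {x : ℂ | ∃ (τ : ℍ) (A : Matrix (Fin 2) (Fin 2) ℤ), A.trace = t ∧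
      A.det = p ∧ Pool.Agent.II51.Mov A τ τ ∧ jInv τ = x}.ncard := by
    rw [← Set.ncard_coe_finset]
    refine Set.ncard_le_ncard_of_injOn g ?_ ?_ h1
    · intro b hb
      obtain ⟨A₀, τ₀, k1, k2, k3, k4⟩ := (hg b hb).ex
      exact ⟨τ₀, A₀, k2, k1, k3, k4⟩
    · intro b hb c hc hbc
      have e1 := (hg b hb).near
      have e2 := (hg c hc).near
      rw [← hbc] at e2
      have e3 : v (((b - c : ℤ) : ℂ)) < 1 := by
        have e4 : ((b - c : ℤ) : ℂ) = -(g b - b) + (g b - c) := by push_cast; ring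
        rw [e4]
        refine lt_of_le_of_lt (hv _ _) (max_lt ?_ e2)
        rw [v.map_neg]
        exact e1
      have e5 := dvd_of_small62 hv hp hvp e3
      have e6 := hR b hb
      have e7 := hR c hc
      obtain ⟨k, hk⟩ := e5
      have hp0 : (0 : ℤ) < p := by exact_mod_cast hp.pos
      have e8 : k = 0 := by
        by_contra hk0
        rcases lt_or_gt_of_ne hk0 with h | h
        · have : (p : ℤ) * k ≤ p * (-1) := by nlinarith
          linarith [e6.1, e7.2.1]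
        · have : (p : ℤ) * 1 ≤ p * k := by nlinarith
          linarith [e7.1, e6.2.1]
      rw [e8, mul_zero] at hk
      linarith
  exact_mod_cast h3

end Pool.Agent.II
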