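import Pool.Agent.II.Row4
import Pool.Agent.II.Row7

/-! # Integral images, row 5: special coordinates have the Frobenius field -/

open UpperHalfPlane Pool.Agent.Helper11.ZP Pool.Agent.Helper20.ZT.Prim

namespace Pool.Agent.II

variable {v : AbsoluteValue ℂ ℝ} {p : ℕ}

lemma adj_mul_cancel {G : Mat} (hG : G.det = 1) (X : Mat) : G.adjugate * (G * X) = X := by
  rw [← mul_assoc, Matrix.adjugate_mul, hG, one_smul, one_mul]

lemma mul_adj_cancel {G : Mat} (hG : G.det = 1) (X : Mat) : X * G * G.adjugate = X := by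
  rw [mul_assoc, Matrix.mul_adjugate, hG, one_smul, mul_one]

lemma trace_of_conj {C D P : Mat} (hP : P.det ≠ 0) (h : D * P = P * C) : D.trace = C.trace := by
  have h1 : (D * P * P.adjugate).trace = (P * C * P.adjugate).trace := by rw [h]
  rw [mul_assoc, Matrix.mul_adjugate, Matrix.trace_mul_comm (P * C), ← mul_assoc,
    Matrix.adjugate_mul] at h1
  simp only [Matrix.mul_smul, Matrix.smul_mul, mul_one, one_mul, Matrix.trace_smul, smul_eq_mul] at h1
  exact mul_left_cancel₀ hP h1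

theorem cm_lemma (hv : IsNonarchimedean v) (hp : p.Prime) (h5 : 5 ≤ p) (hvp : v (p : ℂ) < 1)
    {a t : ℤ} {x₀ : ℂ} (hx : Center v p a t x₀) (ht : t ≠ 0) {B : Mat} (hB : B 1 0 ≠ 0) {σ : ℍ}
    (hM : Mov B σ σ) (h1 : v (jInv σ - a) < 1) : IsSquare (dsc B * (t ^ 2 - 4 * p)) := by
  obtain ⟨A₀, hA10, hAσ, hAprm, hpA, hA⟩ := exists_fix hp hB hM
  obtain ⟨μ, hμ⟩ := canon hv hp h5 hvp hx ht
  obtain ⟨X, τx, hX1, hX2, hX3, hX4⟩ := hx.fix hp
  have hp0 : (p : ℤ) ≠ 0 := by exact_mod_cast hp.ne_zero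
  by_cases hne : ∀ (k : ℕ) (C : Mat) (ρ : ℍ), C.det = (p : ℤ) ^ k → Mov C σ ρ → jInv ρ ≠ x₀
  · exfalso
    obtain ⟨τ, τ', P, P', A, hR, hτ0, hτ0', hA0⟩ := exists_rays hv hp hμ hA hpA rfl hAprm hAσ
      (near_sub hv h1 hx.near) hne
    -- the second ray avoids the centre
    have hmov : ∀ k, ∃ M : Mat, M.det = (p : ℤ) ^ k ∧ Mov M σ (τ' k) := by
      intro k
      induction k with
      | zero => exact ⟨1, by simp, by rw [hτ0']; simp [Mov]⟩
      | succ k ih =>
        obtain ⟨M, hM0, hMk⟩ := ih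
        exact ⟨P' k * M, by rw [Matrix.det_mul, hR.dP' k, hM0]; ring, mov_mul hMk (hR.mP' k)⟩
    have hy0 : ∀ k, jInv (τ' k) ≠ x₀ := by
      intro k
      obtain ⟨M, hM0, hMk⟩ := hmov k
      exact hne k M _ hM0 hMk
    have hlt0 : v (jInv (τ' 0) - x₀) < 1 := by rw [hτ0']; exact near_sub hv h1 hx.near
    have hray : ∀ k, v (jInv (τ' (k + 1)) - x₀) < v (jInv (τ' k) - x₀) := fun k =>
      ray hv hp hvp hμ hμ hx.near hx.near hA hpA hR hlt0 k (hy0 k)
    have hxlt : ∀ k, v (jInv (τ k) - x₀) < 1 := by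
      intro k
      induction k with
      | zero => exact hR.lt
      | succ k ih => exact (hR.dec k).trans ih
    -- both rays are the same
    have hG : ∀ k, ∃ G : Mat, G.det = 1 ∧ Mov G (τ k) (τ' k) ∧
        (G.adjugate * A k).trace = A₀.trace := by
      intro k
      induction k with
      | zero =>
        refine ⟨1, by simp, by rw [hτ0, hτ0']; simp [Mov], ?_⟩
        rw [hA0]; simp
      | succ k ih =>
        obtain ⟨G, hG1, hGm, hGt⟩ := ih
        have hj : jInv (τ' k) = jInv (τ k) := jInv_mov hG1 hGm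
        obtain ⟨G', hG', hGe⟩ := hμ.uniq (τ k) (τ (k + 1)) (τ' (k + 1)) (P k) (P' k * G) (hR.dP k)
          (hR.mP k) (by rw [Matrix.det_mul, hR.dP' k, hG1, mul_one]) (mov_mul hGm (hR.mP' k)) (hR.ne k)
          (hxlt k) (hR.dec k) (by rw [← hj]; exact hray k)
        have hPk0 : (P k).det ≠ 0 := by rw [hR.dP k]; exact hp0
        refine ⟨G', hG', ?_, ?_⟩
        · obtain ⟨ρ, hρ⟩ := mov_exists (A := G') (by rw [hG']; exact one_pos) (τ (k + 1))
          have h2 : Mov (G' * P k) (τ k) ρ := mov_mul (hR.mP k) hρ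
          have h3 : Mov (G' * P k) (τ k) (τ' (k + 1)) := by
            rw [← hGe]; exact mov_mul hGm (hR.mP' k)
          have h4 := mov_unique (by rw [Matrix.det_mul, hG', one_mul]; exact hPk0) h2 h3
          rwa [h4] at hρ
        · rw [← hGt]
          apply trace_of_conj hPk0
          have e1 : G'.adjugate * P' k = P k * G.adjugate := by
            have h7 : G'.adjugate * (P' k * G) * G.adjugate = G'.adjugate * (G' * P k) * G.adjugate := by
              rw [hGe]
            rwa [← mul_assoc, mul_adj_cancel hG1, adj_mul_cancel hG'] at h7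
          rw [mul_assoc, ← hR.sq k, ← mul_assoc, e1, mul_assoc]
    have hfin := finite_fixed A₀.trace A₀.det (by
      have := dsc_neg hA10 hAσ
      rw [dsc] at this
      linarith)
    have hanti : StrictAnti fun k => v (jInv (τ k) - x₀) := strictAnti_nat_of_succ_lt hR.dec
    have hinj : Function.Injective fun k => jInv (τ k) := by
      intro i j hij
      apply hanti.injective
      change v (jInv (τ i) - x₀) = v (jInv (τ j) - x₀)
      rw [show jInv (τ i) = jInv (τ j) from hij]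
    refine Set.infinite_range_of_injective hinj (hfin.subset ?_)
    rintro _ ⟨k, rfl⟩
    obtain ⟨G, hG1, hGm, hGt⟩ := hG k
    refine ⟨G.adjugate * A k, τ k, hGt, ?_, mov_mul (hR.mA k) (mov_adj (by rw [hG1]; exact one_ne_zero) hGm), rfl⟩
    rw [Matrix.det_mul, Matrix.det_adjugate, hG1, hR.dA k]
    simp
  · push Not at hne
    obtain ⟨k, C, ρ, hC, hCm, hρ⟩ := hne
    obtain ⟨G, hG1, hGm⟩ := jInv_inj (hρ.trans hX4.symm)
    have h6 := sq_of_fixed hB hX1 (M := G * C) (by rw [Matrix.det_mul, hG1, one_mul, hC]; exact pow_ne_zero _ hp0)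
      hM hX3 (mov_mul hCm hGm)
    rwa [hX2] at h6

end Pool.Agent.II
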