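import Pool.Agent.II.Row1c
import Pool.Agent.II.Row4
import Pool.Agent.II.Row5
import Pool.Agent.II.Row6

/-! # Integral images, row 9c: pairs of integers, and two places -/

open UpperHalfPlane Pool.Agent.Helper11.ZP Pool.Agent.Helper20.ZT.Prim

namespace Pool.Agent.II

variable {v : AbsoluteValue ℂ ℝ} {p : ℕ}

/-- cancelling common factors of squares -/
theorem sq_cancel {x D E : ℤ} (hx : x ≠ 0) (h1 : IsSquare (x * D)) (h2 : IsSquare (x * E)) :
    IsSquare (D * E) := by
  obtain ⟨r, hr⟩ := h1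
  obtain ⟨s, hs⟩ := h2
  apply Pool.Agent.II51.isSquare_of_mul_sq hx (y := r * s)
  calc x ^ 2 * (D * E) = (x * D) * (x * E) := by ring
    _ = (r * r) * (s * s) := by rw [hr, hs]
    _ = (r * s) ^ 2 := by ring

/-- integers which are close to isogenous points have the same Frobenius field -/
theorem pair_int (hv : IsNonarchimedean v) (hp : p.Prime) (h5 : 5 ≤ p) (hvp : v (p : ℂ) < 1)
    {a b t s : ℤ} {x₀ y₀ : ℂ} (hx : Center v p a t x₀) (hy : Center v p b s y₀) (ht : t ≠ 0)
    (hs : s ≠ 0) (N : ℤ) [hN : Fact (0 < N)] (h : v (Phi N a b) < 1) :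
    IsSquare ((t ^ 2 - 4 * p) * (s ^ 2 - 4 * p)) := by
  obtain ⟨τ, τ', A, hA, hPA, hM, hja, hjb⟩ := exists_of_Phi_near hv N h
  have hA0 : A.det ≠ 0 := by rw [hA]; exact hN.out.ne'
  have h1 : v (jInv τ - a) < 1 := by
    rw [hja, sub_self, map_zero]
    exact zero_lt_one
  by_cases hc : IsSpecialPoint (jInv τ)
  · obtain ⟨B, hB, hBf⟩ := (special_iff τ).mp hc
    -- the conjugate matrix fixes the second point
    have hB' : Mov (A * B * A.adjugate) τ' τ' := mov_mul (mov_adj hA0 hM) (mov_mul hBf hM)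
    have hd : dsc (A * B * A.adjugate) = A.det ^ 2 * dsc B := by
      rw [dsc, dsc, Matrix.mul_assoc, Matrix.trace_mul_comm, Matrix.mul_assoc,
        Matrix.adjugate_mul, Matrix.mul_smul, Matrix.mul_one, Matrix.trace_smul, Matrix.det_mul,
        Matrix.det_mul, Matrix.det_adjugate]
      simp
      ring
    have hneg := dsc_neg hB hBf
    have hB10 : (A * B * A.adjugate) 1 0 ≠ 0 := by
      intro h0
      have e := Pool.Agent.II51.scalar_of_fix (A := A * B * A.adjugate) (τ := τ') hB' h0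
      have hz : dsc (A * B * A.adjugate) = 0 := by
        have h2 : dsc (A * B * A.adjugate) =
            ((A * B * A.adjugate) 0 0 - (A * B * A.adjugate) 1 1) ^ 2 +
              4 * (A * B * A.adjugate) 0 1 * (A * B * A.adjugate) 1 0 := by
          rw [dsc, Matrix.trace_fin_two, Matrix.det_fin_two]
          ring
        rw [h2]
        rw [h0]
        obtain ⟨e1, e2⟩ := e
        simp [e1, e2]
      rw [hd] at hz
      rcases mul_eq_zero.mp hz with h3 | h3
      · exact hA0 (pow_eq_zero_iff (two_ne_zero) |>.mp h3)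
      · exact hneg.ne h3
    have s1 : IsSquare (dsc B * (t ^ 2 - 4 * p)) := cm_lemma hv hp h5 hvp hx ht hB hBf h1
    have s2 : IsSquare (dsc (A * B * A.adjugate) * (s ^ 2 - 4 * p)) :=
      cm_lemma hv hp h5 hvp hy hs hB10 hB' hjb
    have s3 : IsSquare (dsc B * dsc (A * B * A.adjugate)) :=
      sq_of_fixed hB hB10 hA0 hBf hB' hM
    have hneg' := dsc_neg hB10 hB'
    have s4 : IsSquare ((t ^ 2 - 4 * p) * dsc (A * B * A.adjugate)) := sq_cancel hneg.ne s1 s3
    rw [mul_comm] at s4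
    exact sq_cancel hneg'.ne s4 s2
  · exact pair_lemma hv hp h5 hvp hx hy ht hs (by rw [hA]; exact hN.out) hPA hM h1 hjb hc

/-- a special point which is close to the same integer at two places -/
theorem cm_two {w : AbsoluteValue ℂ ℝ} {q : ℕ} (hv : IsNonarchimedean v) (hp : p.Prime)
    (h5 : 5 ≤ p) (hvp : v (p : ℂ) < 1) (hw : IsNonarchimedean w) (hq : q.Prime) (h5q : 5 ≤ q)
    (hwq : w (q : ℂ) < 1) {a t s : ℤ} {x₀ y₀ : ℂ} (hx : Center v p a t x₀)
    (hy : Center w q a s y₀) (ht : t ≠ 0) (hs : s ≠ 0) {c : ℂ} (hc : IsSpecialPoint c)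
    (h1 : v (c - a) < 1) (h2 : w (c - a) < 1) :
    IsSquare ((t ^ 2 - 4 * p) * (s ^ 2 - 4 * q)) := by
  have hc' := hc
  obtain ⟨τ, _, _, _, _, _, hj⟩ := hc
  subst hj
  obtain ⟨B, hB, hBf⟩ := (special_iff τ).mp hc'
  exact sq_cancel (dsc_neg hB hBf).ne (cm_lemma hv hp h5 hvp hx ht hB hBf h1)
    (cm_lemma hw hq h5q hwq hy hs hB hBf h2)

end Pool.Agent.II
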