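import Pool.Agent.II.DensRel
import Pool.Agent.II.Row7
import Pool.Agent.II.Row6
import Pool.Agent.II.Row2b
/-! Glue C of MP_130685 IntegralImages (helper46): 100 percent of the integral vectors are good at
`n + 1` primes. -/
set_option autoImplicit false
namespace Pool.Agent.II
open Finset UpperHalfPlane

/-- the trace of a centre -/
theorem center_trace_lt {v : AbsoluteValue ℂ ℝ} {p : ℕ} (hp : p.Prime) {a t : ℤ} {x₀ : ℂ}
    (h : Center v p a t x₀) : t ^ 2 < 4 * (p : ℤ) := by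
  obtain ⟨A, τ, hdet, htr, hM, -⟩ := h.ex
  have h10 : A 1 0 ≠ 0 := by
    intro h0
    unfold Mov at hM
    rw [h0] at hM
    push_cast at hM
    have him := congrArg Complex.im hM
    have hre := congrArg Complex.re hM
    simp only [zero_mul, zero_add, Complex.mul_im, Complex.mul_re, Complex.add_im, Complex.add_re,
      Complex.intCast_re, Complex.intCast_im, mul_zero, add_zero, sub_zero, zero_add] at him hre
    have hτ : (τ : ℂ).im ≠ 0 := τ.im_pos.ne'
    have e1 : ((A 1 1 : ℤ) : ℝ) = A 0 0 := by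
      have h1 : ((A 1 1 : ℝ) - A 0 0) * (τ : ℂ).im = 0 := by linarith
      rcases mul_eq_zero.1 h1 with h1 | h1
      · linarith
      · exact absurd h1 hτ
    have e2 : A 1 1 = A 0 0 := by exact_mod_cast e1
    rw [Matrix.det_fin_two, h0, e2, mul_zero, sub_zero] at hdet
    have h3 : (A 0 0).natAbs * (A 0 0).natAbs = p := by
      have : ((A 0 0).natAbs * (A 0 0).natAbs : ℤ) = p := by
        rw [Int.natCast_natAbs, abs_mul_abs_self]
        exact hdet
      exact_mod_cast this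
    rcases (Nat.dvd_prime hp).1 ⟨_, h3.symm⟩ with h4 | h4
    · rw [h4] at h3
      exact hp.one_lt.ne h3
    · rw [h4] at h3
      have := hp.one_lt
      nlinarith
  have h1 := dsc_neg h10 hM
  unfold dsc at h1
  rw [htr, hdet] at h1
  linarith

open Classical in
/-- **Glue C.** -/
theorem good_density {n : ℕ} (P0 : ℕ) (h5 : 5 ≤ P0) (v : ℕ → AbsoluteValue ℂ ℝ)
    (hv : ∀ p : ℕ, p.Prime → P0 ≤ p → IsNonarchimedean (v p) ∧ v p (p : ℂ) < 1)
    (Good : ℤ → (Fin n → ℤ) → Prop)
    (hG : ∀ (l : ℤ) (a : Fin n → ℤ) (S : Finset ℕ) (t : ℕ → Fin n → ℤ) (x₀ : ℕ → Fin n → ℂ),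
      S.card = n + 1 → (∀ p ∈ S, p.Prime ∧ P0 ≤ p ∧ (p : ℤ) ∣ l) →
      (∀ p ∈ S, ∀ i, Center (v p) p (a i) (t p i) (x₀ p i) ∧ t p i ≠ 0) →
      (∀ p ∈ S, ∀ q ∈ S, ∀ i j, (p, i) ≠ (q, j) →
        ¬ IsSquare ((t p i ^ 2 - 4 * p) * (t q j ^ 2 - 4 * q))) → Good l a) :
    Filter.Tendsto (fun H : ℕ =>
      ((((Icc (-(H : ℤ)) H) ×ˢ (Fintype.piFinset fun _ : Fin n => Icc (-(H : ℤ)) H)).filter
        (fun w => Good w.1 w.2)).card : ℝ) /
      ((((Icc (-(H : ℤ)) H) ×ˢ (Fintype.piFinset fun _ : Fin n => Icc (-(H : ℤ)) H)).card : ℝ)))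
      Filter.atTop (nhds 1) := by
  obtain ⟨C, hC⟩ := count_trace
  -- the choice of the centres
  have ex : ∀ (p : ℕ) (x : ZMod p), ∃ (t : ℤ) (x₀ : ℂ), p.Prime → P0 ≤ p →
      Center (v p) p (x.val : ℤ) t x₀ := by
    intro p x
    by_cases hp : p.Prime ∧ P0 ≤ p
    · obtain ⟨t, x₀, h⟩ := exists_center (hv p hp.1 hp.2).1 hp.1 (h5.trans hp.2)
        (hv p hp.1 hp.2).2 (x.val : ℤ)
      exact ⟨t, x₀, fun _ _ => h⟩
    · exact ⟨0, 0, fun h1 h2 => absurd ⟨h1, h2⟩ hp⟩
  choose T X hTX using ex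
  have hpos : ∀ p : ℕ, p.Prime → P0 ≤ p → 0 ≤ C * (p : ℝ) ^ (5 / 6 : ℝ) := by
    intro p hp hp0
    have := hC (v p) p (hv p hp hp0).1 hp (hv p hp hp0).2 0 ∅ (fun b hb => absurd hb (notMem_empty b))
    simpa using this
  -- one trace
  have one : ∀ p : ℕ, p.Prime → P0 ≤ p → ∀ (t : ℤ) (U : Finset (ZMod p)),
      (∀ x ∈ U, T p x = t) → (U.card : ℝ) ≤ C * (p : ℝ) ^ (5 / 6 : ℝ) := by
    intro p hp hp0 t U hU
    have : NeZero p := ⟨hp.ne_zero⟩
    have h1 := hC (v p) p (hv p hp hp0).1 hp (hv p hp hp0).2 t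
      (U.image (fun x : ZMod p => (x.val : ℤ))) (by
        intro b hb
        obtain ⟨x, hx, rfl⟩ := mem_image.1 hb
        refine ⟨Int.natCast_nonneg _, by exact_mod_cast ZMod.val_lt x, X p x, ?_⟩
        have := hTX p x hp hp0
        rwa [hU x hx] at this)
    rwa [card_image_of_injective] at h1
    intro x y hxy
    exact ZMod.val_injective p (Int.natCast_inj.1 hxy)
  have key := density_disc (n := n) (n + 1) P0 (fun p x => T p x ^ 2 - 4 * (p : ℤ))
    (fun p => {x | T p x = 0}) (40 * C)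
    (by
      intro p hp hp0 x _
      have := center_trace_lt hp (hTX p x hp hp0)
      show T p x ^ 2 - 4 * (p : ℤ) ≠ 0
      linarith)
    (by
      intro p hp hp0 U hU
      have h1 := one p hp hp0 0 U hU
      have h2 := hpos p hp hp0
      linarith)
    (by
      intro p hp hp0 x₀ hx₀ U hU
      have hne : T p x₀ ^ 2 - 4 * (p : ℤ) ≠ 0 := by
        have := center_trace_lt hp (hTX p x₀ hp hp0)
        linarith
      have h1 : (U.image (T p)).card ≤ 40 := by
        apply count_field hp hne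
        intro t ht
        obtain ⟨x, hx, rfl⟩ := mem_image.1 ht
        refine ⟨center_trace_lt hp (hTX p x hp hp0), ?_⟩
        have := (hU x hx).2
        rwa [mul_comm] at this
      have h2 : U.card = ∑ t ∈ U.image (T p), (U.filter (fun x => T p x = t)).card :=
        card_eq_sum_card_image (T p) U
      calc (U.card : ℝ) = ∑ t ∈ U.image (T p), ((U.filter (fun x => T p x = t)).card : ℝ) := by
            rw [h2]; push_cast; rfl
        _ ≤ ∑ t ∈ U.image (T p), C * (p : ℝ) ^ (5 / 6 : ℝ) := by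
            refine sum_le_sum fun t _ => one p hp hp0 t _ ?_
            intro x hx
            exact (mem_filter.1 hx).2
        _ = (U.image (T p)).card * (C * (p : ℝ) ^ (5 / 6 : ℝ)) := by
            rw [sum_const, nsmul_eq_mul]
        _ ≤ 40 * (C * (p : ℝ) ^ (5 / 6 : ℝ)) := by
            apply mul_le_mul_of_nonneg_right _ (hpos p hp hp0)
            exact_mod_cast h1
        _ = 40 * C * (p : ℝ) ^ (5 / 6 : ℝ) := by ring)
    Good
    (by
      intro l a S _ hS h1 h2
      refine hG l a S (fun p i => T p (a i : ZMod p)) (fun p i => X p (a i : ZMod p)) hS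
        (fun p hp => ⟨(h1 p hp).1, (h1 p hp).2.1, (h1 p hp).2.2.1⟩) ?_ h2
      intro p hp i
      refine ⟨?_, (h1 p hp).2.2.2 i⟩
      have hpp := (h1 p hp).1
      have hp0 := (h1 p hp).2.1
      have hc := hTX p (a i : ZMod p) hpp hp0
      refine ⟨?_, hc.ex⟩
      obtain ⟨c, hc'⟩ := nb_congr hpp.pos (a i)
      unfold nb at hc'
      have h3 : v p ((((a i : ZMod p).val : ℤ) : ℂ) - (a i : ℂ)) < 1 := by
        have : (((((a i : ZMod p).val : ℤ) : ℂ)) - (a i : ℂ)) = (p : ℂ) * (c : ℂ) := by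
          exact_mod_cast hc'
        rw [this, map_mul]
        have h4 := int_le_one62 (hv p hpp hp0).1 c
        have h5 := (hv p hpp hp0).2
        have h6 := (v p).nonneg (p : ℂ)
        calc v p (p : ℂ) * v p (c : ℂ) ≤ v p (p : ℂ) * 1 := by gcongr
          _ < 1 := by linarith
      have h7 : X p (a i : ZMod p) - (a i : ℂ) =
          (X p (a i : ZMod p) - (((a i : ZMod p).val : ℤ) : ℂ)) +
          ((((a i : ZMod p).val : ℤ) : ℂ) - (a i : ℂ)) := by ring
      rw [h7]
      exact lt_of_le_of_lt ((hv p hpp hp0).1 _ _) (max_lt hc.near h3))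
  refine key.congr fun H => ?_
  rw [← bx_card]
  rfl

end Pool.Agent.II
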