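import Pool.Agent.II.Near9
import Pool.Agent.II.RowC
import Pool.Agent.II.Row9c

/-! # Integral images: assembly -/

open Finset Pool.Agent.Helper11.ZP Pool.Agent.Helper20.ZT MvPolynomial

namespace Pool.Agent.II

open Classical in
/-- the valuation ring attached to an absolute value -/
noncomputable def O0 (v : AbsoluteValue ℂ ℝ) : ValuationSubring ℂ :=
  if h : IsNonarchimedean v then Ov v h else ⊤

lemma mem_O0 {v : AbsoluteValue ℂ ℝ} (hv : IsNonarchimedean v) (z : ℂ) : z ∈ O0 v ↔ v z ≤ 1 := by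
  rw [O0, dif_pos hv]; exact mem_Ov hv z

lemma nonunits_O0 {v : AbsoluteValue ℂ ℝ} (hv : IsNonarchimedean v) {z : ℂ} (hz : v z < 1) :
    z ∈ (O0 v).nonunits := by
  rw [O0, dif_pos hv]; exact nonunits_Ov hv hz

open Classical in
/-- absolute values above all large primes, with prescribed integrality -/
lemma exists_absvs (s : Finset ℂ) : ∃ (P0 : ℕ) (v : ℕ → AbsoluteValue ℂ ℝ), 5 ≤ P0 ∧
    ∀ p : ℕ, p.Prime → P0 ≤ p → IsNonarchimedean (v p) ∧ v p (p : ℂ) < 1 ∧ ∀ c ∈ s, v p c ≤ 1 := by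
  obtain ⟨M, hM, h⟩ := exists_absv s
  have hne : Nonempty (AbsoluteValue ℂ ℝ) := by
    obtain ⟨p, hp, hpp⟩ := Nat.exists_infinite_primes (M + 1)
    obtain ⟨v, -⟩ := h p hpp (fun hd => by have := Nat.le_of_dvd hM hd; omega)
    exact ⟨v⟩
  refine ⟨max 5 (M + 1), fun p => if hp : p.Prime ∧ ¬ p ∣ M then (h p hp.1 hp.2).choose else
    Classical.choice hne, le_max_left _ _, fun p hp hpM => ?_⟩
  have hpd : ¬ p ∣ M := fun hd => by
    have h1 := Nat.le_of_dvd hM hd
    have h2 := le_max_right 5 (M + 1)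
    omega
  simp only [dif_pos (⟨hp, hpd⟩ : p.Prime ∧ ¬ p ∣ M)]
  obtain ⟨h1, h2, h3⟩ := (h p hp hpd).choose_spec
  refine ⟨h1, ?_, h3⟩
  rw [h2]
  exact inv_lt_one_of_one_lt₀ (by exact_mod_cast hp.one_lt)

open Classical in
/-- **almost all integral homothetic images** of a set in general position have no unlikely
intersections -/
theorem images {n d : ℕ} (Z : Set (Fin n → ℂ)) (hZ : GenPos d Z) :
    Filter.Tendsto (fun H : ℕ =>
      ((((Icc (-(H : ℤ)) H) ×ˢ (Fintype.piFinset fun _ : Fin n => Icc (-(H : ℤ)) H)).filter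
        (fun w => NoUnlikely (n - d) (image Z w.1 w.2))).card : ℝ) /
      ((((Icc (-(H : ℤ)) H) ×ˢ (Fintype.piFinset fun _ : Fin n => Icc (-(H : ℤ)) H)).card : ℝ)))
      Filter.atTop (nhds 1) := by
  have hZ' := hZ
  choose f0 hf0 using hZ'
  set f : Finset (Fin n) → MvPolynomial (Fin n) ℂ := fun J => if h : J.card = d + 1 then f0 J h else 0
    with hfdef
  have hf : ∀ J, J.card = d + 1 → TopIn J (f J) ∧ ∀ z ∈ Z, eval z (f J) = 0 := by
    intro J hJ
    simp only [hfdef, dif_pos hJ]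
    exact hf0 J hJ
  set s : Finset ℂ := univ.biUnion fun J : Finset (Fin n) =>
    insert (((f J).coeff (Finsupp.equivFunOnFinite.symm fun i => (f J).degreeOf i))⁻¹)
      ((f J).support.image (f J).coeff) with hs
  obtain ⟨P0, v, h5, hv⟩ := exists_absvs s
  have hcoef : ∀ p : ℕ, p.Prime → P0 ≤ p → ∀ J m, v p ((f J).coeff m) ≤ 1 := by
    intro p hp hP J m
    by_cases hm : m ∈ (f J).support
    · refine (hv p hp hP).2.2 _ ?_
      simp only [hs, mem_biUnion, mem_insert, mem_image, mem_univ, true_and]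
      exact ⟨J, Or.inr ⟨m, hm, rfl⟩⟩
    · rw [notMem_support_iff.1 hm, map_zero]; exact zero_le_one
  have htop : ∀ p : ℕ, p.Prime → P0 ≤ p → ∀ J,
      v p ((f J).coeff (Finsupp.equivFunOnFinite.symm fun i => (f J).degreeOf i))⁻¹ ≤ 1 := by
    intro p hp hP J
    refine (hv p hp hP).2.2 _ ?_
    simp only [hs, mem_biUnion, mem_insert, mem_image, mem_univ, true_and]
    exact ⟨J, Or.inl rfl⟩
  refine good_density P0 h5 v (fun p hp hP => ⟨(hv p hp hP).1, (hv p hp hP).2.1⟩)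
    (fun l a => NoUnlikely (n - d) (image Z l a)) ?_
  intro l a S t x₀ hcard hp hcen hsq
  refine noUnlikely_of_key fun S' A hA hAZ hAS => ?_
  have hna : ∀ p ∈ S, IsNonarchimedean (v p) := fun p hpS => (hv p (hp p hpS).1 (hp p hpS).2.1).1
  have hvp : ∀ p ∈ S, v p (p : ℂ) < 1 := fun p hpS => (hv p (hp p hpS).1 (hp p hpS).2.1).2.1
  have hp5 : ∀ p ∈ S, 5 ≤ p := fun p hpS => h5.trans (hp p hpS).2.1
  refine key_II S' hA hAS a S v (fun p => O0 (v p)) (fun p hpS z => mem_O0 (hna p hpS) z) ?_ ?_ ?_ (by omega)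
  · intro p hpS K _ _ O h1 h2 x hx
    exact near_image f hf (O0 (v p)) (nonunits_O0 (hna p hpS) (hvp p hpS))
      (fun J _ m => (mem_O0 (hna p hpS) _).2 (hcoef p (hp p hpS).1 (hp p hpS).2.1 J m))
      (fun J _ => (mem_O0 (hna p hpS) _).2 (htop p (hp p hpS).1 (hp p hpS).2.1 J))
      (hp p hpS).2.2 hAZ O h1 h2 x hx
  · intro p hpS i j hij N _ hlt
    refine hsq p hpS p hpS j i (fun h => hij (congrArg Prod.snd h).symm) ?_
    exact pair_int (hna p hpS) (hp p hpS).1 (hp5 p hpS) (hvp p hpS) (hcen p hpS j).1 (hcen p hpS i).1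
      (hcen p hpS j).2 (hcen p hpS i).2 N hlt
  · intro p hpS q hqS hpq i c hc h1 h2
    refine hsq p hpS q hqS i i (fun h => hpq (congrArg Prod.fst h)) ?_
    exact cm_two (hna p hpS) (hp p hpS).1 (hp5 p hpS) (hvp p hpS) (hna q hqS) (hp q hqS).1 (hp5 q hqS)
      (hvp q hqS) (hcen p hpS i).1 (hcen q hqS i).1 (hcen p hpS i).2 (hcen q hqS i).2 hc h1 h2

end Pool.Agent.II
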