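import Pool.Agent.II.Count62

/-!
# The values of a modular function at the fixed points of the matrices of given trace and
determinant
-/

set_option autoImplicit false

namespace Pool.Agent.II

open UpperHalfPlane Complex
open scoped MatrixGroups

/-- `tau` is fixed by the matrix `(a b; c d)` -/
def Fixes62 (a b c d : ℤ) (τ : ℍ) : Prop := (τ : ℂ) * (c * τ + d) = a * τ + b

/-- the equations of a fixed point -/
theorem Fixes62.eqs {a b c d : ℤ} {τ : ℍ} (h : Fixes62 a b c d τ) :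
    2 * (c : ℝ) * τ.re = a - d ∧ (c : ℝ) * normSq (τ : ℂ) = -b := by
  have h1 := congrArg Complex.im h
  have h2 := congrArg Complex.re h
  simp only [Complex.mul_im, Complex.mul_re, Complex.add_im, Complex.add_re, Complex.intCast_re,
    Complex.intCast_im] at h1 h2
  rw [normSq_apply]
  have hy : (τ : ℂ).im ≠ 0 := τ.im_pos.ne'
  have h3 : (τ : ℂ).im * (2 * (c : ℝ) * (τ : ℂ).re - (a - d)) = 0 := by linear_combination h1
  have h4 := (mul_eq_zero.1 h3).resolve_left hy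
  have h5 : 2 * (c : ℝ) * (τ : ℂ).re = a - d := by linarith
  refine ⟨h5, ?_⟩
  have h6 : (c : ℝ) * ((τ : ℂ).re * (τ : ℂ).re + (τ : ℂ).im * (τ : ℂ).im) + b =
      (τ : ℂ).re * (2 * (c : ℝ) * (τ : ℂ).re - (a - d)) := by linear_combination -h2
  rw [h4, mul_zero] at h6
  linarith

/-- the fixed point is determined by the matrix -/
theorem Fixes62.unique {a b c d : ℤ} {τ τ' : ℍ} (hc : c ≠ 0) (h : Fixes62 a b c d τ)
    (h' : Fixes62 a b c d τ') : τ = τ' := by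
  obtain ⟨h1, h2⟩ := h.eqs
  obtain ⟨h3, h4⟩ := h'.eqs
  have hc' : (c : ℝ) ≠ 0 := by exact_mod_cast hc
  have e1 : τ.re = τ'.re := by
    have : 2 * (c : ℝ) * (τ.re - τ'.re) = 0 := by linear_combination h1 - h3
    have h5 := (mul_eq_zero.1 this).resolve_left (mul_ne_zero two_ne_zero hc')
    linarith
  have e2 : normSq (τ : ℂ) = normSq (τ' : ℂ) := mul_left_cancel₀ hc' (h2.trans h4.symm)
  rw [normSq_apply, normSq_apply] at e2
  have e1' : (τ : ℂ).re = (τ' : ℂ).re := e1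
  rw [e1'] at e2
  have e3 : (τ : ℂ).im * (τ : ℂ).im = (τ' : ℂ).im * (τ' : ℂ).im := by linarith
  have e4 : (τ : ℂ).im = (τ' : ℂ).im :=
    (mul_self_inj_of_nonneg τ.im_pos.le τ'.im_pos.le).1 e3
  exact UpperHalfPlane.ext (Complex.ext e1' e4)

/-- the adjugate matrix has the same fixed points -/
theorem Fixes62.adj {a b c d : ℤ} {τ : ℍ} (h : Fixes62 a b c d τ) :
    Fixes62 d (-b) (-c) a τ := by
  unfold Fixes62 at h ⊢
  push_cast
  linear_combination -h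

/-- conjugation -/
theorem Fixes62.conj {a b c d : ℤ} {τ : ℍ} (h : Fixes62 a b c d τ) (g : SL(2, ℤ)) :
    ∃ a' b' c' d' : ℤ, a' + d' = a + d ∧ a' * d' - b' * c' = a * d - b * c ∧
      Fixes62 a' b' c' d' (g • τ) := by
  obtain ⟨α, hα⟩ : ∃ α, g 0 0 = α := ⟨_, rfl⟩
  obtain ⟨β, hβ⟩ : ∃ β, g 0 1 = β := ⟨_, rfl⟩
  obtain ⟨γ, hγ⟩ : ∃ γ, g 1 0 = γ := ⟨_, rfl⟩
  obtain ⟨δ, hδ⟩ : ∃ δ, g 1 1 = δ := ⟨_, rfl⟩
  have hdet : α * δ - β * γ = 1 := by
    have := g.det_coe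
    rw [Matrix.det_fin_two] at this
    rw [← hα, ← hβ, ← hγ, ← hδ]
    exact this
  refine ⟨(α * a + β * c) * δ - (α * b + β * d) * γ, -(α * a + β * c) * β + (α * b + β * d) * α,
    (γ * a + δ * c) * δ - (γ * b + δ * d) * γ, -(γ * a + δ * c) * β + (γ * b + δ * d) * α,
    ?_, ?_, ?_⟩
  · linear_combination (a + d) * hdet
  · linear_combination (a * d - b * c) * (α * δ - β * γ + 1) * hdet
  · unfold Fixes62 at h ⊢
    have hco : ((g • τ : ℍ) : ℂ) = ((α : ℂ) * τ + β) / ((γ : ℂ) * τ + δ) := by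
      rw [coe_specialLinearGroup_apply, ← hα, ← hβ, ← hγ, ← hδ]
      simp
    have hne : ((γ : ℂ) * τ + δ) ≠ 0 := by
      intro h0
      have h1 := congrArg Complex.im h0
      simp only [Complex.add_im, Complex.mul_im, Complex.intCast_re, Complex.intCast_im,
        Complex.zero_im] at h1
      have hy : (τ : ℂ).im ≠ 0 := τ.im_pos.ne'
      have h2 : (γ : ℝ) = 0 := by
        have : (γ : ℝ) * (τ : ℂ).im = 0 := by linear_combination h1
        exact (mul_eq_zero.1 this).resolve_right hy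
      have h3 : γ = 0 := by exact_mod_cast h2
      rw [h3] at h0 hdet
      have h4 : (δ : ℂ) = 0 := by simpa using h0
      have h5 : δ = 0 := by exact_mod_cast h4
      rw [h5] at hdet
      simp at hdet
    have hdetC : (α : ℂ) * δ - β * γ = 1 := by exact_mod_cast hdet
    obtain ⟨w, hw⟩ : ∃ w : ℂ, ((g • τ : ℍ) : ℂ) = w := ⟨_, rfl⟩
    rw [hw] at hco ⊢
    have hwW : w * ((γ : ℂ) * τ + δ) = (α : ℂ) * τ + β := by
      rw [hco]
      exact div_mul_cancel₀ _ hne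
    have hsq : ((γ : ℂ) * τ + δ) ^ 2 ≠ 0 := pow_ne_zero _ hne
    refine sub_eq_zero.1 ((mul_eq_zero.1 (?_ : _ * ((γ : ℂ) * τ + δ) ^ 2 = 0)).resolve_right hsq)
    push_cast
    obtain ⟨c', hc'⟩ : ∃ c' : ℂ, ((γ : ℂ) * a + δ * c) * δ - (γ * b + δ * d) * γ = c' := ⟨_, rfl⟩
    obtain ⟨d', hd'⟩ : ∃ d' : ℂ, -((γ : ℂ) * a + δ * c) * β + (γ * b + δ * d) * α = d' := ⟨_, rfl⟩
    obtain ⟨a', ha'⟩ : ∃ a' : ℂ, ((α : ℂ) * a + β * c) * δ - (α * b + β * d) * γ = a' := ⟨_, rfl⟩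
    obtain ⟨b', hb'⟩ : ∃ b' : ℂ, -((α : ℂ) * a + β * c) * β + (α * b + β * d) * α = b' := ⟨_, rfl⟩
    rw [hc', hd', ha', hb']
    have key : c' * ((α : ℂ) * τ + β) ^ 2 + (d' - a') * ((α : ℂ) * τ + β) * ((γ : ℂ) * τ + δ) -
        b' * ((γ : ℂ) * τ + δ) ^ 2 = 0 := by
      rw [← hc', ← hd', ← ha', ← hb']
      linear_combination (((α : ℂ) * δ - β * γ) ^ 2) * h
    rw [← hwW] at key
    linear_combination key

/-- every fixed point is equivalent to the fixed point of a reduced matrix -/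
theorem Fixes62.reduce {p : ℕ} (hp : ¬ IsSquare (p : ℤ)) {t a b c d : ℤ} {τ : ℍ}
    (h : Fixes62 a b c d τ) (ht : a + d = t) (hdet : a * d - b * c = p) :
    ∃ g : SL(2, ℤ), ∃ x ∈ redSet t p, Fixes62 x.1 x.2.1 x.2.2.1 x.2.2.2 (g • τ) := by
  obtain ⟨g, hg⟩ := ModularGroup.exists_smul_mem_fd τ
  obtain ⟨a', b', c', d', e1, e2, e3⟩ := h.conj g
  obtain ⟨h1, h2⟩ := e3.eqs
  rw [ht] at e1
  rw [hdet] at e2
  have hN : 1 ≤ normSq ((g • τ : ℍ) : ℂ) := hg.1
  have hR : |(g • τ : ℍ).re| ≤ 1 / 2 := hg.2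
  obtain ⟨r, hr⟩ : ∃ r : ℝ, (g • τ : ℍ).re = r := ⟨_, rfl⟩
  obtain ⟨N, hNN⟩ : ∃ N : ℝ, normSq ((g • τ : ℍ) : ℂ) = N := ⟨_, rfl⟩
  rw [hr] at h1 hR
  rw [hNN] at h2 hN
  refine ⟨g, ?_⟩
  rcases lt_trichotomy c' 0 with hc | hc | hc
  · have hcR : (c' : ℝ) < 0 := by exact_mod_cast hc
    refine ⟨(d', -b', -c', a'), ⟨by simp only; linarith, by simp only; linarith, ?_, ?_⟩, e3.adj⟩
    · simp only
      have : |(d' : ℝ) - a'| ≤ -c' := by
        rw [abs_sub_comm, ← h1, abs_mul, abs_mul, abs_of_neg hcR, abs_two]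
        nlinarith
      exact_mod_cast this
    · simp only
      have : -(c' : ℝ) ≤ -(-b') := by nlinarith
      exact_mod_cast this
  · exfalso
    rw [hc] at h1 h2 e2
    have h3 : (a' : ℝ) = d' := by
      have : (a' : ℝ) - d' = 0 := by rw [← h1]; simp
      linarith
    have h4 : a' = d' := by exact_mod_cast h3
    exact hp ⟨a', by rw [← e2, ← h4]; ring⟩
  · have hcR : (0 : ℝ) < c' := by exact_mod_cast hc
    refine ⟨(a', b', c', d'), ⟨e1, e2, ?_, ?_⟩, e3⟩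
    · simp only
      have : |(a' : ℝ) - d'| ≤ c' := by
        rw [← h1, abs_mul, abs_mul, abs_of_pos hcR, abs_two]
        nlinarith
      exact_mod_cast this
    · simp only
      have : (c' : ℝ) ≤ -b' := by nlinarith
      exact_mod_cast this

/-- **The values of a modular function at the fixed points of the matrices of trace `t` and
determinant `p`**: there are at most as many as reduced matrices. -/
theorem ncard_values {X : Type*} (f : ℍ → X) (hf : ∀ (g : SL(2, ℤ)) (τ : ℍ), f (g • τ) = f τ)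
    {p : ℕ} (hp : ¬ IsSquare (p : ℤ)) (t : ℤ) :
    {x | ∃ (τ : ℍ) (a b c d : ℤ), a + d = t ∧ a * d - b * c = p ∧
        (τ : ℂ) * (c * τ + d) = a * τ + b ∧ f τ = x}.Finite ∧
      {x | ∃ (τ : ℍ) (a b c d : ℤ), a + d = t ∧ a * d - b * c = p ∧
        (τ : ℂ) * (c * τ + d) = a * τ + b ∧ f τ = x}.ncard ≤ (redSet t p).ncard := by
  classical
  have hfin := redSet_finite hp t
  set F : ℤ × ℤ × ℤ × ℤ → X := fun x =>
    if h : ∃ τ : ℍ, Fixes62 x.1 x.2.1 x.2.2.1 x.2.2.2 τ then f h.choose else f UpperHalfPlane.I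
    with hF
  have hsub : {x | ∃ (τ : ℍ) (a b c d : ℤ), a + d = t ∧ a * d - b * c = p ∧
      (τ : ℂ) * (c * τ + d) = a * τ + b ∧ f τ = x} ⊆ F '' redSet t p := by
    rintro _ ⟨τ, a, b, c, d, ht, hdet, h, rfl⟩
    obtain ⟨g, x, hx, hg⟩ := Fixes62.reduce (τ := τ) hp h ht hdet
    refine ⟨x, hx, ?_⟩
    have hex : ∃ τ : ℍ, Fixes62 x.1 x.2.1 x.2.2.1 x.2.2.2 τ := ⟨_, hg⟩
    have hc : x.2.2.1 ≠ 0 := by
      obtain ⟨h1, h2, h3, h4⟩ := hx
      obtain ⟨k1, -⟩ := reduced62 hp h1 h2 h3 h4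
      omega
    rw [hF]
    simp only [dif_pos hex]
    rw [Fixes62.unique hc hex.choose_spec hg, hf]
  exact ⟨(hfin.image F).subset hsub,
    (Set.ncard_le_ncard hsub (hfin.image F)).trans (Set.ncard_image_le hfin)⟩

end Pool.Agent.II
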