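import Pool.Agent.II.Defs
import Pool.Agent.Helper11.ZT.KeyT

/-! # Integral images: the key inequality for a field-valued point -/

open UpperHalfPlane Finset Pool.Agent.Helper11.ZP Pool.Agent.Helper20.ZT.Prim Pool.Agent.Helper20.ZT

namespace Pool.Agent.II

section
variable {K : Type} [Field K] [Algebra ℂ K]

/-- the ring of a valuation subring contains the algebraic integers -/
lemma OO_mem (O : ValuationSubring K) (a : OO) : algebraMap ℂ K (a : ℂ) ∈ O := by
  apply mem_of_isIntegral_int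
  have h1 : IsIntegral ℤ (a : ℂ) := a.2
  exact h1.map (algebraMap ℂ K).toIntAlgHom

/-- a relation is inherited by congruent integers -/
lemma rel_near (O : ValuationSubring K) (F : Polynomial (Polynomial OO)) {x y : K} {a b : ℤ}
    (hx : x - a ∈ O.nonunits) (hy : y - b ∈ O.nonunits)
    (h : F.eval₂ (Polynomial.eval₂RingHom ((algebraMap ℂ K).comp (algebraMap OO ℂ)) x) y = 0) :
    algebraMap ℂ K (F.eval₂ (evO a) b) ∈ O.nonunits := by
  have hint : ∀ a : ℤ, (a : K) ∈ O := fun a => intCast_mem O a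
  have hxO : x ∈ O := by
    have h1 := O.add_mem _ _ (O.nonunits_subset hx) (hint a)
    rwa [sub_add_cancel] at h1
  have hyO : y ∈ O := by
    have h1 := O.add_mem _ _ (O.nonunits_subset hy) (hint b)
    rwa [sub_add_cancel] at h1
  let φ : OO →+* O := ((algebraMap ℂ K).comp (algebraMap OO ℂ)).codRestrict O.toSubring (OO_mem O)
  let X : O := ⟨x, hxO⟩
  let Y : O := ⟨y, hyO⟩
  let ρ := IsLocalRing.residue O
  have hX : ρ X = ρ (a : O) := by
    rw [← sub_eq_zero, ← map_sub, IsLocalRing.residue_eq_zero_iff]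
    obtain ⟨h1, h2⟩ := ValuationSubring.mem_nonunits_iff_exists_mem_maximalIdeal.1 hx
    have e : (⟨x - a, h1⟩ : O) = X - (a : O) := by
      apply Subtype.ext
      simp [X]
    rwa [e] at h2
  have hY : ρ Y = ρ (b : O) := by
    rw [← sub_eq_zero, ← map_sub, IsLocalRing.residue_eq_zero_iff]
    obtain ⟨h1, h2⟩ := ValuationSubring.mem_nonunits_iff_exists_mem_maximalIdeal.1 hy
    have e : (⟨y - b, h1⟩ : O) = Y - (b : O) := by
      apply Subtype.ext
      simp [Y]
    rwa [e] at h2
  have hsub : ∀ u w : O, algebraMap O K (F.eval₂ (Polynomial.eval₂RingHom φ u) w) =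
      F.eval₂ (Polynomial.eval₂RingHom ((algebraMap ℂ K).comp (algebraMap OO ℂ)) (u : K)) (w : K) := by
    intro u w
    rw [Polynomial.hom_eval₂]
    have e : (algebraMap O K).comp (Polynomial.eval₂RingHom φ u) =
        Polynomial.eval₂RingHom ((algebraMap ℂ K).comp (algebraMap OO ℂ)) (u : K) := by
      apply Polynomial.ringHom_ext
      · intro c
        simp only [RingHom.comp_apply, Polynomial.coe_eval₂RingHom, Polynomial.eval₂_C]
        rfl
      · simp only [RingHom.comp_apply, Polynomial.coe_eval₂RingHom, Polynomial.eval₂_X]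
        rfl
    rw [e]
    rfl
  have hres : ∀ u w : O, ρ (F.eval₂ (Polynomial.eval₂RingHom φ u) w) =
      F.eval₂ (Polynomial.eval₂RingHom (ρ.comp φ) (ρ u)) (ρ w) := by
    intro u w
    rw [Polynomial.hom_eval₂]
    congr 1
    apply Polynomial.ringHom_ext
    · intro c
      simp only [RingHom.comp_apply, Polynomial.coe_eval₂RingHom, Polynomial.eval₂_C]
    · simp only [RingHom.comp_apply, Polynomial.coe_eval₂RingHom, Polynomial.eval₂_X]
  have h0 : F.eval₂ (Polynomial.eval₂RingHom φ X) Y = 0 := by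
    apply Subtype.ext
    exact (hsub X Y).trans h
  have h1 : ρ (F.eval₂ (Polynomial.eval₂RingHom φ (a : O)) (b : O)) = 0 := by
    rw [hres, ← hX, ← hY, ← hres, h0, map_zero]
  rw [IsLocalRing.residue_eq_zero_iff] at h1
  have h2 := hsub (a : O) (b : O)
  have h3 : algebraMap ℂ K (F.eval₂ (evO a) b) =
      F.eval₂ (Polynomial.eval₂RingHom ((algebraMap ℂ K).comp (algebraMap OO ℂ)) (((a : O)) : K)) ((b : O) : K) := by
    rw [Polynomial.hom_eval₂]
    have e : (algebraMap ℂ K).comp (evO a) =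
        Polynomial.eval₂RingHom ((algebraMap ℂ K).comp (algebraMap OO ℂ)) (((a : O)) : K) := by
      apply Polynomial.ringHom_ext
      · intro c
        simp [evO]
      · simp [evO]
    rw [e]
    simp
  rw [h3, ← h2]
  exact ValuationSubring.mem_nonunits_iff_exists_mem_maximalIdeal.2 ⟨_, h1⟩

/-- elements of `ℂ` in a valuation ring above an absolute value -/
lemma lt_of_nonunits {v : AbsoluteValue ℂ ℝ} (O : ValuationSubring K)
    (hO : ∀ z, v z ≤ 1 → algebraMap ℂ K z ∈ O) {z : ℂ} (hz : algebraMap ℂ K z ∈ O.nonunits) : v z < 1 := by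
  by_contra hcon
  push Not at hcon
  have hz0 : z ≠ 0 := by
    rintro rfl
    rw [map_zero] at hcon
    linarith
  have h1 : v z⁻¹ ≤ 1 := by
    rw [map_inv₀]
    exact inv_le_one_of_one_le₀ hcon
  have h2 := non_mul O (hO _ h1) hz
  rw [← map_mul, inv_mul_cancel₀ hz0, map_one, val_non, map_one] at h2
  exact lt_irrefl _ h2

/-- **the key inequality** -/
theorem key_aux_II {n k : ℕ} (S : SpecialData n) (x : Fin n → K) (a : Fin n → ℤ)
    (relK : ∀ (i j : Fin n) (s : Fin S.r), S.cls i = some s → S.cls j = some s →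
      ∃ (N : ℤ) (_ : Fact (0 < N)), (primPoly N).eval₂
        (Polynomial.eval₂RingHom ((algebraMap ℂ K).comp (algebraMap OO ℂ)) (x j)) (x i) = 0)
    (constK : ∀ i : Fin n, S.cls i = none → x i = algebraMap ℂ K (S.c i))
    {t : Type} [Fintype t] (idx : t → Fin n)
    (hK : AlgebraicIndependent ℂ (fun y : t => x (idx y)))
    (hpole : ∀ O₀ : ValuationSubring ℂ, ∃ O : ValuationSubring K, (∀ z ∈ O₀, algebraMap ℂ K z ∈ O) ∧
      (∀ z ∈ O₀.nonunits, algebraMap ℂ K z ∈ O.nonunits) ∧ ∀ y, x (idx y) ∉ O)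
    (P : Finset ℕ) (v : ℕ → AbsoluteValue ℂ ℝ) (O₀ : ℕ → ValuationSubring ℂ)
    (hO₀ : ∀ p ∈ P, ∀ z, z ∈ O₀ p ↔ v p z ≤ 1)
    (hnear : ∀ p ∈ P, ∀ O : ValuationSubring K, (∀ z ∈ O₀ p, algebraMap ℂ K z ∈ O) →
      (∀ z ∈ (O₀ p).nonunits, algebraMap ℂ K z ∈ O.nonunits) →
      ∃ T : Finset (Fin n), k ≤ T.card ∧ ∀ i ∈ T, x i - (a i : K) ∈ O.nonunits)
    (hpair : ∀ p ∈ P, ∀ i j, i ≠ j → ∀ (N : ℤ) [Fact (0 < N)], ¬ v p (Phi N (a j) (a i)) < 1)
    (hcm : ∀ p ∈ P, ∀ q ∈ P, p ≠ q → ∀ i c, IsSpecialPoint c → v p (c - a i) < 1 → v q (c - a i) < 1 → False)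
    (hP : n < P.card) : Fintype.card t + k ≤ S.r := by
  classical
  have hne : ∀ y : t, ∃ s, S.cls (idx y) = some s := by
    intro y
    rcases h : S.cls (idx y) with _ | s
    · exfalso
      have h1 := hK.transcendental y
      rw [constK _ h] at h1
      exact h1 (isAlgebraic_algebraMap _)
    · exact ⟨s, rfl⟩
  choose e he using hne
  have einj : Function.Injective e := by
    intro y y' hyy
    by_contra hcon
    obtain ⟨N, hN, hP2⟩ := relK (idx y) (idx y') (e y) (he y) (by rw [hyy]; exact he y')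
    have hPm := primPoly_monic N
    have h1 := hK.transcendental_adjoin (s := {y'}) (i := y) hcon
    apply h1
    set D := Algebra.adjoin ℂ ((fun y : t => x (idx y)) '' {y'}) with hD
    have hmemD : x (idx y') ∈ D := Algebra.subset_adjoin ⟨y', rfl, rfl⟩
    let ψ : Polynomial OO →+* D :=
      Polynomial.eval₂RingHom ((algebraMap ℂ D).comp (algebraMap OO ℂ)) ⟨x (idx y'), hmemD⟩
    refine IsIntegral.isAlgebraic ⟨(primPoly N).map ψ, hPm.map ψ, ?_⟩
    rw [Polynomial.eval₂_map]
    have h5 : (algebraMap D K).comp ψ =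
        Polynomial.eval₂RingHom ((algebraMap ℂ K).comp (algebraMap OO ℂ)) (x (idx y')) := by
      apply Polynomial.ringHom_ext
      · intro a
        simp only [ψ, RingHom.comp_apply, Polynomial.coe_eval₂RingHom, Polynomial.eval₂_C]
        rfl
      · simp only [ψ, RingHom.comp_apply, Polynomial.coe_eval₂RingHom, Polynomial.eval₂_X]
        rfl
    rw [h5]
    exact hP2
  by_contra hlt
  have hcard : Fintype.card {s : Fin S.r // s ∉ Set.range e} < k := by
    have h1 : Fintype.card {s : Fin S.r // s ∉ Set.range e} = S.r - Fintype.card t := by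
      rw [Fintype.card_subtype_compl, Fintype.card_fin]
      congr 1
      exact (Fintype.card_congr (Equiv.ofInjective e einj)).symm
    have h2 : Fintype.card t ≤ S.r := by
      have := Fintype.card_le_of_injective e einj
      simpa using this
    rw [h1]
    omega
  -- at every prime of `P` some constant coordinate is near
  have hmain : ∀ p ∈ P, ∃ i : Fin n, S.cls i = none ∧ v p (S.c i - a i) < 1 := by
    intro p hp
    obtain ⟨O, hO1, hO2, hxO⟩ := hpole (O₀ p)
    obtain ⟨T, hTk, hT⟩ := hnear p hp O hO1 hO2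
    by_contra hcon
    push Not at hcon
    have hv1 : ∀ z, v p z ≤ 1 → algebraMap ℂ K z ∈ O := fun z hz => hO1 z ((hO₀ p hp z).2 hz)
    have hint : ∀ a : ℤ, (a : K) ∈ O := fun a => intCast_mem O a
    have hcls : ∀ i ∈ T, ∃ s : {s : Fin S.r // s ∉ Set.range e}, S.cls i = some s.1 := by
      intro i hi
      have hin := hT i hi
      rcases h : S.cls i with _ | s
      · exfalso
        have h1 := hcon i h
        rw [constK i h] at hin
        have h2 : algebraMap ℂ K (S.c i - a i) ∈ O.nonunits := by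
          rw [map_sub, map_intCast]; exact hin
        exact absurd (lt_of_nonunits O hv1 h2) (not_lt.2 h1)
      · refine ⟨⟨s, ?_⟩, rfl⟩
        rintro ⟨y, rfl⟩
        have hxi : x i ∈ O := by
          have h1 := O.add_mem _ _ (O.nonunits_subset hin) (hint (a i))
          rwa [sub_add_cancel] at h1
        obtain ⟨N, hN, hP2⟩ := relK (idx y) i (e y) (he y) h
        exact hxO y (mem_of_rel O (primPoly_monic N) hxi hP2)
    have hcard2 : Fintype.card {s : Fin S.r // s ∉ Set.range e} < T.card := lt_of_lt_of_le hcard hTk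
    choose g hg using fun i : T => hcls i.1 i.2
    obtain ⟨i, j, hij, hgij⟩ := Fintype.exists_ne_map_eq_of_card_lt g (by rwa [Fintype.card_coe])
    have hij' : i.1 ≠ j.1 := fun h => hij (Subtype.ext h)
    obtain ⟨N, hN, hP2⟩ := relK i.1 j.1 (g i).1 (hg i) (by rw [hgij]; exact hg j)
    have h3 := rel_near O (primPoly N) (hT j.1 j.2) (hT i.1 i.2) hP2
    exact hpair p hp i.1 j.1 hij' N (lt_of_nonunits O hv1 h3)
  choose f hf using hmain
  obtain ⟨p, q, hpq, hfpq⟩ := Fintype.exists_ne_map_eq_of_card_lt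
    (fun p : P => f p.1 p.2) (by rw [Fintype.card_coe, Fintype.card_fin]; exact hP)
  have hpq' : p.1 ≠ q.1 := fun h => hpq (Subtype.ext h)
  have h1 := hf p.1 p.2
  have h2 := hf q.1 q.2
  have hfpq' : f p.1 p.2 = f q.1 q.2 := hfpq
  rw [← hfpq'] at h2
  exact hcm p.1 p.2 q.1 q.2 hpq' _ _ (S.hc _ h1.1) h1.2 h2.2

end

end Pool.Agent.II
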