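import Pool.Agent.Helper20.ZT.PrimRig

/-! # Kronecker's congruence, the product formula and the symmetry of the primitive modular
polynomial -/

open UpperHalfPlane ModularForm Complex Filter Function
open scoped Real MatrixGroups Topology Manifold

namespace Pool.Agent.II
open Pool.Agent.Helper11.ZP Pool.Agent.Helper20.ZT Pool.Agent.Helper20.ZT.Prim

/-! ### The coefficients of `Δ` and `E₄³` are integers -/

/-- power series with integral coefficients -/
noncomputable def intZ : Subring (PowerSeries ℂ) := (PowerSeries.map (Int.castRingHom ℂ)).range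

lemma mem_intZ {ψ : PowerSeries ℂ} (h : ψ ∈ intZ) (n : ℕ) : ∃ z : ℤ, PowerSeries.coeff n ψ = z := by
  obtain ⟨χ, rfl⟩ := h
  exact ⟨PowerSeries.coeff n χ, by simp⟩

lemma mk_nat_intZ (f : ℕ → ℕ) : PowerSeries.mk (fun n => ((f n : ℕ) : ℂ)) ∈ intZ := by
  refine ⟨PowerSeries.mk (fun n => ((f n : ℕ) : ℤ)), ?_⟩
  ext n
  simp

lemma eS_intZ : eS ∈ intZ := by
  unfold eS
  rw [qexp_Ecube, qexp_E4]
  exact pow_mem (add_mem (one_mem _) (mul_mem (by exact_mod_cast natCast_mem intZ 240) (mk_nat_intZ _))) 3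

lemma dS_intZ : dS ∈ intZ := by
  have hdvd := twelve_dvd
  choose t ht using hdvd
  have key : qExpansion 1 ModularForm.discriminant = PowerSeries.mk (fun n => ((t n : ℕ) : ℂ)) +
      100 * (PowerSeries.mk (fun n => ((ArithmeticFunction.sigma 3 n : ℕ) : ℂ))) ^ 2 +
      8000 * (PowerSeries.mk (fun n => ((ArithmeticFunction.sigma 3 n : ℕ) : ℂ))) ^ 3 -
      147 * (PowerSeries.mk (fun n => ((ArithmeticFunction.sigma 5 n : ℕ) : ℂ))) ^ 2 := by
    rw [qexp_disc_eq, qexp_E4, qexp_E6]
    set A := PowerSeries.mk (fun n => ((ArithmeticFunction.sigma 3 n : ℕ) : ℂ)) with hA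
    set B := PowerSeries.mk (fun n => ((ArithmeticFunction.sigma 5 n : ℕ) : ℂ)) with hB
    have hT : (12 : PowerSeries ℂ) * PowerSeries.mk (fun n => ((t n : ℕ) : ℂ)) = 5 * A + 7 * B := by
      ext n
      rw [show (12 : PowerSeries ℂ) = PowerSeries.C (12 : ℂ) from (map_ofNat PowerSeries.C 12).symm,
        show (5 : PowerSeries ℂ) = PowerSeries.C (5 : ℂ) from (map_ofNat PowerSeries.C 5).symm,
        show (7 : PowerSeries ℂ) = PowerSeries.C (7 : ℂ) from (map_ofNat PowerSeries.C 7).symm]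
      rw [map_add, PowerSeries.coeff_C_mul, PowerSeries.coeff_C_mul, PowerSeries.coeff_C_mul,
        hA, hB, PowerSeries.coeff_mk, PowerSeries.coeff_mk, PowerSeries.coeff_mk]
      have := ht n
      exact_mod_cast this.symm
    have h1728 : PowerSeries.C (1 / 1728 : ℂ) * 1728 = 1 := by
      rw [show (1728 : PowerSeries ℂ) = PowerSeries.C (1728 : ℂ) from (map_ofNat PowerSeries.C 1728).symm, ← map_mul]
      norm_num
    linear_combination (-12 * PowerSeries.C (1 / 1728 : ℂ) * 12) * hT +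
      (PowerSeries.mk (fun n => ((t n : ℕ) : ℂ)) + 100 * A ^ 2 + 8000 * A ^ 3 - 147 * B ^ 2) * h1728
  unfold dS
  rw [key]
  have hnat : ∀ n : ℕ, (n : PowerSeries ℂ) ∈ intZ := fun n => natCast_mem intZ n
  refine sub_mem (add_mem (add_mem (mk_nat_intZ _) (mul_mem (by exact_mod_cast hnat 100)
    (pow_mem (mk_nat_intZ _) 2))) (mul_mem (by exact_mod_cast hnat 8000) (pow_mem (mk_nat_intZ _) 3)))
    (mul_mem (by exact_mod_cast hnat 147) (pow_mem (mk_nat_intZ _) 2))

/-! ### Truncations modulo a prime above `p` -/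

section trunc
variable {k : Type*} [CommRing k] (φ : OO →+* k)

/-- the truncated series over `k` -/
noncomputable def trk (ψ : PowerSeries ℂ) (hψ : ψ ∈ intPS) (M : ℕ) : Polynomial k := (tr ψ hψ 1 1 M).map φ

lemma trk_coeff (ψ : PowerSeries ℂ) (hψ : ψ ∈ intPS) {M j : ℕ} (hj : j < M) :
    (trk φ ψ hψ M).coeff j = φ ⟨PowerSeries.coeff j ψ, hψ j⟩ := by
  rw [trk, Polynomial.coeff_map]
  congr 1
  apply Subtype.ext
  rw [tr_coeff _ _ _ one_pos hj, if_pos (one_dvd _), Nat.div_one]
  simp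

lemma trk_coeff_ge (ψ : PowerSeries ℂ) (hψ : ψ ∈ intPS) {M j : ℕ} (hj : M ≤ j) :
    (trk φ ψ hψ M).coeff j = 0 := by
  rw [trk, Polynomial.coeff_map, tr, Polynomial.finsetSum_coeff, Finset.sum_eq_zero, map_zero]
  intro i hi
  rw [Finset.mem_range] at hi
  rw [Polynomial.coeff_C_mul, Polynomial.coeff_X_pow, if_neg (by omega), mul_zero]

lemma tr_map (ψ : PowerSeries ℂ) (hψ : ψ ∈ intPS) {z : OO} (hz : φ z = 1) (n M : ℕ) :
    (tr ψ hψ z n M).map φ = Polynomial.expand k n (trk φ ψ hψ M) := by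
  rw [trk, tr, tr, Polynomial.map_sum, Polynomial.map_sum, map_sum]
  refine Finset.sum_congr rfl fun i _ => ?_
  simp only [Polynomial.map_mul, Polynomial.map_C, Polynomial.map_pow, Polynomial.map_X, map_mul,
    map_pow, hz, map_one, one_pow, mul_one, one_mul, Polynomial.expand_C, Polynomial.expand_X, pow_mul]

lemma frob_trk {p : ℕ} [Fact p.Prime] [CharP k p] {ψ : PowerSeries ℂ} (hψ : ψ ∈ intPS)
    (hZ : ψ ∈ intZ) (M : ℕ) : Polynomial.expand k p (trk φ ψ hψ M) = trk φ ψ hψ M ^ p := by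
  rw [← Polynomial.map_frobenius_expand (p := p), Polynomial.map_expand]
  congr 1
  ext j
  rw [Polynomial.coeff_map]
  rcases lt_or_ge j M with hj | hj
  · rw [trk_coeff φ ψ hψ hj]
    obtain ⟨z, hz⟩ := mem_intZ hZ j
    have h1 : (⟨PowerSeries.coeff j ψ, hψ j⟩ : OO) = (z : OO) := by
      apply Subtype.ext
      change PowerSeries.coeff j ψ = ((z : OO) : ℂ)
      rw [hz]
      simp
    rw [h1, map_intCast, map_intCast]
  · rw [trk_coeff_ge φ ψ hψ hj, map_zero]

end trunc

/-! ### Homogenization -/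

section hom
variable {k : Type*} [CommRing k]

/-- the form of degree `N` attached to a polynomial of degree at most `N`, evaluated at `(A, B)` -/
noncomputable def homo (A B : Polynomial k) (N : ℕ) (f : Polynomial k) : Polynomial k :=
  ∑ l ∈ Finset.range (N + 1), Polynomial.C (f.coeff l) * (A ^ l * B ^ (N - l))

lemma homo_sub (A B : Polynomial k) (N : ℕ) (f g : Polynomial k) :
    homo A B N (f - g) = homo A B N f - homo A B N g := by
  rw [homo, homo, homo, ← Finset.sum_sub_distrib]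
  refine Finset.sum_congr rfl fun l _ => ?_
  rw [Polynomial.coeff_sub, Polynomial.C_sub, sub_mul]

lemma homo_X_pow (A B : Polynomial k) {N n : ℕ} (hn : n ≤ N) :
    homo A B N (Polynomial.X ^ n) = A ^ n * B ^ (N - n) := by
  rw [homo, Finset.sum_eq_single n]
  · rw [Polynomial.coeff_X_pow_self, Polynomial.C_1, one_mul]
  · intro b _ hb
    rw [Polynomial.coeff_X_pow, if_neg hb, Polynomial.C_0, zero_mul]
  · intro h
    exact absurd (Finset.mem_range.2 (by omega)) h

lemma homo_zero (A B : Polynomial k) (N : ℕ) : homo A B N 0 = 0 := by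
  rw [homo, Finset.sum_eq_zero]
  intro l _
  rw [Polynomial.coeff_zero, Polynomial.C_0, zero_mul]

lemma homo_succ (A B : Polynomial k) (N : ℕ) (f : Polynomial k) :
    homo A B (N + 1) f = B * homo A B N f + Polynomial.C (f.coeff (N + 1)) * A ^ (N + 1) := by
  rw [homo, Finset.sum_range_succ, homo, Finset.mul_sum, Nat.sub_self, pow_zero, mul_one]
  congr 1
  refine Finset.sum_congr rfl fun l hl => ?_
  rw [Finset.mem_range] at hl
  rw [show N + 1 - l = (N - l) + 1 by omega, pow_succ]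
  ring

lemma homo_inj [IsDomain k] {A B' : Polynomial k} (hA : A.coeff 0 = 1) (hB' : B'.coeff 0 = 1) {q : ℕ}
    (hq : 0 < q) (f : Polynomial k) : ∀ N M : ℕ, q * N < M →
    Polynomial.X ^ M ∣ homo A (Polynomial.X ^ q * B') N f → ∀ l ≤ N, f.coeff l = 0 := by
  intro N
  induction N with
  | zero =>
    intro M hM h l hl
    obtain rfl : l = 0 := by omega
    rw [homo, zero_add, Finset.sum_range_one, pow_zero, Nat.sub_self, pow_zero, mul_one, mul_one] at h
    obtain ⟨M', rfl⟩ : ∃ M', M = M' + 1 := ⟨M - 1, by omega⟩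
    have h1 := (Polynomial.X_pow_dvd_iff.1 h) 0 (by omega)
    rwa [Polynomial.coeff_C_zero] at h1
  | succ N ih =>
    intro M hM h
    rw [homo_succ] at h
    have h0 := (Polynomial.X_pow_dvd_iff.1 h) 0 (by omega)
    have h1 : f.coeff (N + 1) = 0 := by
      rw [Polynomial.coeff_add, Polynomial.mul_coeff_zero, Polynomial.mul_coeff_zero,
        Polynomial.mul_coeff_zero, Polynomial.coeff_X_pow, if_neg (by omega), Polynomial.coeff_C_zero] at h0
      have h2 : (A ^ (N + 1)).coeff 0 = 1 := by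
        rw [Polynomial.coeff_zero_eq_eval_zero, Polynomial.eval_pow, ← Polynomial.coeff_zero_eq_eval_zero,
          hA, one_pow]
      rw [h2] at h0
      linear_combination h0
    rw [h1, Polynomial.C_0, zero_mul, add_zero] at h
    obtain ⟨M', rfl⟩ : ∃ M', M = q + M' := ⟨M - q, by
      have : q ≤ q * (N + 1) := Nat.le_mul_of_pos_right _ (by omega)
      omega⟩
    rw [pow_add, mul_assoc] at h
    have h2 : (Polynomial.X : Polynomial k) ^ M' ∣ B' * homo A (Polynomial.X ^ q * B') N f :=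
      (mul_dvd_mul_iff_left (pow_ne_zero q Polynomial.X_ne_zero)).1 h
    have hco : IsCoprime ((Polynomial.X : Polynomial k) ^ M') B' := by
      apply IsCoprime.pow_left
      refine ⟨-B'.divX, 1, ?_⟩
      have h3 := Polynomial.X_mul_divX_add B'
      rw [hB', Polynomial.C_1] at h3
      linear_combination -h3
    have h3 := hco.dvd_of_dvd_mul_left h2
    have h4 := ih M' (by
      have : q * (N + 1) = q * N + q := by ring
      omega) h3
    intro l hl
    rcases Nat.lt_or_ge l (N + 1) with h5 | h5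
    · exact h4 l (by omega)
    · rw [show l = N + 1 by omega]; exact h1

end hom


/-! ### The orbits of the matrices of prime determinant -/

section orbits
variable (m : ℤ) [hm : Fact (0 < m)] (T : Finset (Orb m))

/-- the sum of the exponents -/
lemma sum_ko (hT : Stable m T) : ∑ o ∈ T, ko m o = T.card * m.toNat := by
  obtain ⟨c, hc⟩ := ppT_top hT
  have hg : ∀ τ, gT m T T.card τ = ModularForm.discriminant τ ^ T.card * (c : ℂ) := by
    intro τ
    rw [ppT_eval hT, hc, Polynomial.eval₂_C]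
    rfl
  have hc0 : (c : ℂ) ≠ 0 := by
    intro h
    apply gT_top_ne_zero m T UpperHalfPlane.I
    rw [hg, h, mul_zero]
  have e1 : qe (mpos m) ((PPT m T).coeff T.card).1 = ∏ o ∈ T, qe (mpos m) (dI m o).1 := by
    rw [PPT_coeff_top]
    have : ((∏ o ∈ T, dI m o : RR m) : goodRing (m : ℝ)) = ∏ o ∈ T, (dI m o : goodRing (m : ℝ)) :=
      map_prod (RR m).subtype _ _
    rw [this, map_prod]
  have l1 : Lowest (qe (mpos m) ((PPT m T).coeff T.card).1) (∑ o ∈ T, ((U m o).1 0 0).toNat ^ 2 * 1)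
      (∏ o ∈ T, 1 * zt (U m o) ^ 1) := by
    rw [e1]
    exact Lowest.prod _ _ _ _ fun o _ => comp_lowest m isMF_disc.good qexp_disc_mem qexp_disc_lowest o
  have hconst : Good (m : ℝ) (fun _ : ℍ => (c : ℂ)) := Good.const _
  have e2 : ((PPT m T).coeff T.card).1 = (dJ m) ^ T.card * ⟨fun _ => (c : ℂ), hconst⟩ := by
    apply Subtype.ext
    funext τ
    exact hg τ
  have l2 : Lowest (qe (mpos m) (⟨fun _ => (c : ℂ), hconst⟩ : goodRing (m : ℝ))) 0 (c : ℂ) := by
    refine ⟨fun i hi => absurd hi (by omega), ?_⟩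
    have h1 := (Good.const (h := (m : ℝ)) 1).analytic (mpos m)
    have h2 := qExpansion_smul (f := (1 : ℍ → ℂ)) h1 (c : ℂ)
    have h3 : (fun _ : ℍ => (c : ℂ)) = (c : ℂ) • (1 : ℍ → ℂ) := by funext τ; simp
    change (PowerSeries.coeff 0) (qExpansion (m : ℝ) (fun _ : ℍ => (c : ℂ))) = _
    rw [h3, h2, qExpansion_one]
    simp
  have l3 := ((dJ_lowest m).pow T.card).mul l2
  rw [← map_pow, ← map_mul, ← e2] at l3
  simp only [one_mul, pow_one, mul_one, one_pow, add_zero] at l1 l3
  have hz : (∏ o ∈ T, zt (U m o)) ≠ 0 :=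
    (IsUnitInt.prod _ _ fun o _ => isUnitInt_zt (U m o) (U10 m o) (U00 m o)).2.2
  obtain ⟨h, _⟩ := l3.unique l1 hc0 hz
  exact h.symm

end orbits

section prime
variable (p : ℕ) [hp : Fact p.Prime]

instance factPos : Fact (0 < (p : ℤ)) := ⟨by exact_mod_cast hp.out.pos⟩

/-- the two kinds of orbits -/
lemma U00_cases (o : Orb (p : ℤ)) : ((U (p : ℤ) o).1 0 0 = 1 ∧ (U (p : ℤ) o).1 1 1 = p) ∨
    ((U (p : ℤ) o).1 = !![(p : ℤ), 0; 0, 1]) := by
  have ha := U00 (p : ℤ) o
  have hd := d_pos (U (p : ℤ) o) (U10 (p : ℤ) o) (U00 (p : ℤ) o)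
  have had := ad_eq (U (p : ℤ) o) (U10 (p : ℤ) o)
  obtain ⟨h5, h6⟩ := U_lt (p : ℤ) o
  have h10 := U10 (p : ℤ) o
  obtain ⟨a, hae⟩ := Int.eq_ofNat_of_zero_le ha.le
  obtain ⟨d, hde⟩ := Int.eq_ofNat_of_zero_le hd.le
  have had' : a * d = p := by
    rw [hae, hde] at had
    exact_mod_cast had
  rcases (Nat.dvd_prime hp.out).1 (Dvd.intro _ had') with h | h
  · left
    subst h
    rw [one_mul] at had'
    subst had'
    exact ⟨by rw [hae]; simp, hde⟩
  · right
    subst h
    have hd1 : d = 1 := by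
      have := hp.out.pos
      exact Nat.eq_of_mul_eq_mul_left this (by rw [had', mul_one])
    subst hd1
    have hb : (U ((a : ℕ) : ℤ) o).1 0 1 = 0 := by
      rw [hde] at h6
      have h7 : |(U ((a : ℕ) : ℤ) o).1 0 1| < 1 := by simpa using h6
      exact Int.abs_lt_one_iff.1 h7
    ext i j
    fin_cases i <;> fin_cases j
    · simpa using hae
    · simpa using hb
    · simpa using h10
    · simpa using hde

lemma ko_cases (o : Orb (p : ℤ)) : (ko (p : ℤ) o = 1 ∧ zo (p : ℤ) o ^ p = 1) ∨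
    (ko (p : ℤ) o = p ^ 2 ∧ zo (p : ℤ) o = 1) := by
  rcases U00_cases p o with ⟨h1, h2⟩ | h
  · left
    refine ⟨by rw [ko, h1]; rfl, ?_⟩
    apply Subtype.ext
    change zt (U (p : ℤ) o) ^ p = 1
    rw [zt, h2, ← Complex.exp_nat_mul, Complex.exp_eq_one_iff]
    refine ⟨(U (p : ℤ) o).1 0 1, ?_⟩
    have : ((p : ℤ) : ℂ) ≠ 0 := by exact_mod_cast hp.out.ne_zero
    have h3 : ((p : ℕ) : ℂ) = ((p : ℤ) : ℂ) := by push_cast; rfl
    rw [h3]
    field_simp
  · right
    refine ⟨by rw [ko, h]; simp, ?_⟩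
    apply Subtype.ext
    change zt (U (p : ℤ) o) = 1
    rw [zt, h]
    simp

lemma ko_unique {o o' : Orb (p : ℤ)} (h : ko (p : ℤ) o ≠ 1) (h' : ko (p : ℤ) o' ≠ 1) : o = o' := by
  rcases U00_cases p o with ⟨h1, h2⟩ | h1
  · exact absurd (by rw [ko, h1]; rfl) h
  rcases U00_cases p o' with ⟨h2, h3⟩ | h2
  · exact absurd (by rw [ko, h2]; rfl) h'
  have hU : U (p : ℤ) o = U (p : ℤ) o' := by
    apply FixedDetMatrices.ext'
    rw [h1, h2]
  rw [← mkO_U (p : ℤ) o, ← mkO_U (p : ℤ) o', hU]

/-- the matrix `(p, 0; 0, 1)` -/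
def pOne : DM (p : ℤ) := ⟨!![(p : ℤ), 0; 0, 1], by simp [Matrix.det_fin_two]⟩

omit hp in
lemma pOne_prim : IsPrim (pOne p) := by
  intro k hk
  have := hk 1 1
  simpa [pOne] using this

open Classical in
lemma card_filter : ((TP (p : ℤ)).filter fun o => ko (p : ℤ) o ≠ 1).card = 1 ∧
    ((TP (p : ℤ)).filter fun o => ko (p : ℤ) o = 1).card = p := by
  set T := TP (p : ℤ) with hTd
  set n1 := (T.filter fun o => ko (p : ℤ) o ≠ 1).card with hn1
  set n2 := (T.filter fun o => ko (p : ℤ) o = 1).card with hn2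
  have hcard : n2 + n1 = T.card := Finset.card_filter_add_card_filter_not _
  have hsum := sum_ko (p : ℤ) T (TP_stable (p : ℤ))
  rw [← Finset.sum_filter_add_sum_filter_not T (fun o => ko (p : ℤ) o = 1),
    Finset.sum_congr rfl (g := fun _ => 1) (fun o ho => (Finset.mem_filter.1 ho).2), Finset.sum_const,
    Finset.sum_congr rfl (g := fun _ => p ^ 2) (fun o ho => ?_), Finset.sum_const] at hsum
  swap
  · rcases ko_cases p o with h | h
    · exact absurd h.1 (Finset.mem_filter.1 ho).2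
    · exact h.1
  rw [smul_eq_mul, smul_eq_mul, mul_one, ← hn2, Int.toNat_natCast, ← hcard] at hsum
  change n2 + n1 * p ^ 2 = (n2 + n1) * p at hsum
  have hp2 := hp.out.two_le
  have h3 : n2 = n1 * p := by
    obtain ⟨q, rfl⟩ : ∃ q, p = q + 1 := ⟨p - 1, by omega⟩
    have h4 : n1 * (q + 1) * q = n2 * q := by nlinarith
    exact (Nat.eq_of_mul_eq_mul_right (by omega) h4).symm
  have hle : n1 ≤ 1 := by
    rw [hn1, Finset.card_le_one]
    intro a ha b hb
    exact ko_unique p (Finset.mem_filter.1 ha).2 (Finset.mem_filter.1 hb).2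
  have hpos : 0 < T.card := Finset.card_pos.2 ⟨_, mem_TP (p : ℤ) (pOne_prim p)⟩
  have hn : n1 = 1 := by
    rcases Nat.eq_zero_or_pos n1 with h | h
    · rw [h] at h3; omega
    · omega
  exact ⟨hn, by rw [h3, hn, one_mul]⟩

lemma card_TP : (TP (p : ℤ)).card = p + 1 := by
  classical
  obtain ⟨h1, h2⟩ := card_filter p
  rw [← Finset.card_filter_add_card_filter_not (s := TP (p : ℤ)) (fun o => ko (p : ℤ) o = 1), h2]
  change p + ((TP (p : ℤ)).filter fun o => ko (p : ℤ) o ≠ 1).card = p + 1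
  rw [h1]

end prime


/-! ### Kronecker's congruence -/

section kron
variable (p : ℕ) [hp : Fact p.Prime] {k : Type*} [CommRing k] [IsDomain k] [CharP k p] (φ : OO →+* k)

lemma phi_root {z : OO} (hz : z ^ p = 1) : φ z = 1 := by
  have h1 : (φ z - 1) ^ p = 0 := by
    rw [sub_pow_char, ← map_pow, hz, map_one, one_pow, sub_self]
  exact sub_eq_zero.1 (pow_eq_zero_iff hp.out.ne_zero |>.1 h1)

lemma map_tr_ko {ψ : PowerSeries ℂ} (hψ : ψ ∈ intPS) (hZ : ψ ∈ intZ) (M : ℕ) (o : Orb (p : ℤ)) :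
    (tr ψ hψ (zo (p : ℤ) o) (ko (p : ℤ) o) M).map φ =
      if ko (p : ℤ) o = 1 then trk φ ψ hψ M else trk φ ψ hψ M ^ (p ^ 2) := by
  rcases ko_cases p o with ⟨h1, h2⟩ | ⟨h1, h2⟩
  · rw [if_pos h1, tr_map φ ψ hψ (phi_root p φ h2), h1, Polynomial.expand_one]
  · have hp1 : p ^ 2 ≠ 1 := by
      have := hp.out.two_le
      nlinarith
    rw [if_neg (by rwa [h1]), tr_map φ ψ hψ (by rw [h2, map_one]), h1, pow_two, ← Polynomial.expand_expand,
      frob_trk φ hψ hZ, map_pow, frob_trk φ hψ hZ, ← pow_mul]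

/-- the reduced polynomial -/
noncomputable def kro (k : Type*) [CommRing k] (p : ℕ) : Polynomial (Polynomial k) :=
  (Polynomial.X ^ p - Polynomial.C Polynomial.X) * (Polynomial.X - Polynomial.C (Polynomial.X ^ p))

lemma kro_coeff (k : Type*) [CommRing k] (p i : ℕ) : (kro k p).coeff i =
    (if i = p + 1 then 1 else 0) - (if i = 1 then Polynomial.X else 0) -
      (if i = p then Polynomial.X ^ p else 0) + (if i = 0 then Polynomial.X ^ (p + 1) else 0) := by
  have h : kro k p = Polynomial.X ^ (p + 1) - Polynomial.C Polynomial.X * Polynomial.X ^ 1 -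
      Polynomial.C (Polynomial.X ^ p) * Polynomial.X ^ p + Polynomial.C (Polynomial.X ^ (p + 1)) * Polynomial.X ^ 0 := by
    rw [kro, pow_one, pow_zero, mul_one, pow_succ Polynomial.X p, pow_succ Polynomial.X p,
      Polynomial.C_mul]
    ring
  rw [h]
  simp only [Polynomial.coeff_add, Polynomial.coeff_sub, Polynomial.coeff_C_mul, Polynomial.coeff_X_pow,
    mul_ite, mul_one, mul_zero]

omit [IsDomain k] [CharP k p] in
lemma ppT_natDegree_map (i : ℕ) :
    ((ppT (TP_stable (p : ℤ)) i).map φ).natDegree ≤ p + 1 :=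
  (Polynomial.natDegree_map_le).trans ((ppT_deg _ i).trans (card_TP p).le)

omit [IsDomain k] [CharP k p] hp in
lemma kro_coeff_ge (i l : ℕ) (hl : p + 1 < l) (hp0 : 0 < p) : ((kro k p).coeff i).coeff l = 0 := by
  rw [kro_coeff]
  simp only [Polynomial.coeff_add, Polynomial.coeff_sub]
  have e1 : (if i = p + 1 then (1 : Polynomial k) else 0).coeff l = 0 := by
    split_ifs
    · rw [Polynomial.coeff_one, if_neg (by omega)]
    · exact Polynomial.coeff_zero _
  have e2 : (if i = 1 then (Polynomial.X : Polynomial k) else 0).coeff l = 0 := by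
    split_ifs
    · rw [Polynomial.coeff_X, if_neg (by omega)]
    · exact Polynomial.coeff_zero _
  have e3 : (if i = p then (Polynomial.X : Polynomial k) ^ p else 0).coeff l = 0 := by
    split_ifs
    · rw [Polynomial.coeff_X_pow, if_neg (by omega)]
    · exact Polynomial.coeff_zero _
  have e4 : (if i = 0 then (Polynomial.X : Polynomial k) ^ (p + 1) else 0).coeff l = 0 := by
    split_ifs
    · rw [Polynomial.coeff_X_pow, if_neg (by omega)]
    · exact Polynomial.coeff_zero _
  rw [e1, e2, e3, e4]; ring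

omit [CharP k p] in
lemma concl {M : ℕ} (hM : p * (p + 1) < M) {D E f : Polynomial k} (hD0 : D.coeff 0 = 0)
    (hD1 : D.coeff 1 = 1) (hE0 : E.coeff 0 = 1)
    (hd : Polynomial.X ^ M ∣ homo (E ^ p) (D ^ p) (p + 1) f) : ∀ l ≤ p + 1, f.coeff l = 0 := by
  have hDX : D ^ p = Polynomial.X ^ p * D.divX ^ p := by
    rw [← mul_pow]
    congr 1
    have h3 := Polynomial.X_mul_divX_add D
    rw [hD0, Polynomial.C_0, add_zero] at h3
    exact h3.symm
  have hc0 : ∀ (f : Polynomial k) (n : ℕ), f.coeff 0 = 1 → (f ^ n).coeff 0 = 1 := by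
    intro f n hf
    rw [Polynomial.coeff_zero_eq_eval_zero, Polynomial.eval_pow, ← Polynomial.coeff_zero_eq_eval_zero,
      hf, one_pow]
  rw [hDX] at hd
  have h1 : (D.divX ^ p).coeff 0 = 1 := hc0 D.divX p (by rw [Polynomial.coeff_divX, zero_add, hD1])
  exact homo_inj (hc0 E p hE0) h1 hp.out.pos f (p + 1) M hM hd

/-- the congruence of the truncated equation -/
theorem dvd_homo (i : ℕ) (hi : i ≤ p + 1) (M : ℕ) : Polynomial.X ^ M ∣
    homo (trk φ eS qexp_Ecube_mem M ^ p) (trk φ dS qexp_disc_mem M ^ p) (p + 1)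
      ((ppT (TP_stable (p : ℤ)) i).map φ - (kro k p).coeff i) := by
  classical
  have hT := TP_stable (p : ℤ)
  have hcard := card_TP p
  set D := trk φ dS qexp_disc_mem M with hD
  set E := trk φ eS qexp_Ecube_mem M with hE
  -- the left side
  have hL : ((LHT hT M).coeff i).map φ = homo (E ^ p) (D ^ p) (p + 1) ((ppT hT i).map φ) := by
    have h1 : (LHT hT M).coeff i = ∑ l ∈ Finset.range (p + 1 + 1),
      Polynomial.C ((ppT hT i).coeff l) * (tr eS qexp_Ecube_mem 1 (p : ℤ).toNat M ^ l *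
      tr dS qexp_disc_mem 1 (p : ℤ).toNat M ^ (p + 1 - l)) := by
      rw [LHT, Polynomial.finsetSum_coeff]
      simp only [Polynomial.coeff_C_mul, Polynomial.coeff_X_pow, mul_ite, mul_one, mul_zero]
      rw [Finset.sum_ite_eq, if_pos (Finset.mem_range.2 (by omega)), hcard]
    rw [h1, Polynomial.map_sum, homo]
    refine Finset.sum_congr rfl fun l _ => ?_
    rw [Polynomial.map_mul, Polynomial.map_mul, Polynomial.map_pow, Polynomial.map_pow, Polynomial.map_C,
      tr_map φ eS qexp_Ecube_mem (map_one φ), tr_map φ dS qexp_disc_mem (map_one φ), Int.toNat_natCast,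
      frob_trk φ qexp_Ecube_mem eS_intZ, frob_trk φ qexp_disc_mem dS_intZ, Polynomial.coeff_map]
  -- the right side
  have hR0 : (RHT (p : ℤ) (TP (p : ℤ)) M).map (Polynomial.mapRingHom φ) =
      (Polynomial.C (D ^ p ^ 2) * Polynomial.X - Polynomial.C (E ^ p ^ 2)) *
        (Polynomial.C D * Polynomial.X - Polynomial.C E) ^ p := by
    rw [RHT, Polynomial.map_prod]
    have h1 : ∀ o ∈ TP (p : ℤ), (Polynomial.C (tr dS qexp_disc_mem (zo (p : ℤ) o) (ko (p : ℤ) o) M) *
        Polynomial.X - Polynomial.C (tr eS qexp_Ecube_mem (zo (p : ℤ) o) (ko (p : ℤ) o) M)).map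
          (Polynomial.mapRingHom φ) = if ko (p : ℤ) o = 1 then
          (Polynomial.C D * Polynomial.X - Polynomial.C E) else
          (Polynomial.C (D ^ p ^ 2) * Polynomial.X - Polynomial.C (E ^ p ^ 2)) := by
      intro o _
      rw [Polynomial.map_sub, Polynomial.map_mul, Polynomial.map_C, Polynomial.map_C, Polynomial.map_X,
        Polynomial.coe_mapRingHom, map_tr_ko p φ qexp_disc_mem dS_intZ, map_tr_ko p φ qexp_Ecube_mem eS_intZ]
      split_ifs <;> rfl
    rw [Finset.prod_congr rfl h1, Finset.prod_ite, Finset.prod_const, Finset.prod_const,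
      (card_filter p).2, mul_comm]
    congr 1
    have h2 := (card_filter p).1
    change _ ^ ((TP (p : ℤ)).filter fun o => ko (p : ℤ) o ≠ 1).card = _
    rw [h2, pow_one]
  have hR1 : (Polynomial.C D * Polynomial.X - Polynomial.C E) ^ p =
      Polynomial.C (D ^ p) * Polynomial.X ^ p - Polynomial.C (E ^ p) := by
    rw [sub_pow_char, mul_pow, ← Polynomial.C_pow, ← Polynomial.C_pow]
  have hR : ((RHT (p : ℤ) (TP (p : ℤ)) M).coeff i).map φ =
      homo (E ^ p) (D ^ p) (p + 1) ((kro k p).coeff i) := by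
    have h1 := congrArg (fun P => Polynomial.coeff P i) hR0
    rw [Polynomial.coeff_map] at h1
    change ((RHT (p : ℤ) (TP (p : ℤ)) M).coeff i).map φ = _ at h1
    rw [h1, hR1]
    have h2 : (Polynomial.C (D ^ p ^ 2) * Polynomial.X - Polynomial.C (E ^ p ^ 2)) *
        (Polynomial.C (D ^ p) * Polynomial.X ^ p - Polynomial.C (E ^ p)) =
        Polynomial.C ((D ^ p) ^ (p + 1)) * Polynomial.X ^ (p + 1) -
        Polynomial.C ((D ^ p) ^ p * E ^ p) * Polynomial.X ^ 1 -
        Polynomial.C ((E ^ p) ^ p * D ^ p) * Polynomial.X ^ p +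
        Polynomial.C ((E ^ p) ^ (p + 1)) * Polynomial.X ^ 0 := by
      rw [pow_two, pow_mul, pow_mul E]
      simp only [Polynomial.C_mul, Polynomial.C_pow, pow_succ]
      ring
    rw [h2, kro_coeff]
    simp only [Polynomial.coeff_add, Polynomial.coeff_sub, Polynomial.coeff_C_mul, Polynomial.coeff_X_pow,
      mul_ite, mul_one, mul_zero]
    have hx0 := homo_X_pow (E ^ p) (D ^ p) (N := p + 1) (n := 0) (by omega)
    have hx1 := homo_X_pow (E ^ p) (D ^ p) (N := p + 1) (n := 1) (by omega)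
    have hxp := homo_X_pow (E ^ p) (D ^ p) (N := p + 1) (n := p) (by omega)
    have hxq := homo_X_pow (E ^ p) (D ^ p) (N := p + 1) (n := p + 1) (by omega)
    rw [pow_zero, pow_zero, one_mul, Nat.sub_zero] at hx0
    rw [pow_one, pow_one, Nat.add_sub_cancel] at hx1
    rw [show p + 1 - p = 1 by omega, pow_one] at hxp
    rw [Nat.sub_self, pow_zero, mul_one] at hxq
    have hadd : ∀ f g : Polynomial k, homo (E ^ p) (D ^ p) (p + 1) (f + g) =
        homo (E ^ p) (D ^ p) (p + 1) f + homo (E ^ p) (D ^ p) (p + 1) g := by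
      intro f g
      have h := homo_sub (E ^ p) (D ^ p) (p + 1) (f + g) g
      rw [add_sub_cancel_right] at h
      rw [h]; ring
    rw [hadd, homo_sub, homo_sub]
    have hz := homo_zero (E ^ p) (D ^ p) (p + 1)
    split_ifs <;> simp only [hx0, hx1, hxp, hxq, hz] <;> ring
  have hd := Polynomial.map_dvd φ (dvd_diffT hT M i)
  rw [Polynomial.map_pow, Polynomial.map_X, Polynomial.map_sub, hL, hR, ← homo_sub] at hd
  exact hd

/-- **Kronecker's congruence** for the polynomials `ppT` -/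
theorem ppT_map (i : ℕ) (hi : i ≤ p + 1) : (ppT (TP_stable (p : ℤ)) i).map φ = (kro k p).coeff i := by
  have hp2 := hp.out.two_le
  obtain ⟨M, hM, hM2⟩ : ∃ M, p * (p + 1) < M ∧ 2 < M := ⟨p * (p + 1) + 3, by omega, by omega⟩
  have hd := dvd_homo p φ i hi M
  have hD0 : (trk φ dS qexp_disc_mem M).coeff 0 = 0 := by
    rw [trk_coeff φ _ _ (by omega)]
    have : (⟨PowerSeries.coeff 0 dS, qexp_disc_mem 0⟩ : OO) = 0 := Subtype.ext dS_zero
    rw [this, map_zero]
  have hD1 : (trk φ dS qexp_disc_mem M).coeff 1 = 1 := by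
    rw [trk_coeff φ _ _ (by omega)]
    have : (⟨PowerSeries.coeff 1 dS, qexp_disc_mem 1⟩ : OO) = 1 := Subtype.ext dS_one
    rw [this, map_one]
  have hE0 : (trk φ eS qexp_Ecube_mem M).coeff 0 = 1 := by
    rw [trk_coeff φ _ _ (by omega)]
    have : (⟨PowerSeries.coeff 0 eS, qexp_Ecube_mem 0⟩ : OO) = 1 := Subtype.ext eS_zero
    rw [this, map_one]
  have key := concl p hM hD0 hD1 hE0 hd
  ext l
  rcases Nat.lt_or_ge (p + 1) l with hl | hl
  · rw [Polynomial.coeff_eq_zero_of_natDegree_lt ((ppT_natDegree_map p φ i).trans_lt hl),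
      kro_coeff_ge p i l hl (by omega)]
  · have := key l hl
    rw [Polynomial.coeff_sub] at this
    exact sub_eq_zero.1 this

/-- **Kronecker's congruence** for the primitive modular polynomial of prime level: over a domain of
characteristic `p` it is `(Y ^ p - X) (Y - X ^ p)`. -/
theorem primPoly_map : (primPoly (p : ℤ)).map (Polynomial.mapRingHom φ) = kro k p := by
  have hT := TP_stable (p : ℤ)
  have hcard := card_TP p
  have hp2 := hp.out.two_le
  obtain ⟨⟨hc, hc', hc0⟩, hg⟩ := (ppT_top_unit (TP_stable (p : ℤ))).choose_spec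
  have hcc : ppT hT (TP (p : ℤ)).card = Polynomial.C (⟨(ppT_top_unit (TP_stable (p : ℤ))).choose, hc⟩ : OO) := by
    obtain ⟨c₁, hc₁⟩ := ppT_top hT
    rw [hc₁]
    congr 1
    apply Subtype.ext
    have h1 := ppT_eval hT (TP (p : ℤ)).card UpperHalfPlane.I
    rw [hg, hc₁, Polynomial.eval₂_C] at h1
    exact (mul_left_cancel₀ (pow_ne_zero _ (discriminant_ne_zero _)) h1).symm
  have hφc : φ (⟨(ppT_top_unit (TP_stable (p : ℤ))).choose, hc⟩ : OO) = 1 := by
    have h1 := ppT_map p φ (p + 1) le_rfl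
    have h2 : ppT hT (p + 1) = ppT hT (TP (p : ℤ)).card := by rw [hcard]
    rw [h2, hcc, Polynomial.map_C, kro_coeff, if_pos rfl, if_neg (by omega), if_neg (by omega),
      if_neg (by omega), sub_zero, sub_zero, add_zero] at h1
    exact Polynomial.C_injective (h1.trans Polynomial.C_1.symm)
  have hφc' : φ (⟨((ppT_top_unit (TP_stable (p : ℤ))).choose)⁻¹, hc'⟩ : OO) = 1 := by
    have h1 : (⟨(ppT_top_unit (TP_stable (p : ℤ))).choose, hc⟩ : OO) *
        (⟨((ppT_top_unit (TP_stable (p : ℤ))).choose)⁻¹, hc'⟩ : OO) = 1 :=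
      Subtype.ext (mul_inv_cancel₀ hc0)
    have h2 := congrArg φ h1
    rwa [map_mul, hφc, one_mul, map_one] at h2
  ext i : 1
  rw [Polynomial.coeff_map, primPoly, Polynomial.coeff_add, Polynomial.finsetSum_coeff, map_add, map_sum]
  simp only [Polynomial.coeff_C_mul, Polynomial.coeff_X_pow, mul_ite, mul_one, mul_zero]
  rcases lt_trichotomy i (p + 1) with hi | hi | hi
  · rw [if_neg (by omega), map_zero, zero_add, Finset.sum_eq_single i, if_pos rfl, map_mul,
      Polynomial.coe_mapRingHom, Polynomial.map_C, hφc', Polynomial.C_1, one_mul, ppT_map p φ i hi.le]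
    · intro b _ hb
      rw [if_neg (Ne.symm hb), map_zero]
    · intro h
      exact absurd (Finset.mem_range.2 (by omega)) h
  · rw [if_pos (by omega), map_one, Finset.sum_eq_zero, add_zero, hi, kro_coeff, if_pos rfl,
      if_neg (by omega), if_neg (by omega), if_neg (by omega), sub_zero, sub_zero, add_zero]
    intro b hb
    rw [Finset.mem_range] at hb
    rw [if_neg (by omega), map_zero]
  · rw [if_neg (by omega), map_zero, zero_add, Finset.sum_eq_zero, kro_coeff, if_neg (by omega),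
      if_neg (by omega), if_neg (by omega), if_neg (by omega)]
    · ring
    intro b hb
    rw [Finset.mem_range] at hb
    rw [if_neg (by omega), map_zero]

end kron

/-! ### The product formula -/

section prodf
variable (m : ℤ) [hm : Fact (0 < m)]

omit hm in
/-- `j` is invariant under `SL(2, ℤ)` -/
lemma jInv_smulZ (γ : SL(2, ℤ)) (τ : ℍ) : jInv (γ • τ) = jInv τ := by
  have h1 := congrFun (Ecube_inv γ) τ
  have h2 := congrFun (disc_inv γ) τ
  rw [ModularForm.SL_slash_apply] at h1 h2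
  have h3 : denom γ τ ≠ 0 := denom_ne_zero _ _
  have h4 := discriminant_ne_zero τ
  have h5 := discriminant_ne_zero (γ • τ)
  have h6 := jInv_mul τ
  have h7 := jInv_mul (γ • τ)
  have h8 : denom γ τ ^ (-12 : ℤ) ≠ 0 := zpow_ne_zero _ h3
  rw [← h7] at h1
  rw [← h6] at h1
  apply mul_right_cancel₀ (mul_ne_zero h5 h8)
  rw [h2, ← h1, ← h2]
  ring

/-- **the product formula** -/
theorem primPoly_prod (τ : ℍ) : (primPoly m).map (evO (jInv τ)) =
    ∏ o ∈ TP m, (Polynomial.X - Polynomial.C (jInv (toGL hm.out (U m o) • τ))) := by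
  have hT := TP_stable m
  obtain ⟨⟨hc, hc', hc0⟩, hg⟩ := (ppT_top_unit (TP_stable m)).choose_spec
  set c := (ppT_top_unit (TP_stable m)).choose with hcdef
  set N := (TP m).card with hN
  -- the product over the orbits
  have e1 : PolT m (TP m) τ = Polynomial.C (∏ o ∈ TP m, (Helper11.ZP.kap m o *
      ModularForm.discriminant (toGL hm.out (U m o) • τ))) *
      ∏ o ∈ TP m, (Polynomial.X - Polynomial.C (jInv (toGL hm.out (U m o) • τ))) := by
    rw [PolT, map_prod, ← Finset.prod_mul_distrib]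
    refine Finset.prod_congr rfl fun o _ => ?_
    rw [slO_eq, slO_eq, ← jInv_mul (toGL hm.out (U m o) • τ)]
    simp only [Polynomial.C_mul]
    ring
  have hD := pow_ne_zero N (discriminant_ne_zero τ)
  have e2 : PolT m (TP m) τ = Polynomial.C ((∏ o ∈ TP m, Helper11.ZP.kap m o) *
      (ModularForm.discriminant τ ^ N * c)) * (primPoly m).map (evO (jInv τ)) := by
    rw [PolT_eq]
    ext i
    rw [Polynomial.coeff_C_mul, Polynomial.coeff_C_mul, Polynomial.coeff_map, Polynomial.coeff_map]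
    have e3 : ev m τ ((PPT m (TP m)).coeff i) = gT m (TP m) i τ := rfl
    rw [e3, mul_assoc]
    congr 1
    rw [primPoly, Polynomial.coeff_add, Polynomial.finsetSum_coeff, map_add, map_sum]
    simp only [Polynomial.coeff_C_mul, Polynomial.coeff_X_pow, mul_ite, mul_one, mul_zero]
    have h2 : evO (jInv τ) (Polynomial.C (⟨c⁻¹, hc'⟩ : OO)) = c⁻¹ := by
      rw [evO, Polynomial.coe_eval₂RingHom, Polynomial.eval₂_C]; rfl
    rcases lt_trichotomy i N with hi | hi | hi
    · rw [if_neg (by omega), map_zero, zero_add, Finset.sum_eq_single i, if_pos rfl, map_mul, h2, ppT_eval hT]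
      · have h3 : evO (jInv τ) (ppT hT i) = (ppT hT i).eval₂ (algebraMap OO ℂ) (jInv τ) := rfl
        rw [h3, ← hN]
        field_simp
      · intro b _ hb
        rw [if_neg (Ne.symm hb), map_zero]
      · intro h
        exact absurd (Finset.mem_range.2 (by omega)) h
    · rw [if_pos (by omega), map_one, Finset.sum_eq_zero, add_zero, mul_one, hi]
      · exact hg τ
      intro b hb
      rw [Finset.mem_range] at hb
      rw [if_neg (by omega), map_zero]
    · rw [if_neg (by omega), map_zero, zero_add, Finset.sum_eq_zero, mul_zero]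
      · have h0 : (PPT m (TP m)).coeff i = 0 := Polynomial.coeff_eq_zero_of_natDegree_lt
          (lt_of_le_of_lt (PPT_natDegree m (TP m)) hi)
        rw [← e3, h0, map_zero]
      intro b hb
      rw [Finset.mem_range] at hb
      rw [if_neg (by omega), map_zero]
  have m1 : ((primPoly m).map (evO (jInv τ))).Monic := (primPoly_monic m).map _
  have m2 : (∏ o ∈ TP m, (Polynomial.X - Polynomial.C (jInv (toGL hm.out (U m o) • τ)))).Monic :=
    Polynomial.monic_prod_of_monic _ _ fun o _ => Polynomial.monic_X_sub_C _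
  have e3 := e2.symm.trans e1
  have hk0 : (∏ o ∈ TP m, Helper11.ZP.kap m o) * (ModularForm.discriminant τ ^ N * c) ≠ 0 :=
    mul_ne_zero (kprodT_ne_zero m (TP m)) (mul_ne_zero hD hc0)
  have e4 := congrArg Polynomial.leadingCoeff e3
  rw [Polynomial.leadingCoeff_mul, Polynomial.leadingCoeff_mul, m1.leadingCoeff, m2.leadingCoeff,
    Polynomial.leadingCoeff_C, Polynomial.leadingCoeff_C, mul_one, mul_one] at e4
  rw [e4] at e3 hk0
  exact mul_left_cancel₀ (fun h => hk0 (Polynomial.C_eq_zero.1 h)) e3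

/-- the roots of the primitive modular polynomial over `j(τ)` -/
theorem primPoly_roots (τ : ℍ) (y : ℂ) : (primPoly m).eval₂ (evO (jInv τ)) y = 0 ↔
    ∃ A : DM m, IsPrim A ∧ y = jInv (toGL hm.out A • τ) := by
  rw [← Polynomial.eval_map, primPoly_prod, Polynomial.eval_prod, Finset.prod_eq_zero_iff]
  constructor
  · rintro ⟨o, ho, h⟩
    rw [Polynomial.eval_sub, Polynomial.eval_X, Polynomial.eval_C, sub_eq_zero] at h
    exact ⟨U m o, TP_prim m ho, h⟩
  · rintro ⟨A, hA, rfl⟩
    refine ⟨mkO A, mem_TP m hA, ?_⟩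
    obtain ⟨γ, hγ⟩ := mkO_eq (mkO_U m (mkO A))
    rw [Polynomial.eval_sub, Polynomial.eval_X, Polynomial.eval_C, hγ, toGL_smul, mul_smul]
    have h1 : jInv ((γ : GL (Fin 2) ℝ) • toGL hm.out A • τ) = jInv (toGL hm.out A • τ) := by
      exact jInv_smulZ γ _
    rw [h1, sub_self]

end prodf

end Pool.Agent.II
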