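import Pool.Agent.II.Vec79

/-! # Integral images: explicit residue classes of images without unlikely intersections -/

open UpperHalfPlane Finset MvPolynomial Pool.Agent.Helper11.ZP Pool.Agent.Helper11.ZU Pool.Agent.Helper20.ZT
  Pool.Agent.Helper20.ZT.Prim Pool.Agent.Helper20.ZD Pool.Agent.Helper20.ZD.Local

namespace Pool.Agent.II

variable {n : ℕ}

/-- **no unlikely intersections**, if the sets contain no special points -/
theorem Sep.noUnlikely {Δ : Fin n → Set ℂ} {D : Fin n → ℤ} (hΔ : Sep Δ D)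
    (hno : ∀ i, ∀ c ∈ Δ i, ¬ IsSpecialPoint c) {d : ℕ} (hdn : d ≤ n) {W : Set (Fin n → ℂ)}
    (hW : AtMostC d Δ W) : NoUnlikely (n - d) W := by
  refine ⟨fun S hS => ?_, fun V hV hVW hn A hA => ?_⟩
  · rw [Set.disjoint_left]
    intro x hx hxS
    obtain ⟨i, hi, hc⟩ := hΔ.unlikely hW S (by omega) hx hxS
    exact hno i _ hc (S.hc i hi)
  · obtain ⟨S, ⟨hA1, hAVS, -⟩, hlt⟩ := hA
    obtain ⟨i, hi, hc⟩ := hΔ.const_coord hW S hA1 (fun y hy => hVW (hAVS hy).1)
      (fun y hy => (hAVS hy).2) (by omega)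
    exact hno i _ hc (S.hc i hi)

/-- at least the proportion `1 - C p ^ (-1/6)` of the residue classes modulo `q` -/
def Most79 (C : ℝ) (p q : ℕ) (G : Finset (Fin n → ZMod q)) : Prop :=
  (1 - C * (p : ℝ) ^ (-(1 / 6) : ℝ)) * (q : ℝ) ^ n ≤ G.card

/-- `q` divides the `l_i`, and the class of `a` modulo `q` is in `G` -/
def Member79 (q : ℕ) (G : Finset (Fin n → ZMod q)) (l a : Fin n → ℤ) : Prop :=
  (∀ i, (q : ℤ) ∣ l i) ∧ (fun i => (a i : ZMod q)) ∈ G

lemma rpow_split79 {p : ℕ} (hp : p.Prime) (n : ℕ) :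
    (p : ℝ) ^ ((n : ℝ) - 1 / 6) = (p : ℝ) ^ (-(1 / 6) : ℝ) * (p : ℝ) ^ n := by
  have h0 : (0 : ℝ) < p := by exact_mod_cast hp.pos
  rw [sub_eq_neg_add, Real.rpow_add h0, Real.rpow_natCast]

lemma pow_bound79 {p : ℕ} (hp : p.Prime) {m k : ℕ} (hk : m + 1 ≤ k) :
    (m : ℝ) ≤ (p : ℝ) ^ (-(1 / 6) : ℝ) * (p : ℝ) ^ k := by
  have h0 : (0 : ℝ) < p := by exact_mod_cast hp.pos
  have h1 : (1 : ℝ) ≤ p := by exact_mod_cast hp.one_lt.le
  have h2 : (2 : ℝ) ≤ p := by exact_mod_cast hp.two_le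
  obtain ⟨j, rfl⟩ : ∃ j, k = j + 1 := ⟨k - 1, by omega⟩
  have h3 : (1 : ℝ) ≤ (p : ℝ) ^ (-(1 / 6) : ℝ) * p := by
    have h4 : (p : ℝ) ^ (-(1 / 6) : ℝ) * p = (p : ℝ) ^ ((5 : ℝ) / 6) := by
      nth_rewrite 2 [← Real.rpow_one (p : ℝ)]
      rw [← Real.rpow_add h0]
      norm_num
    rw [h4]
    exact Real.one_le_rpow h1 (by norm_num)
  have h5 : (m : ℝ) ≤ (p : ℝ) ^ j := by
    have h6 : m < 2 ^ m := Nat.lt_two_pow_self
    calc (m : ℝ) ≤ (2 : ℝ) ^ m := by exact_mod_cast h6.le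
      _ ≤ (2 : ℝ) ^ j := pow_le_pow_right₀ (by norm_num) (by omega)
      _ ≤ (p : ℝ) ^ j := pow_le_pow_left₀ (by norm_num) h2 _
  calc (m : ℝ) ≤ 1 * (p : ℝ) ^ j := by rw [one_mul]; exact h5
    _ ≤ ((p : ℝ) ^ (-(1 / 6) : ℝ) * p) * (p : ℝ) ^ j :=
        mul_le_mul_of_nonneg_right h3 (pow_nonneg h0.le _)
    _ = (p : ℝ) ^ (-(1 / 6) : ℝ) * (p : ℝ) ^ (j + 1) := by ring

open Classical in
/-- **explicit residue classes** -/
theorem main79 {d : ℕ} (hdn : d ≤ n) {Z : Set (Fin n → ℂ)} (hZ : GenPos d Z) :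
    ∃ (M : ℕ) (C : ℝ), 0 < M ∧ ∀ p : ℕ, p.Prime → ¬ p ∣ M →
      (∃ (G : Finset (Fin n → ZMod p)) (E : Finset ℂ), Most79 C p p G ∧ (∀ c ∈ E, IsSpecialPoint c) ∧
        ∀ l a : Fin n → ℤ, Member79 p G l a → Covered (n - d) (E : Set ℂ) (affImage l a Z)) ∧
      ∃ k₀ : ℕ, ∀ k, k₀ ≤ k → ∃ G : Finset (Fin n → ZMod (p ^ k)), Most79 C p (p ^ k) G ∧
        ∀ l a : Fin n → ℤ, Member79 (p ^ k) G l a → NoUnlikely (n - d) (affImage l a Z) := by
  obtain ⟨M, C, hM, hC0, h⟩ := members_vec hZ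
  refine ⟨M, C + 1, hM, fun p hp hpM => ?_⟩
  obtain ⟨v, bad, E, hv, hvp, hbad, hE, hmem⟩ := h p hp hpM
  have hne : NeZero p := ⟨hp.ne_zero⟩
  have hp0 : (0 : ℝ) < p := by exact_mod_cast hp.pos
  set θ : ℝ := (p : ℝ) ^ (-(1 / 6) : ℝ) with hθ
  have hθ0 : 0 < θ := Real.rpow_pos_of_pos hp0 _
  have hbad' : (bad.card : ℝ) ≤ C * θ * (p : ℝ) ^ n := by
    rw [rpow_split79 hp, ← mul_assoc] at hbad
    exact hbad
  constructor
  · refine ⟨univ \ bad, E, ?_, hE, fun l a hm => ?_⟩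
    · have h1 : (univ \ bad).card + bad.card = p ^ n := by
        rw [card_sdiff_add_card_eq_card (subset_univ _), card_univ, Fintype.card_fun, ZMod.card,
          Fintype.card_fin]
      have h2 : (((univ \ bad).card : ℝ)) + (bad.card : ℝ) = (p : ℝ) ^ n := by exact_mod_cast h1
      have h3 : 0 ≤ θ * (p : ℝ) ^ n := mul_nonneg hθ0.le (pow_nonneg hp0.le _)
      change (1 - (C + 1) * θ) * (p : ℝ) ^ n ≤ _
      have h4 : (1 - (C + 1) * θ) * (p : ℝ) ^ n = (p : ℝ) ^ n - C * θ * (p : ℝ) ^ n - θ * (p : ℝ) ^ n := by ring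
      rw [h4]
      linarith
    · obtain ⟨D, hS, hc, hW⟩ := hmem 1 l a le_rfl (fun i => by rw [pow_one]; exact hm.1 i)
        (mem_sdiff.1 hm.2).2
      exact hS.covered (fun i c hci hs => hc i c hci hs) hdn hW
  · refine ⟨n * E.card + 1, fun k hk => ?_⟩
    have hk1 : 1 ≤ k := by omega
    have hneq : NeZero (p ^ k) := ⟨pow_ne_zero _ hp.ne_zero⟩
    have hvp0 : 0 < v (p : ℂ) := v.pos (by exact_mod_cast hp.ne_zero)
    -- the classes of integers which are near to an element of `E`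
    set B : Finset (ZMod (p ^ k)) := univ.filter fun s => ∃ c ∈ E, v (c - ((s.val : ℤ) : ℂ)) ≤ v (p : ℂ) ^ k
      with hB
    have hBcard : B.card ≤ E.card := by
      have hex : ∀ s : ZMod (p ^ k), ∃ c : ℂ, s ∈ B → c ∈ E ∧ v (c - ((s.val : ℤ) : ℂ)) ≤ v (p : ℂ) ^ k := by
        intro s
        by_cases hs : s ∈ B
        · obtain ⟨c, hc⟩ := (mem_filter.1 hs).2
          exact ⟨c, fun _ => hc⟩
        · exact ⟨0, fun h => absurd h hs⟩
      choose f hf using hex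
      refine card_le_card_of_injOn f (fun s hs => (hf s hs).1) fun s hs s' hs' he => ?_
      have h1 := (hf s hs).2
      have h2 := (hf s' hs').2
      rw [he] at h1
      have h3 : v (((s.val : ℤ) - (s'.val : ℤ) : ℤ) : ℂ) ≤ v (p : ℂ) ^ k := by
        have h4 : (((s.val : ℤ) - (s'.val : ℤ) : ℤ) : ℂ) =
            (f s' - ((s'.val : ℤ) : ℂ)) + -(f s' - ((s.val : ℤ) : ℂ)) := by
          push_cast
          ring
        rw [h4]
        refine (hv _ _).trans (max_le h2 ?_)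
        rw [v.map_neg]
        exact h1
      have h5 := dvd_of_v_le79 hv hp hvp h3
      rw [← ZMod.intCast_zmod_eq_zero_iff_dvd] at h5
      push_cast at h5
      rw [ZMod.natCast_zmod_val, ZMod.natCast_zmod_val, sub_eq_zero] at h5
      exact h5
    set bad1 : Finset (Fin n → ZMod (p ^ k)) := univ.filter (fun r =>
      (fun i => ZMod.castHom (dvd_pow_self p (by omega : k ≠ 0)) (ZMod p) (r i)) ∈ bad) with hbad1
    set bad2 : Finset (Fin n → ZMod (p ^ k)) := univ.biUnion fun i => univ.filter (fun r => r i ∈ B) with hbad2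
    have hpn : (0 : ℝ) < (p : ℝ) ^ n := pow_pos hp0 _
    have hpk : (0 : ℝ) < (p : ℝ) ^ k := pow_pos hp0 _
    set N : ℝ := ((p : ℝ) ^ k) ^ n with hN
    have hN0 : 0 < N := pow_pos hpk _
    have hc1 : (bad1.card : ℝ) ≤ C * θ * N := by
      have h1 := card_lift79 hk1 bad
      have h2 : (bad1.card : ℝ) * (p : ℝ) ^ n ≤ (C * θ * N) * (p : ℝ) ^ n := by
        calc (bad1.card : ℝ) * (p : ℝ) ^ n = bad.card * N := h1
          _ ≤ (C * θ * (p : ℝ) ^ n) * N := mul_le_mul_of_nonneg_right hbad' hN0.le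
          _ = (C * θ * N) * (p : ℝ) ^ n := by ring
      exact le_of_mul_le_mul_right h2 hpn
    have hc2 : (bad2.card : ℝ) ≤ θ * N := by
      have h1 : ∀ i : Fin n, ((univ.filter (fun r : Fin n → ZMod (p ^ k) => r i ∈ B)).card : ℝ) *
          (p : ℝ) ^ k ≤ E.card * N := by
        intro i
        have h2 := card_coord79 (n := n) B i
        push_cast at h2
        rw [h2]
        exact mul_le_mul_of_nonneg_right (by exact_mod_cast hBcard) hN0.le
      have h3 : (bad2.card : ℝ) ≤ ∑ i : Fin n,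
          ((univ.filter (fun r : Fin n → ZMod (p ^ k) => r i ∈ B)).card : ℝ) := by
        exact_mod_cast card_biUnion_le
      have h4 : (bad2.card : ℝ) * (p : ℝ) ^ k ≤ (θ * N) * (p : ℝ) ^ k := by
        calc (bad2.card : ℝ) * (p : ℝ) ^ k ≤ (∑ i : Fin n,
              ((univ.filter (fun r : Fin n → ZMod (p ^ k) => r i ∈ B)).card : ℝ)) * (p : ℝ) ^ k :=
              mul_le_mul_of_nonneg_right h3 hpk.le
          _ = ∑ i : Fin n, ((univ.filter (fun r : Fin n → ZMod (p ^ k) => r i ∈ B)).card : ℝ) * (p : ℝ) ^ k :=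
              sum_mul _ _ _
          _ ≤ ∑ _i : Fin n, E.card * N := sum_le_sum fun i _ => h1 i
          _ = ((n * E.card : ℕ) : ℝ) * N := by
              rw [sum_const, card_univ, Fintype.card_fin, nsmul_eq_mul]
              push_cast
              ring
          _ ≤ (θ * (p : ℝ) ^ k) * N := mul_le_mul_of_nonneg_right (pow_bound79 hp hk) hN0.le
          _ = (θ * N) * (p : ℝ) ^ k := by ring
      exact le_of_mul_le_mul_right h4 hpk
    refine ⟨univ \ (bad1 ∪ bad2), ?_, fun l a hm => ?_⟩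
    · have h1 : (univ \ (bad1 ∪ bad2)).card + (bad1 ∪ bad2).card = (p ^ k) ^ n := by
        rw [card_sdiff_add_card_eq_card (subset_univ _), card_univ, Fintype.card_fun, ZMod.card,
          Fintype.card_fin]
      have h2 : (((univ \ (bad1 ∪ bad2)).card : ℝ)) + ((bad1 ∪ bad2).card : ℝ) = N := by
        rw [hN]
        exact_mod_cast h1
      have h3 : ((bad1 ∪ bad2).card : ℝ) ≤ bad1.card + bad2.card := by exact_mod_cast card_union_le _ _
      change (1 - (C + 1) * θ) * (((p ^ k : ℕ) : ℝ)) ^ n ≤ _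
      have h4 : (((p ^ k : ℕ) : ℝ)) ^ n = N := by
        rw [hN]
        push_cast
        rfl
      rw [h4]
      have h5 : (1 - (C + 1) * θ) * N = N - C * θ * N - θ * N := by ring
      rw [h5]
      linarith
    · obtain ⟨hl, ha⟩ := hm
      rw [mem_sdiff, mem_union, not_or] at ha
      obtain ⟨-, ha1, ha2⟩ := ha
      have ha1' : (fun i => (a i : ZMod p)) ∉ bad := by
        intro hcon
        apply ha1
        rw [hbad1, mem_filter]
        refine ⟨mem_univ _, ?_⟩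
        have h6 : (fun i => ZMod.castHom (dvd_pow_self p (by omega : k ≠ 0)) (ZMod p) ((a i : ZMod (p ^ k)))) =
            fun i => (a i : ZMod p) := funext fun i => map_intCast _ _
        rw [h6]
        exact hcon
      obtain ⟨D, hS, hc, hW⟩ := hmem k l a hk1 hl ha1'
      refine hS.noUnlikely (fun i c hci hs => ?_) hdn hW
      apply ha2
      rw [hbad2, mem_biUnion]
      refine ⟨i, mem_univ _, ?_⟩
      rw [mem_filter]
      refine ⟨mem_univ _, ?_⟩
      rw [hB, mem_filter]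
      refine ⟨mem_univ _, c, hc i c hci hs, ?_⟩
      have h7 : ((p ^ k : ℕ) : ℤ) ∣ a i - (((a i : ZMod (p ^ k)).val : ℕ) : ℤ) := by
        rw [← ZMod.intCast_zmod_eq_zero_iff_dvd]
        push_cast
        rw [ZMod.natCast_zmod_val, sub_self]
      have h8 := v_le_of_dvd79 hv h7
      have h9 : c - ((((a i : ZMod (p ^ k)).val : ℕ) : ℤ) : ℂ) =
          (c - a i) + ((a i - (((a i : ZMod (p ^ k)).val : ℕ) : ℤ) : ℤ) : ℂ) := by
        push_cast
        ring
      rw [h9]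
      exact (hv _ _).trans (max_le hci h8)

/-! ### Curves -/

theorem affImage_eq_affine {l : Fin n → ℤ} (hl : ∀ i, l i ≠ 0) (a : Fin n → ℤ) (Z : Set (Fin n → ℂ)) :
    affImage l a Z = Pool.Agent.Helper36.DL.affine (fun i => (l i : ℂ)) (fun i => (a i : ℂ)) Z := by
  have hl' : ∀ i, (l i : ℂ) ≠ 0 := fun i => by exact_mod_cast hl i
  ext x
  constructor
  · rintro ⟨z, hz, hx⟩
    change (fun i => (x i - a i) / l i) ∈ Z
    have h1 : (fun i => (x i - a i) / l i) = z := by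
      funext i
      rw [hx i, add_sub_cancel_right, mul_div_cancel_left₀ _ (hl' i)]
    rwa [h1]
  · intro h
    refine ⟨_, h, fun i => ?_⟩
    change x i = l i * ((x i - a i) / l i) + a i
    rw [mul_div_cancel₀ _ (hl' i)]
    ring

theorem nonConst_affImage {l : Fin n → ℤ} (hl : ∀ i, l i ≠ 0) (a : Fin n → ℤ) {Z : Set (Fin n → ℂ)}
    (hc : ∀ (i : Fin n) (c : ℂ), ∃ z ∈ Z, z i ≠ c) (i : Fin n) (c : ℂ) : ∃ x ∈ affImage l a Z, x i ≠ c := by
  have hl' : (l i : ℂ) ≠ 0 := by exact_mod_cast hl i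
  obtain ⟨z, hz, hzc⟩ := hc i ((c - a i) / l i)
  refine ⟨fun j => l j * z j + a j, ⟨z, hz, fun _ => rfl⟩, fun h => hzc ?_⟩
  rw [eq_div_iff hl', ← h]
  ring

/-- the points of the image with a coordinate in a finite set -/
theorem count_affImage {l : Fin n → ℤ} (hl : ∀ i, l i ≠ 0) (a : Fin n → ℤ) {Z : Set (Fin n → ℂ)} {B : ℕ}
    (hB : ∀ (i : Fin n) (c : ℂ), {z ∈ Z | z i = c}.Finite ∧ {z ∈ Z | z i = c}.ncard ≤ B) (E : Finset ℂ) :
    {x ∈ affImage l a Z | ∃ i, x i ∈ E}.Finite ∧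
      {x ∈ affImage l a Z | ∃ i, x i ∈ E}.ncard ≤ n * (E.card * B) := by
  classical
  have hl' : ∀ i, (l i : ℂ) ≠ 0 := fun i => by exact_mod_cast hl i
  have h1 : ∀ (i : Fin n) (c : ℂ), {x ∈ affImage l a Z | x i = c} =
      (fun z : Fin n → ℂ => fun j => (l j : ℂ) * z j + a j) '' {z ∈ Z | z i = (c - a i) / l i} := by
    intro i c
    ext x
    constructor
    · rintro ⟨⟨z, hz, hx⟩, hxc⟩
      refine ⟨z, ⟨hz, ?_⟩, funext fun j => (hx j).symm⟩
      rw [eq_div_iff (hl' i), ← hxc, hx i]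
      ring
    · rintro ⟨z, ⟨hz, hzc⟩, rfl⟩
      refine ⟨⟨z, hz, fun _ => rfl⟩, ?_⟩
      change (l i : ℂ) * z i + a i = c
      rw [hzc, mul_div_cancel₀ _ (hl' i)]
      ring
  have h2 : ∀ (i : Fin n) (c : ℂ), {x ∈ affImage l a Z | x i = c}.Finite ∧
      {x ∈ affImage l a Z | x i = c}.ncard ≤ B := by
    intro i c
    rw [h1]
    exact ⟨(hB i _).1.image _, (Set.ncard_image_le (hB i _).1).trans (hB i _).2⟩
  have h3 : {x ∈ affImage l a Z | ∃ i, x i ∈ E} =
      ⋃ i ∈ (univ : Finset (Fin n)), ⋃ c ∈ E, {x ∈ affImage l a Z | x i = c} := by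
    ext x
    simp only [Set.mem_ofPred_eq, Set.mem_iUnion, Finset.mem_univ, exists_true_left]
    constructor
    · rintro ⟨hx, i, hi⟩
      exact ⟨i, x i, hi, hx, rfl⟩
    · rintro ⟨i, c, hc, hx, rfl⟩
      exact ⟨hx, i, hc⟩
  rw [h3]
  refine ⟨?_, ?_⟩
  · exact Set.Finite.biUnion (Finset.finite_toSet _) fun i _ =>
      Set.Finite.biUnion (Finset.finite_toSet _) fun c _ => (h2 i c).1
  · refine (Finset.set_ncard_biUnion_le _ _).trans ?_
    calc ∑ i : Fin n, (⋃ c ∈ E, {x ∈ affImage l a Z | x i = c}).ncard ≤ ∑ _i : Fin n, E.card * B := by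
          refine Finset.sum_le_sum fun i _ => ?_
          refine (Finset.set_ncard_biUnion_le _ _).trans ?_
          calc ∑ c ∈ E, {x ∈ affImage l a Z | x i = c}.ncard ≤ ∑ _c ∈ E, B :=
                Finset.sum_le_sum fun c _ => (h2 i c).2
            _ = E.card * B := by rw [Finset.sum_const, smul_eq_mul]
      _ = n * (E.card * B) := by rw [Finset.sum_const, smul_eq_mul, card_univ, Fintype.card_fin]

open Classical in
/-- **curves**: the Zilber–Pink conjecture with one bound for all members -/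
theorem curves_vec {Z : Set (Fin n → ℂ)} (hsub : IsSubvariety Z) (h1 : dim Z = 1)
    (hc : ∀ (i : Fin n) (c : ℂ), ∃ z ∈ Z, z i ≠ c) (hZ : GenPos 1 Z) :
    ∃ (M : ℕ) (C : ℝ), 0 < M ∧ ∀ p : ℕ, p.Prime → ¬ p ∣ M →
      ∃ (G : Finset (Fin n → ZMod p)) (B : ℕ), Most79 C p p G ∧
        ∀ l a : Fin n → ℤ, (∀ i, l i ≠ 0) → Member79 p G l a →
          IsSubvariety (affImage l a Z) ∧ dim (affImage l a Z) = 1 ∧
          ({A | IsAtypical (affImage l a Z) A ∧
              ∀ B, IsAtypical (affImage l a Z) B → A ⊆ B → B = A}.Finite ∧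
            ∀ A, IsAtypical (affImage l a Z) A → ∃ B, (IsAtypical (affImage l a Z) B ∧
                ∀ B', IsAtypical (affImage l a Z) B' → B ⊆ B' → B' = B) ∧ A ⊆ B) ∧
          (¬ ∃ S : SpecialData n, dim S.carrier < n ∧ affImage l a Z ⊆ S.carrier) ∧
          {x ∈ affImage l a Z | ∃ S : SpecialData n, dim S.carrier + 2 ≤ n ∧ x ∈ S.carrier}.Finite ∧
          {x ∈ affImage l a Z |
            ∃ S : SpecialData n, dim S.carrier + 2 ≤ n ∧ x ∈ S.carrier}.ncard ≤ B := by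
  obtain ⟨M, C, hM, hC0, h⟩ := members_vec hZ
  obtain ⟨B₀, hB₀⟩ := fiber_count79 hsub h1 hc
  refine ⟨M, C, hM, fun p hp hpM => ?_⟩
  obtain ⟨v, bad, E, hv, hvp, hbad, hE, hmem⟩ := h p hp hpM
  have hne : NeZero p := ⟨hp.ne_zero⟩
  refine ⟨univ \ bad, n * (E.card * B₀), ?_, fun l a hl0 hm => ?_⟩
  · have h2 : (univ \ bad).card + bad.card = p ^ n := by
      rw [card_sdiff_add_card_eq_card (subset_univ _), card_univ, Fintype.card_fun, ZMod.card,
        Fintype.card_fin]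
    have h3 : (((univ \ bad).card : ℝ)) + (bad.card : ℝ) = (p : ℝ) ^ n := by exact_mod_cast h2
    rw [rpow_split79 hp, ← mul_assoc] at hbad
    change (1 - C * (p : ℝ) ^ (-(1 / 6) : ℝ)) * (p : ℝ) ^ n ≤ _
    rw [sub_mul, one_mul]
    linarith
  · obtain ⟨D, hS, hcE, hW⟩ := hmem 1 l a le_rfl (fun i => by rw [pow_one]; exact hm.1 i)
      (mem_sdiff.1 hm.2).2
    have hl' : ∀ i, (l i : ℂ) ≠ 0 := fun i => by exact_mod_cast hl0 i
    have hV : IsSubvariety (affImage l a Z) := by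
      rw [affImage_eq_affine hl0]
      exact Pool.Agent.Helper36.DL.isSubvariety_affine hl' _ hsub
    have hV1 : dim (affImage l a Z) = 1 := by
      rw [affImage_eq_affine hl0, Pool.Agent.Helper36.DL.dim_affine hl', h1]
    obtain ⟨k1, k2, k3⟩ := hS.curve (fun i c hci hs => hcE i c hci hs) hW hV hV1 (nonConst_affImage hl0 _ hc)
    obtain ⟨k4, k5⟩ := count_affImage hl0 a hB₀ E
    exact ⟨hV, hV1, k1, k2, k4.subset k3, (Set.ncard_le_ncard k3 k4).trans k5⟩

end Pool.Agent.II
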