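import Pool.Agent.II.Sep79
import Pool.Agent.II.Fin79
import Pool.Agent.II.Bad62v2

/-! # Integral images: every member with one good prime -/

open UpperHalfPlane Finset Pool.Agent.Helper11.ZP Pool.Agent.Helper11.ZU Pool.Agent.Helper20.ZT
  Pool.Agent.Helper20.ZT.Prim Pool.Agent.Helper20.ZD Pool.Agent.Helper20.ZD.Local

namespace Pool.Agent.II

variable {n : ℕ}

theorem Sep.mono {Δ Δ' : Fin n → Set ℂ} {D : Fin n → ℤ} (h : Sep Δ D) (hs : ∀ i, Δ' i ⊆ Δ i) : Sep Δ' D where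
  neg := h.neg
  nsq := h.nsq
  cm i c hc := h.cm i c (hs i hc)
  pair i j hij x hx y hy := h.pair i j hij x (hs i hx) y (hs j hy)

/-- the unlikely intersections of `W` in codimension `k` lie in the hyperplanes `x_i = c`, `c ∈ E`: every
point of `W` on a special subvariety of dimension less than `k`, and every atypical subvariety of every
subvariety of codimension at most `k` contained in `W` -/
def Covered (k : ℕ) (E : Set ℂ) (W : Set (Fin n → ℂ)) : Prop :=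
  (∀ S : SpecialData n, dim S.carrier < k → ∀ x ∈ W, x ∈ S.carrier → ∃ i, x i ∈ E) ∧
    ∀ V, IsSubvariety V → V ⊆ W → n ≤ dim V + k → ∀ A, IsAtypical V A → ∃ i, ∃ c ∈ E, ∀ x ∈ A, x i = c

theorem Sep.covered {Δ : Fin n → Set ℂ} {D : Fin n → ℤ} (hΔ : Sep Δ D) {E : Set ℂ}
    (hE : ∀ i, ∀ c ∈ Δ i, IsSpecialPoint c → c ∈ E) {d : ℕ} (hdn : d ≤ n) {W : Set (Fin n → ℂ)}
    (hW : AtMostC d Δ W) : Covered (n - d) E W := by
  refine ⟨fun S hS x hx hxS => ?_, fun V hV hVW hn A hA => ?_⟩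
  · obtain ⟨i, hi, hc⟩ := hΔ.unlikely hW S (by omega) hx hxS
    refine ⟨i, ?_⟩
    rw [hxS.1 i hi]
    exact hE i _ hc (S.hc i hi)
  · obtain ⟨S, ⟨hA1, hAVS, -⟩, hlt⟩ := hA
    obtain ⟨i, hi, hc⟩ := hΔ.const_coord hW S hA1 (fun y hy => hVW (hAVS hy).1)
      (fun y hy => (hAVS hy).2) (by omega)
    exact ⟨i, S.c i, hE i _ hc (S.hc i hi), fun x hx => (hAVS hx).2.1 i hi⟩

section local_part
variable {v : AbsoluteValue ℂ ℝ} {p : ℕ}

/-- the disks around the centres -/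
def disk79 (v : AbsoluteValue ℂ ℝ) (x₀ : ℂ) (ρ : ℝ) : Set ℂ := {x | v (x - x₀) ≤ ρ}

/-- **the disks of radius `ρ_i < 1` around the centres** -/
theorem sep_disks (hv : IsNonarchimedean v) (hp : p.Prime) (h5 : 5 ≤ p) (hvp : v (p : ℂ) < 1)
    {a t : Fin n → ℤ} {x₀ : Fin n → ℂ} (hx : ∀ i, Center v p (a i) (t i) (x₀ i)) (ht : ∀ i, t i ≠ 0)
    (hsq : ∀ i j, i ≠ j → ¬ IsSquare ((t i ^ 2 - 4 * p) * (t j ^ 2 - 4 * p))) {ρ : Fin n → ℝ}
    (hρ : ∀ i, ρ i < 1) : Sep (fun i => disk79 v (x₀ i) (ρ i)) (fun i => t i ^ 2 - 4 * p) := by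
  refine (sep_of_center hv hp h5 hvp hx ht hsq).mono fun i x hxi => ?_
  have h1 : x - a i = (x - x₀ i) + (x₀ i - a i) := by ring
  change v (x - a i) < 1
  rw [h1]
  exact (hv _ _).trans_lt (max_lt (lt_of_le_of_lt hxi (hρ i)) (hx i).near)

/-- the good coordinates of a point of `λ Z + a` are in the disks -/
theorem atMostC_disks (hv : IsNonarchimedean v) {d : ℕ} {Z : Set (Fin n → ℂ)}
    (hZ : ∀ z ∈ Z, (univ.filter fun i => 1 < v (z i)).card ≤ d) {l : ℂ} {a : Fin n → ℂ} {x₀ : Fin n → ℂ}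
    {ρ : Fin n → ℝ} (hl : ∀ i, v l ≤ ρ i) (ha : ∀ i, v (a i - x₀ i) ≤ ρ i) :
    AtMostC d (fun i => disk79 v (x₀ i) (ρ i)) (homImage l a Z) := by
  classical
  rintro x ⟨z, hz, hx⟩ T hT
  refine (card_le_card fun i hi => ?_).trans (hZ z hz)
  rw [mem_filter]
  refine ⟨mem_univ _, ?_⟩
  by_contra hcon
  push Not at hcon
  apply hT i hi
  have h1 : x i - x₀ i = l * z i + (a i - x₀ i) := by rw [hx]; ring
  change v (x i - x₀ i) ≤ ρ i
  rw [h1]
  refine (hv _ _).trans (max_le ?_ (ha i))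
  rw [map_mul]
  calc v l * v (z i) ≤ v l * 1 := mul_le_mul_of_nonneg_left hcon (v.nonneg _)
    _ ≤ ρ i := by rw [mul_one]; exact hl i

/-- **finitely many special points near the centres of all the ordinary residue classes** -/
theorem exists_radius (hv : IsNonarchimedean v) (hp : p.Prime) (h5 : 5 ≤ p) (hvp : v (p : ℂ) < 1)
    [NeZero p] (t : ZMod p → ℤ) (x₀ : ZMod p → ℂ) (hC : ∀ r : ZMod p, Center v p (r.val : ℤ) (t r) (x₀ r)) :
    ∃ ρ : ZMod p → ℝ, (∀ r, ρ r < 1) ∧ (∀ r, v (p : ℂ) ≤ ρ r) ∧ (∀ r : ZMod p, v ((r.val : ℤ) - x₀ r) ≤ ρ r) ∧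
      {c : ℂ | IsSpecialPoint c ∧ ∃ r, t r ≠ 0 ∧ c ∈ disk79 v (x₀ r) (ρ r)}.Finite := by
  classical
  refine ⟨fun r => max (v (p : ℂ)) (v (x₀ r - (r.val : ℤ))), fun r => max_lt hvp (hC r).near,
    fun r => le_max_left _ _, fun r => ?_, ?_⟩
  · rw [← v.map_neg, neg_sub]
    exact le_max_right _ _
  · have h1 : ∀ r : ZMod p, t r ≠ 0 →
        {c : ℂ | IsSpecialPoint c ∧ v (c - x₀ r) ≤ max (v (p : ℂ)) (v (x₀ r - (r.val : ℤ)))}.Finite := by
      intro r hr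
      obtain ⟨μ, hμ⟩ := canon hv hp h5 hvp (hC r) hr
      refine finite_special_disk hv hp (by omega) (μ := μ) ?_ (max_lt hvp (hC r).near)
      exact II9.loc_of_canon hv (hC r).near hμ fun _ _ _ hP mP h => II9.nbr9 hv hp hvp hP mP h
    have h2 : (⋃ r : ZMod p, {c : ℂ | t r ≠ 0 ∧ IsSpecialPoint c ∧
        v (c - x₀ r) ≤ max (v (p : ℂ)) (v (x₀ r - (r.val : ℤ)))}).Finite := by
      refine Set.finite_iUnion fun r => ?_
      by_cases hr : t r = 0
      · refine Set.finite_empty.subset ?_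
        rintro c ⟨h3, -⟩
        exact h3 hr
      · refine (h1 r hr).subset ?_
        rintro c ⟨-, h3⟩
        exact h3
    refine h2.subset ?_
    rintro c ⟨hc, r, hr, hcr⟩
    exact Set.mem_iUnion.2 ⟨r, hr, hc, hcr⟩

end local_part

open Classical in
/-- **every member with one good prime** -/
theorem members {d : ℕ} {Z : Set (Fin n → ℂ)} (hZ : GenPos d Z) :
    ∃ (M : ℕ) (C : ℝ), 0 < M ∧ ∀ p : ℕ, p.Prime → ¬ p ∣ M →
      ∃ (G : Finset (Fin n → ZMod p)) (E : Finset ℂ),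
        (p : ℝ) ^ n - C * (p : ℝ) ^ ((n : ℝ) - 1 / 6) ≤ G.card ∧ (∀ c ∈ E, IsSpecialPoint c) ∧
        ∀ (l : ℤ) (a : Fin n → ℤ), (p : ℤ) ∣ l → (fun i => (a i : ZMod p)) ∈ G →
          ∃ (Δ : Fin n → Set ℂ) (D : Fin n → ℤ), Sep Δ D ∧ (∀ i, ∀ c ∈ Δ i, IsSpecialPoint c → c ∈ E) ∧
            AtMostC d Δ (homImage (l : ℂ) (fun i => (a i : ℂ)) Z) := by
  obtain ⟨M, hM, hv⟩ := genPos_absv hZ
  obtain ⟨C, hC⟩ := bad_classes n
  refine ⟨6 * M, C, by positivity, fun p hp hpM => ?_⟩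
  have hpM' : ¬ p ∣ M := fun h => hpM (h.mul_left 6)
  have h5 : 5 ≤ p := by
    by_contra hcon
    push Not at hcon
    apply hpM
    have h2 := hp.two_le
    have h4 : p = 2 ∨ p = 3 ∨ p = 4 := by omega
    rcases h4 with rfl | rfl | rfl
    · exact ⟨3 * M, by ring⟩
    · exact ⟨2 * M, by ring⟩
    · exact absurd hp (by norm_num)
  obtain ⟨v, hv1, hvp, hvZ⟩ := hv p hp hpM'
  have hvp1 : v (p : ℂ) < 1 := by
    rw [hvp]
    exact inv_lt_one_of_one_lt₀ (by exact_mod_cast hp.one_lt)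
  have hne : NeZero p := ⟨hp.ne_zero⟩
  have hfact := Fact.mk hp
  have hcen : ∀ r : ZMod p, ∃ t x₀, Center v p (r.val : ℤ) t x₀ := fun r =>
    exists_center hv1 hp h5 hvp1 _
  choose t x₀ hcen using hcen
  obtain ⟨ρ, hρ1, hρp, hρx, hfin⟩ := exists_radius hv1 hp h5 hvp1 t x₀ hcen
  set bad := (univ : Finset (Fin n → ZMod p)).filter (BadClass62 t) with hbad
  have hcard := hC v p hv1 hp hvp1 t fun r => ⟨x₀ r, hcen r⟩
  refine ⟨univ \ bad, hfin.toFinset, ?_, fun c hc => (hfin.mem_toFinset.1 hc).1, fun l a hl ha => ?_⟩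
  · have h1 : (univ \ bad).card + bad.card = p ^ n := by
      rw [card_sdiff_add_card_eq_card (subset_univ _), card_univ, Fintype.card_fun, ZMod.card,
        Fintype.card_fin]
    have h2 : (((univ \ bad).card : ℝ)) + (bad.card : ℝ) = (p : ℝ) ^ n := by exact_mod_cast h1
    have h3 : (bad.card : ℝ) ≤ C * (p : ℝ) ^ ((n : ℝ) - 1 / 6) := hcard
    linarith
  · rw [mem_sdiff, hbad, mem_filter, not_and, BadClass62, not_not] at ha
    obtain ⟨h1, h2⟩ := ha.2 (mem_univ _)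
    set r : Fin n → ZMod p := fun i => (a i : ZMod p) with hr
    refine ⟨fun i => disk79 v (x₀ (r i)) (ρ (r i)), fun i => t (r i) ^ 2 - 4 * p, ?_, ?_, ?_⟩
    · exact sep_disks hv1 hp h5 hvp1 (fun i => hcen (r i)) h1 h2 fun i => hρ1 _
    · intro i c hc hs
      exact hfin.mem_toFinset.2 ⟨hs, r i, h1 i, hc⟩
    · have hdvd : ∀ z : ℤ, (p : ℤ) ∣ z → v (z : ℂ) ≤ v (p : ℂ) := by
        rintro z ⟨k, rfl⟩
        push_cast
        rw [map_mul]
        have h5 : v (k : ℂ) ≤ 1 := hv1.apply_intCast_le_one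
        calc v (p : ℂ) * v (k : ℂ) ≤ v (p : ℂ) * 1 := mul_le_mul_of_nonneg_left h5 (v.nonneg _)
          _ = v (p : ℂ) := mul_one _
      refine atMostC_disks hv1 hvZ (fun i => (hdvd l hl).trans (hρp _)) fun i => ?_
      have h3 : (p : ℤ) ∣ a i - ((r i).val : ℤ) := by
        rw [← ZMod.intCast_zmod_eq_zero_iff_dvd]
        push_cast
        rw [ZMod.natCast_zmod_val, hr, sub_self]
      have h4 : ((a i : ℤ) : ℂ) - x₀ (r i) = ((a i - ((r i).val : ℤ) : ℤ) : ℂ) + (((r i).val : ℤ) - x₀ (r i)) := by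
        push_cast
        ring
      rw [h4]
      exact (hv1 _ _).trans (max_le ((hdvd _ h3).trans (hρp _)) (hρx _))

end Pool.Agent.II
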