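import Pool.Agent.Helper11.ZP.Family
import Pool.Agent.Helper20.ZT.Defs

/-! # No unlikely intersections for a positive proportion of all complete intersections -/

open Finset Pool.Agent.Helper11.ZP Pool.Agent.Helper20.ZT

namespace Pool.Agent.II

/-- the common zeros of the polynomials of degree at most `d l i` in `x i` with the integral
coefficients `F l e` -/
def zeroSet {n c : ℕ} (d : Fin c → Fin n → ℕ) (F : (l : Fin c) → ((i : Fin n) → Fin (d l i + 1)) → ℤ) :
    Set (Fin n → ℂ) :=
  {x | ∀ l, ∑ e, (F l e : ℂ) * ∏ i, x i ^ (e i : ℕ) = 0}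

/-- the coefficient vectors with entries of absolute value at most `H` -/
noncomputable def coeffBox {n c : ℕ} (d : Fin c → Fin n → ℕ) (H : ℕ) :
    Finset ((l : Fin c) → ((i : Fin n) → Fin (d l i + 1)) → ℤ) :=
  Fintype.piFinset fun _ => Fintype.piFinset fun _ => Icc (-(H : ℤ)) H

lemma zeroSet_eq {n c : ℕ} (d : Fin c → Fin n → ℕ) (F : (l : Fin c) → ((i : Fin n) → Fin (d l i + 1)) → ℤ) :
    zeroSet d F = zeros d F := by
  ext x
  refine forall_congr' fun l => ?_
  have h := aeval_poly (d l) (F l) x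
  have h1 : MvPolynomial.eval x (poly (d l) (F l)) = MvPolynomial.aeval x (poly (d l) (F l)) := by
    rw [MvPolynomial.aeval_eq_eval]
  rw [h1, h]

lemma noUnlikely_of_allExcluded {n k : ℕ} {d : Fin (k + 1) → Fin n → ℕ}
    {F : (l : Fin (k + 1)) → ((i : Fin n) → Fin (d l i + 1)) → ℤ} (h : AllExcluded d F) :
    NoUnlikely (k + 1) (zeroSet d F) := by
  rw [zeroSet_eq]
  constructor
  · intro S hS
    rw [Set.disjoint_left]
    intro y hy hyS
    have := no_unlikely (fun c => h c) (y := y) (by rintro f ⟨l, rfl⟩; exact hy l) S hyS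
    omega
  · intro V _ hV hdim A
    exact no_atypical (fun c => h c) (fun y hy => by rintro f ⟨l, rfl⟩; exact hV hy l) (by omega) A

/-- **a residue class of complete intersections without unlikely intersections**: for every number
`c` of equations and every multidegree there are a modulus `M` and polynomials `G` such that the zero
sets of all integral systems `F ≡ G mod M` have no unlikely intersections -/
theorem pos_class {n c : ℕ} (hc0 : 0 < c) (d : Fin c → Fin n → ℕ) (hd : ∀ l i, 1 ≤ d l i) :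
    ∃ (M : ℕ) (G : (l : Fin c) → ((i : Fin n) → Fin (d l i + 1)) → ℕ), 0 < M ∧
      ∀ F : (l : Fin c) → ((i : Fin n) → Fin (d l i + 1)) → ℤ,
        (∀ l e, (M : ℤ) ∣ F l e - (G l e : ℤ)) → NoUnlikely c (zeroSet d F) := by
  obtain ⟨k, rfl⟩ : ∃ k, c = k + 1 := ⟨c - 1, by omega⟩
  obtain ⟨p, hp, hpinj⟩ := exists_primes (Fin n → Option (Fin k))
  have hT : ∀ (l : Fin (k + 1)) (e : ∀ i, Fin (d l i + 1)), ∃ T : ℕ, ∀ c, (p c : ℤ) ∣ T - (resid c d l e : ℕ) :=
    fun l e => exists_crt hp hpinj fun c => resid c d l e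
  choose T hT using hT
  refine ⟨∏ c, p c, T, prod_pos fun c _ => (hp c).pos, fun F hF => noUnlikely_of_allExcluded fun c => ?_⟩
  refine excluded_of_resid c d hd F (hp c) fun l e => ?_
  have h1 : (p c : ℤ) ∣ F l e - (T l e : ℕ) := by
    refine dvd_trans ?_ (hF l e)
    exact_mod_cast Finset.dvd_prod_of_mem p (mem_univ c)
  have := dvd_add h1 (hT l e c)
  rwa [sub_add_sub_cancel] at this

open Classical in
/-- **a positive proportion of all complete intersections has no unlikely intersections** -/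
theorem pos_prop {n c : ℕ} (hc0 : 0 < c) (d : Fin c → Fin n → ℕ) (hd : ∀ l i, 1 ≤ d l i) :
    ∃ δ : ℝ, 0 < δ ∧ ∀ᶠ H : ℕ in Filter.atTop,
      δ ≤ (((coeffBox d H).filter (fun F => NoUnlikely c (zeroSet d F))).card : ℝ) /
        ((coeffBox d H).card : ℝ) := by
  obtain ⟨M, G, hM, h⟩ := pos_class hc0 d hd
  obtain ⟨δ, hδ, h1⟩ := density d hM G (fun F => NoUnlikely c (zeroSet d F)) h
  refine ⟨δ, hδ, h1.mono fun H hH => ?_⟩
  have hne : (coeffBox d H).Nonempty := by
    refine ⟨fun _ _ => 0, ?_⟩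
    rw [coeffBox, Fintype.mem_piFinset]
    intro l
    rw [Fintype.mem_piFinset]
    intro e
    rw [mem_Icc]
    omega
  rw [le_div_iff₀ (by exact_mod_cast hne.card_pos)]
  exact hH

end Pool.Agent.II
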