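import Mathlib

/-! # A point cannot move away from a centre for ever along the values of a polynomial -/

namespace Pool.Agent.II9
open Polynomial Filter Topology

lemma pow_card_le_prod_val (v : AbsoluteValue ℂ ℝ) {δ : ℝ} (hδ : 0 ≤ δ) (z : ℂ) (s : Multiset ℂ)
    (h : ∀ r ∈ s, δ ≤ v (z - r)) : δ ^ Multiset.card s ≤ (s.map fun r => v (z - r)).prod := by
  induction s using Multiset.induction_on with
  | empty => simp
  | cons a s ih =>
    rw [Multiset.card_cons, Multiset.map_cons, Multiset.prod_cons, pow_succ, mul_comm]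
    have h1 := ih fun r hr => h r (Multiset.mem_cons_of_mem hr)
    exact mul_le_mul (h a (Multiset.mem_cons_self a s)) h1 (pow_nonneg hδ _) (v.nonneg _)

/-- nonarchimedean: a point nearer to `r` than `r` to `c` has the same distance to `c` as `r` -/
lemma val_sub_eq {v : AbsoluteValue ℂ ℝ} (hv : IsNonarchimedean v) {z r c : ℂ}
    (h : v (z - r) < v (r - c)) : v (z - c) = v (r - c) := by
  have e : z - c = (z - r) + (r - c) := by ring
  rw [e]
  exact IsNonarchimedean.add_eq_right_of_lt hv h

/-- The values of a monic polynomial cannot tend to zero along a sequence whose distances to a point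
increase strictly. -/
theorem strictMono_contra (v : AbsoluteValue ℂ ℝ) (hv : IsNonarchimedean v) {P : ℂ[X]} (hP : P.Monic)
    {y0 : ℂ} {y : ℕ → ℂ} (h : Tendsto (fun k => v (P.eval (y k))) atTop (𝓝 0))
    (hinc : StrictMono fun k => v (y k - y0)) : False := by
  classical
  have hη : 0 < v (y 1 - y0) := lt_of_le_of_lt (v.nonneg _) (hinc Nat.zero_lt_one)
  obtain ⟨δ, hδ, hδη, hδr⟩ : ∃ δ : ℝ, 0 < δ ∧ δ ≤ v (y 1 - y0) ∧
      ∀ r ∈ P.roots.toFinset, r ≠ y0 → δ ≤ v (r - y0) := by
    have h1 : ∀ s : Finset ℂ, ∃ δ : ℝ, 0 < δ ∧ δ ≤ v (y 1 - y0) ∧ ∀ r ∈ s, r ≠ y0 → δ ≤ v (r - y0) := by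
      intro s
      induction s using Finset.induction_on with
      | empty => exact ⟨_, hη, le_rfl, by simp⟩
      | insert a s _ ih =>
        obtain ⟨δ, h1, h2, h3⟩ := ih
        by_cases ha : a = y0
        · refine ⟨δ, h1, h2, fun r hr hr0 => ?_⟩
          rcases Finset.mem_insert.1 hr with rfl | hr
          · exact absurd ha hr0
          · exact h3 r hr hr0
        · have h4 : 0 < v (a - y0) := v.pos (sub_ne_zero.2 ha)
          refine ⟨min δ (v (a - y0)), lt_min h1 h4, (min_le_left _ _).trans h2, fun r hr hr0 => ?_⟩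
          rcases Finset.mem_insert.1 hr with rfl | hr
          · exact min_le_right _ _
          · exact (min_le_left _ _).trans (h3 r hr hr0)
    exact h1 _
  have hev : ∀ᶠ k in atTop, ∃ r ∈ P.roots, v (y k - r) < δ := by
    have h1 : ∀ᶠ k in atTop, v (P.eval (y k)) < δ ^ Multiset.card P.roots :=
      h.eventually_lt_const (pow_pos hδ _)
    filter_upwards [h1] with k hk
    by_contra hcon
    push Not at hcon
    have h2 := pow_card_le_prod_val v hδ.le (y k) P.roots hcon
    have h3 : P.eval (y k) = (P.roots.map fun r => y k - r).prod :=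
      (IsAlgClosed.splits P).eval_eq_prod_roots_of_monic hP (y k)
    rw [h3, map_multiset_prod, Multiset.map_map] at hk
    exact absurd h2 (not_le.2 hk)
  obtain ⟨K, hK⟩ := eventually_atTop.1 hev
  have hfin : ∀ k, max K 1 ≤ k → v (y k - y0) ∈ (P.roots.toFinset.image fun r => v (r - y0)) := by
    intro k hk
    obtain ⟨r, hr, hrk⟩ := hK k ((le_max_left _ _).trans hk)
    have hk1 : v (y 1 - y0) ≤ v (y k - y0) := hinc.monotone ((le_max_right _ _).trans hk)
    have hr' : r ∈ P.roots.toFinset := Multiset.mem_toFinset.2 hr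
    have hne : r ≠ y0 := by
      rintro rfl
      exact absurd (hδη.trans hk1) (not_le.2 hrk)
    rw [Finset.mem_image]
    exact ⟨r, hr', (val_sub_eq hv (hrk.trans_le (hδr r hr' hne))).symm⟩
  have hinj : Function.Injective fun k : ℕ => v (y (max K 1 + k) - y0) :=
    hinc.injective.comp (add_right_injective _)
  refine Set.infinite_range_of_injective hinj
    ((P.roots.toFinset.image fun r => v (r - y0)).finite_toSet.subset ?_)
  rintro _ ⟨k, rfl⟩
  have hk : max K 1 ≤ max K 1 + k := Nat.le_add_right _ _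
  exact Finset.mem_coe.2 (hfin (max K 1 + k) hk)

end Pool.Agent.II9
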