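import Pool.Agent.II.CMb51
import Pool.Agent.II.Ray
import Pool.Agent.II.Cont
import Pool.Agent.R3h27.Mat

/-! # Canonical rays and their transport along an isogeny -/

set_option autoImplicit false

open UpperHalfPlane Matrix Filter Topology
open scoped MatrixGroups

namespace Pool.Agent.II9
open Pool.Agent.Helper11.ZP Pool.Agent.Helper11.ZU Pool.Agent.Helper20.ZT Pool.Agent.Helper20.ZT.Prim
  Pool.Agent.II51 Pool.Agent.R3h27

/-! ### matrices and points -/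

lemma jInv_of_mov {G : M2} (hG : G.det = 1) {τ τ' : ℍ} (h : Mov G τ τ') : jInv τ' = jInv τ := by
  let g : SL(2, ℤ) := ⟨G, hG⟩
  have h1 : g • τ = τ' := smul_of_mov (g := g) h
  rw [← h1, jInv_SL]

lemma mov_of_smul {n : ℤ} (hn : n ≠ 0) {A : M2} {τ τ' : ℍ} (h : Mov (n • A) τ τ') : Mov A τ τ' := by
  have hn' : (n : ℂ) ≠ 0 := by exact_mod_cast hn
  unfold Mov at *
  simp only [Matrix.smul_apply, smul_eq_mul] at h
  push_cast at h
  apply mul_left_cancel₀ hn'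
  linear_combination h

/-- cancellation on the right -/
lemma mov_left {A B : M2} (hB : B.det ≠ 0) {τ τ' τ'' : ℍ} (h : Mov (A * B) τ τ'') (hB' : Mov B τ τ') :
    Mov A τ' τ'' := by
  have h1 := mov_mul (mov_adj hB') h
  rw [Matrix.mul_assoc, Matrix.mul_adjugate, Matrix.mul_smul, Matrix.mul_one] at h1
  exact mov_of_smul hB h1

lemma exists_mov {A : M2} (hA : 0 < A.det) (τ : ℍ) : ∃ τ' : ℍ, Mov A τ τ' :=
  ⟨_, mov_toGL hA ⟨A, rfl⟩ τ⟩

/-! ### the local dynamics -/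

/-- the local dynamics of the isogenies of degree `p` at the point `x0` -/
structure Loc (v : AbsoluteValue ℂ ℝ) (p : ℕ) (x0 : ℂ) (μ : ℝ) : Prop where
  v_le : v x0 ≤ 1
  mu_lt : μ < 1
  step : ∀ τ : ℍ, 0 < v (jInv τ - x0) → v (jInv τ - x0) < 1 → ∃ (P : M2) (τ' : ℍ), P.det = p ∧
    Mov P τ τ' ∧ v (jInv τ' - x0) ≤ v (jInv τ - x0) * max μ (v (jInv τ - x0)) ∧
    ∀ (Q : M2) (τ'' : ℍ), Q.det = p → Mov Q τ τ'' → v (jInv τ'' - x0) ≤ v (jInv τ - x0) →
      ∃ G : M2, G.det = 1 ∧ Q = G * P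
  near : ∀ (τ τ' : ℍ) (P : M2), v (jInv τ - x0) < 1 → P.det = p → Mov P τ τ' →
    v (jInv τ' - x0) < 1

variable {v : AbsoluteValue ℂ ℝ} {p : ℕ} {x0 : ℂ} {μ : ℝ}

lemma Loc.mul_lt (h : Loc v p x0 μ) {d : ℝ} (h0 : 0 < d) (h1 : d < 1) : d * max μ d < d :=
  mul_lt_of_lt_one_right h0 (max_lt h.mu_lt h1)

/-- two steps which are not away from `x0` are the same coset -/
lemma Loc.same (h : Loc v p x0 μ) {τ τ1 τ2 : ℍ} {P Q : M2} (h0 : 0 < v (jInv τ - x0))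
    (h1 : v (jInv τ - x0) < 1) (hP : P.det = p) (hQ : Q.det = p) (mP : Mov P τ τ1) (mQ : Mov Q τ τ2)
    (dP : v (jInv τ1 - x0) ≤ v (jInv τ - x0)) (dQ : v (jInv τ2 - x0) ≤ v (jInv τ - x0)) :
    ∃ G : M2, G.det = 1 ∧ Q = G * P := by
  obtain ⟨R, τ', hR, mR, -, hu⟩ := h.step τ h0 h1
  obtain ⟨G, hG, eG⟩ := hu P τ1 hP mP dP
  obtain ⟨H, hH, eH⟩ := hu Q τ2 hQ mQ dQ
  refine ⟨H * G.adjugate, ?_, ?_⟩
  · rw [Matrix.det_mul, hH, det_adj', hG, mul_one]
  · rw [eH, eG, Matrix.mul_assoc, ← Matrix.mul_assoc G.adjugate, Matrix.adjugate_mul, hG, one_smul,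
      Matrix.one_mul]

/-- a step which is not away from `x0` is a contraction -/
lemma Loc.contr (h : Loc v p x0 μ) (hp : p.Prime) {τ τ1 : ℍ} {P : M2} (h0 : 0 < v (jInv τ - x0))
    (h1 : v (jInv τ - x0) < 1) (hP : P.det = p) (mP : Mov P τ τ1)
    (dP : v (jInv τ1 - x0) ≤ v (jInv τ - x0)) :
    v (jInv τ1 - x0) ≤ v (jInv τ - x0) * max μ (v (jInv τ - x0)) := by
  obtain ⟨R, τ', hR, mR, hle, hu⟩ := h.step τ h0 h1
  obtain ⟨G, hG, eG⟩ := hu P τ1 hP mP dP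
  have hR0 : R.det ≠ 0 := by rw [hR]; exact_mod_cast hp.ne_zero
  rw [eG] at mP
  rw [jInv_of_mov hG (mov_left hR0 mP mR)]
  exact hle

/-- backtracking -/
lemma jInv_back (hp : p.Prime) {τ τ1 τ2 : ℍ} {P Q : M2} (hP : P.det = p) (hQ : Q.det = p)
    (mP : Mov P τ τ1) (mQ : Mov Q τ1 τ2) (h : Dv p (Q * P)) : jInv τ2 = jInv τ := by
  obtain ⟨G, hG, rfl⟩ := (dv_mul_iff hp hP hQ).1 h
  have h0 : P.adjugate.det ≠ 0 := by rw [det_adj', hP]; exact_mod_cast hp.ne_zero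
  exact jInv_of_mov hG (mov_left h0 mQ (mov_adj mP))

/-- **after a step away from `x0` every step which does not go back is a step away from `x0`** -/
lemma Loc.up (h : Loc v p x0 μ) (hp : p.Prime) {τ τ1 τ2 : ℍ} {P Q : M2}
    (h1 : v (jInv τ - x0) < 1) (hP : P.det = p) (hQ : Q.det = p)
    (mP : Mov P τ τ1) (mQ : Mov Q τ1 τ2) (hb : ¬ Dv p (Q * P))
    (hlt : v (jInv τ - x0) < v (jInv τ1 - x0)) : v (jInv τ1 - x0) < v (jInv τ2 - x0) := by
  by_contra hcon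
  push Not at hcon
  have h2 : v (jInv τ1 - x0) < 1 := h.near τ τ1 P h1 hP mP
  have h3 : 0 < v (jInv τ1 - x0) := lt_of_le_of_lt (v.nonneg _) hlt
  have h4 : P.adjugate.det = p := by rw [det_adj', hP]
  obtain ⟨G, hG, eG⟩ := h.same h3 h2 h4 hQ (mov_adj mP) mQ hlt.le hcon
  exact hb ((dv_mul_iff hp hP hQ).2 ⟨G, hG, eG⟩)

/-! ### the canonical walk -/

/-- the canonical walk: there is a choice of the canonical step at every point near `x0` -/
theorem Loc.exists_walk (h : Loc v p x0 μ) (σ : ℍ) (h1 : v (jInv σ - x0) < 1) :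
    ∃ (s : ℕ → ℍ) (P : ℕ → M2), s 0 = σ ∧ (∀ k, v (jInv (s k) - x0) < 1) ∧
      ∀ k, 0 < v (jInv (s k) - x0) → (P k).det = p ∧ Mov (P k) (s k) (s (k + 1)) ∧
        v (jInv (s (k + 1)) - x0) ≤ v (jInv (s k) - x0) * max μ (v (jInv (s k) - x0)) ∧
        v (jInv (s (k + 1)) - x0) < v (jInv (s k) - x0) := by
  have key : ∀ τ : ℍ, v (jInv τ - x0) < 1 → ∃ (P : M2) (τ' : ℍ), v (jInv τ' - x0) < 1 ∧
      (0 < v (jInv τ - x0) → P.det = p ∧ Mov P τ τ' ∧
        v (jInv τ' - x0) ≤ v (jInv τ - x0) * max μ (v (jInv τ - x0)) ∧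
        v (jInv τ' - x0) < v (jInv τ - x0)) := by
    intro τ hτ
    by_cases h0 : 0 < v (jInv τ - x0)
    · obtain ⟨P, τ', hP, mP, hle, -⟩ := h.step τ h0 hτ
      have h2 := hle.trans_lt (h.mul_lt h0 hτ)
      exact ⟨P, τ', h2.trans hτ, fun _ => ⟨hP, mP, hle, h2⟩⟩
    · exact ⟨1, τ, hτ, fun h2 => absurd h2 h0⟩
  let T := {τ : ℍ // v (jInv τ - x0) < 1}
  have key' : ∀ t : T, ∃ (P : M2) (t' : T), (0 < v (jInv t.1 - x0) → P.det = p ∧ Mov P t.1 t'.1 ∧
        v (jInv t'.1 - x0) ≤ v (jInv t.1 - x0) * max μ (v (jInv t.1 - x0)) ∧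
        v (jInv t'.1 - x0) < v (jInv t.1 - x0)) := fun t => by
    obtain ⟨P, τ', h2, h3⟩ := key t.1 t.2
    exact ⟨P, ⟨τ', h2⟩, h3⟩
  choose Pf f hf using key'
  refine ⟨fun k => (f^[k] ⟨σ, h1⟩).1, fun k => Pf (f^[k] ⟨σ, h1⟩), rfl, fun k => (f^[k] ⟨σ, h1⟩).2,
    fun k hk => ?_⟩
  have e : f^[k + 1] ⟨σ, h1⟩ = f (f^[k] ⟨σ, h1⟩) := Function.iterate_succ_apply' f k _
  have h2 := hf (f^[k] ⟨σ, h1⟩) hk
  simp only [e]
  exact h2

/-- distances along a contracting sequence tend to zero -/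
lemma contr_tendsto {d : ℕ → ℝ} (hμ : μ < 1) (h0 : ∀ k, 0 ≤ d k) (h1 : d 0 < 1)
    (h : ∀ k, d (k + 1) ≤ d k * max μ (d k)) : Tendsto d atTop (𝓝 0) := by
  have hd : ∀ k, d k ≤ d 0 := by
    intro k
    induction k with
    | zero => exact le_rfl
    | succ k ih =>
      have h2 : max μ (d k) ≤ 1 := max_le hμ.le (ih.trans h1.le)
      exact (h k).trans ((mul_le_of_le_one_right (h0 k) h2).trans ih)
  have hρ0 : 0 ≤ max μ (d 0) := (h0 0).trans (le_max_right _ _)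
  have hk : ∀ k, d k ≤ (max μ (d 0)) ^ k * d 0 := by
    intro k
    induction k with
    | zero => rw [pow_zero, one_mul]
    | succ k ih =>
      have h2 : max μ (d k) ≤ max μ (d 0) := max_le_max le_rfl (hd k)
      calc d (k + 1) ≤ d k * max μ (d k) := h k
        _ ≤ ((max μ (d 0)) ^ k * d 0) * max μ (d 0) :=
          mul_le_mul ih h2 ((h0 k).trans (le_max_right _ _)) (mul_nonneg (pow_nonneg hρ0 _) (h0 0))
        _ = _ := by ring
  have h3 : Tendsto (fun k => (max μ (d 0)) ^ k * d 0) atTop (𝓝 0) := by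
    have := (tendsto_pow_atTop_nhds_zero_of_lt_one hρ0 (max_lt hμ h1)).mul_const (d 0)
    rwa [zero_mul] at this
  exact squeeze_zero h0 hk h3

/-! ### transport -/

/-- primitivity is preserved -/
lemma prm_step (hp : p.Prime) {A A' P Q : M2} (hA : Prm A) (hpA : ¬ (p : ℤ) ∣ A.det) (hQ : Q.det = p)
    (hd : A'.det = A.det) (h : Q * A = A' * P) : Prm A' := by
  intro k hk
  have hpZ : Prime (p : ℤ) := Nat.prime_iff_prime_int.mp hp
  have hk1 : Dv k A' := hk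
  have h1 : Dv k (Q.adjugate * (Q * A)) := by
    rw [h]
    exact (hk1.mul_right P).mul_left _
  rw [← Matrix.mul_assoc, Matrix.adjugate_mul, hQ, Matrix.smul_mul, Matrix.one_mul] at h1
  have hpk : ¬ (p : ℤ) ∣ k := by
    intro hd'
    apply hpA
    rw [← hd, Matrix.det_fin_two]
    exact dvd_sub (((hd'.trans (hk 0 0))).mul_right _) (((hd'.trans (hk 0 1))).mul_right _)
  have hcop : IsCoprime k (p : ℤ) := ((Prime.coprime_iff_not_dvd hpZ).mpr hpk).symm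
  refine hA k fun i j => ?_
  have h2 := h1 i j
  rw [Matrix.smul_apply, smul_eq_mul] at h2
  exact hcop.dvd_of_dvd_mul_left h2

/-- **transport of a walk along a matrix of determinant prime to `p`** -/
theorem exists_transport (hp : p.Prime) {A : M2} {σ τ : ℍ} (hA : Mov A σ τ) (hA1 : Prm A)
    (hpA : ¬ (p : ℤ) ∣ A.det) {s : ℕ → ℍ} {P : ℕ → M2} (hs : s 0 = σ) (hP : ∀ k, (P k).det = p)
    (hm : ∀ k, Mov (P k) (s k) (s (k + 1))) :
    ∃ (B Q : ℕ → M2) (y : ℕ → ℍ), B 0 = A ∧ y 0 = τ ∧ ∀ k, (B k).det = A.det ∧ Prm (B k) ∧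
      (Q k).det = p ∧ Q k * B k = B (k + 1) * P k ∧ Mov (Q k) (y k) (y (k + 1)) ∧
      Mov (B k) (s k) (y k) := by
  have hp0 : (0 : ℤ) < p := by exact_mod_cast hp.pos
  choose Qf Bf hQf hBf hQB using fun (k : ℕ) (B : M2) => exists_comm hp B (hP k)
  let B : ℕ → M2 := fun k => Nat.rec A (fun k B => Bf k B) k
  have hB1 : ∀ k, B (k + 1) = Bf k (B k) := fun k => rfl
  let Q : ℕ → M2 := fun k => Qf k (B k)
  have hQd : ∀ k, 0 < (Q k).det := fun k => by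
    have : (Q k).det = p := hQf k (B k)
    rw [this]; exact hp0
  choose yf hyf using fun (k : ℕ) (t : ℍ) => exists_mov (hQd k) t
  let y : ℕ → ℍ := fun k => Nat.rec τ (fun k t => yf k t) k
  have hy1 : ∀ k, y (k + 1) = yf k (y k) := fun k => rfl
  have hBd : ∀ k, (B k).det = A.det := by
    intro k
    induction k with
    | zero => rfl
    | succ k ih => rw [hB1, hBf, ih]
  have hBp : ∀ k, Prm (B k) := by
    intro k
    induction k with
    | zero => exact hA1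
    | succ k ih =>
      exact prm_step hp ih (by rw [hBd]; exact hpA) (hQf k (B k)) (hBf k (B k)) (hQB k (B k))
  have hym : ∀ k, Mov (Q k) (y k) (y (k + 1)) := fun k => by rw [hy1]; exact hyf k (y k)
  refine ⟨B, Q, y, rfl, rfl, fun k => ⟨hBd k, hBp k, hQf k (B k), hQB k (B k), hym k, ?_⟩⟩
  induction k with
  | zero => rw [hs]; exact hA
  | succ k ih =>
    have h1 := mov_mul ih (hym k)
    have h2 : Q k * B k = B (k + 1) * P k := hQB k (B k)
    rw [h2] at h1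
    exact mov_left (by rw [hP]; exact hp0.ne') h1 (hm k)

end Pool.Agent.II9
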