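import Pool.Agent.II.Defs
import Pool.Agent.II.Walk

/-! # A ray over a canonical ray is canonical -/

set_option autoImplicit false

open UpperHalfPlane Matrix Filter Topology
open scoped MatrixGroups

namespace Pool.Agent.II9
open Pool.Agent.Helper11.ZP Pool.Agent.Helper11.ZU Pool.Agent.Helper20.ZT Pool.Agent.Helper20.ZT.Prim
  Pool.Agent.R3h27

variable {v : AbsoluteValue ℂ ℝ} {p : ℕ} {x0 y0 : ℂ} {μ μ' : ℝ}

/-- the local dynamics from the canonical neighbour -/
theorem loc_of_canon (hv : IsNonarchimedean v) {a : ℤ} (hxa : v (x0 - a) < 1) (h : II.Canon v p x0 μ)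
    (hnb : ∀ (τ τ' : ℍ) (P : II.Mat), P.det = p → II.Mov P τ τ' → v (jInv τ - a) < 1 →
      v (jInv τ' - a) < 1) : Loc v p x0 μ where
  v_le := by
    have e : x0 = (x0 - a) + a := by ring
    rw [e]
    exact (hv _ _).trans (max_le hxa.le (v_int hv a))
  mu_lt := h.lt
  step τ h0 h1 := by
    have hne : jInv τ ≠ x0 := fun e => by rw [e, sub_self, map_zero] at h0; exact lt_irrefl _ h0
    obtain ⟨P, τ', hP, mP, hlt⟩ := h.ex τ hne h1
    refine ⟨P, τ', hP, mP, ?_, fun Q τ'' hQ mQ hle => ?_⟩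
    · rw [mul_comm]
      exact h.contr τ τ' P hP mP hne h1 hlt
    · exact h.uniq τ τ' τ'' P Q hP mP hQ mQ hne h1 hlt
        (lt_of_le_of_ne hle (h.ne τ τ'' Q hQ mQ hne h1))
  near τ τ' P h1 hP mP := by
    have e1 : v (jInv τ - a) < 1 := by
      have e : jInv τ - a = (jInv τ - x0) + (x0 - a) := by ring
      rw [e]
      exact (hv _ _).trans_lt (max_lt h1 hxa)
    have e2 := hnb τ τ' P hP mP e1
    have e : jInv τ' - x0 = (jInv τ' - a) + (a - x0) := by ring
    rw [e]
    refine (hv _ _).trans_lt (max_lt e2 ?_)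
    rwa [v.map_sub]

section rays
variable {N : ℤ} {τ τ' : ℕ → ℍ} {P P' A : ℕ → II.Mat}

/-- a canonical ray does not go back -/
lemma rays_nonback (hp : p.Prime) (hR : II.Rays v p x0 N τ τ' P P' A) (k : ℕ) :
    ¬ Dv p (P (k + 1) * P k) := by
  intro h
  have h1 := jInv_back hp (hR.dP k) (hR.dP (k + 1)) (hR.mP k) (hR.mP (k + 1)) h
  have h2 := (hR.dec (k + 1)).trans (hR.dec k)
  rw [h1] at h2
  exact lt_irrefl _ h2

lemma rays_nonback' (hp : p.Prime) (hpN : ¬ (p : ℤ) ∣ N) (hR : II.Rays v p x0 N τ τ' P P' A) (k : ℕ) :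
    ¬ Dv p (P' (k + 1) * P' k) := by
  intro h
  refine rays_nonback hp hR k ((nonback hp (A := A k) (A1 := A (k + 1)) (A2 := A (k + 2)) ?_ ?_
    (hR.sq k) (hR.sq (k + 1))).1 h)
  · rw [hR.dA]; exact hpN
  · rw [hR.dA, hR.dA]

lemma rays_pos (hR : II.Rays v p x0 N τ τ' P P' A) (k : ℕ) : 0 < v (jInv (τ k) - x0) :=
  v.pos (sub_ne_zero.2 (hR.ne k))

lemma rays_lt (hR : II.Rays v p x0 N τ τ' P P' A) (k : ℕ) : v (jInv (τ k) - x0) < 1 := by
  induction k with
  | zero => exact hR.lt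
  | succ k ih => exact (hR.dec k).trans ih

/-- a canonical ray tends to the centre -/
lemma rays_tendsto (hp : p.Prime) (hx : Loc v p x0 μ) (hR : II.Rays v p x0 N τ τ' P P' A) :
    Tendsto (fun k => v (jInv (τ k) - x0)) atTop (𝓝 0) :=
  contr_tendsto hx.mu_lt (fun k => v.nonneg _) hR.lt fun k =>
    hx.contr hp (rays_pos hR k) (rays_lt hR k) (hR.dP k) (hR.mP k) (hR.dec k).le

/-- the second ray stays near `y0` -/
lemma rays_lt' (hy : Loc v p y0 μ') (hR : II.Rays v p x0 N τ τ' P P' A)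
    (h0 : v (jInv (τ' 0) - y0) < 1) (k : ℕ) : v (jInv (τ' k) - y0) < 1 := by
  induction k with
  | zero => exact h0
  | succ k ih => exact hy.near _ _ _ ih (hR.dP' k) (hR.mP' k)

lemma v_le_one_of_near (hv : IsNonarchimedean v) {x c : ℂ} (hc : v c ≤ 1) (h : v (x - c) < 1) :
    v x ≤ 1 := by
  have e : x = (x - c) + c := by ring
  rw [e]
  exact (hv _ _).trans (max_le h.le hc)

/-- **a ray over a canonical ray is canonical** -/
theorem ray_core9 (hv : IsNonarchimedean v) (hp : p.Prime) (hx : Loc v p x0 μ) (hy : Loc v p y0 μ')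
    (hN : 0 < N) (hpN : ¬ (p : ℤ) ∣ N) (hR : II.Rays v p x0 N τ τ' P P' A)
    (h0 : v (jInv (τ' 0) - y0) < 1) (m : ℕ) (hm : jInv (τ' m) ≠ y0) :
    v (jInv (τ' (m + 1)) - y0) < v (jInv (τ' m) - y0) := by
  have : Fact (0 < N) := ⟨hN⟩
  by_contra hcon
  have hlt := rays_lt' hy hR h0
  have hm0 : 0 < v (jInv (τ' m) - y0) := v.pos (sub_ne_zero.2 hm)
  have hup0 : v (jInv (τ' m) - y0) < v (jInv (τ' (m + 1)) - y0) := by
    by_contra hcon2
    push Not at hcon2
    have h2 := hy.contr hp hm0 (hlt m) (hR.dP' m) (hR.mP' m) hcon2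
    exact hcon (h2.trans_lt (hy.mul_lt hm0 (hlt m)))
  have hup : ∀ j, v (jInv (τ' (m + j)) - y0) < v (jInv (τ' (m + j + 1)) - y0) := by
    intro j
    induction j with
    | zero => exact hup0
    | succ j ih =>
      exact hy.up hp (hlt (m + j)) (hR.dP' (m + j)) (hR.dP' (m + j + 1)) (hR.mP' (m + j))
        (hR.mP' (m + j + 1)) (rays_nonback' hp hpN hR (m + j)) ih
  have hmono : StrictMono fun j => v (jInv (τ' (m + j)) - y0) := strictMono_nat_of_lt_succ hup
  have hmonic : ((primPoly N).map (evO x0)).Monic := (primPoly_monic N).map _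
  refine strictMono_contra v hv hmonic (y := fun j => jInv (τ' (m + j))) ?_ hmono
  have h3 : Tendsto (fun j => v (jInv (τ (m + j)) - x0)) atTop (𝓝 0) := by
    have := (rays_tendsto hp hx hR).comp (tendsto_add_atTop_nat m)
    refine this.congr fun j => ?_
    simp only [Function.comp_apply]
    rw [add_comm]
  refine squeeze_zero (fun j => v.nonneg _) (fun j => ?_) h3
  have h4 : (primPoly N).eval₂ (evO (jInv (τ (m + j)))) (jInv (τ' (m + j))) = 0 :=
    II51.root_of_mov N (hR.dA (m + j)) (hR.pA (m + j)) (hR.mA (m + j))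
  have h5 := v_eval_sub_left hv (x := x0) (x' := jInv (τ (m + j))) (y := jInv (τ' (m + j))) hx.v_le
    (v_le_one_of_near hv hx.v_le (rays_lt hR (m + j)))
    (v_le_one_of_near hv hy.v_le (hlt (m + j))) (primPoly N)
  rw [h4, sub_zero, Polynomial.eval₂_eq_eval_map, v.map_sub] at h5
  exact h5

end rays

end Pool.Agent.II9
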