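import Pool.Agent.II.RayCore
import Pool.Agent.II.JFix62

/-! # The canonical walk of a CM point reaches the centre -/

set_option autoImplicit false

open UpperHalfPlane Matrix Filter Topology
open scoped MatrixGroups

namespace Pool.Agent.II9
open Pool.Agent.Helper11.ZP Pool.Agent.Helper11.ZU Pool.Agent.Helper20.ZT Pool.Agent.Helper20.ZT.Prim
  Pool.Agent.R3h27

variable {v : AbsoluteValue ℂ ℝ} {p : ℕ} {x0 : ℂ} {μ : ℝ}

/-- a primitive matrix of determinant greater than one with a fixed point is not scalar -/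
lemma ten_ne_zero {A : M2} {τ : ℍ} (hA : II51.Prm A) (hM : II51.Mov A τ τ) (hd : 1 < A.det) :
    A 1 0 ≠ 0 := by
  intro h0
  obtain ⟨h1, h2⟩ := II51.scalar_of_fix hM h0
  have h3 : A 0 0 ∣ 1 := by
    refine hA (A 0 0) fun i j => ?_
    fin_cases i <;> fin_cases j
    · exact dvd_rfl
    · change A 0 0 ∣ A 0 1
      rw [h2]; exact dvd_zero _
    · change A 0 0 ∣ A 1 0
      rw [h0]; exact dvd_zero _
    · change A 0 0 ∣ A 1 1
      rw [h1]
  have h4 : A.det = A 0 0 * A 0 0 := by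
    rw [Matrix.det_fin_two, h1, h2]
    ring
  have h5 : IsUnit (A 0 0) := isUnit_of_dvd_one h3
  have h6 : A 0 0 * A 0 0 = 1 := by
    rcases Int.isUnit_iff.mp h5 with h | h <;> rw [h] <;> norm_num
  rw [h4, h6] at hd
  exact lt_irrefl _ hd

lemma prm_mul_left {G A : M2} (hG : G.det = 1) (hA : II51.Prm A) : II51.Prm (G * A) := by
  intro k hk
  have h1 : Dv k (G.adjugate * (G * A)) := Dv.mul_left (A := G * A) hk _
  rw [← Matrix.mul_assoc, Matrix.adjugate_mul, hG, one_smul, Matrix.one_mul] at h1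
  exact hA k h1

/-- **the canonical walk of a CM point reaches the centre** -/
theorem cm_reach (hv : IsNonarchimedean v) (hp : p.Prime) (h3 : 3 ≤ p) (hx : Loc v p x0 μ)
    {B : M2} (hB : B 1 0 ≠ 0) {σ : ℍ} (hM : II51.Mov B σ σ) (h1 : v (jInv σ - x0) < 1) :
    ∃ (K : ℕ) (s : ℕ → ℍ) (P : ℕ → M2), s 0 = σ ∧ jInv (s K) = x0 ∧
      ∀ k < K, (P k).det = p ∧ II51.Mov (P k) (s k) (s (k + 1)) ∧ jInv (s k) ≠ x0 ∧
        v (jInv (s (k + 1)) - x0) ≤ v (jInv (s k) - x0) * max μ (v (jInv (s k) - x0)) := by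
  classical
  obtain ⟨s, P, hs0, hs1, hs⟩ := hx.exists_walk σ h1
  by_cases hreach : ∃ K, jInv (s K) = x0
  · refine ⟨Nat.find hreach, s, P, hs0, Nat.find_spec hreach, fun k hk => ?_⟩
    have hne : jInv (s k) ≠ x0 := Nat.find_min hreach hk
    obtain ⟨h4, h5, h6, -⟩ := hs k (v.pos (sub_ne_zero.2 hne))
    exact ⟨h4, h5, hne, h6⟩
  · exfalso
    push Not at hreach
    have hs' := fun k => hs k (v.pos (sub_ne_zero.2 (hreach k)))
    have hquad : ((B 1 0 : ℤ) : ℂ) * (σ : ℂ) ^ 2 + ((B 1 1 - B 0 0 : ℤ) : ℂ) * (σ : ℂ) +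
        ((-B 0 1 : ℤ) : ℂ) = 0 := by
      push_cast
      linear_combination II51.fix_quad hM
    obtain ⟨A, hA1, hA2, hA3, hA4, hA5⟩ := II51.exists_prim_fix hB hquad h3
    obtain ⟨C, Q, y, hC0, hy0, hall⟩ := exists_transport hp hA1 hA2 hA4 hs0
      (fun k => (hs' k).1) (fun k => (hs' k).2.1)
    have hR : II.Rays v p x0 A.det s y P Q C :=
      { dP := fun k => (hs' k).1
        dP' := fun k => (hall k).2.2.1
        mP := fun k => (hs' k).2.1
        mP' := fun k => (hall k).2.2.2.2.1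
        dA := fun k => (hall k).1
        pA := fun k => (hall k).2.1
        mA := fun k => (hall k).2.2.2.2.2
        sq := fun k => (hall k).2.2.2.1
        ne := hreach
        lt := hs1 0
        dec := fun k => (hs' k).2.2.2 }
    have hp0 : (p : ℤ) ≠ 0 := by exact_mod_cast hp.ne_zero
    have hj : ∀ k, jInv (y k) = jInv (s k) := by
      intro k
      induction k with
      | zero => rw [hy0, hs0]
      | succ k ih =>
        obtain ⟨G, hG, mG⟩ := II51.jInv_inj ih.symm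
        have hne : jInv (y k) ≠ x0 := by rw [ih]; exact hreach k
        have h4 := ray_core9 hv hp hx hx (by linarith) hA4 hR
          (by rw [hy0]; exact h1) k hne
        have h5 : II51.Mov (Q k * G) (s k) (y (k + 1)) := II51.mov_mul mG (hR.mP' k)
        have h6 : (Q k * G).det = p := by rw [Matrix.det_mul, hG, mul_one, hR.dP' k]
        rw [ih] at h4
        obtain ⟨H, hH, eH⟩ := hx.same (rays_pos hR k) (rays_lt hR k) (hR.dP k) h6 (hR.mP k) h5
          (hR.dec k).le h4.le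
        rw [eH] at h5
        exact jInv_of_mov hH (mov_left (by rw [hR.dP k]; exact hp0) h5 (hR.mP k))
    have hfin := II.finite_fixed_det62 jInv (fun g τ => jInv_SL g τ) A.det
    have hinj : Function.Injective fun k => jInv (s k) := by
      have h4 : StrictAnti fun k => v (jInv (s k) - x0) := strictAnti_nat_of_succ_lt hR.dec
      intro k l hkl
      apply h4.injective
      simp only at hkl ⊢
      rw [hkl]
    refine Set.infinite_range_of_injective hinj (hfin.subset ?_)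
    rintro _ ⟨k, rfl⟩
    obtain ⟨G, hG, mG⟩ := II51.jInv_inj (hj k)
    have h5 : II51.Mov (G * C k) (s k) (s k) := II51.mov_mul (hR.mA k) mG
    have h6 : (G * C k).det = A.det := by rw [Matrix.det_mul, hG, one_mul, hR.dA k]
    refine ⟨s k, G * C k, h6, h5, ?_, rfl⟩
    exact ten_ne_zero (prm_mul_left hG (hR.pA k)) h5 (by rw [h6]; exact hA3)

/-- a walk is an isogeny -/
lemma walk_isog (hp : p.Prime) {K : ℕ} {s : ℕ → ℍ} {P : ℕ → M2}
    (h : ∀ k < K, (P k).det = p ∧ II51.Mov (P k) (s k) (s (k + 1))) :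
    ∃ M : M2, M.det = (p : ℤ) ^ K ∧ II51.Mov M (s 0) (s K) := by
  induction K with
  | zero => exact ⟨1, by simp, II51.mov_one _⟩
  | succ K ih =>
    obtain ⟨M, hM, mM⟩ := ih fun k hk => h k (hk.trans (Nat.lt_succ_self K))
    obtain ⟨h1, h2⟩ := h K (Nat.lt_succ_self K)
    exact ⟨P K * M, by rw [Matrix.det_mul, h1, hM, pow_succ, mul_comm], II51.mov_mul mM h2⟩

/-- **the field of a CM point near the centre is the Frobenius field** -/
theorem cm_square (hv : IsNonarchimedean v) (hp : p.Prime) (h3 : 3 ≤ p) (hx : Loc v p x0 μ)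
    {B : M2} {σ : ℍ} (hB : B 1 0 ≠ 0) (hM : II51.Mov B σ σ) (h1 : v (jInv σ - x0) < 1)
    {A0 : M2} {τ0 : ℍ} (hA0 : II51.Mov A0 τ0 τ0) (hj : jInv τ0 = x0) :
    IsSquare (II51.disc B * II51.disc A0) := by
  obtain ⟨K, s, P, hs0, hsK, hs⟩ := cm_reach hv hp h3 hx hB hM h1
  obtain ⟨M, hMd, mM⟩ := walk_isog hp fun k hk => ⟨(hs k hk).1, (hs k hk).2.1⟩
  obtain ⟨G, hG, mG⟩ := II51.jInv_inj (hsK.trans hj.symm)
  rw [hs0] at mM
  refine II51.isSquare_disc_isog hM hA0 (II51.mov_mul mM mG) ?_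
  rw [Matrix.det_mul, hG, one_mul, hMd]
  exact pow_ne_zero _ (by exact_mod_cast hp.ne_zero)

end Pool.Agent.II9
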