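import Mathlib

/-! # Row 10a, the residue field half: the number of vanishing factors of a product of linear forms -/

open Finset

namespace Pool.Agent.II

/-- the coefficients of a product of linear polynomials -/
lemma coeff_prod_lin {n : ℕ} {k : Type*} [CommRing k] (u w : Fin n → k) {j : ℕ} (hj : j ≤ n) :
    (∏ i : Fin n, (Polynomial.C (w i) * Polynomial.X + Polynomial.C (u i))).coeff j =
      ∑ I ∈ powersetCard (n - j) (univ : Finset (Fin n)), (∏ i ∈ I, u i) * ∏ i ∈ univ \ I, w i := by
  classical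
  have h1 : ∏ i : Fin n, (Polynomial.C (w i) * Polynomial.X + Polynomial.C (u i)) =
      ∑ I ∈ (univ : Finset (Fin n)).powerset,
        Polynomial.C ((∏ i ∈ I, u i) * ∏ i ∈ univ \ I, w i) * Polynomial.X ^ (n - I.card) := by
    have h2 : ∀ i : Fin n, Polynomial.C (w i) * Polynomial.X + Polynomial.C (u i) =
        Polynomial.C (u i) + Polynomial.C (w i) * Polynomial.X := fun i => add_comm _ _
    rw [Finset.prod_congr rfl fun i _ => h2 i, Finset.prod_add]
    refine Finset.sum_congr rfl fun I hI => ?_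
    rw [Finset.prod_mul_distrib, Finset.prod_const, Finset.card_sdiff_of_subset (Finset.mem_powerset.1 hI),
      Finset.card_univ, Fintype.card_fin, ← map_prod, ← map_prod, ← mul_assoc, ← Polynomial.C_mul]
  rw [h1, Polynomial.finsetSum_coeff]
  simp only [Polynomial.coeff_C_mul, Polynomial.coeff_X_pow, mul_ite, mul_one, mul_zero]
  rw [← Finset.sum_filter]
  refine Finset.sum_congr ?_ fun _ _ => rfl
  ext I
  rw [Finset.mem_filter, Finset.mem_powersetCard, Finset.mem_powerset]
  have h3 : I.card ≤ n := by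
    have := Finset.card_le_univ I
    rwa [Fintype.card_fin] at this
  constructor
  · rintro ⟨h4, h5⟩
    exact ⟨h4, by omega⟩
  · rintro ⟨h4, h5⟩
    exact ⟨h4, by omega⟩

/-- if the first `c` coefficients of `∏ (w i T + u i)` vanish, at least `c` of the `u i` vanish -/
theorem card_of_coeff {n c : ℕ} {k : Type*} [Field k] [DecidableEq k] (u w : Fin n → k)
    (h : ∀ i, u i ≠ 0 ∨ w i ≠ 0) (hc : c ≤ n)
    (hs : ∀ j < c, ∑ I ∈ powersetCard (n - j) (univ : Finset (Fin n)),
      (∏ i ∈ I, u i) * ∏ i ∈ univ \ I, w i = 0) :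
    c ≤ (univ.filter fun i => u i = 0).card := by
  set P : Polynomial k := ∏ i : Fin n, (Polynomial.C (w i) * Polynomial.X + Polynomial.C (u i)) with hP
  have hd : (Polynomial.X : Polynomial k) ^ c ∣ P := by
    rw [Polynomial.X_pow_dvd_iff]
    intro j hj
    rw [hP, coeff_prod_lin u w (by omega), hs j hj]
  rw [hP, ← Finset.prod_filter_mul_prod_filter_not univ (fun i => u i = 0)] at hd
  have hco : IsCoprime ((Polynomial.X : Polynomial k) ^ c)
      (∏ i ∈ univ.filter (fun i => ¬ u i = 0), (Polynomial.C (w i) * Polynomial.X + Polynomial.C (u i))) := by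
    apply IsCoprime.pow_left
    apply IsCoprime.prod_right
    intro i hi
    have hu : u i ≠ 0 := (Finset.mem_filter.1 hi).2
    refine ⟨-Polynomial.C (w i * (u i)⁻¹), Polynomial.C ((u i)⁻¹), ?_⟩
    have h1 : (Polynomial.C (u i)⁻¹ : Polynomial k) * Polynomial.C (u i) = 1 := by
      rw [← Polynomial.C_mul, inv_mul_cancel₀ hu, Polynomial.C_1]
    rw [Polynomial.C_mul]
    linear_combination h1
  have hd2 := hco.dvd_of_dvd_mul_right hd
  have h2 : ∏ i ∈ univ.filter (fun i => u i = 0), (Polynomial.C (w i) * Polynomial.X + Polynomial.C (u i)) =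
      Polynomial.C (∏ i ∈ univ.filter (fun i => u i = 0), w i) *
        Polynomial.X ^ (univ.filter fun i => u i = 0).card := by
    rw [map_prod, ← Finset.prod_const, ← Finset.prod_mul_distrib]
    refine Finset.prod_congr rfl fun i hi => ?_
    rw [(Finset.mem_filter.1 hi).2, Polynomial.C_0, add_zero]
  have hw : ∏ i ∈ univ.filter (fun i => u i = 0), w i ≠ 0 :=
    Finset.prod_ne_zero_iff.2 fun i hi => (h i).resolve_left fun h3 => h3 (Finset.mem_filter.1 hi).2
  rw [h2] at hd2
  by_contra hcon
  push Not at hcon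
  have h4 := (Polynomial.X_pow_dvd_iff.1 hd2) _ hcon
  rw [Polynomial.coeff_C_mul, Polynomial.coeff_X_pow_self, mul_one] at h4
  exact hw h4

/-- the valuation ring form -/
theorem card_of_nonunits {n c : ℕ} {K : Type*} [Field K] (O : ValuationSubring K) (u w : Fin n → K)
    (hu : ∀ i, u i ∈ O) (hw : ∀ i, w i ∈ O) (h : ∀ i, u i = 1 ∨ w i = 1) (hc : c ≤ n)
    (hs : ∀ j < c, (∑ I ∈ powersetCard (n - j) (univ : Finset (Fin n)),
      (∏ i ∈ I, u i) * ∏ i ∈ univ \ I, w i) ∈ O.nonunits) :
    ∃ T : Finset (Fin n), c ≤ T.card ∧ ∀ i ∈ T, u i ∈ O.nonunits := by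
  classical
  set r : O →+* IsLocalRing.ResidueField O := IsLocalRing.residue O with hr
  set u' : Fin n → O := fun i => ⟨u i, hu i⟩ with hu'
  set w' : Fin n → O := fun i => ⟨w i, hw i⟩ with hw'
  have key := card_of_coeff (c := c) (fun i => r (u' i)) (fun i => r (w' i)) (fun i => ?_) hc (fun j hj => ?_)
  · refine ⟨_, key, fun i hi => ?_⟩
    have h1 : r (u' i) = 0 := (Finset.mem_filter.1 hi).2
    rw [hr, IsLocalRing.residue_eq_zero_iff] at h1
    exact (ValuationSubring.coe_mem_nonunits_iff (a := u' i)).2 h1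
  · rcases h i with h1 | h1
    · left
      have : u' i = 1 := Subtype.ext h1
      rw [this, map_one]
      exact one_ne_zero
    · right
      have : w' i = 1 := Subtype.ext h1
      rw [this, map_one]
      exact one_ne_zero
  · have h1 : ∑ I ∈ powersetCard (n - j) (univ : Finset (Fin n)),
        (∏ i ∈ I, r (u' i)) * ∏ i ∈ univ \ I, r (w' i) =
        r (∑ I ∈ powersetCard (n - j) (univ : Finset (Fin n)), (∏ i ∈ I, u' i) * ∏ i ∈ univ \ I, w' i) := by
      rw [map_sum]
      refine Finset.sum_congr rfl fun I _ => ?_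
      rw [map_mul, map_prod, map_prod]
    rw [h1, hr, IsLocalRing.residue_eq_zero_iff]
    refine (ValuationSubring.coe_mem_nonunits_iff).1 ?_
    have h2 := hs j hj
    have h3 : ((∑ I ∈ powersetCard (n - j) (univ : Finset (Fin n)),
        (∏ i ∈ I, u' i) * ∏ i ∈ univ \ I, w' i : O) : K) =
        ∑ I ∈ powersetCard (n - j) (univ : Finset (Fin n)), (∏ i ∈ I, u i) * ∏ i ∈ univ \ I, w i := by
      push_cast
      rfl
    rwa [h3]

end Pool.Agent.II
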