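import Pool.Agent.II.Adapt36
import Pool.Agent.II.Defs

/-! # Row 1a: the product formula, symmetry and Kronecker's congruence of the primitive modular
polynomial -/

open UpperHalfPlane Finset Pool.Agent.Helper11.ZP Pool.Agent.Helper20.ZT.Prim

namespace Pool.Agent.II

variable {v : AbsoluteValue ℂ ℝ} {p : ℕ}

theorem map_evO (m : ℤ) [hm : Fact (0 < m)] (τ : ℍ) :
    (primPoly m).map (evO (jInv τ)) =
      ∏ o ∈ TP m, (Polynomial.X - Polynomial.C (jInv (toGL hm.out (U m o) • τ))) :=
  primPoly_prod m τ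

theorem coeff_symm (hp : p.Prime) [Fact (0 < (p : ℤ))] (i l : ℕ) :
    ((primPoly (p : ℤ)).coeff i).coeff l = ((primPoly (p : ℤ)).coeff l).coeff i := by
  have h := FF_Sy (p : ℤ) (by exact_mod_cast hp.one_lt) i l
  rw [FF, Polynomial.coeff_map, Polynomial.coeff_map, Polynomial.coe_mapRingHom,
    Polynomial.coeff_map, Polynomial.coeff_map] at h
  exact (Subtype.ext h).symm

theorem kronecker (hv : IsNonarchimedean v) (hp : p.Prime) (hvp : v (p : ℂ) < 1) [Fact (0 < (p : ℤ))]
    (i l : ℕ) :
    v ((((((primPoly (p : ℤ)).coeff i).coeff l : OO) : ℂ)) -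
      ((((((Polynomial.X ^ p - Polynomial.C Polynomial.X) *
        (Polynomial.X - Polynomial.C (Polynomial.X ^ p)) :
          Polynomial (Polynomial ℤ)).coeff i).coeff l : ℤ) : ℂ))) < 1 := by
  have : Fact p.Prime := ⟨hp⟩
  have h := FF_kron hv hvp l i
  have h2 : ((Polynomial.C Polynomial.X ^ p - Polynomial.X) * (Polynomial.C Polynomial.X - Polynomial.X ^ p) :
      Polynomial (Polynomial ℂ)) = kro ℂ p := by
    rw [kro, Polynomial.C_pow]; ring
  rw [h2, ← kro_map (Int.castRingHom ℂ) p, FF, Polynomial.coeff_sub, Polynomial.coeff_map,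
    Polynomial.coeff_map, Polynomial.coeff_sub, Polynomial.coe_mapRingHom, Polynomial.coeff_map,
    Polynomial.coe_mapRingHom, Polynomial.coeff_map] at h
  exact h

end Pool.Agent.II
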