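import Pool.Agent.II.Defs
import Pool.Agent.II.Cont
import Pool.Agent.II.Adapt36

/-! # Integral images, row 1c: continuity, neighbours, zeros -/

open UpperHalfPlane Finset Pool.Agent.Helper11.ZP Pool.Agent.Helper20.ZT.Prim

namespace Pool.Agent.II

variable {v : AbsoluteValue ℂ ℝ} {p : ℕ}

theorem Phi_near (hv : IsNonarchimedean v) (N : ℤ) [Fact (0 < N)] {x y x' y' : ℂ}
    (hx : v x ≤ 1) (hy : v y ≤ 1) (hx' : v x' ≤ 1) (hy' : v y' ≤ 1) :
    v (Phi N x y - Phi N x' y') ≤ max (v (x - x')) (v (y - y')) := by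
  have h1 := II9.v_eval_sub_left hv hx hx' hy (primPoly N)
  have h2 := II9.v_eval_sub_right hv hx' hy hy' (primPoly N)
  have h3 : Phi N x y - Phi N x' y' = ((primPoly N).eval₂ (evO x) y - (primPoly N).eval₂ (evO x') y) +
      ((primPoly N).eval₂ (evO x') y - (primPoly N).eval₂ (evO x') y') := by
    unfold Phi
    ring
  rw [h3]
  exact (hv _ _).trans (max_le_max h1 h2)

/-- factor out the content -/
lemma exists_prim {A : Mat} (hA : 0 < A.det) {τ τ' : ℍ} (h : Mov A τ τ') :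
    ∃ B : Mat, 0 < B.det ∧ Prm B ∧ Mov B τ τ' := by
  -- strong induction on the determinant
  obtain ⟨n, hn⟩ : ∃ n : ℕ, A.det.toNat = n := ⟨_, rfl⟩
  induction n using Nat.strong_induction_on generalizing A with
  | _ n ih =>
    by_cases hP : Prm A
    · exact ⟨A, hA, hP, h⟩
    · unfold Prm at hP
      push Not at hP
      obtain ⟨k, hk, hk1⟩ := hP
      have hk0 : k ≠ 0 := by
        rintro rfl
        have h00 := zero_dvd_iff.1 (hk 0 0)
        have h01 := zero_dvd_iff.1 (hk 0 1)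
        rw [Matrix.det_fin_two, h00, h01] at hA
        simp at hA
      choose B hB using hk
      have e : A = k • (Matrix.of B : Mat) := by
        ext i j
        rw [Matrix.smul_apply, Matrix.of_apply, smul_eq_mul]
        exact hB i j
      have hdet : A.det = k ^ 2 * (Matrix.of B : Mat).det := by
        rw [e, Matrix.det_smul]
        simp
      have hk2 : 1 < k ^ 2 := by
        rcases lt_or_gt_of_ne hk0 with h | h
        · have : k ≠ -1 := by rintro rfl; exact hk1 (by norm_num)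
          have : k ≤ -2 := by omega
          nlinarith
        · have : k ≠ 1 := by rintro rfl; exact hk1 (by norm_num)
          have : 2 ≤ k := by omega
          nlinarith
      have hBpos : 0 < (Matrix.of B : Mat).det := by
        rw [hdet] at hA
        exact (mul_pos_iff_of_pos_left (by positivity)).1 hA
      have hlt : (Matrix.of B : Mat).det.toNat < n := by
        rw [← hn, Int.toNat_lt_toNat hA, hdet]
        nlinarith
      refine ih _ hlt hBpos ?_ rfl
      unfold Mov at h ⊢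
      have hkc : (k : ℂ) ≠ 0 := by exact_mod_cast hk0
      apply mul_left_cancel₀ hkc
      simp only [Matrix.of_apply]
      rw [hB 1 0, hB 1 1, hB 0 0, hB 0 1] at h
      push_cast at h
      linear_combination h

theorem integral_of_mov (hv : IsNonarchimedean v) {A : Mat} (hA : 0 < A.det) {τ τ' : ℍ}
    (h : Mov A τ τ') (h1 : v (jInv τ) ≤ 1) : v (jInv τ') ≤ 1 := by
  obtain ⟨B, hB, hP, hM⟩ := exists_prim hA h
  have : Fact (0 < B.det) := ⟨hB⟩
  have h2 : (primPoly B.det).eval₂ (evO (jInv τ)) (jInv τ') = 0 := by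
    rw [primPoly_roots]
    exact ⟨⟨B, rfl⟩, hP, by rw [toGL_of_mov36 hB ⟨B, rfl⟩ hM]⟩
  rw [← FF_eval] at h2
  refine v_root_le_one hv ((FF_monic B.det).map _) (fun i => ?_) h2
  rw [FF_map, Polynomial.coeff_map]
  rw [II9.evO_ball hv ⟨jInv τ, h1⟩]
  exact (Polynomial.eval₂ (II9.ballMap hv) (⟨jInv τ, h1⟩ : II9.vball v hv) _).2

theorem nbr_near (hv : IsNonarchimedean v) (hp : p.Prime) (hvp : v (p : ℂ) < 1) {P : Mat}
    (hP : P.det = p) {τ τ' : ℍ} (h : Mov P τ τ') {b : ℤ} (h1 : v (jInv τ - b) < 1) :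
    v (jInv τ' - b) < 1 := by
  have : Fact p.Prime := ⟨hp⟩
  refine FF_near (p := p) hv hvp (v_int_le36 hv b) ?_ h1 ?_
  · have h2 : (p : ℤ) ∣ b ^ p - b := by
      have h3 := ZMod.pow_card (p := p) (b : ZMod p)
      rw [← ZMod.intCast_eq_intCast_iff_dvd_sub]
      push_cast
      exact h3.symm
    obtain ⟨c, hc⟩ := h2
    have h3 : ((b : ℂ) ^ p - b) = p * (c : ℂ) := by exact_mod_cast congrArg (fun z : ℤ => (z : ℂ)) hc
    rw [h3, map_mul]
    exact mul_lt_one_of_nonneg_of_lt_one_left (v.nonneg _) hvp (v_int_le36 hv c)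
  · rw [FF_zero_iff]
    exact ⟨⟨P, hP⟩, prim_of_prime36 _, by rw [toGL_of_mov36 _ ⟨P, hP⟩ h]⟩

lemma prm_mul_left {G A : Mat} (hG : G.det = 1) (hA : Prm A) : Prm (G * A) := by
  intro k hk
  refine hA k fun i j => ?_
  have h1 : A = G.adjugate * (G * A) := by
    rw [← Matrix.mul_assoc, Matrix.adjugate_mul, hG, one_smul, Matrix.one_mul]
  rw [h1, Matrix.mul_apply]
  exact Finset.dvd_sum fun l _ => (hk l j).mul_left _

theorem Phi_zero_iff (N : ℤ) [Fact (0 < N)] (τ τ' : ℍ) :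
    Phi N (jInv τ) (jInv τ') = 0 ↔ ∃ A : Mat, A.det = N ∧ Prm A ∧ Mov A τ τ' := by
  have hN : 0 < N := Fact.out
  unfold Phi
  rw [primPoly_roots]
  constructor
  · rintro ⟨A, hA, hj⟩
    obtain ⟨G, hG, hM⟩ := II51.jInv_inj hj.symm
    refine ⟨G * A.1, ?_, prm_mul_left hG hA, II51.mov_mul (mov_toGL36 hN A τ) hM⟩
    rw [Matrix.det_mul, hG, one_mul]
    exact A.2
  · rintro ⟨A, hd, hA, hM⟩
    exact ⟨⟨A, hd⟩, hA, by rw [toGL_of_mov36 hN ⟨A, hd⟩ hM]⟩

theorem exists_of_Phi_near (hv : IsNonarchimedean v) (N : ℤ) [Fact (0 < N)] {a b : ℤ}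
    (h : v (Phi N a b) < 1) : ∃ (τ τ' : ℍ) (A : Mat), A.det = N ∧ Prm A ∧ Mov A τ τ' ∧
      jInv τ = a ∧ v (jInv τ' - b) < 1 := by
  have hN : 0 < N := Fact.out
  obtain ⟨τ, hτ⟩ := jInv_surjective (a : ℂ)
  have h1 : Phi N a b = ∏ o ∈ TP N, ((b : ℂ) - jInv (toGL hN (U N o) • τ)) := by
    unfold Phi
    rw [← hτ, ← Polynomial.eval_map, primPoly_prod, Polynomial.eval_prod]
    simp
  rw [h1, map_prod] at h
  obtain ⟨o, ho, h2⟩ : ∃ o ∈ TP N, v ((b : ℂ) - jInv (toGL hN (U N o) • τ)) < 1 := by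
    by_contra hcon
    push Not at hcon
    have h3 := Finset.prod_le_prod (f := fun _ : Orb N => (1 : ℝ))
      (g := fun o => v ((b : ℂ) - jInv (toGL hN (U N o) • τ))) (s := TP N)
      (fun _ _ => zero_le_one) hcon
    rw [Finset.prod_const_one] at h3
    linarith
  refine ⟨τ, toGL hN (U N o) • τ, (U N o).1, (U N o).2, TP_prim N ho, mov_toGL36 hN _ τ, hτ, ?_⟩
  rw [← v.map_neg]
  rw [show -(jInv (toGL hN (U N o) • τ) - (b : ℂ)) = (b : ℂ) - jInv (toGL hN (U N o) • τ) by ring]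
  exact h2

end Pool.Agent.II
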