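import Pool.Agent.II.Dens
/-! Row 8 of MP_130685 IntegralImages (helper46): the density theorem in the form of the skeleton. -/
set_option autoImplicit false
namespace Pool.Agent.II
open Finset

open Classical in
theorem density_fields {n : ℕ} (k P0 : ℕ) {α : Type*} (F : ℕ → ℤ → α) (NO : ℕ → Set ℤ) (C : ℝ)
    (hF : ∀ (p : ℕ) (b c : ℤ), (p : ℤ) ∣ b - c → F p b = F p c)
    (hNO : ∀ (p : ℕ) (b c : ℤ), (p : ℤ) ∣ b - c → (b ∈ NO p ↔ c ∈ NO p))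
    (hcard : ∀ p : ℕ, p.Prime → P0 ≤ p →
      (((Ico 0 (p : ℤ)).filter (fun b => b ∈ NO p)).card : ℝ) ≤ C * (p : ℝ) ^ (5 / 6 : ℝ))
    (hcardF : ∀ p : ℕ, p.Prime → P0 ≤ p → ∀ f : α,
      (((Ico 0 (p : ℤ)).filter (fun b => b ∉ NO p ∧ F p b = f)).card : ℝ) ≤ C * (p : ℝ) ^ (5 / 6 : ℝ)) :
    Filter.Tendsto (fun H : ℕ =>
      ((((Icc (-(H : ℤ)) H) ×ˢ (Fintype.piFinset fun _ : Fin n => Icc (-(H : ℤ)) H)).filter
        (fun w => ∃ S : Finset ℕ, S.card = k ∧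
          (∀ p ∈ S, p.Prime ∧ P0 ≤ p ∧ (p : ℤ) ∣ w.1 ∧ ∀ i, w.2 i ∉ NO p) ∧
          (∀ p ∈ S, ∀ q ∈ S, ∀ i j, (p, i) ≠ (q, j) → F p (w.2 i) ≠ F q (w.2 j)))).card : ℝ) /
      ((((Icc (-(H : ℤ)) H) ×ˢ (Fintype.piFinset fun _ : Fin n => Icc (-(H : ℤ)) H)).card : ℝ)))
      Filter.atTop (nhds 1) := by
  have h := density_of_good (n := n) k P0 F NO C (fun p _ x y => hF p x y)
    (fun p _ x y => hNO p x y)
    (by
      intro p hp hp0 T hT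
      refine le_trans (Nat.cast_le.2 (card_le_card ?_)) (hcard p hp hp0)
      intro x hx
      rw [mem_filter, mem_Ico]
      exact ⟨⟨(hT x hx).1, (hT x hx).2.1⟩, (hT x hx).2.2⟩)
    (by
      intro p hp hp0 f T hT
      refine le_trans (Nat.cast_le.2 (card_le_card ?_)) (hcardF p hp hp0 f)
      intro x hx
      rw [mem_filter, mem_Ico]
      exact ⟨⟨(hT x hx).1, (hT x hx).2.1⟩, (hT x hx).2.2⟩)
    (fun l a => ∃ S : Finset ℕ, S.card = k ∧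
      (∀ p ∈ S, p.Prime ∧ P0 ≤ p ∧ (p : ℤ) ∣ l ∧ ∀ i, a i ∉ NO p) ∧
      (∀ p ∈ S, ∀ q ∈ S, ∀ i j, (p, i) ≠ (q, j) → F p (a i) ≠ F q (a j)))
    (fun l a S _ h1 h2 h3 => ⟨S, h1, h2, h3⟩)
  refine h.congr fun H => ?_
  rw [← bx_card]
  rfl

end Pool.Agent.II
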