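import Pool.Agent.II.Glue79
import Pool.Agent.II.Row5
import Pool.Agent.II.Absv11

/-! # Integral images: the residue disks of good integers are separated -/

open UpperHalfPlane Finset Pool.Agent.Helper11.ZP Pool.Agent.Helper11.ZU Pool.Agent.Helper20.ZT
  Pool.Agent.Helper20.ZT.Prim Pool.Agent.Helper20.ZD.Local

namespace Pool.Agent.II

variable {v : AbsoluteValue ℂ ℝ} {p : ℕ}

/-- the discriminant of a centre is negative -/
theorem Center.neg (hp : p.Prime) {a t : ℤ} {x₀ : ℂ} (hx : Center v p a t x₀) : t ^ 2 - 4 * (p : ℤ) < 0 := by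
  obtain ⟨A, τ, hd, ht, hM, -⟩ := hx.ex
  have h0 : A 1 0 ≠ 0 := by
    intro h0
    obtain ⟨h1, h2⟩ := Pool.Agent.II51.scalar_of_fix hM h0
    rw [Matrix.det_fin_two, h1, h2, zero_mul, sub_zero] at hd
    have h3 : (A 0 0).natAbs * (A 0 0).natAbs = p := by
      have := congrArg Int.natAbs hd
      rwa [Int.natAbs_mul, Int.natAbs_natCast] at this
    rcases hp.eq_one_or_self_of_dvd _ ⟨_, h3.symm⟩ with h4 | h4
    · rw [h4, mul_one] at h3
      exact hp.one_lt.ne h3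
    · rw [h4] at h3
      have h5 := Nat.eq_of_mul_eq_mul_left hp.pos (h3.trans (mul_one p).symm)
      exact hp.one_lt.ne' h5
  have h1 := dsc_neg h0 hM
  rw [dsc, ht, hd] at h1
  exact h1

/-- a special point near a good integer has the field of this integer -/
theorem cmBy_of_near (hv : IsNonarchimedean v) (hp : p.Prime) (h5 : 5 ≤ p) (hvp : v (p : ℂ) < 1)
    {a t : ℤ} {x₀ : ℂ} (hx : Center v p a t x₀) (ht : t ≠ 0) {c : ℂ} (hc : IsSpecialPoint c)
    (h : v (c - a) < 1) : CMBy (t ^ 2 - 4 * p) c := by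
  obtain ⟨σ, rfl⟩ := jInv_surjective c
  obtain ⟨B, hB, hM⟩ := (special_iff σ).1 hc
  exact ⟨σ, B, hM, hB, rfl, cm_lemma hv hp h5 hvp hx ht hB hM h⟩

lemma prm_diag79 (N : ℤ) : Prm !![N, 0; 0, 1] := fun k hk => by simpa using hk 1 1

variable {n : ℕ}

/-- **the residue disks of integers which are ordinary and have different fields are separated** -/
theorem sep_of_center (hv : IsNonarchimedean v) (hp : p.Prime) (h5 : 5 ≤ p) (hvp : v (p : ℂ) < 1)
    {a t : Fin n → ℤ} {x₀ : Fin n → ℂ} (hx : ∀ i, Center v p (a i) (t i) (x₀ i)) (ht : ∀ i, t i ≠ 0)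
    (hsq : ∀ i j, i ≠ j → ¬ IsSquare ((t i ^ 2 - 4 * p) * (t j ^ 2 - 4 * p))) :
    Sep (fun i => {x : ℂ | v (x - a i) < 1}) (fun i => t i ^ 2 - 4 * p) where
  neg i := (hx i).neg hp
  nsq := hsq
  cm i c hc hs := cmBy_of_near hv hp h5 hvp (hx i) (ht i) hs hc
  pair i j hij x hxi y hyj hns N hN := by
    obtain ⟨τ, τ', h1, rfl, rfl⟩ := hN
    have hN0 : 0 < (N : ℤ) := by
      have : N ≠ 0 := by
        rintro rfl
        have h2 := τ'.im_pos
        have h3 : (τ' : ℂ).im = 0 := by rw [h1]; simp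
        exact h2.ne' h3
      exact_mod_cast Nat.pos_of_ne_zero this
    refine hsq i j hij (pair_lemma hv hp h5 hvp (hx i) (hx j) (ht i) (ht j) (A := !![(N : ℤ), 0; 0, 1])
      ?_ (prm_diag79 _) (σ := τ) (σ' := τ') ?_ hxi hyj hns)
    · simpa [Matrix.det_fin_two] using hN0
    · simp [Mov, h1]

/-- the homothetic image `λ Z + a` -/
def homImage (l : ℂ) (a : Fin n → ℂ) (Z : Set (Fin n → ℂ)) : Set (Fin n → ℂ) :=
  {x | ∃ z ∈ Z, ∀ i, x i = l * z i + a i}

/-- at most `d` coordinates of a point of `λ Z + a` are not congruent to `a` -/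
theorem atMostC_homImage {d : ℕ} (hdn : d ≤ n) {Z : Set (Fin n → ℂ)}
    (hZ : ∀ z ∈ Z, (univ.filter fun i => 1 < v (z i)).card ≤ d) {l : ℂ} (hl : v l < 1) {a : Fin n → ℂ} :
    AtMostC d (fun i => {x : ℂ | v (x - a i) < 1}) (homImage l a Z) := by
  classical
  rintro x ⟨z, hz, hx⟩ T hT
  have h1 := card_near hZ hl hz hx
  have h2 : T ⊆ univ.filter fun i => ¬ v (x i - a i) < 1 := fun i hi => mem_filter.2 ⟨mem_univ _, hT i hi⟩
  have h3 := card_filter_add_card_filter_not (s := (univ : Finset (Fin n))) (fun i => v (x i - a i) < 1)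
  rw [card_univ, Fintype.card_fin] at h3
  have h4 := card_le_card h2
  omega

/-- **no unlikely intersections** for `λ Z + a`, from `n + 1` good primes which divide `λ` -/
theorem noUnlikely_of_centers {d : ℕ} (hdn : d ≤ n) {Z : Set (Fin n → ℂ)} (S : Finset ℕ) (hS : n < S.card)
    (v : ℕ → AbsoluteValue ℂ ℝ)
    (hv : ∀ p ∈ S, IsNonarchimedean (v p) ∧ v p (p : ℂ) < 1 ∧ p.Prime ∧ 5 ≤ p)
    (hZ : ∀ p ∈ S, ∀ z ∈ Z, (univ.filter fun i => 1 < v p (z i)).card ≤ d)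
    (l : ℤ) (a : Fin n → ℤ) (hl : ∀ p ∈ S, (p : ℤ) ∣ l) (t : ℕ → Fin n → ℤ) (x₀ : ℕ → Fin n → ℂ)
    (hC : ∀ p ∈ S, ∀ i, Center (v p) p (a i) (t p i) (x₀ p i) ∧ t p i ≠ 0)
    (hsq : ∀ p ∈ S, ∀ q ∈ S, ∀ i j, (p, i) ≠ (q, j) →
      ¬ IsSquare ((t p i ^ 2 - 4 * p) * (t q j ^ 2 - 4 * q))) :
    NoUnlikely (n - d) (homImage (l : ℂ) (fun i => (a i : ℂ)) Z) := by
  classical
  refine noUnlikely_of_sep (P := S) hS (Δ := fun p i => {x : ℂ | v p (x - a i) < 1})
    (D := fun p i => t p i ^ 2 - 4 * p) (fun p hp => ?_) hdn (fun p hp => ?_) (fun p hp q hq hpq i => ?_)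
  · obtain ⟨h1, h2, h3, h4⟩ := hv p hp
    exact sep_of_center h1 h3 h4 h2 (fun i => (hC p hp i).1) (fun i => (hC p hp i).2)
      (fun i j hij => hsq p hp p hp i j fun h => hij (Prod.mk.inj h).2)
  · obtain ⟨h1, h2, h3, h4⟩ := hv p hp
    refine atMostC_homImage hdn (hZ p hp) ?_
    obtain ⟨k, hk⟩ := hl p hp
    rw [hk]
    push_cast
    rw [map_mul]
    have h5 : v p (k : ℂ) ≤ 1 := h1.apply_intCast_le_one
    calc v p (p : ℂ) * v p (k : ℂ) ≤ v p (p : ℂ) * 1 := mul_le_mul_of_nonneg_left h5 ((v p).nonneg _)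
      _ < 1 := by rw [mul_one]; exact h2
  · exact hsq p hp q hq i i fun h => hpq (Prod.mk.inj h).1

end Pool.Agent.II
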