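import Pool.Agent.II.Dyn

/-!
# Integral and small polynomials in two variables, translations
-/

set_option autoImplicit false

namespace Pool.Agent.II

open Polynomial

variable {K : Type*} [Field K] {v : AbsoluteValue K ℝ}

/-- the integral polynomials in one variable -/
def IP (v : AbsoluteValue K ℝ) (hv : IsNonarchimedean v) : Subring K[X] where
  carrier := {f | ∀ i, v (f.coeff i) ≤ 1}
  mul_mem' {a b} ha hb := by
    intro i
    rw [coeff_mul]
    refine vK_sum_le hv _ _ zero_le_one fun x _ => ?_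
    rw [AbsoluteValue.map_mul]
    exact mul_le_one₀ (ha _) (AbsoluteValue.nonneg v _) (hb _)
  one_mem' := by
    intro i
    rw [coeff_one]
    split_ifs
    · rw [AbsoluteValue.map_one]
    · rw [AbsoluteValue.map_zero]; exact zero_le_one
  add_mem' {a b} ha hb := by
    intro i
    rw [coeff_add]
    exact (hv _ _).trans (max_le (ha i) (hb i))
  zero_mem' := by
    intro i
    rw [coeff_zero, AbsoluteValue.map_zero]
    exact zero_le_one
  neg_mem' {a} ha := by
    intro i
    rw [coeff_neg, AbsoluteValue.map_neg]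
    exact ha i

/-- the integral polynomials in two variables -/
def IB (v : AbsoluteValue K ℝ) (hv : IsNonarchimedean v) : Subring K[X][X] where
  carrier := {f | ∀ j, f.coeff j ∈ IP v hv}
  mul_mem' {a b} ha hb := by
    intro i
    rw [coeff_mul]
    exact Subring.sum_mem _ fun x _ => Subring.mul_mem _ (ha _) (hb _)
  one_mem' := by
    intro i
    rw [coeff_one]
    split_ifs
    · exact Subring.one_mem _
    · exact Subring.zero_mem _
  add_mem' {a b} ha hb := by
    intro i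
    rw [coeff_add]
    exact Subring.add_mem _ (ha i) (hb i)
  zero_mem' := by
    intro i
    rw [coeff_zero]
    exact Subring.zero_mem _
  neg_mem' {a} ha := by
    intro i
    rw [coeff_neg]
    exact Subring.neg_mem _ (ha i)

lemma mem_IP {hv : IsNonarchimedean v} {f : K[X]} : f ∈ IP v hv ↔ ∀ i, v (f.coeff i) ≤ 1 := Iff.rfl

lemma mem_IB {hv : IsNonarchimedean v} {f : K[X][X]} : f ∈ IB v hv ↔ ∀ i j, v ((f.coeff j).coeff i) ≤ 1 :=
  ⟨fun h i j => h j i, fun h j i => h i j⟩

lemma C_mem_IP {hv : IsNonarchimedean v} {c : K} (hc : v c ≤ 1) : C c ∈ IP v hv := by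
  intro i
  rw [coeff_C]
  split_ifs
  · exact hc
  · rw [AbsoluteValue.map_zero]; exact zero_le_one

lemma X_mem_IP {hv : IsNonarchimedean v} : (X : K[X]) ∈ IP v hv := by
  intro i
  rw [coeff_X]
  split_ifs
  · rw [AbsoluteValue.map_one]
  · rw [AbsoluteValue.map_zero]; exact zero_le_one

lemma C_mem_IB {hv : IsNonarchimedean v} {c : K[X]} (hc : c ∈ IP v hv) : C c ∈ IB v hv := by
  intro i
  rw [coeff_C]
  split_ifs
  · exact hc
  · exact Subring.zero_mem _

lemma X_mem_IB {hv : IsNonarchimedean v} : (X : K[X][X]) ∈ IB v hv := by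
  intro i
  rw [coeff_X]
  split_ifs
  · exact Subring.one_mem _
  · exact Subring.zero_mem _

/-- small polynomials in two variables -/
def Sm (v : AbsoluteValue K ℝ) (f : K[X][X]) : Prop := ∀ i j, v ((f.coeff j).coeff i) < 1

lemma Sm.add (hv : IsNonarchimedean v) {f g : K[X][X]} (hf : Sm v f) (hg : Sm v g) : Sm v (f + g) := by
  intro i j
  rw [coeff_add, coeff_add]
  exact (hv _ _).trans_lt (max_lt (hf i j) (hg i j))

lemma Sm.zero : Sm v (0 : K[X][X]) := by
  intro i j
  rw [coeff_zero, coeff_zero, AbsoluteValue.map_zero]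
  exact zero_lt_one

lemma Sm.neg {f : K[X][X]} (hf : Sm v f) : Sm v (-f) := by
  intro i j
  rw [coeff_neg, coeff_neg, AbsoluteValue.map_neg]
  exact hf i j

lemma Sm.sub (hv : IsNonarchimedean v) {f g : K[X][X]} (hf : Sm v f) (hg : Sm v g) : Sm v (f - g) := by
  rw [sub_eq_add_neg]
  exact hf.add hv hg.neg

lemma Sm.sum (hv : IsNonarchimedean v) {ι : Type*} (s : Finset ι) (f : ι → K[X][X])
    (h : ∀ i ∈ s, Sm v (f i)) : Sm v (∑ i ∈ s, f i) := by
  classical
  induction s using Finset.induction_on with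
  | empty => rw [Finset.sum_empty]; exact Sm.zero
  | insert a s ha ih =>
    rw [Finset.sum_insert ha]
    exact (h a (Finset.mem_insert_self _ _)).add hv (ih fun i hi => h i (Finset.mem_insert_of_mem hi))

lemma Sm.mul {hv : IsNonarchimedean v} {f g : K[X][X]} (hf : Sm v f) (hg : g ∈ IB v hv) : Sm v (f * g) := by
  intro i j
  rw [coeff_mul, finsetSum_coeff]
  refine vK_sum_lt hv _ _ zero_lt_one fun x _ => ?_
  rw [coeff_mul]
  refine vK_sum_lt hv _ _ zero_lt_one fun y _ => ?_
  rw [AbsoluteValue.map_mul]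
  exact mul_lt_one_of_nonneg_of_lt_one_left (AbsoluteValue.nonneg v _) (hf _ _) (hg _ _)

lemma Sm.CC (c : K) (hc : v c < 1) : Sm v (C (C c) : K[X][X]) := by
  intro i j
  rw [coeff_C]
  split_ifs
  · rw [coeff_C]
    split_ifs
    · exact hc
    · rw [AbsoluteValue.map_zero]; exact zero_lt_one
  · rw [coeff_zero, AbsoluteValue.map_zero]; exact zero_lt_one

/-- the translation `G(d,e) = F(x0 + d, y0 + e)` -/
noncomputable def sh (x0 y0 : K) : K[X][X] →+* K[X][X] :=
  (compRingHom (X + C (C y0))).comp (mapRingHom (compRingHom (X + C x0)))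

lemma sh_apply (x0 y0 : K) (F : K[X][X]) :
    sh x0 y0 F = (F.map (compRingHom (X + C x0))).comp (X + C (C y0)) := rfl

lemma sh_CC (x0 y0 c : K) : sh x0 y0 (C (C c)) = C (C c) := by
  rw [sh_apply, map_C, C_comp, coe_compRingHom]
  simp only [C_comp]

lemma sh_CX (x0 y0 : K) : sh x0 y0 (C X) = C X + C (C x0) := by
  rw [sh_apply, map_C, C_comp, coe_compRingHom]
  simp only [X_comp, C_add]

lemma sh_X (x0 y0 : K) : sh x0 y0 X = X + C (C y0) := by
  rw [sh_apply, map_X, X_comp]

/-- evaluation of the translate -/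
lemma sh_eval (x0 y0 d : K) (F : K[X][X]) :
    (sh x0 y0 F).map (evalRingHom d) = (F.map (evalRingHom (x0 + d))).comp (X + C y0) := by
  rw [sh_apply, Polynomial.map_comp, map_map]
  have h1 : (evalRingHom d).comp (compRingHom (X + C x0)) = evalRingHom (x0 + d) := by
    ext a
    · simp
    · simp [add_comm]
  rw [h1]
  congr 1
  simp

lemma sh_map_prod (x0 y0 d : K) (F : K[X][X]) {ι : Type*} (s : Finset ι) (y : ι → K)
    (h : F.map (evalRingHom (x0 + d)) = ∏ i ∈ s, (X - C (y i))) :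
    (sh x0 y0 F).map (evalRingHom d) = ∏ i ∈ s, (X - C (y i - y0)) := by
  rw [sh_eval, h, prod_comp]
  refine Finset.prod_congr rfl fun i _ => ?_
  rw [sub_comp, X_comp, C_comp, C_sub]
  ring

/-- the sum of monomials -/
lemma sum_monomials (F : K[X][X]) :
    F = ∑ j ∈ Finset.range (F.natDegree + 1), ∑ i ∈ Finset.range ((F.coeff j).natDegree + 1),
      C (C ((F.coeff j).coeff i)) * C X ^ i * X ^ j := by
  conv_lhs => rw [F.as_sum_range_C_mul_X_pow]
  refine Finset.sum_congr rfl fun j _ => ?_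
  conv_lhs => rw [(F.coeff j).as_sum_range_C_mul_X_pow]
  rw [map_sum, Finset.sum_mul]
  refine Finset.sum_congr rfl fun i _ => ?_
  rw [C_mul, C_pow]

lemma sh_term_IB {hv : IsNonarchimedean v} {x0 y0 : K} (hx : v x0 ≤ 1) (hy : v y0 ≤ 1) (i j : ℕ) :
    (C X + C (C x0)) ^ i * (X + C (C y0)) ^ j ∈ IB v hv :=
  Subring.mul_mem _ (Subring.pow_mem _ (Subring.add_mem _ (C_mem_IB X_mem_IP) (C_mem_IB (C_mem_IP hx))) _)
    (Subring.pow_mem _ (Subring.add_mem _ X_mem_IB (C_mem_IB (C_mem_IP hy))) _)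

lemma sh_expand (x0 y0 : K) (F : K[X][X]) :
    sh x0 y0 F = ∑ j ∈ Finset.range (F.natDegree + 1), ∑ i ∈ Finset.range ((F.coeff j).natDegree + 1),
      C (C ((F.coeff j).coeff i)) * ((C X + C (C x0)) ^ i * (X + C (C y0)) ^ j) := by
  conv_lhs => rw [sum_monomials F]
  rw [map_sum]
  refine Finset.sum_congr rfl fun j _ => ?_
  rw [map_sum]
  refine Finset.sum_congr rfl fun i _ => ?_
  rw [map_mul, map_mul, map_pow, map_pow, sh_CC, sh_CX, sh_X, mul_assoc]

lemma sh_mem_IB {hv : IsNonarchimedean v} {x0 y0 : K} (hx : v x0 ≤ 1) (hy : v y0 ≤ 1) {F : K[X][X]}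
    (hF : F ∈ IB v hv) : sh x0 y0 F ∈ IB v hv := by
  rw [sh_expand]
  exact Subring.sum_mem _ fun j _ => Subring.sum_mem _ fun i _ =>
    Subring.mul_mem _ (C_mem_IB (C_mem_IP (hF j i))) (sh_term_IB hx hy i j)

lemma Sm.sh (hv : IsNonarchimedean v) {x0 y0 : K} (hx : v x0 ≤ 1) (hy : v y0 ≤ 1) {F : K[X][X]}
    (hF : Sm v F) : Sm v (sh x0 y0 F) := by
  rw [sh_expand]
  exact Sm.sum hv _ _ fun j _ => Sm.sum hv _ _ fun i _ => (Sm.CC _ (hF i j)).mul (sh_term_IB (hv := hv) hx hy i j)

/-- Frobenius -/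
lemma Sm.frob {hv : IsNonarchimedean v} {p : ℕ} (hp : p.Prime) (hvp : v (p : K) < 1) {a b : K[X][X]}
    (ha : a ∈ IB v hv) (hb : b ∈ IB v hv) : Sm v ((a + b) ^ p - (a ^ p + b ^ p)) := by
  obtain ⟨r, hr⟩ := exists_add_pow_prime_eq hp (⟨a, ha⟩ : IB v hv) (⟨b, hb⟩ : IB v hv)
  have h1 := congrArg (Subtype.val) hr
  push_cast at h1
  have h2 : (a + b) ^ p - (a ^ p + b ^ p) = C (C (p : K)) * (a * b * (r : K[X][X])) := by
    rw [h1]
    simp only [map_natCast]
    ring
  rw [h2]
  exact (Sm.CC _ hvp).mul (Subring.mul_mem _ (Subring.mul_mem _ ha hb) r.2)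

lemma CC_pow_Sm {hv : IsNonarchimedean v} {c : K} (hc : v c < 1) {g : K[X][X]} (hg : g ∈ IB v hv) :
    Sm v (C (C c) * g) := (Sm.CC _ hc).mul hg

/-- the translate of the Kronecker polynomial by a point of `F_p` -/
lemma sh_kron (hv : IsNonarchimedean v) {p : ℕ} (hp : p.Prime) (hvp : v (p : K) < 1) {x0 y0 : K}
    (hx : v x0 ≤ 1) (hx0 : v (x0 ^ p - y0) < 1) (hy : v y0 ≤ 1) (hy0 : v (x0 - y0 ^ p) < 1) :
    Sm v (sh x0 y0 ((C X ^ p - X) * (C X - X ^ p)) - (C X ^ p - X) * (C X - X ^ p)) := by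
  rw [map_mul, map_sub, map_sub, map_pow, map_pow, sh_CX, sh_X]
  have a1 : (C X : K[X][X]) ∈ IB v hv := C_mem_IB X_mem_IP
  have a2 : (C (C x0) : K[X][X]) ∈ IB v hv := C_mem_IB (C_mem_IP hx)
  have a3 : (X : K[X][X]) ∈ IB v hv := X_mem_IB
  have a4 : (C (C y0) : K[X][X]) ∈ IB v hv := C_mem_IB (C_mem_IP hy)
  have f1 := Sm.frob hp hvp a1 a2
  have f2 := Sm.frob hp hvp a3 a4
  have b1 : Sm v ((C X + C (C x0)) ^ p - (X + C (C y0)) - (C X ^ p - X) : K[X][X]) := by
    have e1 : ((C X + C (C x0)) ^ p - (X + C (C y0)) - (C X ^ p - X) : K[X][X]) =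
        ((C X + C (C x0)) ^ p - (C X ^ p + C (C x0) ^ p)) + C (C (x0 ^ p - y0)) := by
      simp only [C_sub, C_pow]
      ring
    rw [e1]
    exact f1.add hv (Sm.CC _ hx0)
  have b2 : Sm v (C X + C (C x0) - (X + C (C y0)) ^ p - (C X - X ^ p) : K[X][X]) := by
    have e1 : (C X + C (C x0) - (X + C (C y0)) ^ p - (C X - X ^ p) : K[X][X]) =
        C (C (x0 - y0 ^ p)) - ((X + C (C y0)) ^ p - (X ^ p + C (C y0) ^ p)) := by
      simp only [C_sub, C_pow]
      ring
    rw [e1]
    exact (Sm.CC _ hy0).sub hv f2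
  have e2 : ((C X + C (C x0)) ^ p - (X + C (C y0))) * (C X + C (C x0) - (X + C (C y0)) ^ p) -
      (C X ^ p - X) * (C X - X ^ p) =
      ((C X + C (C x0)) ^ p - (X + C (C y0)) - (C X ^ p - X) : K[X][X]) *
        (C X + C (C x0) - (X + C (C y0)) ^ p) +
      (C X + C (C x0) - (X + C (C y0)) ^ p - (C X - X ^ p)) * (C X ^ p - X) := by ring
  rw [e2]
  exact (b1.mul (Subring.sub_mem _ (Subring.add_mem _ a1 a2) (Subring.pow_mem _ (Subring.add_mem _ a3 a4) _))).add
    hv (b2.mul (Subring.sub_mem _ (Subring.pow_mem _ a1 _) a3))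

/-- the coefficients of the Kronecker polynomial -/
lemma kron_coeff (p i j : ℕ) :
    ((((C X ^ p - X) * (C X - X ^ p) : K[X][X])).coeff j).coeff i =
      (if j = 0 ∧ i = p + 1 then 1 else 0) - (if j = p ∧ i = p then 1 else 0) -
        (if j = 1 ∧ i = 1 then 1 else 0) + (if j = p + 1 ∧ i = 0 then 1 else 0) := by
  have e1 : ((C X ^ p - X) * (C X - X ^ p) : K[X][X]) =
      C (X ^ (p + 1)) - C (X ^ p) * X ^ p - C X * X + X ^ (p + 1) := by
    simp only [C_pow]
    ring
  rw [e1, coeff_add, coeff_sub, coeff_sub, coeff_C_mul_X_pow, coeff_C_mul_X, coeff_X_pow, coeff_C,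
    coeff_add, coeff_sub, coeff_sub]
  congr 1
  · congr 1
    · congr 1
      · by_cases hj : j = 0
        · simp only [hj, if_true, true_and, coeff_X_pow]
        · simp only [hj, if_false, false_and, coeff_zero]
      · by_cases hj : j = p
        · simp only [hj, if_true, true_and, coeff_X_pow]
        · simp only [hj, if_false, false_and, coeff_zero]
    · by_cases hj : j = 1
      · simp only [hj, if_true, true_and, coeff_X, eq_comm]
      · simp only [hj, if_false, false_and, coeff_zero]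
  · by_cases hj : j = p + 1
    · simp only [hj, if_true, true_and, coeff_one]
    · simp only [hj, if_false, false_and, coeff_zero]

end Pool.Agent.II
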