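import Pool.Agent.II.Sm

/-!
# The dynamics near a double point of a polynomial satisfying Kronecker's congruence
-/

set_option autoImplicit false

namespace Pool.Agent.II

open Polynomial

variable {K : Type*} [Field K] {v : AbsoluteValue K ℝ}

lemma v_sub_le' (hv : IsNonarchimedean v) (x y : K) : v (x - y) ≤ max (v x) (v y) := by
  have h := hv x (-y)
  rwa [AbsoluteValue.map_neg, ← sub_eq_add_neg] at h

lemma v_le_one_of_near (hv : IsNonarchimedean v) {x a : K} (ha : v a ≤ 1) (h : v (x - a) < 1) : v x ≤ 1 := by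
  have h1 : x = (x - a) + a := by ring
  rw [h1]
  exact (hv _ _).trans (max_le h.le ha)

lemma v_near_trans (hv : IsNonarchimedean v) {x y z : K} (h1 : v (x - y) < 1) (h2 : v (y - z) < 1) :
    v (x - z) < 1 := by
  have h3 : x - z = (x - y) + (y - z) := by ring
  rw [h3]
  exact (hv _ _).trans_lt (max_lt h1 h2)

lemma v_near_symm {x y : K} (h1 : v (x - y) < 1) : v (y - x) < 1 := by
  rwa [AbsoluteValue.map_sub] at h1

/-- the Frobenius of integral elements -/
lemma v_frob (hv : IsNonarchimedean v) {p : ℕ} (hp : p.Prime) (hvp : v (p : K) < 1) {x y : K} (hx : v x ≤ 1)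
    (hy : v y ≤ 1) : v ((x + y) ^ p - (x ^ p + y ^ p)) < 1 := by
  have h1 := Sm.frob (hv := hv) hp hvp (C_mem_IB (C_mem_IP hx)) (C_mem_IB (C_mem_IP hy))
  have h2 : ((C (C x) + C (C y)) ^ p - (C (C x) ^ p + C (C y) ^ p) : K[X][X]) =
      C (C ((x + y) ^ p - (x ^ p + y ^ p))) := by
    simp only [C_sub, C_add, C_pow]
  rw [h2] at h1
  have h3 := h1 0 0
  rwa [coeff_C_zero, coeff_C_zero] at h3

lemma v_pow_near (hv : IsNonarchimedean v) {p : ℕ} (hp : p.Prime) (hvp : v (p : K) < 1) {x y : K}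
    (hy : v y ≤ 1) (h : v (x - y) < 1) : v (x ^ p - y ^ p) < 1 := by
  have h1 : v (x - y) ≤ 1 := h.le
  have h2 := v_frob hv hp hvp h1 hy
  rw [sub_add_cancel] at h2
  have h3 : x ^ p - y ^ p = (x ^ p - ((x - y) ^ p + y ^ p)) + (x - y) ^ p := by ring
  rw [h3]
  refine (hv _ _).trans_lt (max_lt h2 ?_)
  rw [AbsoluteValue.map_pow]
  exact pow_lt_one₀ (AbsoluteValue.nonneg v _) h hp.ne_zero

/-- `x ^ p` near `y ^ p` implies `x` near `y` -/
lemma v_near_of_pow (hv : IsNonarchimedean v) {p : ℕ} (hp : p.Prime) (hvp : v (p : K) < 1) {x y : K}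
    (hx : v x ≤ 1) (hy : v y ≤ 1) (h : v (x ^ p - y ^ p) < 1) : v (x - y) < 1 := by
  have h1 : v (x - y) ≤ 1 := (v_sub_le' hv x y).trans (max_le hx hy)
  have h2 := v_frob hv hp hvp h1 hy
  rw [sub_add_cancel] at h2
  by_contra hcon
  have h3 : (x - y) ^ p = -(x ^ p - ((x - y) ^ p + y ^ p)) + (x ^ p - y ^ p) := by ring
  have h4 : v ((x - y) ^ p) < 1 := by
    rw [h3]
    refine (hv _ _).trans_lt (max_lt ?_ h)
    rwa [AbsoluteValue.map_neg]
  rw [AbsoluteValue.map_pow] at h4
  exact absurd h4 (not_lt.2 (one_le_pow₀ (not_lt.1 hcon)))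

/-- a point of the residue class of an element of `F_p` is in its own class -/
lemma v_frob_fixed (hv : IsNonarchimedean v) {p : ℕ} (hp : p.Prime) (hvp : v (p : K) < 1) {x a : K} (ha : v a ≤ 1)
    (hap : v (a ^ p - a) < 1) (h : v (x - a) < 1) : v (x ^ p - x) < 1 :=
  v_near_trans hv (v_pow_near hv hp hvp ha h) (v_near_trans hv hap (v_near_symm h))

/-- the values of small polynomials -/
lemma Sm.eval (hv : IsNonarchimedean v) {f : K[X][X]} (hf : Sm v f) {x y : K} (hx : v x ≤ 1) (hy : v y ≤ 1) :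
    v ((f.map (evalRingHom x)).eval y) < 1 := by
  rw [eval_eq_sum_range]
  refine vK_sum_lt hv _ _ zero_lt_one fun j _ => ?_
  rw [coeff_map, coe_evalRingHom, AbsoluteValue.map_mul, AbsoluteValue.map_pow, eval_eq_sum_range]
  refine mul_lt_one_of_nonneg_of_lt_one_left (AbsoluteValue.nonneg v _) ?_ (pow_le_one₀ (AbsoluteValue.nonneg v _) hy)
  refine vK_sum_lt hv _ _ zero_lt_one fun i _ => ?_
  rw [AbsoluteValue.map_mul, AbsoluteValue.map_pow]
  exact mul_lt_one_of_nonneg_of_lt_one_left (AbsoluteValue.nonneg v _) (hf i j)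
    (pow_le_one₀ (AbsoluteValue.nonneg v _) hx)

/-- Kronecker's congruence for values -/
lemma kron_eval (hv : IsNonarchimedean v) {p : ℕ} {F : K[X][X]}
    (hK : Sm v (F - (C X ^ p - X) * (C X - X ^ p))) {x y : K} (hx : v x ≤ 1) (hy : v y ≤ 1) :
    v ((F.map (evalRingHom x)).eval y - (x ^ p - y) * (x - y ^ p)) < 1 := by
  have h1 := hK.eval hv hx hy
  simpa using h1

/-- the neighbours of a point near an element of `F_p` are near it -/
theorem neighbour_near (hv : IsNonarchimedean v) {p : ℕ} (hp : p.Prime) (hvp : v (p : K) < 1) {F : K[X][X]}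
    (hK : Sm v (F - (C X ^ p - X) * (C X - X ^ p))) {x y a : K} (ha : v a ≤ 1) (hap : v (a ^ p - a) < 1)
    (hx : v (x - a) < 1) (hy : v y ≤ 1) (h : (F.map (evalRingHom x)).eval y = 0) : v (y - a) < 1 := by
  have hx1 := v_le_one_of_near hv ha hx
  have h1 := kron_eval hv hK hx1 hy
  rw [h, zero_sub, AbsoluteValue.map_neg, AbsoluteValue.map_mul] at h1
  have hxp := v_frob_fixed hv hp hvp ha hap hx
  rcases lt_or_ge (v (x ^ p - y)) 1 with h2 | h2
  · exact v_near_trans hv (v_near_symm h2) (v_near_trans hv hxp hx)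
  · have h3 : v (x - y ^ p) < 1 := by
      by_contra hcon
      have h4 := one_le_mul_of_one_le_of_one_le h2 (not_lt.1 hcon)
      exact absurd h1 (not_lt.2 h4)
    refine v_near_of_pow hv hp hvp hy ha (v_near_trans hv (v_near_symm h3) (v_near_trans hv hx (v_near_symm hap)))

/-- the roots of an integral monic polynomial are integral -/
lemma v_root_le_one (hv : IsNonarchimedean v) {P : K[X]} (hm : P.Monic) (hP : ∀ i, v (P.coeff i) ≤ 1) {y : K}
    (h : P.eval y = 0) : v y ≤ 1 := by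
  by_contra hcon
  push Not at hcon
  rw [eval_eq_sum_range, Finset.sum_range_succ, hm.coeff_natDegree, one_mul] at h
  have hy0 : 0 < v y := zero_lt_one.trans hcon
  have h1 : v (∑ x ∈ Finset.range P.natDegree, P.coeff x * y ^ x) < v (y ^ P.natDegree) := by
    rw [AbsoluteValue.map_pow]
    refine vK_sum_lt hv _ _ (pow_pos hy0 _) fun i hi => ?_
    rw [AbsoluteValue.map_mul, AbsoluteValue.map_pow]
    calc v (P.coeff i) * v y ^ i ≤ 1 * v y ^ i := mul_le_mul_of_nonneg_right (hP i) (pow_nonneg hy0.le _)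
      _ = v y ^ i := one_mul _
      _ < v y ^ P.natDegree := pow_lt_pow_right₀ hcon (Finset.mem_range.1 hi)
  have h2 := vK_add_small hv h1
  rw [add_comm, h, AbsoluteValue.map_zero, AbsoluteValue.map_pow] at h2
  exact (pow_pos hy0 _).ne h2

lemma coeff_map_le (hv : IsNonarchimedean v) {F : K[X][X]} (hF : F ∈ IB v hv) {x : K} (hx : v x ≤ 1) (j : ℕ) :
    v ((F.map (evalRingHom x)).coeff j) ≤ 1 := by
  rw [coeff_map, coe_evalRingHom, eval_eq_sum_range]
  refine vK_sum_le hv _ _ zero_le_one fun i _ => ?_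
  rw [AbsoluteValue.map_mul, AbsoluteValue.map_pow]
  exact mul_le_one₀ (hF j i) (pow_nonneg (AbsoluteValue.nonneg v _) _) (pow_le_one₀ (AbsoluteValue.nonneg v _) hx)

/-- the same for a monic `F`: the integrality of the neighbour is automatic -/
theorem neighbour_near' (hv : IsNonarchimedean v) {p : ℕ} (hp : p.Prime) (hvp : v (p : K) < 1) {F : K[X][X]}
    (hF : F ∈ IB v hv) (hm : F.Monic)
    (hK : Sm v (F - (C X ^ p - X) * (C X - X ^ p))) {x y a : K} (ha : v a ≤ 1) (hap : v (a ^ p - a) < 1)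
    (hx : v (x - a) < 1) (h : (F.map (evalRingHom x)).eval y = 0) : v (y - a) < 1 :=
  neighbour_near hv hp hvp hK ha hap hx (v_root_le_one hv (hm.map _)
    (coeff_map_le hv hF (v_le_one_of_near hv ha hx)) h) h

/-- the first coefficients of a product of linear factors with no small root -/
lemma prod_coeff_le (hv : IsNonarchimedean v) (s : Multiset K) (h : ∀ r ∈ s, 1 ≤ v r) (k : ℕ) :
    v (((s.map fun r => X - C r).prod).coeff k) ≤ v (((s.map fun r => X - C r).prod).coeff 0) := by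
  induction s using Multiset.induction_on generalizing k with
  | empty =>
    rw [Multiset.map_zero, Multiset.prod_zero, coeff_one, coeff_one]
    split_ifs
    · exact le_rfl
    · exact absurd rfl ‹_›
    · rw [AbsoluteValue.map_zero]; exact AbsoluteValue.nonneg v _
    · exact absurd rfl ‹_›
  | cons r s ih =>
    have hr := h r (Multiset.mem_cons_self _ _)
    have ih' := ih fun q hq => h q (Multiset.mem_cons_of_mem hq)
    rw [Multiset.map_cons, Multiset.prod_cons]
    set P := (s.map fun r => X - C r).prod with hP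
    have h0 : v (((X - C r) * P).coeff 0) = v r * v (P.coeff 0) := by
      rw [mul_coeff_zero, AbsoluteValue.map_mul]
      congr 1
      simp
    rw [h0]
    have hP0 := AbsoluteValue.nonneg v (P.coeff 0)
    rcases k with _ | k
    · rw [h0]
    · rw [sub_mul, coeff_sub, coeff_X_mul, coeff_C_mul]
      refine (v_sub_le' hv _ _).trans (max_le ?_ ?_)
      · exact (ih' k).trans (le_mul_of_one_le_left hP0 hr)
      · rw [AbsoluteValue.map_mul]
        exact mul_le_mul_of_nonneg_left (ih' _) (AbsoluteValue.nonneg v _)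

/-- a polynomial with a small constant term and a larger coefficient has a small root -/
lemma exists_small_root [IsAlgClosed K] (hv : IsNonarchimedean v) {P : K[X]} {k : ℕ}
    (h : v (P.coeff 0) < v (P.coeff k)) : ∃ r, P.eval r = 0 ∧ v r < 1 := by
  by_contra hcon
  push Not at hcon
  have hP0 : P ≠ 0 := by
    rintro rfl
    rw [coeff_zero, coeff_zero] at h
    exact lt_irrefl _ h
  have h1 : P = C P.leadingCoeff * (P.roots.map fun r => X - C r).prod :=
    (IsAlgClosed.splits P).eq_prod_roots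
  have h2 := prod_coeff_le hv P.roots (fun r hr => hcon r (by
    have := (mem_roots hP0).1 hr
    exact this)) k
  rw [h1, coeff_C_mul, coeff_C_mul, AbsoluteValue.map_mul, AbsoluteValue.map_mul] at h
  exact absurd h (not_lt.2 (mul_le_mul_of_nonneg_left h2 (AbsoluteValue.nonneg v _)))

/-- the diagonal of the small part -/
lemma Sm.diag (hv : IsNonarchimedean v) {E : K[X][X]} (hE : Sm v E) (k : ℕ) : v ((E.eval X).coeff k) < 1 := by
  rw [eval_eq_sum_range, finsetSum_coeff]
  refine vK_sum_lt hv _ _ zero_lt_one fun j _ => ?_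
  rw [coeff_mul_X_pow']
  split_ifs
  · exact hE _ _
  · rw [AbsoluteValue.map_zero]; exact zero_lt_one

lemma eval_diag (G : K[X][X]) (r : K) : (G.eval X).eval r = (G.map (evalRingHom r)).eval r := by
  have h1 := Polynomial.hom_eval₂ G (RingHom.id K[X]) (evalRingHom r) X
  rw [← Polynomial.eval] at h1
  rw [← coe_evalRingHom r, h1, coe_evalRingHom, eval_X, RingHom.comp_id, eval_map]

/-- **a double point in the residue class of an element of `F_p`** -/
theorem exists_diag_root [IsAlgClosed K] (hv : IsNonarchimedean v) {p : ℕ} (hp : p.Prime) (hvp : v (p : K) < 1)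
    {F : K[X][X]} (hK : Sm v (F - (C X ^ p - X) * (C X - X ^ p))) {a : K} (ha : v a ≤ 1)
    (hap : v (a ^ p - a) < 1) : ∃ x0, v (x0 - a) < 1 ∧ (F.map (evalRingHom x0)).eval x0 = 0 := by
  have h2 := hp.two_le
  have hap' : v (a - a ^ p) < 1 := v_near_symm hap
  have hE : Sm v (sh a a F - (C X ^ p - X) * (C X - X ^ p)) := by
    have h3 := (hK.sh hv ha ha).add hv (sh_kron hv hp hvp ha hap ha hap')
    rw [map_sub] at h3
    have h4 : sh a a F - (C X ^ p - X) * (C X - X ^ p) = sh a a F - sh a a ((C X ^ p - X) * (C X - X ^ p)) +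
        (sh a a ((C X ^ p - X) * (C X - X ^ p)) - (C X ^ p - X) * (C X - X ^ p)) := by ring
    rw [h4]
    exact h3
  have hc : ∀ k, (((C X ^ p - X) * (C X - X ^ p) : K[X][X]).eval X).coeff k =
      (if k = 2 then -1 else 0) + (if k = p + 1 then 2 else 0) - (if k = 2 * p then 1 else 0) := by
    intro k
    have h3 : ((C X ^ p - X) * (C X - X ^ p) : K[X][X]).eval X = C (-1) * X ^ 2 + C 2 * X ^ (p + 1) - X ^ (2 * p) := by
      simp only [eval_mul, eval_sub, eval_pow, eval_C, eval_X, map_neg, map_one, map_ofNat]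
      ring
    rw [h3, coeff_sub, coeff_add, coeff_C_mul_X_pow, coeff_C_mul_X_pow, coeff_X_pow]
  have hP : (sh a a F).eval X = (((C X ^ p - X) * (C X - X ^ p) : K[X][X]).eval X) +
      (sh a a F - (C X ^ p - X) * (C X - X ^ p)).eval X := by
    rw [← eval_add]
    congr 1
    ring
  have h0 : v (((sh a a F).eval X).coeff 0) < 1 := by
    rw [hP, coeff_add, hc, if_neg (by omega), if_neg (by omega), if_neg (by omega), zero_add, sub_zero, zero_add]
    exact hE.diag hv 0
  have h1 : v (((sh a a F).eval X).coeff 2) = 1 := by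
    rw [hP, coeff_add, hc, if_pos rfl, if_neg (by omega), if_neg (by omega), add_zero, sub_zero]
    have h3 : v (-1 : K) = 1 := by rw [AbsoluteValue.map_neg, AbsoluteValue.map_one]
    rw [vK_add_small hv (by rw [h3]; exact hE.diag hv 2), h3]
  obtain ⟨r, hr, hr1⟩ := exists_small_root hv (h1 ▸ h0 : v (((sh a a F).eval X).coeff 0) < v (((sh a a F).eval X).coeff 2))
  refine ⟨a + r, by rwa [add_sub_cancel_left], ?_⟩
  rw [eval_diag, sh_eval, eval_comp, eval_add, eval_X, eval_C, add_comm r a] at hr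
  exact hr

/-- the coefficients of the translate at a double point -/
theorem sh_coeffs (hv : IsNonarchimedean v) {p : ℕ} (hp : p.Prime) (hvp : v (p : K) < 1) {F : K[X][X]}
    (hK : Sm v (F - (C X ^ p - X) * (C X - X ^ p))) {x0 : K} (hx0 : v x0 ≤ 1) (hfix : v (x0 ^ p - x0) < 1) :
    v (((sh x0 x0 F).coeff 1).coeff 1) = 1 ∧ v (((sh x0 x0 F).coeff 0).coeff 2) < 1 ∧
      v (((sh x0 x0 F).coeff 2).coeff 0) < 1 := by
  have h2 := hp.two_le
  have hE : Sm v (sh x0 x0 F - (C X ^ p - X) * (C X - X ^ p)) := by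
    have h3 := (hK.sh hv hx0 hx0).add hv (sh_kron hv hp hvp hx0 hfix hx0 (v_near_symm hfix))
    rw [map_sub] at h3
    have h4 : sh x0 x0 F - (C X ^ p - X) * (C X - X ^ p) =
        sh x0 x0 F - sh x0 x0 ((C X ^ p - X) * (C X - X ^ p)) +
        (sh x0 x0 ((C X ^ p - X) * (C X - X ^ p)) - (C X ^ p - X) * (C X - X ^ p)) := by ring
    rw [h4]
    exact h3
  have hc : ∀ i j, ((sh x0 x0 F).coeff j).coeff i =
      ((((C X ^ p - X) * (C X - X ^ p) : K[X][X])).coeff j).coeff i +
      ((sh x0 x0 F - (C X ^ p - X) * (C X - X ^ p)).coeff j).coeff i := by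
    intro i j
    rw [coeff_sub, coeff_sub]
    ring
  refine ⟨?_, ?_, ?_⟩
  · rw [hc, kron_coeff]
    have e1 : ((if 1 = 0 ∧ 1 = p + 1 then 1 else 0) - (if 1 = p ∧ 1 = p then 1 else 0) -
        (if 1 = 1 ∧ 1 = 1 then 1 else 0) + (if 1 = p + 1 ∧ 1 = 0 then 1 else 0) : K) = -1 := by
      rw [if_neg (by omega), if_neg (by omega), if_pos ⟨rfl, rfl⟩, if_neg (by omega)]
      ring
    rw [e1]
    have h3 : v (-1 : K) = 1 := by rw [AbsoluteValue.map_neg, AbsoluteValue.map_one]
    rw [vK_add_small hv (by rw [h3]; exact hE 1 1), h3]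
  · rw [hc, kron_coeff]
    have e1 : ((if 0 = 0 ∧ 2 = p + 1 then 1 else 0) - (if 0 = p ∧ 2 = p then 1 else 0) -
        (if 0 = 1 ∧ 2 = 1 then 1 else 0) + (if 0 = p + 1 ∧ 2 = 0 then 1 else 0) : K) = 0 := by
      rw [if_neg (by omega), if_neg (by omega), if_neg (by omega), if_neg (by omega)]
      ring
    rw [e1, zero_add]
    exact hE 2 0
  · rw [hc, kron_coeff]
    have e1 : ((if 2 = 0 ∧ 0 = p + 1 then 1 else 0) - (if 2 = p ∧ 0 = p then 1 else 0) -
        (if 2 = 1 ∧ 0 = 1 then 1 else 0) + (if 2 = p + 1 ∧ 0 = 0 then 1 else 0) : K) = 0 := by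
      rw [if_neg (by omega), if_neg (by omega), if_neg (by omega), if_neg (by omega)]
      ring
    rw [e1, zero_add]
    exact hE 0 2

/-- the coefficients `c_{0,0}`, `c_{0,1}` of the translate at a double root of `F (x0, Y)` -/
lemma sh_coeff_double {F : K[X][X]} {x0 : K} (h : (X - C x0) ^ 2 ∣ F.map (evalRingHom x0)) :
    ((sh x0 x0 F).coeff 0).coeff 0 = 0 ∧ ((sh x0 x0 F).coeff 1).coeff 0 = 0 := by
  have h1 : (sh x0 x0 F).map (evalRingHom 0) = (F.map (evalRingHom x0)).comp (X + C x0) := by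
    have h2 := sh_eval x0 x0 0 F
    rwa [add_zero] at h2
  obtain ⟨Q, hQ⟩ := h
  have h2 : (sh x0 x0 F).map (evalRingHom 0) = X ^ 2 * Q.comp (X + C x0) := by
    rw [h1, hQ, mul_comp, pow_comp, sub_comp, X_comp, C_comp, add_sub_cancel_right]
  have h3 : ∀ j, ((sh x0 x0 F).coeff j).coeff 0 = (X ^ 2 * Q.comp (X + C x0)).coeff j := by
    intro j
    rw [← h2, coeff_map, coe_evalRingHom, coeff_zero_eq_eval_zero]
  constructor
  · rw [h3, coeff_X_pow_mul', if_neg (by omega)]
  · rw [h3, coeff_X_pow_mul', if_neg (by omega)]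

/-- symmetric polynomials in two variables -/
def Sy (F : K[X][X]) : Prop := ∀ i j, (F.coeff j).coeff i = (F.coeff i).coeff j

lemma coeff_swap (F : K[X][X]) (i j : ℕ) : ((Bivariate.swap F).coeff j).coeff i = (F.coeff i).coeff j := by
  induction F using Polynomial.induction_on' with
  | add f g hf hg => rw [map_add, coeff_add, coeff_add, hf, hg, coeff_add, coeff_add]
  | monomial n f =>
    induction f using Polynomial.induction_on' with
    | add f g hf hg =>
      rw [map_add, map_add, coeff_add, coeff_add, hf, hg, coeff_add, coeff_add]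
    | monomial m r =>
      rw [Bivariate.swap_monomial_monomial]
      simp only [coeff_monomial]
      split_ifs <;> simp_all [coeff_monomial]

lemma Sy.swap {F : K[X][X]} (h : Sy F) : Bivariate.swap F = F := by
  ext j i
  rw [coeff_swap, h]

lemma Sy.of_swap {F : K[X][X]} (h : Bivariate.swap F = F) : Sy F := by
  intro i j
  conv_rhs => rw [← h]
  rw [coeff_swap]

lemma sh_swap (x0 : K) (F : K[X][X]) : sh x0 x0 (Bivariate.swap F) = Bivariate.swap (sh x0 x0 F) := by
  rw [sh_expand x0 x0 F]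
  conv_lhs => rw [sum_monomials F]
  simp only [map_sum, map_mul, map_pow, Bivariate.swap_X, Bivariate.swap_Y, Bivariate.swap_C_C, sh_CX, sh_X, sh_CC,
    map_add, mul_assoc]

lemma Sy.sh {F : K[X][X]} (h : Sy F) (x0 : K) : Sy (sh x0 x0 F) := by
  apply Sy.of_swap
  rw [← sh_swap, h.swap]

/-- **the dynamics near a double point**: `F` is integral and symmetric, satisfies Kronecker's congruence,
and `x0` is a double root of `F (x0, Y)` in the residue class of an element of `F_p`. -/
theorem dynF (hv : IsNonarchimedean v) {p : ℕ} (hp : p.Prime) (hvp : v (p : K) < 1) {F : K[X][X]}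
    (hF : F ∈ IB v hv) (hS : Sy F) (hK : Sm v (F - (C X ^ p - X) * (C X - X ^ p))) {x0 : K} (hx0 : v x0 ≤ 1)
    (hfix : v (x0 ^ p - x0) < 1) (hdbl : (X - C x0) ^ 2 ∣ F.map (evalRingHom x0)) :
    v (((sh x0 x0 F).coeff 0).coeff 2) < 1 ∧ ∀ x : K, 0 < v (x - x0) → v (x - x0) < 1 →
      ∀ {ι : Type*} [DecidableEq ι] (s : Finset ι) (y : ι → K),
        F.map (evalRingHom x) = ∏ i ∈ s, (X - C (y i)) →
        (∀ i ∈ s, v (y i - x0) ≠ v (x - x0)) ∧
        (s.filter fun i => v (y i - x0) < v (x - x0)).card = 1 ∧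
        ∀ i ∈ s, v (y i - x0) < v (x - x0) →
          v (y i - x0) ≤ v (x - x0) * max (v (((sh x0 x0 F).coeff 0).coeff 2)) (v (x - x0)) := by
  obtain ⟨h11, h20, h02⟩ := sh_coeffs hv hp hvp hK hx0 hfix
  obtain ⟨h00, h01⟩ := sh_coeff_double hdbl
  have h10 : ((sh x0 x0 F).coeff 0).coeff 1 = 0 := by rw [hS.sh x0 1 0, h01]
  refine ⟨h20, fun x hx hx1 ι _ s y hy => ?_⟩
  have hsh := mem_IB.1 (sh_mem_IB hx0 hx0 hF)
  have h1 := sh_map_prod x0 x0 (x - x0) F s y (by rw [add_sub_cancel]; exact hy)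
  exact dyn hv hsh h00 h10 h01 h11 h20 le_rfl h02 hx hx1 s (fun i => y i - x0) h1

/-- the same for single roots, without the factorization -/
theorem dynF_root (hv : IsNonarchimedean v) {p : ℕ} (hp : p.Prime) (hvp : v (p : K) < 1) {F : K[X][X]}
    (hF : F ∈ IB v hv) (hS : Sy F) (hK : Sm v (F - (C X ^ p - X) * (C X - X ^ p))) {x0 : K} (hx0 : v x0 ≤ 1)
    (hfix : v (x0 ^ p - x0) < 1) (hdbl : (X - C x0) ^ 2 ∣ F.map (evalRingHom x0)) {x y : K} (hx : 0 < v (x - x0))
    (hx1 : v (x - x0) < 1) (h : (F.map (evalRingHom x)).eval y = 0) :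
    v (y - x0) ≠ v (x - x0) ∧ (v (y - x0) < v (x - x0) →
      v (y - x0) ≤ v (x - x0) * max (v (((sh x0 x0 F).coeff 0).coeff 2)) (v (x - x0))) := by
  obtain ⟨h11, h20, h02⟩ := sh_coeffs hv hp hvp hK hx0 hfix
  obtain ⟨h00, h01⟩ := sh_coeff_double hdbl
  have h10 : ((sh x0 x0 F).coeff 0).coeff 1 = 0 := by rw [hS.sh x0 1 0, h01]
  have hsh := mem_IB.1 (sh_mem_IB hx0 hx0 hF)
  obtain ⟨hD, hroot⟩ := dyn_near hv hsh h00 h10 h01 h11 h20 le_rfl h02 hx hx1
  have h1 : ((sh x0 x0 F).map (evalRingHom (x - x0))).eval (y - x0) = 0 := by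
    rw [sh_eval, add_sub_cancel, eval_comp, eval_add, eval_X, eval_C, sub_add_cancel]
    exact h
  exact ⟨fun h2 => hD.no_root hv hx h2 h1, hroot _ h1⟩

/-- **the double point is the only point of the diagonal in its residue class** -/
theorem diag_root_unique (hv : IsNonarchimedean v) {p : ℕ} (hp : p.Prime) (hvp : v (p : K) < 1) {F : K[X][X]}
    (hF : F ∈ IB v hv) (hS : Sy F) (hK : Sm v (F - (C X ^ p - X) * (C X - X ^ p))) {x0 : K} (hx0 : v x0 ≤ 1)
    (hfix : v (x0 ^ p - x0) < 1) (hdbl : (X - C x0) ^ 2 ∣ F.map (evalRingHom x0)) {x : K}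
    (hx1 : v (x - x0) < 1) (h : (F.map (evalRingHom x)).eval x = 0) : x = x0 := by
  by_contra hne
  have hx : 0 < v (x - x0) := (AbsoluteValue.pos_iff v).2 (sub_ne_zero.2 hne)
  exact (dynF_root hv hp hvp hF hS hK hx0 hfix hdbl hx hx1 h).1 rfl

end Pool.Agent.II
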