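import Pool.Agent.II.Kron36
import Pool.Agent.II.JInj51
import Pool.Agent.II.Trans

/-! # The symmetry of the primitive modular polynomial -/

open UpperHalfPlane
open scoped MatrixGroups

namespace Pool.Agent.II
open Pool.Agent.Helper11.ZP Pool.Agent.Helper20.ZT Pool.Agent.Helper20.ZT.Prim Pool.Agent.II51
open Polynomial

/-! ### Matrices -/

section mat
variable {m : ℤ}

lemma mov_toGL36 (hm : 0 < m) (A : DM m) (τ : ℍ) : Mov A.1 τ (toGL hm A • τ) := by
  have h0 := denom_ne_zero (toGL hm A) τ
  unfold Mov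
  rw [coe_smul_of_det_pos (det_toGL_pos hm A)]
  have h1 : (A.1 1 0 : ℂ) * (τ : ℂ) + A.1 1 1 = denom (toGL hm A) τ := by
    rw [denom, toGL_val, toGL_val]
    push_cast
    rfl
  have h2 : (A.1 0 0 : ℂ) * (τ : ℂ) + A.1 0 1 = num (toGL hm A) τ := by
    rw [num, toGL_val, toGL_val]
    push_cast
    rfl
  rw [h1, h2, div_mul_cancel₀ _ h0]

lemma toGL_of_mov36 (hm : 0 < m) (A : DM m) {τ τ' : ℍ} (h : Mov A.1 τ τ') : toGL hm A • τ = τ' :=
  toGL_smul_eq hm A τ τ' h

/-- the adjugate -/
def adjD (A : DM m) : DM m := ⟨A.1.adjugate, by rw [Matrix.det_adjugate]; simp [A.2]⟩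

lemma adjD_prim {A : DM m} (hA : IsPrim A) : IsPrim (adjD A) := by
  intro k hk
  have h00 := hk 0 0
  have h01 := hk 0 1
  have h10 := hk 1 0
  have h11 := hk 1 1
  simp only [adjD, Matrix.adjugate_fin_two, Matrix.of_apply, Matrix.cons_val', Matrix.cons_val_zero,
    Matrix.cons_val_one, Matrix.cons_val_fin_one, dvd_neg] at h00 h01 h10 h11
  refine hA k fun i j => ?_
  fin_cases i <;> fin_cases j
  · exact h11
  · exact h01
  · exact h10
  · exact h00

/-- a non-scalar integral matrix with a fixed point: its `j` is algebraic -/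
lemma scalar_of_transc {M : Matrix (Fin 2) (Fin 2) ℤ} {τ : ℍ} (hτ : ¬ IsAlgebraic ℤ (jInv τ))
    (hM : Mov M τ τ) : M = M 0 0 • (1 : Matrix (Fin 2) (Fin 2) ℤ) := by
  by_cases h : M 1 0 = 0
  · obtain ⟨h1, h2⟩ := scalar_of_fix hM h
    ext i j
    fin_cases i <;> fin_cases j
    · simp
    · simpa using h2
    · simpa using h
    · simpa using h1
  · exfalso
    apply hτ
    have h1 : IsSpecialPoint (jInv τ) := by
      refine ⟨τ, M 1 0, M 1 1 - M 0 0, -M 0 1, h, ?_, rfl⟩
      have h2 := fix_quad hM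
      push_cast
      linear_combination h2
    exact h1.isIntegral.isAlgebraic

/-- different orbits have different values at transcendental points -/
theorem orb_inj [hm : Fact (0 < m)] {τ : ℍ} (hτ : ¬ IsAlgebraic ℤ (jInv τ)) {o o' : Orb m}
    (h : jInv (toGL hm.out (U m o) • τ) = jInv (toGL hm.out (U m o') • τ)) : o = o' := by
  obtain ⟨g, hg⟩ := jInv_inj_SL h
  have h1 := mov_toGL36 hm.out (U m o) τ
  have h2 := mov_SL g (toGL hm.out (U m o) • τ)
  rw [hg] at h2
  have h3 := mov_mul h1 h2
  have h4 := mov_adj (mov_toGL36 hm.out (U m o') τ)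
  have h5 := mov_mul h3 h4
  have h6 := scalar_of_transc hτ h5
  set M := (U m o').1.adjugate * (g.1 * (U m o).1) with hM
  have hdet : M.det = m ^ 2 := by
    rw [hM, Matrix.det_mul, Matrix.det_mul, Matrix.det_adjugate, g.2, (U m o).2, (U m o').2]
    simp
    ring
  have hdet2 : M.det = M 0 0 ^ 2 := by
    conv_lhs => rw [h6]
    rw [Matrix.det_smul, Matrix.det_one]
    simp
  have ha : M 0 0 = m ∨ M 0 0 = -m := sq_eq_sq_iff_eq_or_eq_neg.1 (hdet2.symm.trans hdet)
  have h7 : (U m o').1 * M = m • (g.1 * (U m o).1) := by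
    rw [hM, ← mul_assoc, Matrix.mul_adjugate, (U m o').2, Matrix.smul_mul, one_mul]
  rw [h6, Matrix.mul_smul, mul_one] at h7
  have hm0 : m ≠ 0 := hm.out.ne'
  rw [← mkO_U m o, ← mkO_U m o']
  rcases ha with ha | ha
  · rw [ha] at h7
    have h8 : (U m o').1 = g.1 * (U m o).1 := by
      ext i j
      have := congrFun (congrFun h7 i) j
      simp only [Matrix.smul_apply, smul_eq_mul] at this
      exact mul_left_cancel₀ hm0 this
    rw [← mkO_smul g (U m o)]
    congr 1
    apply FixedDetMatrices.ext'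
    exact h8.symm
  · rw [ha] at h7
    have h8 : (U m o').1 = (-g.1) * (U m o).1 := by
      ext i j
      have := congrFun (congrFun h7 i) j
      simp only [Matrix.smul_apply, smul_eq_mul] at this
      rw [Matrix.neg_mul, Matrix.neg_apply]
      apply mul_left_cancel₀ hm0
      linear_combination -this
    have hg' : (-g.1).det = 1 := by
      rw [Matrix.det_neg, g.2]; simp
    rw [← mkO_smul ⟨-g.1, hg'⟩ (U m o)]
    congr 1
    apply FixedDetMatrices.ext'
    exact h8.symm

/-- no self relation at transcendental points -/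
theorem not_self (hm : 1 < m) {τ : ℍ} (hτ : ¬ IsAlgebraic ℤ (jInv τ)) (A : DM m) (hA : IsPrim A)
    (h : jInv τ = jInv (toGL (zero_lt_one.trans hm) A • τ)) : False := by
  obtain ⟨g, hg⟩ := jInv_inj_SL h.symm
  have h1 := mov_toGL36 (zero_lt_one.trans hm) A τ
  have h2 := mov_SL g (toGL (zero_lt_one.trans hm) A • τ)
  rw [hg] at h2
  have h3 := mov_mul h1 h2
  have h6 := scalar_of_transc hτ h3
  set M := g.1 * A.1 with hM
  have hdet : M.det = m := by
    rw [hM, Matrix.det_mul, g.2, A.2, one_mul]
  have hdet2 : M.det = M 0 0 ^ 2 := by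
    conv_lhs => rw [h6]
    rw [Matrix.det_smul, Matrix.det_one]
    simp
  have hp := hA.smul g
  have h7 : M 0 0 ∣ 1 := by
    apply hp
    intro i j
    change M 0 0 ∣ M i j
    have h9 : M i j = M 0 0 * (1 : Matrix (Fin 2) (Fin 2) ℤ) i j := by
      conv_lhs => rw [h6]
      rw [Matrix.smul_apply, smul_eq_mul]
    exact ⟨_, h9⟩
  have h8 : M 0 0 ^ 2 = 1 := by
    rcases Int.isUnit_iff.1 (isUnit_of_dvd_one h7) with h | h <;> rw [h] <;> norm_num
  rw [← hdet2, hdet] at h8
  omega

end mat

/-! ### The complex polynomial -/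

section poly
variable (m : ℤ) [hm : Fact (0 < m)]

/-- the primitive modular polynomial over `ℂ`; the inner variable is `X`, the outer one `Y` -/
noncomputable def FF : ℂ[X][X] := (primPoly m).map (mapRingHom (algebraMap OO ℂ))

lemma FF_map (x : ℂ) : (FF m).map (evalRingHom x) = (primPoly m).map (evO x) := by
  rw [FF, Polynomial.map_map]
  congr 1
  apply Polynomial.ringHom_ext
  · intro a
    simp [evO]
  · simp [evO]

lemma FF_eval (x y : ℂ) : ((FF m).map (evalRingHom x)).eval y = (primPoly m).eval₂ (evO x) y := by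
  rw [FF_map, eval_map]

lemma FF_monic : (FF m).Monic := (primPoly_monic m).map _

/-- **the product formula** -/
theorem FF_prod (τ : ℍ) : (FF m).map (evalRingHom (jInv τ)) =
    ∏ o ∈ TP m, (X - C (jInv (toGL hm.out (U m o) • τ))) := by
  rw [FF_map, primPoly_prod]

/-- the zeros of the modular polynomial -/
theorem FF_zero_iff (τ : ℍ) (y : ℂ) : ((FF m).map (evalRingHom (jInv τ))).eval y = 0 ↔
    ∃ A : DM m, IsPrim A ∧ y = jInv (toGL hm.out A • τ) := by
  rw [FF_eval, primPoly_roots]

/-- the relation is symmetric -/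
theorem FF_symm {x y : ℂ} (h : ((FF m).map (evalRingHom x)).eval y = 0) :
    ((FF m).map (evalRingHom y)).eval x = 0 := by
  obtain ⟨τ, rfl⟩ := jInv_surjective x
  obtain ⟨A, hA, rfl⟩ := (FF_zero_iff m τ y).1 h
  refine (FF_zero_iff m _ _).2 ⟨adjD A, adjD_prim hA, ?_⟩
  rw [toGL_of_mov36 hm.out (adjD A) (mov_adj (mov_toGL36 hm.out A τ))]

lemma FF_natDegree : (FF m).natDegree = (TP m).card := by
  have h1 := FF_prod m UpperHalfPlane.I
  have h2 := congrArg natDegree h1
  rw [(FF_monic m).natDegree_map, natDegree_prod_of_monic _ _ fun o _ => monic_X_sub_C _] at h2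
  simpa using h2

lemma FF_coeff_natDegree (i : ℕ) : ((FF m).coeff i).natDegree ≤ (TP m).card := by
  rw [FF, coeff_map, coe_mapRingHom]
  refine (natDegree_map_le).trans ?_
  rw [primPoly, coeff_add, finsetSum_coeff]
  refine (natDegree_add_le _ _).trans (max_le ?_ ?_)
  · rw [coeff_X_pow]
    split_ifs <;> simp
  · refine natDegree_sum_le_of_forall_le _ _ fun b _ => ?_
    rw [coeff_C_mul, coeff_X_pow]
    split_ifs
    · rw [mul_one]
      exact (natDegree_C_mul_le _ _).trans (ppT_deg _ _)
    · simp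

/-- values of the swapped polynomial -/
lemma swap_eval (F : ℂ[X][X]) (x y : ℂ) : ((Bivariate.swap F).map (evalRingHom x)).eval y =
    (F.map (evalRingHom y)).eval x := by
  induction F using Polynomial.induction_on' with
  | add f g hf hg => rw [map_add, Polynomial.map_add, eval_add, hf, hg, Polynomial.map_add, eval_add]
  | monomial n f =>
    induction f using Polynomial.induction_on' with
    | add f g hf hg =>
      rw [map_add, map_add, Polynomial.map_add, eval_add, hf, hg, Polynomial.map_add, eval_add]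
    | monomial m r =>
      rw [Bivariate.swap_monomial_monomial]
      simp only [map_monomial, eval_monomial, coe_evalRingHom]
      ring

lemma infinite_transc : {x : ℂ | ¬ IsAlgebraic ℤ x}.Infinite := by
  intro h
  have h1 : (Set.univ : Set ℂ).Countable := by
    have h2 : (Set.univ : Set ℂ) = {x : ℂ | IsAlgebraic ℤ x} ∪ {x : ℂ | ¬ IsAlgebraic ℤ x} := by
      ext x
      simp only [Set.mem_univ, Set.mem_union, Set.mem_ofPred_eq, true_iff]
      exact em _
    rw [h2]
    exact (Algebraic.countable ℤ ℂ).union h.countable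
  exact not_countable_complex h1

lemma eq_of_transc {F G : ℂ[X][X]} (h : ∀ x : ℂ, ¬ IsAlgebraic ℤ x →
    F.map (evalRingHom x) = G.map (evalRingHom x)) : F = G := by
  ext j : 1
  apply Polynomial.eq_of_infinite_eval_eq
  refine infinite_transc.mono fun x hx => ?_
  have h1 := congrArg (fun P => Polynomial.coeff P j) (h x hx)
  simpa [coeff_map] using h1

/-- **the primitive modular polynomial of level `m > 1` is symmetric** -/
theorem FF_swap (hm1 : 1 < m) : Bivariate.swap (FF m) = FF m := by
  set P := FF m with hP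
  set S := Bivariate.swap P with hS
  set N := (TP m).card with hN
  set c := S.coeff N with hc
  have key : S = C c * P := by
    apply eq_of_transc
    intro x hx
    obtain ⟨τ, rfl⟩ := jInv_surjective x
    have hdvd : P.map (evalRingHom (jInv τ)) ∣ S.map (evalRingHom (jInv τ)) := by
      rw [hP, FF_prod]
      apply Finset.prod_dvd_of_coprime
      · intro o _ o' _ hoo
        apply isCoprime_X_sub_C_of_isUnit_sub
        rw [isUnit_iff_ne_zero, sub_ne_zero]
        intro h
        exact hoo (orb_inj hx h)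
      · intro o ho
        rw [dvd_iff_isRoot, IsRoot, hS, swap_eval]
        apply FF_symm
        rw [FF_zero_iff]
        exact ⟨U m o, TP_prim m ho, rfl⟩
    obtain ⟨Q, hQ⟩ := hdvd
    have hdS : (S.map (evalRingHom (jInv τ))).natDegree ≤ N := by
      rw [natDegree_le_iff_coeff_eq_zero]
      intro j hj
      rw [coeff_map, hS]
      have h1 : (Bivariate.swap P).coeff j = 0 := by
        ext i
        rw [coeff_swap, coeff_zero]
        exact coeff_eq_zero_of_natDegree_lt ((FF_coeff_natDegree m i).trans_lt hj)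
      rw [h1, map_zero]
    have hPm : (P.map (evalRingHom (jInv τ))).Monic := (FF_monic m).map _
    have hPd : (P.map (evalRingHom (jInv τ))).natDegree = N := by
      rw [(FF_monic m).natDegree_map, FF_natDegree]
    have hQ0 : Q.natDegree = 0 := by
      rcases eq_or_ne Q 0 with h0 | h0
      · rw [h0, natDegree_zero]
      · have h1 := congrArg natDegree hQ
        rw [hPm.natDegree_mul' h0, hPd] at h1
        omega
    obtain ⟨q, rfl⟩ : ∃ q, Q = C q := ⟨_, eq_C_of_natDegree_eq_zero hQ0⟩
    have hq : q = c.eval (jInv τ) := by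
      have h1 := congrArg (fun R => Polynomial.coeff R N) hQ
      simp only [coeff_map, coeff_mul_C] at h1
      have h2 : (P.map (evalRingHom (jInv τ))).coeff N = 1 := by
        rw [← hPd]; exact hPm.coeff_natDegree
      rw [coeff_map] at h2
      rw [h2, one_mul] at h1
      rw [← h1, hc]
      rfl
    rw [hQ, Polynomial.map_mul, map_C, mul_comm, hq]
    rfl
  have hP0 : P ≠ 0 := (FF_monic m).ne_zero
  have h1 : P = (c.map C * C c) * P := by
    have h2 := congrArg Bivariate.swap key
    rw [hS, Bivariate.swap_swap_apply, map_mul, Bivariate.swap_C, ← hS] at h2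
    conv_lhs => rw [h2]
    rw [mul_assoc, ← key]
  have h2 : c.map C * C c = 1 := by
    apply mul_right_cancel₀ hP0
    rw [one_mul, ← h1]
  have h3 : IsUnit c := by
    have : IsUnit (C c : ℂ[X][X]) := IsUnit.of_mul_eq_one _ (by rw [mul_comm]; exact h2)
    exact isUnit_C.1 this
  obtain ⟨c0, hc0⟩ : ∃ c0 : ℂ, c = C c0 := by
    obtain ⟨r, _, hr⟩ := Polynomial.isUnit_iff.1 h3
    exact ⟨r, hr.symm⟩
  obtain ⟨x, hx⟩ := infinite_transc.nonempty
  obtain ⟨τ, rfl⟩ := jInv_surjective x
  have h4 := swap_eval P (jInv τ) (jInv τ)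
  rw [← hS, key, hc0, Polynomial.map_mul, map_C, eval_mul, eval_C] at h4
  have h5 : (P.map (evalRingHom (jInv τ))).eval (jInv τ) ≠ 0 := by
    intro h
    obtain ⟨A, hA, hAx⟩ := (FF_zero_iff m τ _).1 h
    exact not_self hm1 hx A hA hAx
  have h6 : c0 = 1 := by
    have h7 : (evalRingHom (jInv τ)) (C c0) = c0 := by simp
    rw [h7] at h4
    exact mul_right_cancel₀ h5 (by rw [h4, one_mul])
  rw [key, hc0, h6, C_1, C_1, one_mul]

/-- **symmetry** -/
theorem FF_Sy (hm1 : 1 < m) : Sy (FF m) := Sy.of_swap (FF_swap m hm1)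

end poly

end Pool.Agent.II
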