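import Pool.Agent.II.Curve79
import Pool.Agent.Helper36.DL.Affine

/-! # Integral images: vectors of multipliers, and residue classes modulo a prime power -/

open UpperHalfPlane Finset MvPolynomial Pool.Agent.Helper11.ZP Pool.Agent.Helper11.ZU Pool.Agent.Helper20.ZT
  Pool.Agent.Helper20.ZT.Prim Pool.Agent.Helper20.ZD Pool.Agent.Helper20.ZD.Local

namespace Pool.Agent.II

variable {n : ℕ}

/-- the image of `Z` under `z_i ↦ l_i z_i + a_i` -/
def affImage (l a : Fin n → ℤ) (Z : Set (Fin n → ℂ)) : Set (Fin n → ℂ) :=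
  {x | ∃ z ∈ Z, ∀ i, x i = (l i : ℂ) * z i + (a i : ℂ)}

section
variable {v : AbsoluteValue ℂ ℝ} {p : ℕ}

lemma v_le_of_dvd79 (hv : IsNonarchimedean v) {z : ℤ} {k : ℕ} (h : ((p ^ k : ℕ) : ℤ) ∣ z) :
    v (z : ℂ) ≤ v (p : ℂ) ^ k := by
  obtain ⟨m, rfl⟩ := h
  push_cast
  rw [map_mul, map_pow]
  have h5 : v (m : ℂ) ≤ 1 := hv.apply_intCast_le_one
  calc v (p : ℂ) ^ k * v (m : ℂ) ≤ v (p : ℂ) ^ k * 1 :=
        mul_le_mul_of_nonneg_left h5 (pow_nonneg (v.nonneg _) _)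
    _ = v (p : ℂ) ^ k := mul_one _

lemma dvd_of_v_le79 (hv : IsNonarchimedean v) (hp : p.Prime) (hvp : v (p : ℂ) < 1) {z : ℤ} {k : ℕ}
    (h : v (z : ℂ) ≤ v (p : ℂ) ^ k) : ((p ^ k : ℕ) : ℤ) ∣ z := by
  have := Fact.mk hp
  by_cases hz : z = 0
  · rw [hz]; exact dvd_zero _
  have hp0 : 0 < v (p : ℂ) := v.pos (by exact_mod_cast hp.ne_zero)
  have h1 := Pool.Agent.Helper36.DL.v_rat_zpow hv hp hvp (q := (z : ℚ)) (by exact_mod_cast hz)
  rw [padicValRat.of_int, zpow_natCast] at h1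
  have h2 : (((z : ℚ)) : ℂ) = (z : ℂ) := by push_cast; rfl
  rw [h2] at h1
  rw [h1] at h
  have h3 : k ≤ padicValInt p z := by
    by_contra hcon
    push Not at hcon
    exact absurd h (not_le.2 (pow_lt_pow_right_of_lt_one₀ hp0 hvp hcon))
  push_cast
  exact (pow_dvd_pow _ h3).trans (padicValInt_dvd z)

end

open Classical in
/-- **the local statement for all members**: the residue disks of radius `v(p) ^ k` -/
theorem members_vec {d : ℕ} {Z : Set (Fin n → ℂ)} (hZ : GenPos d Z) :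
    ∃ (M : ℕ) (C : ℝ), 0 < M ∧ 0 ≤ C ∧ ∀ p : ℕ, p.Prime → ¬ p ∣ M →
      ∃ (v : AbsoluteValue ℂ ℝ) (bad : Finset (Fin n → ZMod p)) (E : Finset ℂ),
        IsNonarchimedean v ∧ v (p : ℂ) < 1 ∧
        (bad.card : ℝ) ≤ C * (p : ℝ) ^ ((n : ℝ) - 1 / 6) ∧ (∀ c ∈ E, IsSpecialPoint c) ∧
        ∀ (k : ℕ) (l a : Fin n → ℤ), 1 ≤ k → (∀ i, ((p ^ k : ℕ) : ℤ) ∣ l i) →
          (fun i => (a i : ZMod p)) ∉ bad →
          ∃ D : Fin n → ℤ, Sep (fun i => {x : ℂ | v (x - a i) ≤ v (p : ℂ) ^ k}) D ∧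
            (∀ i c, v (c - a i) ≤ v (p : ℂ) ^ k → IsSpecialPoint c → c ∈ E) ∧
            AtMostC d (fun i => {x : ℂ | v (x - a i) ≤ v (p : ℂ) ^ k}) (affImage l a Z) := by
  obtain ⟨M, hM, hv⟩ := genPos_absv hZ
  obtain ⟨C, hC⟩ := bad_classes n
  refine ⟨6 * M, max C 0, by positivity, le_max_right _ _, fun p hp hpM => ?_⟩
  have hpM' : ¬ p ∣ M := fun h => hpM (h.mul_left 6)
  have h5 : 5 ≤ p := by
    by_contra hcon
    push Not at hcon
    apply hpM
    have h2 := hp.two_le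
    have h4 : p = 2 ∨ p = 3 ∨ p = 4 := by omega
    rcases h4 with rfl | rfl | rfl
    · exact ⟨3 * M, by ring⟩
    · exact ⟨2 * M, by ring⟩
    · exact absurd hp (by norm_num)
  obtain ⟨v, hv1, hvp, hvZ⟩ := hv p hp hpM'
  have hvp1 : v (p : ℂ) < 1 := by
    rw [hvp]
    exact inv_lt_one_of_one_lt₀ (by exact_mod_cast hp.one_lt)
  have hne : NeZero p := ⟨hp.ne_zero⟩
  have hfact := Fact.mk hp
  have hcen : ∀ r : ZMod p, ∃ t x₀, Center v p (r.val : ℤ) t x₀ := fun r =>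
    exists_center hv1 hp h5 hvp1 _
  choose t x₀ hcen using hcen
  obtain ⟨ρ, hρ1, hρp, hρx, hfin⟩ := exists_radius hv1 hp h5 hvp1 t x₀ hcen
  have hcard := hC v p hv1 hp hvp1 t fun r => ⟨x₀ r, hcen r⟩
  refine ⟨v, (univ : Finset (Fin n → ZMod p)).filter (BadClass62 t), hfin.toFinset, hv1, hvp1,
    hcard.trans (mul_le_mul_of_nonneg_right (le_max_left _ _) (Real.rpow_nonneg (Nat.cast_nonneg _) _)),
    fun c hc => (hfin.mem_toFinset.1 hc).1, fun k l a hk hl ha => ?_⟩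
  rw [mem_filter, not_and, BadClass62, not_not] at ha
  obtain ⟨h1, h2⟩ := ha (mem_univ _)
  set r : Fin n → ZMod p := fun i => (a i : ZMod p) with hr
  have hpk : v (p : ℂ) ^ k ≤ v (p : ℂ) := pow_le_of_le_one (v.nonneg _) hvp1.le (by omega)
  have hax : ∀ i, v ((a i : ℂ) - x₀ (r i)) ≤ ρ (r i) := by
    intro i
    have h3 : ((p ^ 1 : ℕ) : ℤ) ∣ a i - ((r i).val : ℤ) := by
      rw [pow_one, ← ZMod.intCast_zmod_eq_zero_iff_dvd]
      push_cast
      rw [ZMod.natCast_zmod_val, hr, sub_self]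
    have h4 : ((a i : ℤ) : ℂ) - x₀ (r i) = ((a i - ((r i).val : ℤ) : ℤ) : ℂ) + (((r i).val : ℤ) - x₀ (r i)) := by
      push_cast
      ring
    have h6 := v_le_of_dvd79 hv1 h3
    rw [pow_one] at h6
    rw [h4]
    exact (hv1 _ _).trans (max_le (h6.trans (hρp _)) (hρx _))
  have hsub : ∀ i, {x : ℂ | v (x - a i) ≤ v (p : ℂ) ^ k} ⊆ disk79 v (x₀ (r i)) (ρ (r i)) := by
    intro i x hx
    have h3 : x - x₀ (r i) = (x - a i) + ((a i : ℂ) - x₀ (r i)) := by ring
    change v (x - x₀ (r i)) ≤ ρ (r i)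
    rw [h3]
    exact (hv1 _ _).trans (max_le ((le_trans hx hpk).trans (hρp _)) (hax i))
  refine ⟨fun i => t (r i) ^ 2 - 4 * p, ?_, ?_, ?_⟩
  · exact (sep_disks hv1 hp h5 hvp1 (fun i => hcen (r i)) h1 h2 fun i => hρ1 _).mono hsub
  · intro i c hc hs
    exact hfin.mem_toFinset.2 ⟨hs, r i, h1 i, hsub i hc⟩
  · rintro x ⟨z, hz, hx⟩ T hT
    refine (card_le_card fun i hi => ?_).trans (hvZ z hz)
    rw [mem_filter]
    refine ⟨mem_univ _, ?_⟩
    by_contra hcon
    push Not at hcon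
    apply hT i hi
    change v (x i - a i) ≤ v (p : ℂ) ^ k
    rw [hx, add_sub_cancel_right, map_mul]
    calc v (l i : ℂ) * v (z i) ≤ v (l i : ℂ) * 1 := mul_le_mul_of_nonneg_left hcon (v.nonneg _)
      _ = v (l i : ℂ) := mul_one _
      _ ≤ v (p : ℂ) ^ k := v_le_of_dvd79 hv1 (hl i)

/-! ### Counting -/

lemma card_preimage79 {G H : Type*} [AddCommGroup G] [Fintype G] [AddCommGroup H] [Fintype H]
    (f : G →+ H) (hf : Function.Surjective f) (B : Finset H) (P : G → Prop) [DecidablePred P]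
    (hP : ∀ g, P g ↔ f g ∈ B) :
    (univ.filter P).card * Fintype.card H = B.card * Fintype.card G := by
  classical
  have hN : ∀ h : H, (univ.filter (fun g => f g = h)).card = (univ.filter (fun g => f g = 0)).card :=
    fun h => AddMonoidHom.card_fiber_eq_of_mem_range f (hf h) (hf 0)
  have h1 : (univ.filter P).card = ∑ h ∈ B, (univ.filter (fun g => f g = h)).card := by
    rw [Finset.card_eq_sum_card_fiberwise (f := f) (s := univ.filter P) (t := B)
      (fun g hg => (hP g).1 (mem_filter.1 hg).2)]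
    refine sum_congr rfl fun h hh => ?_
    congr 1
    ext g
    simp only [mem_filter, mem_univ, true_and]
    constructor
    · rintro ⟨-, h2⟩
      exact h2
    · rintro rfl
      exact ⟨(hP g).2 hh, rfl⟩
  have h2 : Fintype.card G = ∑ h : H, (univ.filter (fun g => f g = h)).card := by
    rw [← card_univ, card_eq_sum_card_fiberwise (f := f) (s := (univ : Finset G)) (t := univ)
      (fun _ _ => mem_coe.2 (mem_univ _))]
  rw [h1, h2, sum_congr rfl fun h _ => hN h, sum_congr rfl fun h _ => hN h, sum_const, sum_const, card_univ,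
    smul_eq_mul, smul_eq_mul]
  ring

open Classical in
/-- the classes modulo `p ^ k` over the classes modulo `p` -/
lemma card_lift79 {p k : ℕ} (hk : 1 ≤ k) [NeZero (p ^ k)] [NeZero p] (B : Finset (Fin n → ZMod p)) :
    ((univ.filter (fun r : Fin n → ZMod (p ^ k) =>
      (fun i => ZMod.castHom (dvd_pow_self p (by omega : k ≠ 0)) (ZMod p) (r i)) ∈ B)).card : ℝ) * (p : ℝ) ^ n =
      B.card * ((p : ℝ) ^ k) ^ n := by
  set φ := ZMod.castHom (dvd_pow_self p (by omega : k ≠ 0)) (ZMod p) with hφ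
  have h1 := card_preimage79 (φ.toAddMonoidHom.compLeft (Fin n)) (fun s => by
    choose r hr using fun i => ZMod.castHom_surjective (dvd_pow_self p (by omega : k ≠ 0)) (s i)
    exact ⟨r, funext hr⟩) B (fun r => (fun i => φ (r i)) ∈ B) (fun _ => Iff.rfl)
  rw [Fintype.card_fun, Fintype.card_fun, ZMod.card, ZMod.card, Fintype.card_fin] at h1
  have h2 := congrArg (Nat.cast : ℕ → ℝ) h1
  push_cast at h2
  exact h2

open Classical in
/-- the classes with one coordinate in a given set -/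
lemma card_coord79 {q : ℕ} [NeZero q] (B : Finset (ZMod q)) (i : Fin n) :
    ((univ.filter (fun r : Fin n → ZMod q => r i ∈ B)).card : ℝ) * q = B.card * (q : ℝ) ^ n := by
  have h1 := card_preimage79 (Pi.evalAddMonoidHom (fun _ : Fin n => ZMod q) i)
    (fun s => ⟨fun _ => s, rfl⟩) B (fun r => r i ∈ B) (fun _ => Iff.rfl)
  rw [Fintype.card_fun, ZMod.card, Fintype.card_fin] at h1
  have h2 := congrArg (Nat.cast : ℕ → ℝ) h1
  push_cast at h2
  exact h2

end Pool.Agent.II
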